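import Pool.Agent.H33.SHE.Sub

/-!
# The inverse substitution of the sheared zoom

`yph`: the point of the sheared zoom as a function of the point of the family. `ypo j Q`: the label
`Q` of the coordinate `j` of the zoom as a label of the coordinate `j` of the family. `ypo_pos`: the
distance of the coordinate from the label. `yph_near`: the point of the zoom for the own point.
-/

set_option autoImplicit false

namespace Pool.SHE33

open Finset Real MvPolynomial
open Pool.Agent.H49.Ent Pool.Agent.H32.Dense Pool.STK Pool.KA Pool.KSAT Pool.K2S Pool.PB Pool.S6C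
open Pool.GEN Pool.ZCL Pool.TOP Pool.ZLC

variable {m J : ℕ}

section

variable (W M : ℕ) (p q : Fin m) (τ c : ℝ) (cl vl : Fin m → ℝ)

/-- The time in the box. -/
noncomputable def yt : MvPolynomial (Option (Fin m)) ℝ :=
  MvPolynomial.C (2 ^ W) * X none - MvPolynomial.C τ

theorem eval_yt (b : Option (Fin m) → ℝ) : eval b (yt (m := m) W τ) = 2 ^ W * b none - τ := by
  unfold yt
  rw [map_sub, map_mul, eval_C, eval_C, eval_X]

theorem deg_yt : (yt (m := m) W τ).totalDegree ≤ 1 := by
  unfold yt
  refine (totalDegree_sub _ _).trans (max_le ?_ ?_)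
  · refine (totalDegree_mul _ _).trans ?_
    rw [totalDegree_C, totalDegree_X]
  · rw [totalDegree_C]
    exact Nat.zero_le _

/-- The sheared coordinate. -/
noncomputable def yc (j : Fin m) : MvPolynomial (Option (Fin m)) ℝ :=
  X (some j) - if j = q then MvPolynomial.C c * X (some p) else 0

theorem eval_yc (b : Option (Fin m) → ℝ) (j : Fin m) :
    eval b (yc p q c j) = b (some j) - if j = q then c * b (some p) else 0 := by
  unfold yc
  rw [map_sub, eval_X]
  split_ifs
  · rw [map_mul, eval_C, eval_X]
  · rw [map_zero]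

theorem deg_yc (j : Fin m) : (yc p q c j).totalDegree ≤ 1 := by
  unfold yc
  refine (totalDegree_sub _ _).trans (max_le ?_ ?_)
  · rw [totalDegree_X]
  · split_ifs
    · refine (totalDegree_mul _ _).trans ?_
      rw [totalDegree_C, totalDegree_X]
    · rw [totalDegree_zero]
      exact Nat.zero_le _

/-- The point of the zoom as polynomials. -/
noncomputable def ysv : Option (Fin m) → MvPolynomial (Option (Fin m)) ℝ
  | none => yt W τ
  | some j => MvPolynomial.C (2 ^ W / 2 ^ msc q M j) * yc p q c j -
      (MvPolynomial.C (cl j) + MvPolynomial.C (vl j) * yt W τ)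

/-- The point of the zoom. -/
noncomputable def yph (b : Option (Fin m) → ℝ) : Option (Fin m) → ℝ
  | none => 2 ^ W * b none - τ
  | some j => 2 ^ W / 2 ^ msc q M j * (b (some j) - if j = q then c * b (some p) else 0) -
      (cl j + vl j * (2 ^ W * b none - τ))

theorem eval_ysv (b : Option (Fin m) → ℝ) (o : Option (Fin m)) :
    eval b (ysv W M p q τ c cl vl o) = yph W M p q τ c cl vl b o := by
  rcases o with _ | j
  · unfold ysv yph
    exact eval_yt W τ b
  · unfold ysv yph
    simp only
    rw [map_sub, map_mul, eval_C, eval_yc, map_add, map_mul, eval_C, eval_C, eval_yt]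

theorem deg_ysv (o : Option (Fin m)) : (ysv W M p q τ c cl vl o).totalDegree ≤ 1 := by
  rcases o with _ | j
  · exact deg_yt W τ
  · unfold ysv
    simp only
    refine (totalDegree_sub _ _).trans (max_le ?_ ?_)
    · refine (totalDegree_mul _ _).trans ?_
      rw [totalDegree_C, zero_add]
      exact deg_yc p q c j
    · refine (totalDegree_add _ _).trans (max_le ?_ ?_)
      · rw [totalDegree_C]
        exact Nat.zero_le _
      · refine (totalDegree_mul _ _).trans ?_
        rw [totalDegree_C, zero_add]
        exact deg_yt W τ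

/-- **The label of the coordinate `j` of the family.** -/
noncomputable def ypo (j : Fin m) (Q : MvPolynomial (Option (Fin m)) ℝ) :
    MvPolynomial (Option (Fin m)) ℝ :=
  MvPolynomial.C (2 ^ msc q M j / 2 ^ W) * (aeval (ysv W M p q τ c cl vl) Q +
    (MvPolynomial.C (cl j) + MvPolynomial.C (vl j) * yt W τ)) +
    if j = q then MvPolynomial.C c * X (some p) else 0

theorem eval_ypo (j : Fin m) (Q : MvPolynomial (Option (Fin m)) ℝ) (b : Option (Fin m) → ℝ) :
    eval b (ypo W M p q τ c cl vl j Q) = 2 ^ msc q M j / 2 ^ W *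
      (eval (yph W M p q τ c cl vl b) Q + (cl j + vl j * (2 ^ W * b none - τ))) +
      if j = q then c * b (some p) else 0 := by
  unfold ypo
  have e1 : (fun o => eval b (ysv W M p q τ c cl vl o)) = yph W M p q τ c cl vl b := by
    funext o
    exact eval_ysv W M p q τ c cl vl b o
  rw [map_add, map_mul, map_add, eval_C, eval_aevalσ, map_add, map_mul, eval_C, eval_C, eval_yt,
    e1]
  congr 1
  split_ifs
  · rw [map_mul, eval_C, eval_X]
  · rw [map_zero]

theorem deg_ypo {K : ℕ} (j : Fin m) {Q : MvPolynomial (Option (Fin m)) ℝ}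
    (hQ : Q.totalDegree ≤ K) : (ypo W M p q τ c cl vl j Q).totalDegree ≤ max K 1 := by
  unfold ypo
  refine (totalDegree_add _ _).trans (max_le ?_ ?_)
  · refine (totalDegree_mul _ _).trans ?_
    rw [totalDegree_C, zero_add]
    refine (totalDegree_add _ _).trans (max_le ?_ ?_)
    · have h1 := totalDegree_aevalσ (g := ysv W M p q τ c cl vl) (deg_ysv W M p q τ c cl vl) hQ
      have := le_max_left K 1
      omega
    · refine (totalDegree_add _ _).trans (max_le ?_ ?_)
      · rw [totalDegree_C]
        exact Nat.zero_le _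
      · refine (totalDegree_mul _ _).trans ?_
        rw [totalDegree_C, zero_add]
        exact (deg_yt W τ).trans (le_max_right _ _)
  · split_ifs
    · refine (totalDegree_mul _ _).trans ?_
      rw [totalDegree_C, totalDegree_X]
      exact le_max_right _ _
    · rw [totalDegree_zero]
      exact Nat.zero_le _

/-- **The distance of the coordinate from the label.** -/
theorem ypo_pos (j : Fin m) (Q : MvPolynomial (Option (Fin m)) ℝ) (b : Option (Fin m) → ℝ) :
    b (some j) - eval b (ypo W M p q τ c cl vl j Q) = 2 ^ msc q M j / 2 ^ W *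
      (yph W M p q τ c cl vl b (some j) - eval (yph W M p q τ c cl vl b) Q) := by
  rw [eval_ypo]
  obtain ⟨E, hE⟩ : ∃ E, E = eval (yph W M p q τ c cl vl b) Q := ⟨_, rfl⟩
  rw [← hE]
  unfold yph
  simp only
  split_ifs <;> field_simp <;> ring

/-- The difference of two labels. -/
theorem ypo_sub (j : Fin m) (Q Q' : MvPolynomial (Option (Fin m)) ℝ)
    (b : Option (Fin m) → ℝ) :
    eval b (ypo W M p q τ c cl vl j Q) - eval b (ypo W M p q τ c cl vl j Q') =
      2 ^ msc q M j / 2 ^ W *
        (eval (yph W M p q τ c cl vl b) Q - eval (yph W M p q τ c cl vl b) Q') := by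
  rw [eval_ypo, eval_ypo]
  ring

/-- The label depends on the same coordinates. -/
theorem dep_ypo {ch : ℕ → Fin m} {i : ℕ} (hpq : ∀ l ≤ i, ch l = q → ∃ l' < l, ch l' = p)
    {Q : MvPolynomial (Option (Fin m)) ℝ} (hQ : DepC ch i Q) :
    DepC ch i (ypo W M p q τ c cl vl (ch i) Q) := by
  intro b b' h0 hb
  have hp : ∀ l ≤ i, ch l = q → b (some p) = b' (some p) := by
    intro l hl hlq
    obtain ⟨l', hl', h1⟩ := hpq l hl hlq
    rw [← h1]
    exact hb l' (by omega)
  have e1 : eval (yph W M p q τ c cl vl b) Q = eval (yph W M p q τ c cl vl b') Q := by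
    refine hQ _ _ ?_ fun l hl => ?_
    · unfold yph
      rw [h0]
    · unfold yph
      simp only
      rw [h0, hb l hl]
      by_cases h1 : ch l = q
      · rw [if_pos h1, if_pos h1, hp l hl.le h1]
      · rw [if_neg h1, if_neg h1]
  rw [eval_ypo, eval_ypo, e1, h0]
  by_cases h1 : ch i = q
  · rw [if_pos h1, if_pos h1, hp i le_rfl h1]
  · rw [if_neg h1, if_neg h1]

end

/-- **The own point.** -/
theorem yph_none {F : Fam m J} {W J' M : ℕ} (h : W + J' = J) {κ : Type} (C : Crd m κ)
    (g : F.Ω → κ) (p q : Fin m) (c : ℝ) (cl vl : Fin m → ℝ) (b : Option (Fin m) → ℝ) (ω : F.Ω) :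
    yph W M p q (F.T1 W ω) c cl vl b none =
      (zfc F W J' h.le C g id).t ω + 2 ^ W * (b none - F.t ω) := by
  rw [Pool.ZFW.zfc_t' F h C g id ω]
  unfold yph tb
  ring

/-- **The own point.** -/
theorem yph_near {F : Fam m J} {W J' : ℕ} (h : W + J' = J) {κ : Type}
    {cb : κ → Fin m → ℝ} {p q : Fin m} {hp : p ∉ ({q} : Finset (Fin m))} {M : Fin m → ℕ}
    (g : F.Ω → κ) (ω : F.Ω) (j : Fin m) :
    |yph W (M q) p q (F.T1 W ω) (clp (M q) (cb (g ω) q))
      (fun i => (F.bcl W (shC cb p {q} hp M) g ω i : ℝ))
      (fun i => (F.bvl (shC cb p {q} hp M) g ω i : ℝ)) (bt F ω) (some j) -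
        (zfc F W J' h.le (shC cb p {q} hp M) g id).x ω j| ≤ 3 / 2 ^ J' := by
  have h1 := zfc_x F h.le (shC cb p {q} hp M) g id ω j
  simp only [id_eq] at h1
  rw [abs_sub_comm]
  have e0 : yph W (M q) p q (F.T1 W ω) (clp (M q) (cb (g ω) q))
      (fun i => (F.bcl W (shC cb p {q} hp M) g ω i : ℝ))
      (fun i => (F.bvl (shC cb p {q} hp M) g ω i : ℝ)) (bt F ω) (some j) =
      2 ^ W * (shC cb p {q} hp M).L (g ω) (F.x ω) j - (F.bcl W (shC cb p {q} hp M) g ω j : ℝ) -
        tb F W ω * (F.bvl (shC cb p {q} hp M) g ω j : ℝ) := by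
    have e2 : bt F ω none = F.t ω := rfl
    have e3 : ∀ i, bt F ω (some i) = F.x ω i := fun _ => rfl
    by_cases hj : j = q
    · subst hj
      rw [shC_mem (Finset.mem_singleton_self j)]
      unfold yph msc tb
      simp only [if_true]
      rw [e2, e3, e3]
      ring
    · rw [shC_not (by rw [Finset.mem_singleton]; exact hj)]
      unfold yph msc tb
      simp only [if_neg hj]
      rw [e2, e3]
      ring
  rw [e0]
  exact h1

end Pool.SHE33
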