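import Pool.Agent.H33.SHE.Rep
import Pool.Agent.H82.ZC.Pnt

/-!
# A representative line in the zoom

`rep_zfc`: a relation between the own point and the own line of the family at the window `W + V` is,
on a large event, a relation between the own point and a line of the family which is a function of
the line of the zoom at the window `V`, if the point of the family is a function of the point of the
zoom and the time deficit is small.
-/

set_option autoImplicit false

namespace Pool.SHE33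

open Finset Real MvPolynomial
open Pool.Agent.H49.Ent Pool.Agent.H32.Dense Pool.STK Pool.KA Pool.KSAT Pool.K2S Pool.PB Pool.S6C
open Pool.GEN Pool.ZCL Pool.TOP Pool.ZLC Pool.ZFW

variable {m n J : ℕ} {κ : Type}

/-- **A representative line.** -/
theorem rep_zfc (F : Fam m J) {W J' V : ℕ} (h : W + J' = J) (hV : V ≤ J') (C : Crd m κ)
    (z' : LnT F → κ) (e : Fin n → Fin m) {B : F.Ω → Prop} (hB : 0 < Pe F.p B)
    (R : PtT F → LnT F → Prop) (hR : ∀ ω, B ω → R (ptr F J ω) (slam F (W + V) ω))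
    (hpt : ∀ ω ω', B ω → B ω' →
      ptr (zfc F W J' h.le C (fun ω => z' (slam F W ω)) e) J' ω =
        ptr (zfc F W J' h.le C (fun ω => z' (slam F W ω)) e) J' ω' → ptr F J ω = ptr F J ω')
    {b : ℝ} (hTm : ∀ hl : IsLaw (Pool.Agent.H49.Ent.cond F.p B True), (F.res B True hl).Tm b) :
    ∃ B₁ : F.Ω → Prop, Sub B₁ B ∧ Real.exp (-b) * Pe F.p B ≤ Pe F.p B₁ ∧
      ∃ v : LnT (zfc F W J' h.le C (fun ω => z' (slam F W ω)) e) → LnT F, ∀ ω, B₁ ω →
        R (ptr F J ω) (v (slam (zfc F W J' h.le C (fun ω => z' (slam F W ω)) e) V ω)) := by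
  classical
  obtain ⟨g, hg⟩ : ∃ g : F.Ω → κ, g = fun ω => z' (slam F W ω) := ⟨_, rfl⟩
  rw [← hg] at hpt ⊢
  have hq := isLaw_cond F.isLaw hB
  obtain ⟨q, hqd⟩ : ∃ q, q = Pool.Agent.H49.Ent.cond F.p B True := ⟨_, rfl⟩
  have hqB : ∀ ω, 0 < q ω → B ω := fun ω hω => by
    rw [hqd] at hω
    exact of_eq_true ((cond_pos_iff F.isLaw.nonneg B True ω).1 hω).2
  have hTm1 : (J : ℝ) * Real.log 2 - b ≤ CH q F.T (fun ω => (F.l ω, F.Z ω)) := by
    rw [hqd]
    exact hTm hq
  rw [← hqd] at hq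
  have hWV : W + V ≤ J := by omega
  -- the digits of the time
  have hT1W : ∀ ω, F.T1 (W + V) ω < 2 ^ (W + V) := by
    intro ω
    unfold Fam.T1
    rw [Nat.div_lt_iff_lt_mul (by positivity), ← pow_add]
    have h1 := F.tim ω
    have e1 : W + V + (J - (W + V)) = J := by omega
    rwa [e1]
  have hTr : ∀ ω, F.T ω ∈ Finset.Ico (F.T1 (W + V) ω * 2 ^ (J - (W + V)))
      ((F.T1 (W + V) ω + 1) * 2 ^ (J - (W + V))) := by
    intro ω
    rw [Finset.mem_Ico]
    unfold Fam.T1
    have p0 : 0 < 2 ^ (J - (W + V)) := by positivity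
    exact ⟨Nat.div_mul_le_self _ _, by
      rw [add_mul, one_mul]
      have := Nat.div_add_mod (F.T ω) (2 ^ (J - (W + V)))
      have h2 := Nat.mod_lt (F.T ω) p0
      rw [mul_comm] at this
      omega⟩
  have hT1s : ∀ ω, F.T1 (W + V) ω =
      2 ^ V * ((slam (zfc F W J' h.le C g e) V ω).2.1.1.1.1) +
        (slam (zfc F W J' h.le C g e) V ω).2.2 := by
    intro ω
    have c1 := Box.T1_box F hWV C g ω
    have e1 : (slam (zfc F W J' h.le C g e) V ω).2.2 = (F.box W C g).T1 V ω := by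
      change (F.T ω % 2 ^ (J - W)) / 2 ^ (J - W - J') / 2 ^ (J' - V) =
        (F.T ω % 2 ^ (J - W)) / 2 ^ (J - W - V)
      rw [Nat.div_div_eq_div_mul, ← pow_add]
      congr 2
      omega
    rw [c1, e1]
    rfl
  -- the point of the zoom is a function of the line of the zoom and of the time
  have hzp : ∀ ω ω' : F.Ω, slam (zfc F W J' h.le C g e) V ω = slam (zfc F W J' h.le C g e) V ω' →
      F.T ω = F.T ω' →
      ptr (zfc F W J' h.le C g e) J' ω = ptr (zfc F W J' h.le C g e) J' ω' := by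
    intro ω ω' a1 b2
    have a2 := Prod.ext_iff.1 a1
    have a3 := Prod.ext_iff.1 a2.2
    have c1 : (zfc F W J' h.le C g e).l ω = (zfc F W J' h.le C g e).l ω' := a2.1
    have c2 : (zfc F W J' h.le C g e).Z ω = (zfc F W J' h.le C g e).Z ω' := a3.1
    have c3 : (zfc F W J' h.le C g e).T ω = (zfc F W J' h.le C g e).T ω' := by
      rw [zfc_T F h C g e, zfc_T F h C g e, b2]
    have c4 : (zfc F W J' h.le C g e).u ω = (zfc F W J' h.le C g e).u ω' :=
      (Prod.ext_iff.1 c1).1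
    have c5 : (zfc F W J' h.le C g e).d ω = (zfc F W J' h.le C g e).d ω' :=
      (Prod.ext_iff.1 c1).2
    have c6 : (zfc F W J' h.le C g e).x ω = (zfc F W J' h.le C g e).x ω' := by
      funext i
      unfold Fam.x Fam.t
      rw [c3, c4, c5]
    refine Prod.ext ?_ (Prod.ext c3 c2)
    change (zfc F W J' h.le C g e).X J' ω = (zfc F W J' h.le C g e).X J' ω'
    unfold Fam.X
    rw [c6]
  obtain ⟨v, hv⟩ := pop_rep hq (fun ω => (F.T1 (W + V) ω, (F.l ω, F.Z ω)))
    (slam (zfc F W J' h.le C g e) V) F.T (by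
      intro ω ω' _ _ hh
      have a1 := Prod.ext_iff.1 hh
      have a2 := Prod.ext_iff.1 a1.2
      simp only at a1 a2
      have b5 : F.T1 W ω = F.T1 W ω' := by
        rw [T1_div F (w := W) (K := V) (by omega) ω, T1_div F (w := W) (K := V) (by omega) ω',
          a1.1]
      have b6 : slam F W ω = slam F W ω' := Prod.ext a2.1 (Prod.ext a2.2 b5)
      have b7 : g ω = g ω' := by
        rw [hg]
        simp only
        rw [b6]
      exact (zfc_det F h.le C g e hV a2.1 a1.1 b7 a2.2).1)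
    (fun x y f => ∃ ω, 0 < q ω ∧ slam (zfc F W J' h.le C g e) V ω = x ∧ F.T ω = y ∧
      R (ptr F J ω) (f.2.1, (f.2.2, f.1))) (fun ω hω => ⟨ω, hω, rfl, rfl, hR ω (hqB ω hω)⟩)
    (N := ((J : ℝ) - (W + V : ℕ)) * Real.log 2) (e := b) (by
      have h1 := CH_le_card hq.nonneg hq.sum_one F.T (slam (zfc F W J' h.le C g e) V)
        (fun s => Finset.Ico ((2 ^ V * s.2.1.1.1.1 + s.2.2) * 2 ^ (J - (W + V)))
          ((2 ^ V * s.2.1.1.1.1 + s.2.2 + 1) * 2 ^ (J - (W + V)))) (fun ω _ => by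
          rw [← hT1s ω]
          exact hTr ω)
      have e1 : ∀ a : ℕ, (a + 1) * 2 ^ (J - (W + V)) - a * 2 ^ (J - (W + V)) =
          2 ^ (J - (W + V)) := by
        intro a
        rw [add_mul, one_mul, Nat.add_sub_cancel_left]
      refine h1.trans (le_of_eq ((congrArg (Ex q) (funext fun ω => ?_)).trans
        (Ex_const hq.sum_one (((J : ℝ) - (W + V : ℕ)) * Real.log 2))))
      rw [Nat.card_Ico, e1, Nat.cast_pow, Nat.cast_ofNat, Real.log_pow, Nat.cast_sub hWV]) (by
      have h1 := CH_le_add hq.nonneg F.T (F.T1 (W + V)) (fun ω => (F.l ω, F.Z ω))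
      have h2 := CH_le_card hq.nonneg hq.sum_one (F.T1 (W + V)) (fun ω => (F.l ω, F.Z ω))
        (fun _ => Finset.range (2 ^ (W + V))) (fun ω _ => Finset.mem_range.2 (hT1W ω))
      rw [Ex_const hq.sum_one, Finset.card_range, Nat.cast_pow, Nat.cast_ofNat,
        Real.log_pow] at h2
      have e1 : ((J : ℝ) - (W + V : ℕ)) * Real.log 2 - b =
        ((J : ℝ) * Real.log 2 - b) - (W + V : ℕ) * Real.log 2 := by ring
      rw [e1]
      linarith)
  obtain ⟨D, hD⟩ : ∃ D : F.Ω → Prop, D = fun ω => ∃ ω', 0 < q ω' ∧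
      slam (zfc F W J' h.le C g e) V ω' = slam (zfc F W J' h.le C g e) V ω ∧ F.T ω' = F.T ω ∧
      R (ptr F J ω') ((v (slam (zfc F W J' h.le C g e) V ω)).2.1,
        ((v (slam (zfc F W J' h.le C g e) V ω)).2.2,
          (v (slam (zfc F W J' h.le C g e) V ω)).1)) := ⟨_, rfl⟩
  have hvD : Real.exp (-b) ≤ Pe q D := by
    rw [hD]
    exact hv
  refine ⟨fun ω => B ω ∧ D ω, fun ω hω => hω.1, ?_,
    fun s => ((v s).2.1, ((v s).2.2, (v s).1)), fun ω hω => ?_⟩
  · rw [hqd, Pe_cond, le_div_iff₀ hB] at hvD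
    exact hvD
  · obtain ⟨hBω, hDω⟩ := hω
    rw [hD] at hDω
    obtain ⟨ω', k1, k2, k3, k4⟩ := hDω
    rw [hpt ω' ω (hqB ω' k1) hBω (hzp ω' ω k2 k3)] at k4
    exact k4

end Pool.SHE33
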