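import Pool.Agent.H33.SHE.Sub
import Pool.Agent.H33.SHE.Repz
import Pool.Agent.H39.GEN.Psa
import Pool.Agent.H27.TOP.Lbt

/-!
# Chains of two-sided labels in the sheared zoom

`chn_fwd`: a chain of two-sided labels of the family is a chain of two-sided labels of the sheared
zoom, on a large event, if the direction of the shear comes before the sheared coordinate and the
labels are visible. The polynomials of the points are the own ones, the polynomials of the lines are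
those of a representative line.
-/

set_option autoImplicit false

namespace Pool.SHE33

open Finset Real MvPolynomial
open Pool.Agent.H49.Ent Pool.Agent.H32.Dense Pool.STK Pool.KA Pool.KSAT Pool.K2S Pool.PB Pool.S6C
open Pool.GEN Pool.ZCL Pool.TOP Pool.ZLC Pool.ZFW Pool.CHT

variable {m n J : ℕ} {κ : Type}

/-- The losses. -/
def lsq (N i : ℕ) : ℕ := N ^ (i + 1)

theorem lsq_mono {N : ℕ} (hN : 1 ≤ N) {i j : ℕ} (h : i ≤ j) : lsq N i ≤ lsq N j :=
  Nat.pow_le_pow_right hN (by omega)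

/-- **Chains in the sheared zoom.** -/
theorem chn_fwd (D r : ℕ) : ∃ C N : ℕ, 1 ≤ N ∧ (∀ i ≤ r, lsq N i ≤ C) ∧ ∀ {m J : ℕ} (F : Fam m J)
    {W J' V az : ℕ} (h : W + J' = J) (_ : V ≤ J') {κ : Type} {cb : κ → Fin m → ℝ} {p q : Fin m}
    {hp : p ∉ ({q} : Finset (Fin m))} {M : Fin m → ℕ} (z' : LnT F → κ) {n : ℕ} {ch : ℕ → Fin m}
    {e : ℕ} {g : ℕ → ℕ} {B : F.Ω → Prop} {G : PtT F → ℕ → MvPolynomial (Option (Fin m)) ℝ}
    {H : LnT F → ℕ → MvPolynomial (Option (Fin m)) ℝ}, n ≤ r → Set.InjOn ch (Set.Iio n) →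
    (∀ l < n, ch l = q → ∃ l' < l, ch l' = p) →
    ChOK F ch n (fun _ => D) (W + az) (W + V) e g B G H →
    (∀ i < n, e + C + M q + (Finset.Icc 0 i).sup g ≤ J) → (∀ i < n, W + lsq N i ≤ g i) →
    0 < Pe F.p B →
    (∀ ω ω', B ω → B ω' →
      ptr (zfc F W J' h.le (shC cb p {q} hp M) (fun ω => z' (slam F W ω)) id) J' ω =
        ptr (zfc F W J' h.le (shC cb p {q} hp M) (fun ω => z' (slam F W ω)) id) J' ω' →
      ptr F J ω = ptr F J ω') →
    ∀ {b : ℝ}, (∀ hl : IsLaw (Pool.Agent.H49.Ent.cond F.p B True), (F.res B True hl).Tm b) →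
    ∃ B₁ : F.Ω → Prop, Sub B₁ B ∧ Real.exp (-b) * Pe F.p B ≤ Pe F.p B₁ ∧ ∃ e' : ℕ,
      ChN (zfc F W J' h.le (shC cb p {q} hp M) (fun ω => z' (slam F W ω)) id) ch n
        (fun _ => max D 1) az V e' (fun i => g i + msc q (M q) (ch i) - (W + lsq N i)) B₁ := by
  classical
  obtain ⟨c₀, D₁, hD₁, hdil⟩ := nbx_dil r (fun _ => D)
  obtain ⟨C₁, hmv⟩ := Pool.PSI.nbx_mv D r
  obtain ⟨N, hN⟩ : ∃ N, N = c₀ + D₁ + 3 := ⟨_, rfl⟩
  have hN1 : 1 ≤ N := by omega
  refine ⟨C₁ + lsq N r + 3, N, hN1, fun i hi => (lsq_mono hN1 hi).trans (by omega), ?_⟩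
  intro m J F W J' V az h hV κ cb p q hp M z' n ch e g B G H hn hch hpq hL hvis hgW hB hpt b hTm
  obtain ⟨gz, hgz⟩ : ∃ gz : F.Ω → κ, gz = fun ω => z' (slam F W ω) := ⟨_, rfl⟩
  -- the representative lines
  obtain ⟨B₁, hB₁, hPB, v, hv⟩ := rep_zfc F h hV (shC cb p {q} hp M) z' id hB
    (fun y s => ∀ i < n, ∀ b : Option (Fin m) → ℝ, NBx ch (G y) g (W + az) ((y.2.1 : ℝ) / 2 ^ J) i b →
      |eval b (G y i) - eval b (H s i)| ≤ 1 / 2 ^ g i) (fun ω hω i hi b hb =>
      hL.agr ω hω i hi b hb) hpt hTm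
  -- the points
  obtain ⟨ψ, hψ⟩ := Pool.GEN.fac
    (f := ptr (zfc F W J' h.le (shC cb p {q} hp M) (fun ω => z' (slam F W ω)) id) J')
    (Y := ptr F J) (B := B) hpt
  rw [← hgz] at hv hψ ⊢
  obtain ⟨Z, hZ⟩ : ∃ Z, Z = zfc F W J' h.le (shC cb p {q} hp M) gz id := ⟨_, rfl⟩
  refine ⟨B₁, hB₁, hPB, ?_⟩
  -- the polynomials
  obtain ⟨tr, htr⟩ : ∃ tr : (((ℕ × κ) × ((Fin m → ℤ) × (Fin m → ℤ))) × F.ζ) → Fin m →
      MvPolynomial (Option (Fin m)) ℝ → MvPolynomial (Option (Fin m)) ℝ, tr = fun β j Q =>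
      zpo W (M q) p q (β.1.1.1 : ℝ) (clp (M q) (cb β.1.1.2 q)) (fun i => (β.1.2.1 i : ℝ))
        (fun i => (β.1.2.2 i : ℝ)) j Q := ⟨_, rfl⟩
  obtain ⟨Gz, hGz⟩ : ∃ Gz : PtT (zfc F W J' h.le (shC cb p {q} hp M) gz id) → ℕ →
      MvPolynomial (Option (Fin m)) ℝ, Gz = fun y i => if i < n then
        tr y.2.2 (ch i) (match ψ y with | none => 0 | some y' => G y' i) else 0 := ⟨_, rfl⟩
  obtain ⟨Hz, hHz⟩ : ∃ Hz : LnT (zfc F W J' h.le (shC cb p {q} hp M) gz id) → ℕ →
      MvPolynomial (Option (Fin m)) ℝ, Hz = fun s i => if i < n then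
        tr s.2.1 (ch i) (H (v s) i) else 0 := ⟨_, rfl⟩
  have hdegt : ∀ β j (Q : MvPolynomial (Option (Fin m)) ℝ), Q.totalDegree ≤ D →
      (tr β j Q).totalDegree ≤ max D 1 := by
    intro β j Q hQ
    rw [htr]
    exact deg_zpo _ _ _ _ _ _ _ _ _ hQ
  have hdept : ∀ β i, i < n → ∀ Q : MvPolynomial (Option (Fin m)) ℝ, DepC ch i Q →
      DepC ch i (tr β (ch i) Q) := by
    intro β i hi Q hQ
    rw [htr]
    exact dep_zpo _ _ _ _ _ _ _ _ (fun l hl hlq => hpq l (hl.trans_lt hi) hlq) hQ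
  have hd0 : ∀ i : ℕ, DepC ch i (0 : MvPolynomial (Option (Fin m)) ℝ) := by
    intro i b b' _ _
    rw [map_zero, map_zero]
  have hdegG : ∀ y i, (Gz y i).totalDegree ≤ max D 1 := by
    intro y i
    rw [hGz]
    simp only
    split_ifs
    · refine hdegt _ _ _ ?_
      rcases ψ y with _ | y'
      · rw [totalDegree_zero]
        exact Nat.zero_le _
      · exact hL.degG y' i
    · rw [totalDegree_zero]
      exact Nat.zero_le _
  have hdegH : ∀ s i, (Hz s i).totalDegree ≤ max D 1 := by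
    intro s i
    rw [hHz]
    simp only
    split_ifs
    · exact hdegt _ _ _ (hL.degH _ i)
    · rw [totalDegree_zero]
      exact Nat.zero_le _
  have hdepG : ∀ y i, DepC ch i (Gz y i) := by
    intro y i
    rw [hGz]
    simp only
    split_ifs with hi
    · refine hdept _ i hi _ ?_
      rcases ψ y with _ | y'
      · exact hd0 i
      · exact hL.depG y' i
    · exact hd0 i
  have hdepH : ∀ s i, DepC ch i (Hz s i) := by
    intro s i
    rw [hHz]
    simp only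
    split_ifs with hi
    · exact hdept _ i hi _ (hL.depH _ i)
    · exact hd0 i
  -- the own values
  have hGω : ∀ ω : F.Ω, B ω → ∀ i < n,
      Gz (ptr (zfc F W J' h.le (shC cb p {q} hp M) gz id) J' ω) i =
        tr (F.blab W (shC cb p {q} hp M) gz ω) (ch i) (G (ptr F J ω) i) := by
    intro ω hω i hi
    rw [hGz]
    simp only
    rw [if_pos hi, hψ ω hω]
    rfl
  have hHω : ∀ ω : F.Ω, ∀ i < n,
      Hz (slam (zfc F W J' h.le (shC cb p {q} hp M) gz id) V ω) i =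
        tr (F.blab W (shC cb p {q} hp M) gz ω) (ch i)
          (H (v (slam (zfc F W J' h.le (shC cb p {q} hp M) gz id) V ω)) i) := by
    intro ω i hi
    rw [hHz]
    simp only
    rw [if_pos hi]
    rfl
  -- the point of the family
  obtain ⟨φ, hφ⟩ : ∃ φ : F.Ω → (Option (Fin m) → ℝ) → Option (Fin m) → ℝ, φ = fun ω =>
      zph W (M q) p q (F.T1 W ω) (clp (M q) (cb (gz ω) q))
        (fun i => (F.bcl W (shC cb p {q} hp M) gz ω i : ℝ))
        (fun i => (F.bvl (shC cb p {q} hp M) gz ω i : ℝ)) := ⟨_, rfl⟩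
  have htrpos : ∀ (ω : F.Ω) (i : ℕ) (Q : MvPolynomial (Option (Fin m)) ℝ)
      (b : Option (Fin m) → ℝ), b (some (ch i)) -
        eval b (tr (F.blab W (shC cb p {q} hp M) gz ω) (ch i) Q) =
      2 ^ W / 2 ^ msc q (M q) (ch i) * (φ ω b (some (ch i)) - eval (φ ω b) Q) := by
    intro ω i Q b
    rw [htr, hφ]
    exact zpo_pos _ _ _ _ _ _ _ _ _ _ _
  have htrsub : ∀ (ω : F.Ω) (i : ℕ) (Q Q' : MvPolynomial (Option (Fin m)) ℝ)
      (b : Option (Fin m) → ℝ), eval b (tr (F.blab W (shC cb p {q} hp M) gz ω) (ch i) Q) -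
        eval b (tr (F.blab W (shC cb p {q} hp M) gz ω) (ch i) Q') =
      2 ^ W / 2 ^ msc q (M q) (ch i) * (eval (φ ω b) Q - eval (φ ω b) Q') := by
    intro ω i Q Q' b
    rw [htr, hφ]
    exact zpo_sub _ _ _ _ _ _ _ _ _ _ _ _
  have hφn : ∀ (ω : F.Ω) (b : Option (Fin m) → ℝ), φ ω b none =
      F.t ω + (b none - (zfc F W J' h.le (shC cb p {q} hp M) gz id).t ω) / 2 ^ W := by
    intro ω b
    rw [hφ]
    exact zph_none h _ _ _ _ _ _ _ _ ω
  have hφx : ∀ (ω : F.Ω) (j : Fin m),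
      |φ ω (bt (zfc F W J' h.le (shC cb p {q} hp M) gz id) ω) (some j) - F.x ω j| ≤
        6 * 2 ^ M q / 2 ^ J := by
    intro ω j
    rw [hφ]
    exact zph_near h gz ω j
  -- the sides
  have hside : ∀ i < n, (2 : ℝ) ^ W / 2 ^ msc q (M q) (ch i) * (2 ^ lsq N i / 2 ^ g i) =
      1 / 2 ^ (g i + msc q (M q) (ch i) - (W + lsq N i)) := by
    intro i hi
    have h1 := hgW i hi
    have h2 : g i + msc q (M q) (ch i) =
        g i + msc q (M q) (ch i) - (W + lsq N i) + (W + lsq N i) := by omega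
    have h3 : (2 : ℝ) ^ g i * 2 ^ msc q (M q) (ch i) =
        2 ^ (g i + msc q (M q) (ch i) - (W + lsq N i)) * (2 ^ W * 2 ^ lsq N i) := by
      rw [← pow_add, ← pow_add 2 W, ← pow_add, ← h2]
    rw [div_mul_div_comm, div_eq_div_iff (by positivity) (by positivity), one_mul,
      mul_comm (2 ^ msc q (M q) (ch i)) (2 ^ g i), h3]
    ring
  have hl3 : ∀ i, (3 : ℝ) ≤ 2 ^ lsq N i := by
    intro i
    have h1 : 2 ≤ lsq N i := by
      unfold lsq
      calc 2 ≤ N := by omega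
        _ = N ^ 1 := (pow_one N).symm
        _ ≤ N ^ (i + 1) := Nat.pow_le_pow_right hN1 (by omega)
    calc (3 : ℝ) ≤ 2 ^ 2 := by norm_num
      _ ≤ 2 ^ lsq N i := pow_le_pow_right₀ one_le_two h1
  -- the box of the zoom
  have hbox : ∀ ω : F.Ω, B ω → ∀ i ≤ n, ∀ b : Option (Fin m) → ℝ,
      NBx ch (Gz (ptr (zfc F W J' h.le (shC cb p {q} hp M) gz id) J' ω))
        (fun i => g i + msc q (M q) (ch i) - (W + lsq N i)) az
        ((zfc F W J' h.le (shC cb p {q} hp M) gz id).t ω) i b →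
      |φ ω b none - F.t ω| ≤ 1 / 2 ^ (W + az) ∧ ∀ l < i,
        |φ ω b (some (ch l)) - eval (φ ω b) (G (ptr F J ω) l)| ≤ 2 ^ lsq N l / 2 ^ g l := by
    intro ω hω i hi b hb
    constructor
    · rw [hφn, add_sub_cancel_left, abs_div, abs_of_pos (by positivity : (0 : ℝ) < 2 ^ W),
        pow_add, div_le_div_iff₀ (by positivity) (by positivity)]
      have h1 := hb.1
      rw [le_div_iff₀ (by positivity)] at h1
      have h2 := mul_le_mul_of_nonneg_left h1 (by positivity : (0 : ℝ) ≤ 2 ^ W)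
      linarith
    · intro l hl
      have hln : l < n := hl.trans_le hi
      have h1 := hb.2 l hl
      rw [hGω ω hω l hln, htrpos ω l, abs_mul,
        abs_of_pos (by positivity : (0 : ℝ) < 2 ^ W / 2 ^ msc q (M q) (ch l)),
        ← hside l hln] at h1
      exact le_of_mul_le_mul_left h1 (by positivity)
  -- the growth
  have hgrow : ∀ i < n, c₀ + N ^ i * D₁ ≤ lsq N i := by
    intro i _
    unfold lsq
    have h1 : 1 ≤ N ^ i := Nat.one_le_pow _ _ hN1
    rw [pow_succ, hN]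
    rw [hN] at h1
    nlinarith
  have hlow : ∀ i, ∀ l < i, lsq N l ≤ N ^ i := by
    intro i l hl
    exact Nat.pow_le_pow_right hN1 (by omega)
  -- the gradients
  have hbd : ∀ x : F.Ω × (Fin n × Fin n), ∃ Mx : ℝ, ∀ b : Option (Fin m) → ℝ,
      NBx ch (Gz (ptr (zfc F W J' h.le (shC cb p {q} hp M) gz id) J' x.1))
        (fun i => g i + msc q (M q) (ch i) - (W + lsq N i)) az
        ((zfc F W J' h.le (shC cb p {q} hp M) gz id).t x.1) x.2.1 b →
      |eval b (pderiv (some (ch x.2.2))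
        (Gz (ptr (zfc F W J' h.le (shC cb p {q} hp M) gz id) J' x.1) x.2.1))| ≤ Mx := fun x =>
    Pool.RTS.eval_bdd (hdepG _) _ az _ x.2.1 ((hdepG _ _).pderiv _)
  choose Mx hMx using hbd
  obtain ⟨e', he'⟩ := two_pow_bd Mx
  have hPOS : ∀ ω : F.Ω, B₁ ω → ∀ i < n,
      |bt (zfc F W J' h.le (shC cb p {q} hp M) gz id) ω (some (ch i)) -
        eval (bt (zfc F W J' h.le (shC cb p {q} hp M) gz id) ω)
          (Gz (ptr (zfc F W J' h.le (shC cb p {q} hp M) gz id) J' ω) i)| ≤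
        1 / 2 ^ (g i + msc q (M q) (ch i) - (W + lsq N i)) := by
    intro ω hω i hi
    have hBω := hB₁ ω hω
    have hvi := hvis i hi
    have hgi : g i ≤ (Finset.Icc 0 i).sup g := Finset.le_sup (f := g)
      (Finset.mem_Icc.2 ⟨Nat.zero_le _, le_rfl⟩)
    have h6 : (6 : ℝ) * 2 ^ M q / 2 ^ J ≤ 1 / 2 ^ (J - M q - 3) := by
      have e1 : J = J - M q - 3 + (M q + 3) := by omega
      rw [div_le_div_iff₀ (by positivity) (by positivity), one_mul]
      calc (6 : ℝ) * 2 ^ M q * 2 ^ (J - M q - 3) ≤ 2 ^ 3 * 2 ^ M q * 2 ^ (J - M q - 3) := by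
            refine mul_le_mul_of_nonneg_right (mul_le_mul_of_nonneg_right (by norm_num)
              (by positivity)) (by positivity)
        _ = 2 ^ (J - M q - 3 + (M q + 3)) := by
            rw [pow_add 2 (J - M q - 3), pow_add]
            ring
        _ = 2 ^ J := by rw [← e1]
    have hb0 : φ ω (bt (zfc F W J' h.le (shC cb p {q} hp M) gz id) ω) none = bt F ω none := by
      rw [hφn]
      show F.t ω + ((zfc F W J' h.le (shC cb p {q} hp M) gz id).t ω -
        (zfc F W J' h.le (shC cb p {q} hp M) gz id).t ω) / 2 ^ W = F.t ω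
      rw [sub_self, zero_div, add_zero]
    have h7 := hmv (c := ch) (n := n) (G := G (ptr F J ω)) (g := g) (δ := fun _ => J - M q - 3)
      (a := W + az) (e := e) (y := 0) (t := F.t ω) hn hch (hL.degG _) (hL.depG _)
      (fun i hi b hb l hl => hL.lip ω hBω i hi b hb l hl)
      (fun i' hi' l hl => by
        have h8 := hvis i' hi'
        have h9 : (Finset.Icc l i').sup g ≤ (Finset.Icc 0 i').sup g :=
          Finset.sup_mono (Finset.Icc_subset_Icc (Nat.zero_le _) le_rfl)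
        show e + C₁ * (0 + 1) + (Finset.Icc l i').sup g ≤ J - M q - 3
        omega) (bt F ω) (by
        change |F.t ω - F.t ω| ≤ _
        rw [sub_self, abs_zero]
        positivity) i hi (fun j hj => by
        rw [pow_zero]
        exact hL.pos ω hBω j (hj.trans hi))
      (φ ω (bt (zfc F W J' h.le (shC cb p {q} hp M) gz id) ω)) hb0 (fun j _ =>
        (hφx ω (ch j)).trans h6)
    have h8 := hL.pos ω hBω i hi
    have h9 := (hφx ω (ch i)).trans h6
    have h10 : (1 : ℝ) / 2 ^ (J - M q - 3) ≤ 1 / 2 ^ g i := inv_mono (by omega)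
    have h11 : |φ ω (bt (zfc F W J' h.le (shC cb p {q} hp M) gz id) ω) (some (ch i)) -
        eval (φ ω (bt (zfc F W J' h.le (shC cb p {q} hp M) gz id) ω)) (G (ptr F J ω) i)| ≤
        2 ^ lsq N i / 2 ^ g i := by
      have e1 : (3 : ℝ) / 2 ^ g i ≤ 2 ^ lsq N i / 2 ^ g i :=
        div_le_div_of_nonneg_right (hl3 i) (by positivity)
      have e2 : (3 : ℝ) / 2 ^ g i = 1 / 2 ^ g i + 1 / 2 ^ g i + 1 / 2 ^ g i := by ring
      rw [e2] at e1
      rw [abs_le] at h7 h8 h9 ⊢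
      constructor <;> linarith [h7.1, h7.2, h8.1, h8.2, h9.1, h9.2]
    rw [hGω ω hBω i hi, htrpos ω i (G (ptr F J ω) i)
      (bt (zfc F W J' h.le (shC cb p {q} hp M) gz id) ω), abs_mul, abs_of_pos (by positivity : (0 : ℝ) < 2 ^ W / 2 ^ msc q (M q) (ch i)),
      ← hside i hi]
    exact mul_le_mul_of_nonneg_left h11 (by positivity)
  have hAGR : ∀ ω : F.Ω, B₁ ω → ∀ i < n, ∀ b : Option (Fin m) → ℝ,
      NBx ch (Gz (ptr (zfc F W J' h.le (shC cb p {q} hp M) gz id) J' ω))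
        (fun i => g i + msc q (M q) (ch i) - (W + lsq N i)) az
        ((zfc F W J' h.le (shC cb p {q} hp M) gz id).t ω) i b →
      |eval b (Gz (ptr (zfc F W J' h.le (shC cb p {q} hp M) gz id) J' ω) i) -
        eval b (Hz (slam (zfc F W J' h.le (shC cb p {q} hp M) gz id) V ω) i)| ≤
        1 / 2 ^ (g i + msc q (M q) (ch i) - (W + lsq N i)) := by
    intro ω hω i hi b hb
    have hBω := hB₁ ω hω
    obtain ⟨h1, h2⟩ := hbox ω hBω i hi.le b hb
    rw [hGω ω hBω i hi, hHω ω i hi, htrsub, abs_mul,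
      abs_of_pos (by positivity : (0 : ℝ) < 2 ^ W / 2 ^ msc q (M q) (ch i)), ← hside i hi]
    refine mul_le_mul_of_nonneg_left ?_ (by positivity)
    obtain ⟨s₀, hs₀⟩ : ∃ s₀, s₀ =
      v (slam (zfc F W J' h.le (shC cb p {q} hp M) gz id) V ω) := ⟨_, rfl⟩
    rw [← hs₀]
    have h3 := hdil (c := ch) (i := i) (G := G (ptr F J ω))
      (Q := G (ptr F J ω) i - H s₀ i) (g := g) (a := W + az) (t := F.t ω)
      (M := 1 / 2 ^ g i) (N ^ i) (by omega) (hch.mono (Set.Iio_subset_Iio hi.le)) (hL.degG _)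
      (hL.depG _) (fun b b' hn hb => by
        rw [map_sub, map_sub, hL.depG _ i b b' hn hb, hL.depH _ i b b' hn hb])
      ((totalDegree_sub _ _).trans (max_le (hL.degG _ i) (hL.degH _ i))) (by positivity)
      (fun b hb => by
        rw [map_sub, hs₀]
        exact hv ω hω i hi b hb) (φ ω b) h1 (fun l hl => (h2 l hl).trans
          (div_le_div_of_nonneg_right (pow_le_pow_right₀ one_le_two (hlow i l hl))
            (by positivity)))
    rw [map_sub] at h3
    refine h3.trans ?_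
    rw [mul_one_div]
    exact div_le_div_of_nonneg_right (pow_le_pow_right₀ one_le_two (hgrow i hi)) (by positivity)
  refine ⟨e', Gz, Hz, hdegG, hdegH, hdepG, hdepH, hPOS, hAGR, fun ω hω i hi b hb l hl => ?_⟩
  refine (hMx (ω, (⟨i, hi⟩, ⟨l, hl.trans hi⟩)) b hb).trans ((he' _).trans ?_)
  exact pow_le_pow_right₀ one_le_two (Nat.le_add_right _ _)

end Pool.SHE33
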