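import Pool.Agent.H33.SHE.Chz
import Pool.Agent.H62.GEN.JatE

/-!
# The labels of the target in the sheared zooms, near a good window

`fac_zpr`: near a good window of an order, the sheared zooms of a class with its numbers have the
rescaled labels of the target at all windows near the diagonal, if the direction of the shear comes
before the sheared coordinate in the order.
-/

set_option autoImplicit false

namespace Pool.SHE33

open MeasureTheory Set Filter Topology
open Pool.Agent.H49.Ent Pool.Agent.H32.Dense Pool.STK Pool.KA Pool.KSAT Pool.K2S Pool.PB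
open Pool.GEN Pool.S6C Pool.STAT Pool.CHT Pool.GRW Pool.ONE Pool.STA Pool.PKG
open Pool.ZCL Pool.ZLC Pool.ZCO
open Pool.LBN (Tch cof cof_lt cof_ge)
open Pool.FRN (AttC)

variable {n : ℕ} {hn : 2 ≤ n} {S : PCl n} {P : ℝ → ℝ → ℝ} {r : ℝ → ℝ}
  {P' : ℕ → List (Fin n) × Fin n → ℝ → ℝ → ℝ} {Λ : Finset (Fin n) → Fin n → ℝ → ℝ → ℝ}
  {o : Od n} {g α Q c : ℝ}

/-- The list of the coordinates of an order. -/
theorem cof_cc (hn : 2 ≤ n) (σ : Equiv.Perm (Fin (n - 1))) (i : ℕ) :
    cc hn σ i = cof ((List.range (n - 1)).map (cc hn σ)) (lst hn) i := by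
  rcases Nat.lt_or_ge i (n - 1) with h | h
  · rw [cof_lt (by simpa using h), List.getElem_map, List.getElem_range]
  · rw [cof_ge (by simpa using h), cc_ge hn σ h]

/-- Good pairs between two pairs. -/
theorem att_btw {Att : Set (ℝ × ℝ)} (hA : Pool.STR.AttN Att) {a w ε : ℝ} (hwa : w ≤ a)
    (hw : 0 < w) (ha : a < 1) (hε : 0 < ε) :
    ∃ t, 0 < t ∧ t < ε ∧ a + t < 1 ∧ (a + t, w + t) ∈ Att := by
  obtain ⟨e, he⟩ : ∃ e, e = min ε (1 - a) := ⟨_, rfl⟩
  have he0 : 0 < e := by
    rw [he]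
    exact lt_min hε (by linarith)
  have h1 : ∃ t ∈ Set.Ioo (0 : ℝ) e, 0 < w + t → a + t < 1 → (a + t, w + t) ∈ Att := by
    by_contra hcon
    push Not at hcon
    have h2 := ae_iff.1 (hA a w hwa)
    have h3 : (volume (Set.Ioo (0 : ℝ) e)) ≤ 0 := by
      rw [← h2]
      refine measure_mono fun t ht => ?_
      obtain ⟨k1, k2, k3⟩ := hcon t ht
      exact fun h => k3 (h k1 k2)
    rw [Real.volume_Ioo, sub_zero, nonpos_iff_eq_zero, ENNReal.ofReal_eq_zero] at h3
    linarith
  obtain ⟨t, ht, h2⟩ := h1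
  have e1 : e ≤ ε := by rw [he]; exact min_le_left _ _
  have e2 : e ≤ 1 - a := by rw [he]; exact min_le_right _ _
  exact ⟨t, ht.1, ht.2.trans_le e1, by linarith [ht.2], h2 (by linarith [ht.1]) (by
    linarith [ht.2])⟩

/-- **Labels of the target in the sheared zooms**, near a good window. -/
theorem fac_zpr (F : Fac hn S P r P' o g α Q c) (H : Pk hn S P r P' Λ) {b : ℝ} (hb0 : 0 < b)
    (hbg : b < g) {p q : Fin n} {hu : p ∉ ({q} : Finset (Fin n))}
    (hpq : ∀ i < n, cc hn o.1.1 i = q → ∃ i' < i, cc hn o.1.1 i' = p) :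
    ∃ δ : ℝ, 0 < δ ∧ ∀ a w : ℝ, g - δ < w → w ≤ a → a < g + δ → ∀ az wz Pz : ℝ, wz ≤ az →
      az ≤ 1 → a < b + az * (1 - b) → w < b + wz * (1 - b) → 0 ≤ Pz →
      b + Pz * (1 - b) < P a w → ∃ K : ℕ, ∀ τ : ℝ, 0 < τ → ∃ x₀ : ℝ, 0 < x₀ ∧
        ∀ Ψ : ∀ (J : ℕ) (F : Fam n J) (_ : F.Ω → Prop), (F.Ω → ℝ) → Prop,
          ZPr S b (id : Fin n → Fin n) (ShX b hu x₀ Ψ) (fun J G A => ∃ B : G.Ω → Prop,
            Sub B A ∧ Real.exp (-(τ * J)) * Pe G.p A ≤ Pe G.p B ∧
            (tgs (lst hn)).T () K ⌊az * J⌋₊ ⌊wz * J⌋₊ ⌊Pz * J⌋₊ J G B) := by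
  classical
  obtain ⟨E, ρ₀, hE0, hρ₀, hE1, hJat⟩ := F.jatE H
  have hlow := F.jatE_pos H
  have g0 := F.g0
  have g1 := F.g1
  have hb1 : b < 1 := hbg.trans g1
  obtain ⟨L, hL⟩ : ∃ L : ℕ → ℝ → ℝ → ℝ, L = fun l => LL hn P P' o (l + 1) := ⟨_, rfl⟩
  have hLl : ∀ l ≤ n - 1, ContinuousAt (fun v => L l v v) g ∧ Pool.LEV.Law (L l) ∧
      ∀ a w : ℝ, 0 ≤ w → w ≤ a → a ≤ 1 → a ≤ L l a w := by
    intro l hl
    rw [hL]
    simp only
    rcases Nat.lt_or_ge l (n - 1) with h3 | h3
    · have e1 : LL hn P P' o (l + 1) = bet (P' o.2) (cc hn o.1.1) l := by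
        rw [LL_low (by omega) (by omega), Nat.add_sub_cancel]
      rw [e1]
      exact ⟨F.con _, (H.cht o.2).law _, fun a w h1 h2 h3 => (H.cht o.2).low _ a w h1 h2 h3⟩
    · have e2 : l = n - 1 := by omega
      subst e2
      rw [LL_lst]
      exact ⟨F.conP, H.tgs.law (), fun a w h1 h2 h3 => H.tgs.low () a w h1 h2 h3⟩
  -- the levels near `g`
  obtain ⟨δ₁, hδ₁, hlev⟩ : ∃ δ₁ : ℝ, 0 < δ₁ ∧ ∃ x : ℝ, 0 < x ∧ ∀ l ≤ n - 1, ∀ v, |v - g| < δ₁ →
      E + x + L l v v < 1 := by
    have h1 : ∃ x : ℝ, 0 < x ∧ ∀ l ≤ n - 1, E + x + L l g g < 1 := by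
      have hne : (Finset.range n).Nonempty := Finset.nonempty_range_iff.2 (by omega)
      refine ⟨(Finset.range n).inf' hne (fun l => (1 - (L l g g + E)) / 2), ?_, fun l hl => ?_⟩
      · rw [Finset.lt_inf'_iff]
        intro l hl
        rw [Finset.mem_range] at hl
        have := hE1 l (by omega)
        rw [hL]
        simp only
        linarith
      · have h2 := Finset.inf'_le (s := Finset.range n) (fun l => (1 - (L l g g + E)) / 2)
          (Finset.mem_range.2 (show l < n by omega))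
        have h3 : L l g g + E < 1 := by
          rw [hL]
          exact hE1 l hl
        linarith
    obtain ⟨x, hx, h2⟩ := h1
    have h3 : ∀ᶠ v in 𝓝 g, ∀ l ≤ n - 1, E + x + L l v v < 1 := by
      rw [show (∀ᶠ v in 𝓝 g, ∀ l ≤ n - 1, E + x + L l v v < 1) ↔
        ∀ᶠ v in 𝓝 g, ∀ l ∈ Finset.range n, E + x + L l v v < 1 from by
          refine eventually_congr (Eventually.of_forall fun v => ⟨fun h l hl => ?_,
            fun h l hl => ?_⟩)
          · rw [Finset.mem_range] at hl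
            exact h l (by omega)
          · exact h l (Finset.mem_range.2 (by omega))]
      rw [Filter.eventually_all_finset]
      intro l hl
      rw [Finset.mem_range] at hl
      have h4 : ContinuousAt (fun v => E + x + L l v v) g :=
        continuousAt_const.add (hLl l (by omega)).1
      exact h4.eventually (gt_mem_nhds (h2 l (by omega)))
    obtain ⟨δ₁, hδ₁, h4⟩ := Metric.eventually_nhds_iff.1 h3
    exact ⟨δ₁, hδ₁, x, hx, fun l hl v hv => h4 (by rwa [Real.dist_eq]) l hl⟩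
  obtain ⟨x, hx, hlev⟩ := hlev
  obtain ⟨δ, hδ⟩ : ∃ δ, δ = min (min (δ₁ / 2) (ρ₀ / 2)) (min ((g - b) / 2) ((1 - g) / 2)) :=
    ⟨_, rfl⟩
  have hδ0 : 0 < δ := by
    rw [hδ]
    exact lt_min (lt_min (by linarith) (by linarith)) (lt_min (by linarith) (by linarith))
  have d1 : δ ≤ δ₁ / 2 := by rw [hδ]; exact (min_le_left _ _).trans (min_le_left _ _)
  have d2 : δ ≤ ρ₀ / 2 := by rw [hδ]; exact (min_le_left _ _).trans (min_le_right _ _)
  have d3 : δ ≤ (g - b) / 2 := by rw [hδ]; exact (min_le_right _ _).trans (min_le_left _ _)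
  have d4 : δ ≤ (1 - g) / 2 := by rw [hδ]; exact (min_le_right _ _).trans (min_le_right _ _)
  refine ⟨δ, hδ0, fun a w hw hwa ha az wz Pz hwz haz hza hzw hPz hPzP => ?_⟩
  have hn1 : ∀ l : ℕ, l < n ↔ l ≤ n - 1 := fun l => by omega
  -- a good pair
  obtain ⟨t, ht0, ht1, ht2, htA⟩ := att_btw (H.attN o) hwa (by linarith) (show a < 1 by linarith)
    (ε := min (min (b + az * (1 - b) - a) (b + wz * (1 - b) - w)) (g + δ - a))
    (lt_min (lt_min (by linarith) (by linarith)) (by linarith))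
  have t1 := ht1.trans_le ((min_le_left _ _).trans (min_le_left _ _))
  have t2 := ht1.trans_le ((min_le_left _ _).trans (min_le_right _ _))
  have t3 := ht1.trans_le (min_le_right _ _)
  have hPt : P a w ≤ P (a + t) (w + t) := (H.tgs.law ()).mono (by linarith) hwa (by linarith)
    (by linarith) (by linarith) (by linarith)
  -- the joint chain
  obtain ⟨ρ', hρ', hJ⟩ := hJat ρ₀ le_rfl 1 one_pos
  obtain ⟨φ, hφ⟩ : ∃ φ, φ = min ((a + t - b) / 2) ((P a w - (b + Pz * (1 - b))) / 2) := ⟨_, rfl⟩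
  have hφ0 : 0 < φ := by
    rw [hφ]
    exact lt_min (by linarith) (by linarith)
  have f1 : φ ≤ (a + t - b) / 2 := by rw [hφ]; exact min_le_left _ _
  have f2 : φ ≤ (P a w - (b + Pz * (1 - b))) / 2 := by rw [hφ]; exact min_le_right _ _
  obtain ⟨K, d, dl, K₁, hK₁, hd, hbas⟩ := hJ 1 (fun _ => a + t) (fun _ => w + t) (fun k _ =>
    ⟨htA, by linarith, by
      rw [abs_le]
      constructor <;> linarith, by
      rw [abs_le]
      constructor <;> linarith⟩) φ hφ0
  have hlen : ((List.range (n - 1)).map (cc hn o.1.1)).length + 1 = n := by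
    rw [List.length_map, List.length_range]
    omega
  have hlen' : ((List.range (n - 1)).map (cc hn o.1.1)).length = n - 1 := by omega
  refine ⟨max K 1, fun τ hτ => ?_⟩
  have hL1 : ∀ l ≤ n - 1, a + t ≤ L l (a + t) (w + t) ∧ E + x + L l (a + t) (w + t) < 1 := by
    intro l hl
    obtain ⟨-, k2, k3⟩ := hLl l hl
    refine ⟨k3 _ _ (by linarith) (by linarith) (by linarith), ?_⟩
    have h1 := k2.mono (a := a + t) (w := w + t) (a' := a + t) (w' := a + t) (by linarith)
      (by linarith) le_rfl (by linarith) le_rfl (by linarith)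
    have h2 := hlev l hl (a + t) (by
      rw [abs_lt]
      constructor <;> linarith)
    linarith
  obtain ⟨x₀, hx₀, hfin⟩ := chn_zpr (S := S) (C₀ := 6) (by norm_num) H.tmc hb0 hb1 (p := p)
    (q := q) (hu := hu) (ch := cc hn o.1.1) (l := (List.range (n - 1)).map (cc hn o.1.1))
    (k := lst hn) (K := K) ((List.nodup_range).map_on (fun i hi j hj h => by
      rw [List.mem_range] at hi hj
      exact cc_inj1 hn o.1.1 hi hj h)) (fun h => by
      rw [List.mem_map] at h
      obtain ⟨i, hi, h⟩ := h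
      rw [List.mem_range] at hi
      exact cc_ne hn o.1.1 hi h) (fun i _ => cof_cc hn o.1.1 i) (fun i hi => hpq i (by omega))
    (a := a + t) (w := w + t) (az := az) (wz := wz) (E := E) (x := x) (P := Pz)
    (g := fun l => L l (a + t) (w + t) - d l) (by nlinarith) haz (by nlinarith) hwz
    (by linarith) (by linarith) hE0.le hx (fun i hi => by
      have h1 := (hL1 i (by omega)).1
      have h2 := (hd i (by omega)).2.1
      show b < L i (a + t) (w + t) - d i
      linarith) (fun i hi => by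
      have h1 := (hL1 i (by omega)).2
      have h2 := (hd i (by omega)).1
      show E + x + (L i (a + t) (w + t) - d i) < 1
      linarith) hPz (by
      rw [hlen']
      have h2 := (hd (n - 1) le_rfl).2.1
      have h3 : L (n - 1) (a + t) (w + t) = P (a + t) (w + t) := by
        rw [hL]
        simp only
        rw [LL_lst]
      show b + Pz * (1 - b) < L (n - 1) (a + t) (w + t) - d (n - 1)
      rw [h3]
      linarith) hK₁ (hbas.mono 0 fun J _ F A hJ => by
        obtain ⟨B, G, H, h1, h2, h3, -⟩ := hJ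
        refine ⟨B, h1, h2, G 0, H 0, ?_⟩
        have h4 := h3.ok 0 one_pos
        rw [hlen, hL]
        have e1 : n - 1 + 1 = n := by omega
        rw [e1] at h4
        exact h4) hτ
  refine ⟨x₀, hx₀, fun Ψ => (hfin Ψ).mono fun J G A hJ => ?_⟩
  obtain ⟨B, h1, h2, h3⟩ := hJ
  refine ⟨B, h1, h2, _, (List.nodup_range).map_on (fun i hi j hj h => by
      rw [List.mem_range] at hi hj
      exact cc_inj1 hn o.1.1 hi hj h), fun h => by
      rw [List.mem_map] at h
      obtain ⟨i, hi, h⟩ := h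
      rw [List.mem_range] at hi
      exact cc_ne hn o.1.1 hi h, h3⟩

end Pool.SHE33
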