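import Pool.Agent.H33.SHE.Chb
import Pool.Agent.H80.ZC.Zco
import Pool.Agent.H9.ZC.Zgp
import Pool.Agent.H9.GEN.Tgs3

/-!
# No chains in the sheared zooms of a class

`ChE c r K a w E x P`: chains of two-sided labels of the coordinates `c 0, …, c (r - 1)`, with
gradients at most `2 ^ (E J)` and visible up to `1 - x`, the last one with the precision `P`.
`upr_chE`: it is a universal property. `zpr_nochn`: if a class has no labels of the target, then the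
sheared zooms of the class have no such chains with the rescaled precision.
-/

set_option autoImplicit false

namespace Pool.SHE33

open Finset Real MvPolynomial
open Pool.Agent.H49.Ent Pool.Agent.H32.Dense Pool.STK Pool.KA Pool.KSAT Pool.K2S Pool.PB Pool.S6C
open Pool.GEN Pool.ZCL Pool.TOP Pool.ZLC Pool.ZFW Pool.CHT Pool.ZCO Pool.ONE
open Pool.LBN (Tch cof)

variable {m n J : ℕ} {κ : Type}

/-- **Chains with given gradients.** -/
theorem gpr_che (c : ℕ → Fin n) (r : ℕ) (K : ℕ → ℕ) (a w e : ℕ) (g : ℕ → ℕ) :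
    GPr (fun (F : Fam n J) A => ChN F c r K a w e g A) := by
  classical
  refine ⟨fun F A h => ?_, fun G κ k B hS hB h => ?_, fun G E hE B h => ?_⟩
  · exact ChN.hered F c r K a w e g _ _ (fun ω hω => hω.1) h
  · have h0 : ∀ ω, ∃ (G' : PtT G → ℕ → MvPolynomial (Option (Fin n)) ℝ)
        (H' : LnT G → ℕ → MvPolynomial (Option (Fin n)) ℝ), 0 < G.p ω → B ω →
        ∀ hl : IsLaw (cond G.p k (k ω)),
          ChOK (G.res k (k ω) hl) c r K a w e g (fun ω' => B ω' ∧ k ω' = k ω) G' H' := by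
      intro ω
      by_cases hω : 0 < G.p ω ∧ B ω
      · obtain ⟨G', H', h1⟩ := h ω hω.1 hω.2 (isLaw_sec G.isLaw k hω.1)
        exact ⟨G', H', fun _ _ _ => h1⟩
      · exact ⟨fun _ _ => 0, fun _ _ => 0, fun h1 h2 => absurd ⟨h1, h2⟩ hω⟩
    choose G' H' hOK using h0
    obtain ⟨f, hf⟩ : ∃ f : G.ζ → Option G.Ω, ∀ ω, 0 < G.p ω → B ω →
        ∃ ω₀, f (G.Z ω) = some ω₀ ∧ 0 < G.p ω₀ ∧ B ω₀ ∧ G.Z ω₀ = G.Z ω := by
      refine ⟨fun s => if hs : ∃ ω, 0 < G.p ω ∧ B ω ∧ G.Z ω = s then some hs.choose else none,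
        fun ω hω hBω => ?_⟩
      have hs : ∃ ω', 0 < G.p ω' ∧ B ω' ∧ G.Z ω' = G.Z ω := ⟨ω, hω, hBω, rfl⟩
      refine ⟨hs.choose, dif_pos hs, hs.choose_spec.1, hs.choose_spec.2.1, hs.choose_spec.2.2⟩
    refine ⟨fun y i => match f y.2.2 with
      | none => 0
      | some ω₀ => if 0 < G.p ω₀ ∧ B ω₀ then G' ω₀ y i else 0,
      fun s i => match f s.2.1 with
      | none => 0
      | some ω₀ => if 0 < G.p ω₀ ∧ B ω₀ then H' ω₀ s i else 0, ?_⟩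
    have hdep : ∀ i, DepC c i (0 : MvPolynomial (Option (Fin n)) ℝ) := by
      intro i b b' _ _
      rw [map_zero, map_zero]
    have hfit : ∀ ω, B ω ∧ G.p ω ≠ 0 → ∃ ω₀, f (G.Z ω) = some ω₀ ∧ 0 < G.p ω₀ ∧ B ω₀ ∧
        (B ω ∧ k ω = k ω₀) := by
      intro ω hω
      have hω' : 0 < G.p ω := lt_of_le_of_ne (G.isLaw.nonneg ω) (Ne.symm hω.2)
      obtain ⟨ω₀, h1, h2, h3, h4⟩ := hf ω hω' hω.1
      exact ⟨ω₀, h1, h2, h3, hω.1, (hS.2 ω₀ ω h3 hω.1 h4).symm⟩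
    constructor
    · intro y i
      split
      · rw [totalDegree_zero]
        exact Nat.zero_le _
      · split_ifs with h1
        · exact (hOK _ h1.1 h1.2 (isLaw_sec G.isLaw k h1.1)).degG y i
        · rw [totalDegree_zero]
          exact Nat.zero_le _
    · intro s i
      split
      · rw [totalDegree_zero]
        exact Nat.zero_le _
      · split_ifs with h1
        · exact (hOK _ h1.1 h1.2 (isLaw_sec G.isLaw k h1.1)).degH s i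
        · rw [totalDegree_zero]
          exact Nat.zero_le _
    · intro y i
      split
      · exact hdep i
      · split_ifs with h1
        · exact (hOK _ h1.1 h1.2 (isLaw_sec G.isLaw k h1.1)).depG y i
        · exact hdep i
    · intro s i
      split
      · exact hdep i
      · split_ifs with h1
        · exact (hOK _ h1.1 h1.2 (isLaw_sec G.isLaw k h1.1)).depH s i
        · exact hdep i
    · intro ω hω i hi
      obtain ⟨ω₀, h1, h2, h3, h4⟩ := hfit ω hω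
      have e1 : (ptr G J ω).2.2 = G.Z ω := rfl
      simp only [e1, h1, if_pos (And.intro h2 h3)]
      exact (hOK ω₀ h2 h3 (isLaw_sec G.isLaw k h2)).pos ω h4 i hi
    · intro ω hω i hi b hb
      obtain ⟨ω₀, h1, h2, h3, h4⟩ := hfit ω hω
      have e1 : (ptr G J ω).2.2 = G.Z ω := rfl
      have e2 : (slam G w ω).2.1 = G.Z ω := rfl
      simp only [e1, e2, h1, if_pos (And.intro h2 h3)] at hb ⊢
      exact (hOK ω₀ h2 h3 (isLaw_sec G.isLaw k h2)).agr ω h4 i hi b hb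
    · intro ω hω i hi b hb l hl
      obtain ⟨ω₀, h1, h2, h3, h4⟩ := hfit ω hω
      have e1 : (ptr G J ω).2.2 = G.Z ω := rfl
      simp only [e1, h1, if_pos (And.intro h2 h3)] at hb ⊢
      exact (hOK ω₀ h2 h3 (isLaw_sec G.isLaw k h2)).lip ω h4 i hi b hb l hl
  · obtain ⟨G', H', h⟩ := h
    exact ⟨G', H', h.degG, h.degH, h.depG, h.depH, fun ω hω => h.pos ω hω.2,
      fun ω hω => h.agr ω hω.2, fun ω hω => h.lip ω hω.2⟩

/-- **Visible chains.** -/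
def ChE (c : ℕ → Fin n) (r K : ℕ) (a w E x P : ℝ) : Stat n := fun J F A =>
  ∃ g : ℕ → ℕ, (∀ i < r, g i ≤ J ∧ ((⌊E * J⌋₊ + g i : ℕ) : ℝ) ≤ (1 - x) * J) ∧
    ⌊P * J⌋₊ ≤ g (r - 1) ∧ ChN F c r (fun _ => K) ⌊a * J⌋₊ ⌊w * J⌋₊ ⌊E * J⌋₊ g A

theorem ChE.hered (c : ℕ → Fin n) (r K : ℕ) (a w E x P : ℝ) (J : ℕ) (F : Fam n J) :
    Hered (ChE c r K a w E x P J F) := by
  rintro A B hB ⟨g, h1, h2, h3⟩
  exact ⟨g, h1, h2, ChN.hered F _ _ _ _ _ _ _ _ _ hB h3⟩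

/-- The precisions of a chain. -/
def gor (r J : ℕ) (g : Fin r → Fin (J + 1)) (i : ℕ) : ℕ :=
  if h : i < r then (g ⟨i, h⟩ : ℕ) else 0

/-- **Visible chains are a universal property.** -/
theorem upr_chE (c : ℕ → Fin n) (r : ℕ) (hr : 0 < r) (K : ℕ) (a w E x P : ℝ) :
    UPr (ChE c r K a w E x P) := by
  classical
  refine ⟨fun J => (Fin r → Fin (J + 1)), fun J => inferInstance, fun J g F A =>
    ((∀ i < r, ((⌊E * J⌋₊ + gor r J g i : ℕ) : ℝ) ≤ (1 - x) * J) ∧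
    ⌊P * J⌋₊ ≤ gor r J g (r - 1)) ∧
      ChN F c r (fun _ => K) ⌊a * J⌋₊ ⌊w * J⌋₊ ⌊E * J⌋₊ (gor r J g) A, ?_, ?_, ?_⟩
  · have p0 : ∀ J : ℕ, (0 : ℝ) ≤ (J : ℝ) + 1 := fun J => by positivity
    have h1 : SubE (fun J => ((J : ℝ) + 1) ^ r) := SubE.lin.pow p0 r
    intro e he
    obtain ⟨J₀, hJ₀⟩ := h1 e he
    refine ⟨J₀, fun J hJ => le_trans (le_of_eq ?_) (hJ₀ J hJ)⟩
    rw [Fintype.card_fun, Fintype.card_fin, Fintype.card_fin]
    push_cast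
    ring
  · intro J g
    exact gpr_const (gpr_che c r (fun _ => K) _ _ _ (gor r J g))
  · intro J F A
    constructor
    · rintro ⟨g, h1, h2, h3⟩
      have hgg : ∀ i < r, gor r J (fun i : Fin r =>
          (⟨min (g i) J, by omega⟩ : Fin (J + 1))) i = g i := by
        intro i hi
        unfold gor
        rw [dif_pos hi]
        exact min_eq_left (h1 i hi).1
      refine ⟨fun i => ⟨min (g i) J, by omega⟩, ⟨fun i hi => ?_, ?_⟩, ?_⟩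
      · rw [hgg i hi]
        exact (h1 i hi).2
      · rw [hgg _ (by omega)]
        exact h2
      · exact Pool.LBN.chn_congr h3 (fun _ _ => rfl) (fun _ _ => le_rfl)
          (fun i hi => (hgg i hi).symm)
    · rintro ⟨g, ⟨h1, h2⟩, h3⟩
      refine ⟨gor r J g, fun i hi => ⟨?_, h1 i hi⟩, h2, h3⟩
      unfold gor
      rw [dif_pos hi]
      have := (g ⟨i, hi⟩).2
      omega

/-- **No chains in the sheared zooms.** -/
theorem zpr_nochn {S : PCl m} {C₀ : ℝ} (htm : TmC S C₀) {w₁ : ℝ}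
    (hw0 : 0 < w₁) (hw1 : w₁ < 1) {p q : Fin m} {hu : p ∉ ({q} : Finset (Fin m))}
    {ch : ℕ → Fin m} {l : List (Fin m)} {k : Fin m} {K : ℕ} (hld : l.Nodup) (hkl : k ∉ l)
    (hcof : ∀ i < l.length + 1, ch i = cof l k i)
    (hpq : ∀ i < l.length + 1, ch i = q → ∃ i' < i, ch i' = p)
    {a w az wz E x P Pz : ℝ} (hwa : wz ≤ az) (haz1 : az ≤ 1)
    (ha : w₁ + az * (1 - w₁) < a) (hw : w₁ + wz * (1 - w₁) < w) (haz0 : 0 ≤ az) (hwz0 : 0 ≤ wz)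
    (hx : 0 < x) (hP0 : 0 ≤ P) (hPz : 0 ≤ Pz) (hP : P < w₁ + Pz * (1 - w₁))
    (hb : Bas S (fun J F A => ¬ (tgs k).T () (max K 1) ⌊a * J⌋₊ ⌊w * J⌋₊ ⌊P * J⌋₊ J F A)) :
    ∃ x₀ : ℝ, 0 < x₀ ∧ ∀ Ψ : ∀ (J : ℕ) (F : Fam m J) (_ : F.Ω → Prop), (F.Ω → ℝ) → Prop,
      ZPr S w₁ (id : Fin m → Fin m) (ShX w₁ hu x₀ Ψ) (fun J G A =>
        ¬ ChE ch (l.length + 1) K az wz E x Pz J G A) := by
  classical
  obtain ⟨n, hn⟩ : ∃ n, n = l.length + 1 := ⟨_, rfl⟩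
  obtain ⟨τ₁, hτ₁, J₁, hb⟩ := hb
  obtain ⟨Cf, N, hN1, hNC, hbwd⟩ := chn_bwd K n
  have h01 : 0 < 1 - w₁ := by linarith
  obtain ⟨x₀, hx₀⟩ : ∃ x₀ : ℝ, x₀ = min (w₁ / 2) ((w₁ + Pz * (1 - w₁) - P) / 2) := ⟨_, rfl⟩
  have hx0 : 0 < x₀ := by
    rw [hx₀]
    exact lt_min (by linarith) (by linarith)
  have hx1 : x₀ ≤ w₁ / 2 := by rw [hx₀]; exact min_le_left _ _
  have hx2 : x₀ ≤ (w₁ + Pz * (1 - w₁) - P) / 2 := by rw [hx₀]; exact min_le_right _ _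
  obtain ⟨δ, hδ⟩ : ∃ δ, δ = τ₁ / 3 := ⟨_, rfl⟩
  have hδ0 : 0 < δ := by rw [hδ]; linarith
  obtain ⟨Kc, hKc⟩ : ∃ Kc : ℝ, Kc = (6 * (2 : ℕ) + 3) ^ m * ((4 * (2 : ℕ) + 3) ^ m *
    (2 * (2 : ℕ) + 15) ^ m) := ⟨_, rfl⟩
  have hKc0 : 0 < Kc := by
    rw [hKc]
    positivity
  obtain ⟨J₂, hJ₂⟩ := lin (Real.log Kc) hδ0
  obtain ⟨J₃, hJ₃⟩ := lin ((Cf : ℝ) + 1) (mul_pos hx h01)
  obtain ⟨J₄, hJ₄⟩ := lin ((Cf : ℝ) + 4) (show 0 < w₁ / 2 by linarith)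
  obtain ⟨J₅, hJ₅⟩ := lin ((Cf : ℝ) + 6) (show 0 < (w₁ + Pz * (1 - w₁) - P) / 2 by linarith)
  obtain ⟨J₆, hJ₆⟩ := lin (1 : ℝ) (show 0 < a - (w₁ + az * (1 - w₁)) by linarith)
  obtain ⟨J₇, hJ₇⟩ := lin (1 : ℝ) (show 0 < w - (w₁ + wz * (1 - w₁)) by linarith)
  refine ⟨x₀, hx0, fun Ψ => ⟨δ / 3, div_pos hδ0 three_pos, δ, hδ0,
    max (max J₁ (max J₂ J₃)) (max (max J₄ J₅) (max J₆ J₇)), ?_⟩⟩
  intro J hJ F A hS κ C z z' hc hR hl J' hJ' B hBA hPB hChE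
  simp only [ge_iff_le, max_le_iff] at hJ
  obtain ⟨⟨hJ1, hJ2, hJ3⟩, ⟨hJ4, hJ5⟩, hJ6, hJ7⟩ := hJ
  replace hJ2 := hJ₂ J hJ2
  replace hJ3 := hJ₃ J hJ3
  replace hJ4 := hJ₄ J hJ4
  replace hJ5 := hJ₅ J hJ5
  replace hJ6 := hJ₆ J hJ6
  replace hJ7 := hJ₇ J hJ7
  have hJr : (0 : ℝ) ≤ J := Nat.cast_nonneg J
  obtain ⟨W, hW⟩ : ∃ W, W = ⌊w₁ * (J : ℝ)⌋₊ := ⟨_, rfl⟩
  have hWr : (W : ℝ) ≤ w₁ * J := by rw [hW]; exact Nat.floor_le (by positivity)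
  have hWr' : w₁ * (J : ℝ) < W + 1 := by rw [hW]; exact Nat.lt_floor_add_one _
  have hsumN : W + J' = J := by rw [hW]; exact hJ'
  have hsum : (W : ℝ) + J' = J := by exact_mod_cast hsumN
  have hJ'0 : (0 : ℝ) ≤ J' := Nat.cast_nonneg J'
  have hJ'1 : (1 - w₁) * J ≤ (J' : ℝ) := by
    have : (1 - w₁) * (J : ℝ) = J - w₁ * J := by ring
    linarith
  have hJ'2 : (J' : ℝ) ≤ (1 - w₁) * J + 1 := by
    have : (1 - w₁) * (J : ℝ) = J - w₁ * J := by ring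
    linarith
  have hJ'J : (J' : ℝ) ≤ J := by
    have := Nat.cast_nonneg (α := ℝ) W
    linarith
  have hA0 : 0 ≤ Pe F.p A := Pe_nonneg F.isLaw A
  have hSB : S.St (δ + δ) J F B := by
    refine S.res hδ0.le hS hBA (le_trans ?_ hPB)
    refine mul_le_mul_of_nonneg_right (Real.exp_le_exp.2 ?_) hA0
    have e1 : 3 * (δ / 3) * (J' : ℝ) = δ * J' := by ring
    rw [e1]
    have := mul_le_mul_of_nonneg_left hJ'J hδ0.le
    linarith
  obtain ⟨hB0, -⟩ := htm _ J F B (by linarith) hSB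
  obtain ⟨cb, M, rfl, hM, -, -⟩ := hR
  obtain ⟨g, hg1, hg2, hg3⟩ := hChE
  rw [← hn] at hg1 hg2 hg3
  -- the windows
  obtain ⟨V, hVd⟩ : ∃ V, V = ⌊wz * (J' : ℝ)⌋₊ := ⟨_, rfl⟩
  obtain ⟨aZ, haZ⟩ : ∃ aZ, aZ = ⌊az * (J' : ℝ)⌋₊ := ⟨_, rfl⟩
  obtain ⟨eZ, heZ⟩ : ∃ eZ, eZ = ⌊E * (J' : ℝ)⌋₊ := ⟨_, rfl⟩
  have hVr : (V : ℝ) ≤ wz * J' := by rw [hVd]; exact Nat.floor_le (mul_nonneg hwz0 hJ'0)
  have haZr : (aZ : ℝ) ≤ az * J' := by rw [haZ]; exact Nat.floor_le (mul_nonneg haz0 hJ'0)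
  have hVaZ : V ≤ aZ := by
    rw [hVd, haZ]
    exact Nat.floor_le_floor (mul_le_mul_of_nonneg_right hwa hJ'0)
  have haZJ : aZ ≤ J' := by
    rw [haZ]
    refine Nat.floor_le_of_le ?_
    have := mul_le_mul_of_nonneg_right haz1 hJ'0
    linarith
  have hVJ : V ≤ J' := hVaZ.trans haZJ
  have hCf0 : (0 : ℝ) ≤ Cf := Nat.cast_nonneg _
  have hvis : ∀ i < n, eZ + Cf + (Finset.Icc 0 i).sup g ≤ J' := by
    intro i hi
    have h0 : ∀ j < n, eZ + Cf + g j ≤ J' := by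
      intro j hj
      have h2 := (hg1 j hj).2
      rw [← heZ] at h2
      push_cast at h2
      have h3 : x * ((1 - w₁) * J) ≤ x * J' := mul_le_mul_of_nonneg_left hJ'1 hx.le
      have e1 : x * (1 - w₁) * (J : ℝ) = x * ((1 - w₁) * J) := by ring
      rw [e1] at hJ3
      have h4 : ((eZ + Cf + g j : ℕ) : ℝ) ≤ J' := by
        push_cast
        linarith
      exact_mod_cast h4
    have h1 : (Finset.Icc 0 i).sup g ≤ J' - (eZ + Cf) := by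
      refine Finset.sup_le fun j hj => ?_
      have := h0 j ((Finset.mem_Icc.1 hj).2.trans_lt hi)
      omega
    have := h0 i hi
    omega
  have hMW : M q + Cf ≤ W := by
    have h1 : ((M q + Cf : ℕ) : ℝ) < W + 1 := by
      push_cast
      have h2 : x₀ * (J : ℝ) ≤ w₁ / 2 * J := mul_le_mul_of_nonneg_right hx1 hJr
      linarith
    have h2 : M q + Cf < W + 1 := by exact_mod_cast h1
    omega
  have hinj : Set.InjOn ch (Set.Iio n) := by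
    intro i hi j hj hij
    rw [Set.mem_Iio] at hi hj
    rw [hcof i (by omega), hcof j (by omega)] at hij
    exact Pool.FRN.cof_inj hld hkl (by rw [Set.mem_Iio]; omega) (by rw [Set.mem_Iio]; omega) hij
  rw [← heZ, ← haZ, ← hVd] at hg3
  subst hW
  have hg4 : ChN (zfc F ⌊w₁ * (J : ℝ)⌋₊ J' hsumN.le (shC cb p {q} hu M)
      (fun ω => z' (slam F ⌊w₁ * (J : ℝ)⌋₊ ω)) id) ch n (fun _ => K) aZ V eZ g B := by
    obtain ⟨G₁, H₁, h1⟩ := hg3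
    exact ⟨G₁, H₁, h1.degG, h1.degH, h1.depG, h1.depH, fun ω hω => h1.pos ω hω,
      fun ω hω => h1.agr ω hω, fun ω hω => h1.lip ω hω⟩
  obtain ⟨B₁, hB₁, hPB₁, e', hfin⟩ := hbwd F hsumN hVJ (cb := cb) (p := p) (q := q) (hp := hu)
    (M := M) (z := z) z' le_rfl hinj (fun i hi => hpq i (by omega)) hg4 hvis hMW
    (fun ω hω => hc ω (hBA ω hω))
  rw [← hKc] at hPB₁
  have hSB₁ : S.St (δ + δ + δ) J F B₁ := by
    refine S.res hδ0.le hSB hB₁ ?_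
    have h1 : Kc ≤ Real.exp (δ * J) := by
      rw [← Real.log_le_iff_le_exp hKc0]
      exact hJ2
    have h2 : Pe F.p B ≤ Real.exp (δ * J) * Pe F.p B₁ :=
      hPB₁.trans (mul_le_mul_of_nonneg_right h1 (Pe_nonneg F.isLaw _))
    have h3 := mul_le_mul_of_nonneg_left h2 (Real.exp_pos (-(δ * J))).le
    rw [← mul_assoc, ← Real.exp_add, neg_add_cancel, Real.exp_zero, one_mul] at h3
    exact h3
  have e3 : δ + δ + δ = τ₁ := by
    rw [hδ]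
    ring
  rw [e3] at hSB₁
  refine hb J hJ1 F B₁ hSB₁ ⟨l, hld, hkl, ⌊w₁ * (J : ℝ)⌋₊ + aZ, ⌊w₁ * (J : ℝ)⌋₊ + V, e',
    fun i => g i + ⌊w₁ * (J : ℝ)⌋₊ - (msc q (M q) (ch i) + lsq N i), by omega, ?_, ?_, ?_,
    fun i hi => ?_, ?_⟩
  · refine Nat.le_floor ?_
    push_cast
    have h1 : az * (J' : ℝ) ≤ az * ((1 - w₁) * J) + az := by
      have h5 := mul_le_mul_of_nonneg_left hJ'2 haz0
      linarith
    have e2 : (a - (w₁ + az * (1 - w₁))) * (J : ℝ) = a * J - w₁ * J - az * ((1 - w₁) * J) := by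
      ring
    rw [e2] at hJ6
    linarith
  · refine Nat.le_floor ?_
    push_cast
    have h1 : wz * (J' : ℝ) ≤ wz * ((1 - w₁) * J) + wz := by
      have h5 := mul_le_mul_of_nonneg_left hJ'2 hwz0
      linarith
    have e2 : (w - (w₁ + wz * (1 - w₁))) * (J : ℝ) = w * J - w₁ * J - wz * ((1 - w₁) * J) := by
      ring
    rw [e2] at hJ7
    linarith
  · have h1 : ⌊w₁ * (J : ℝ)⌋₊ + aZ ≤ ⌊a * (J : ℝ)⌋₊ := by
      refine Nat.le_floor ?_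
      push_cast
      have h1 : az * (J' : ℝ) ≤ az * ((1 - w₁) * J) + az := by
        have h5 := mul_le_mul_of_nonneg_left hJ'2 haz0
        linarith
      have e2 : (a - (w₁ + az * (1 - w₁))) * (J : ℝ) = a * J - w₁ * J - az * ((1 - w₁) * J) := by
        ring
      rw [e2] at hJ6
      linarith
    refine Nat.add_le_add ?_ h1
    show ⌊P * (J : ℝ)⌋₊ ≤ g l.length + ⌊w₁ * (J : ℝ)⌋₊ -
      (msc q (M q) (ch l.length) + lsq N l.length)
    have e1 : n - 1 = l.length := by omega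
    rw [e1] at hg2
    have h2 := msc_le q (M q) (ch l.length)
    have h3 := hNC l.length (by omega)
    have h4 : Pz * (J' : ℝ) < ⌊Pz * (J' : ℝ)⌋₊ + 1 := Nat.lt_floor_add_one _
    have h5 : Pz * ((1 - w₁) * J) ≤ Pz * J' := mul_le_mul_of_nonneg_left hJ'1 hPz
    have h6 : (⌊P * (J : ℝ)⌋₊ : ℝ) ≤ P * J := Nat.floor_le (mul_nonneg hP0 hJr)
    have h7 : ((lsq N l.length : ℕ) : ℝ) ≤ Cf := by exact_mod_cast h3
    have h8 : ((msc q (M q) (ch l.length) : ℕ) : ℝ) ≤ M q := by exact_mod_cast h2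
    have h9 : x₀ * (J : ℝ) ≤ (w₁ + Pz * (1 - w₁) - P) / 2 * J :=
      mul_le_mul_of_nonneg_right hx2 hJr
    have h10 : ((⌊Pz * (J' : ℝ)⌋₊ : ℕ) : ℝ) ≤ g l.length := by exact_mod_cast hg2
    have e4 : (w₁ + Pz * (1 - w₁) - P) / 2 * (J : ℝ) + (w₁ + Pz * (1 - w₁) - P) / 2 * J =
        w₁ * J + Pz * ((1 - w₁) * J) - P * J := by ring
    have h11 : ((⌊P * (J : ℝ)⌋₊ + (msc q (M q) (ch l.length) + lsq N l.length) : ℕ) : ℝ) ≤
        ((g l.length + ⌊w₁ * (J : ℝ)⌋₊ : ℕ) : ℝ) := by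
      push_cast
      linarith
    have h12 : ⌊P * (J : ℝ)⌋₊ + (msc q (M q) (ch l.length) + lsq N l.length) ≤
        g l.length + ⌊w₁ * (J : ℝ)⌋₊ := by exact_mod_cast h11
    omega
  · have h1 := (hg1 i (by omega)).1
    show g i + ⌊w₁ * (J : ℝ)⌋₊ - (msc q (M q) (ch i) + lsq N i) ≤ J
    omega
  · rw [← hn]
    exact Pool.LBN.chn_congr hfin (fun i hi => hcof i (by omega)) (fun _ _ => le_rfl)
      (fun _ _ => rfl)

end Pool.SHE33
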