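import Pool.Agent.H33.SHE.Chf
import Pool.Agent.H82.ZC.Psi
import Pool.Agent.H80.ZC.Zco
import Pool.Agent.H9.GEN.Tgs3

/-!
# Chains in the sheared zooms of a class

`shC_inv`: the point is a Lipschitz function of the sheared coordinates. `chn_zpr`: if a class has
chains of two-sided labels on large events, with the direction of the shear before the sheared
coordinate and visible labels, then the sheared zooms of the class have the rescaled labels of the
last coordinate, on a part `exp (- τ J)` of each large event, for every `τ > 0`.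
-/

set_option autoImplicit false

namespace Pool.SHE33

open Finset Real MvPolynomial
open Pool.Agent.H49.Ent Pool.Agent.H32.Dense Pool.STK Pool.KA Pool.KSAT Pool.K2S Pool.PB Pool.S6C
open Pool.GEN Pool.ZCL Pool.TOP Pool.ZLC Pool.ZFW Pool.ONE Pool.ZCO
open Pool.LBN (Tch cof)

variable {m n : ℕ} {κ : Type}

/-- **The point is a Lipschitz function of the sheared coordinates.** -/
theorem shC_inv {cb : κ → Fin m → ℝ} {p q : Fin m} {hp : p ∉ ({q} : Finset (Fin m))}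
    {M : Fin m → ℕ} (k : κ) : InvB (shC cb p {q} hp M) (id : Fin m → Fin m) k (2 * 2 ^ M q) := by
  intro x y δ hδ h i
  have h1 : (1 : ℝ) ≤ 2 ^ M q := one_le_pow₀ one_le_two
  have hpq : p ≠ q := fun h => hp (Finset.mem_singleton.2 h)
  have hk : ∀ j, j ≠ q → |x j - y j| ≤ δ := by
    intro j hj
    have h2 := h j
    simp only [id_eq] at h2
    rwa [shC_not (by rw [Finset.mem_singleton]; exact hj),
      shC_not (by rw [Finset.mem_singleton]; exact hj)] at h2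
  have h3 : δ ≤ 2 * 2 ^ M q * δ := by
    calc δ = 1 * δ := (one_mul δ).symm
      _ ≤ 2 * 2 ^ M q * δ := mul_le_mul_of_nonneg_right (by linarith) hδ
  by_cases hi : i = q
  · subst hi
    have h2 := h i
    simp only [id_eq] at h2
    rw [shC_mem (Finset.mem_singleton_self i), shC_mem (Finset.mem_singleton_self i)] at h2
    obtain ⟨c, hc⟩ : ∃ c, c = clp (M i) (cb k i) := ⟨_, rfl⟩
    have hcM : |c| ≤ 2 ^ M i := by
      rw [hc]
      exact clp_le _ _
    rw [← hc] at h2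
    have pM : (0 : ℝ) < 2 ^ M i := by positivity
    have e1 : (x i - c * x p) / 2 ^ M i - (y i - c * y p) / 2 ^ M i =
        ((x i - y i) - c * (x p - y p)) / 2 ^ M i := by ring
    rw [e1, abs_div, abs_of_pos pM, div_le_iff₀ pM] at h2
    have h4 : |c * (x p - y p)| ≤ 2 ^ M i * δ := by
      rw [abs_mul]
      exact mul_le_mul hcM (hk p hpq) (abs_nonneg _) pM.le
    have e2 : x i - y i = ((x i - y i) - c * (x p - y p)) + c * (x p - y p) := by ring
    rw [e2]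
    refine (abs_add_le _ _).trans ?_
    linarith
  · exact (hk i hi).trans h3

/-- **Chains in the sheared zooms.** -/
theorem chn_zpr {S : PCl m} {C₀ : ℝ} (hC₀ : 0 ≤ C₀) (htm : TmC S C₀) {w₁ : ℝ}
    (hw0 : 0 < w₁) (hw1 : w₁ < 1) {p q : Fin m} {hu : p ∉ ({q} : Finset (Fin m))}
    {ch : ℕ → Fin m} {l : List (Fin m)} {k : Fin m} {K : ℕ} (hld : l.Nodup) (hkl : k ∉ l)
    (hcof : ∀ i < l.length + 1, ch i = cof l k i)
    (hpq : ∀ i < l.length + 1, ch i = q → ∃ i' < i, ch i' = p)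
    {a w az wz E x P : ℝ} {g : ℕ → ℝ} (haz0 : 0 ≤ az) (haz1 : az ≤ 1) (hwz0 : 0 ≤ wz)
    (hwa : wz ≤ az) (ha : a < w₁ + az * (1 - w₁)) (hw : w < w₁ + wz * (1 - w₁))
    (hE : 0 ≤ E) (hx : 0 < x) (hg0 : ∀ i < l.length + 1, w₁ < g i)
    (hg : ∀ i < l.length + 1, E + x + g i < 1) (hP0 : 0 ≤ P)
    (hP : w₁ + P * (1 - w₁) < g l.length) {K₁ : ℝ} (hK₁ : 0 < K₁)
    (hb : Bas S (fun J F A => ∃ B : F.Ω → Prop, Sub B A ∧ Pe F.p A ≤ K₁ * Pe F.p B ∧
      Chn ch (l.length + 1) (fun _ => K) a w E g J F B)) {τ : ℝ} (hτ : 0 < τ) :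
    ∃ x₀ : ℝ, 0 < x₀ ∧ ∀ Ψ : ∀ (J : ℕ) (F : Fam m J) (_ : F.Ω → Prop), (F.Ω → ℝ) → Prop,
      ZPr S w₁ (id : Fin m → Fin m) (ShX w₁ hu x₀ Ψ) (fun J G A => ∃ B : G.Ω → Prop, Sub B A ∧
        Real.exp (-(τ * J)) * Pe G.p A ≤ Pe G.p B ∧
        Tch l k (max K 1) ⌊az * J⌋₊ ⌊wz * J⌋₊ ⌊P * J⌋₊ J G B) := by
  classical
  obtain ⟨n, hn⟩ : ∃ n, n = l.length + 1 := ⟨_, rfl⟩
  obtain ⟨τ₁, hτ₁, J₁, hb⟩ := hb
  obtain ⟨Cf, N, hN1, hNC, hfwd⟩ := chn_fwd K n
  have h01 : 0 < 1 - w₁ := by linarith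
  obtain ⟨δ, hδ⟩ : ∃ δ, δ = min (τ * (1 - w₁) / (5 * C₀ + 4)) (τ₁ / 2) := ⟨_, rfl⟩
  have hδ0 : 0 < δ := by
    rw [hδ]
    exact lt_min (by positivity) (by linarith)
  have hδ1 : (5 * C₀ + 4) * δ ≤ τ * (1 - w₁) := by
    have h1 : δ ≤ τ * (1 - w₁) / (5 * C₀ + 4) := by rw [hδ]; exact min_le_left _ _
    rw [le_div_iff₀ (by linarith)] at h1
    linarith
  have hδ2 : δ + δ ≤ τ₁ := by
    have h1 : δ ≤ τ₁ / 2 := by rw [hδ]; exact min_le_right _ _
    linarith
  have hm1 : (0 : ℝ) < (m : ℝ) + 1 := by positivity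
  obtain ⟨x₀, hx₀⟩ : ∃ x₀ : ℝ, x₀ = min (x / 2) (δ / (m + 1)) := ⟨_, rfl⟩
  have hx0 : 0 < x₀ := by
    rw [hx₀]
    exact lt_min (by linarith) (by positivity)
  have hxx : x₀ ≤ x / 2 := by rw [hx₀]; exact min_le_left _ _
  have hxm : m * x₀ ≤ δ := by
    have h1 : x₀ ≤ δ / (m + 1) := by rw [hx₀]; exact min_le_right _ _
    have h2 : ((m : ℝ) + 1) * (δ / (m + 1)) = δ := by
      field_simp
    have h3 := mul_le_mul_of_nonneg_left h1 hm1.le
    rw [h2] at h3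
    have h4 : ((m : ℝ) + 1) * x₀ = m * x₀ + x₀ := by ring
    linarith
  -- the gaps
  obtain ⟨η, hη⟩ : ∃ η : ℝ, 0 < η ∧ (∀ i < n, w₁ + η ≤ g i) ∧ (∀ i < n, E + x + g i + η ≤ 1) ∧
      w₁ + P * (1 - w₁) + η ≤ g l.length ∧ a + η ≤ w₁ + az * (1 - w₁) ∧
      w + η ≤ w₁ + wz * (1 - w₁) ∧ η ≤ x / 2 := by
    have f1 : ∃ η : ℝ, 0 < η ∧ ∀ i < n, w₁ + η ≤ g i ∧ E + x + g i + η ≤ 1 := by
      have hne : (Finset.range n).Nonempty := Finset.nonempty_range_iff.2 (by omega)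
      refine ⟨(Finset.range n).inf' hne
        (fun i => min (g i - w₁) (1 - (E + x + g i))), ?_, fun i hi => ?_⟩
      · rw [Finset.lt_inf'_iff]
        intro i hi
        rw [Finset.mem_range, hn] at hi
        exact lt_min (by linarith [hg0 i hi]) (by linarith [hg i hi])
      · have h1 := Finset.inf'_le (s := Finset.range n)
          (fun i => min (g i - w₁) (1 - (E + x + g i))) (Finset.mem_range.2 hi)
        have h2 := h1.trans (min_le_left _ _)
        have h3 := h1.trans (min_le_right _ _)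
        constructor <;> linarith
    obtain ⟨η, hη, h1⟩ := f1
    refine ⟨min η (min (g l.length - (w₁ + P * (1 - w₁))) (min (w₁ + az * (1 - w₁) - a)
      (min (w₁ + wz * (1 - w₁) - w) (x / 2)))), lt_min hη (lt_min (by linarith)
      (lt_min (by linarith) (lt_min (by linarith) (by linarith)))), fun i hi => ?_,
      fun i hi => ?_, ?_, ?_, ?_, ?_⟩
    · exact (add_le_add_right (min_le_left _ _) _).trans (h1 i hi).1
    · exact (add_le_add_right (min_le_left _ _) _).trans (h1 i hi).2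
    · have h2 := (min_le_right η (min (g l.length - (w₁ + P * (1 - w₁)))
        (min (w₁ + az * (1 - w₁) - a) (min (w₁ + wz * (1 - w₁) - w) (x / 2))))).trans
        (min_le_left _ _)
      linarith
    · have h2 := (min_le_right η (min (g l.length - (w₁ + P * (1 - w₁)))
        (min (w₁ + az * (1 - w₁) - a) (min (w₁ + wz * (1 - w₁) - w) (x / 2))))).trans
        ((min_le_right _ _).trans (min_le_left _ _))
      linarith
    · have h2 := (min_le_right η (min (g l.length - (w₁ + P * (1 - w₁)))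
        (min (w₁ + az * (1 - w₁) - a) (min (w₁ + wz * (1 - w₁) - w) (x / 2))))).trans
        ((min_le_right _ _).trans ((min_le_right _ _).trans (min_le_left _ _)))
      linarith
    · exact (min_le_right η (min (g l.length - (w₁ + P * (1 - w₁)))
        (min (w₁ + az * (1 - w₁) - a) (min (w₁ + wz * (1 - w₁) - w) (x / 2))))).trans
        ((min_le_right _ _).trans ((min_le_right _ _).trans (min_le_right _ _)))
  obtain ⟨hη0, hη1, hη2, hη3, hη4, hη5, hη6⟩ := hη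
  obtain ⟨J₂, hJ₂⟩ := lin (7 * (m : ℝ)) hδ0
  obtain ⟨J₃, hJ₃⟩ := lin ((Cf : ℝ) + 8) hη0
  obtain ⟨J₄, hJ₄⟩ := exists_nat_ge (Real.log K₁ / δ)
  refine ⟨x₀, hx0, fun Ψ => ⟨δ / 3, div_pos hδ0 three_pos, δ, hδ0, max (max J₁ J₂) (max J₃ J₄), ?_⟩⟩
  intro J hJ F A hS κ C z z' hc hR hl J' hJ' B hBA hPB
  simp only [ge_iff_le, max_le_iff] at hJ
  obtain ⟨⟨hJ1, hJ2⟩, hJ3, hJ4⟩ := hJ
  replace hJ2 := hJ₂ J hJ2
  replace hJ3 := hJ₃ J hJ3
  have hJr : (0 : ℝ) ≤ J := Nat.cast_nonneg J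
  have hK₁e : K₁ ≤ Real.exp (δ * J) := by
    rw [← Real.log_le_iff_le_exp hK₁]
    have h1 : Real.log K₁ / δ ≤ J := hJ₄.trans (by exact_mod_cast hJ4)
    rw [div_le_iff₀ hδ0] at h1
    linarith
  obtain ⟨W, hW⟩ : ∃ W, W = ⌊w₁ * (J : ℝ)⌋₊ := ⟨_, rfl⟩
  have hWr : (W : ℝ) ≤ w₁ * J := by rw [hW]; exact Nat.floor_le (by positivity)
  have hWr' : w₁ * (J : ℝ) < W + 1 := by rw [hW]; exact Nat.lt_floor_add_one _
  have hsumN : W + J' = J := by rw [hW]; exact hJ'
  have hsum : (W : ℝ) + J' = J := by exact_mod_cast hsumN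
  have hJ'0 : (0 : ℝ) ≤ J' := Nat.cast_nonneg J'
  have hJ'1 : (1 - w₁) * J ≤ (J' : ℝ) := by
    have : (1 - w₁) * (J : ℝ) = J - w₁ * J := by ring
    linarith
  have hJ'2 : (J' : ℝ) ≤ (1 - w₁) * J + 1 := by
    have : (1 - w₁) * (J : ℝ) = J - w₁ * J := by ring
    linarith
  have hJ'J : (J' : ℝ) ≤ J := by
    have := Nat.cast_nonneg (α := ℝ) W
    linarith
  -- the event
  have hA0 : 0 ≤ Pe F.p A := Pe_nonneg F.isLaw A
  have hSB : S.St (δ + δ) J F B := by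
    refine S.res hδ0.le hS hBA (le_trans ?_ hPB)
    refine mul_le_mul_of_nonneg_right (Real.exp_le_exp.2 ?_) hA0
    have e1 : 3 * (δ / 3) * (J' : ℝ) = δ * J' := by ring
    rw [e1]
    have := mul_le_mul_of_nonneg_left hJ'J hδ0.le
    linarith
  obtain ⟨hB0, -⟩ := htm _ J F B (by linarith) hSB
  have hA0' : 0 < Pe F.p A := hB0.trans_le (Pe_mono F.isLaw hBA)
  obtain ⟨B₀, hB₀B, hPB₀, hch⟩ := hb J hJ1 F B (S.mono hδ2 hSB)
  have hB₀0 : 0 < Pe F.p B₀ := by
    by_contra hcon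
    have h1 : Pe F.p B₀ = 0 := le_antisymm (not_lt.1 hcon) (Pe_nonneg F.isLaw _)
    rw [h1, mul_zero] at hPB₀
    linarith
  -- the shear
  obtain ⟨cb, M, rfl, hM, hcb, -⟩ := hR
  obtain ⟨μ, hμ⟩ : ∃ μ, μ = M q := ⟨_, rfl⟩
  have hμr : (μ : ℝ) ≤ x₀ * J + 1 := by rw [hμ]; exact hM
  obtain ⟨Kc, hKc⟩ : ∃ Kc : ℕ, Kc = 14 * 2 ^ μ + 1 := ⟨_, rfl⟩
  have hKc1 : 7 * (2 * (2 : ℝ) ^ μ) + 1 ≤ Kc := by
    rw [hKc]
    push_cast
    linarith
  have hloss : (2 * (Kc : ℝ) + 1) ^ m ≤ Real.exp (2 * δ * J) := by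
    have h1 : 2 * (Kc : ℝ) + 1 ≤ 2 ^ (μ + 6) := by
      rw [hKc, pow_add]
      push_cast
      have : (1 : ℝ) ≤ 2 ^ μ := one_le_pow₀ one_le_two
      norm_num
      linarith
    calc (2 * (Kc : ℝ) + 1) ^ m ≤ (2 ^ (μ + 6)) ^ m :=
          pow_le_pow_left₀ (by positivity) h1 m
      _ = 2 ^ ((μ + 6) * m) := by rw [← pow_mul]
      _ ≤ Real.exp (((μ + 6) * m : ℕ)) := pow_exp _
      _ ≤ Real.exp (2 * δ * J) := by
          refine Real.exp_le_exp.2 ?_
          push_cast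
          have h2 : (μ : ℝ) * m ≤ δ * J + m := by
            calc (μ : ℝ) * m ≤ (x₀ * J + 1) * m :=
                  mul_le_mul_of_nonneg_right hμr (Nat.cast_nonneg m)
              _ = m * x₀ * J + m := by ring
              _ ≤ δ * J + m := add_le_add_left (mul_le_mul_of_nonneg_right hxm hJr) _
          linarith
  obtain ⟨B', hB', hPB', hpt⟩ := ptz_inv F hsumN (shC cb p {q} hu M)
    (fun ω => z' (slam F W ω)) (id : Fin m → Fin m) (R := 2 * 2 ^ μ) hKc1 B₀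
    (fun ω _ => by
      rw [hμ]
      exact shC_inv _)
  have hPBB' : Pe F.p B ≤ Real.exp (3 * δ * J) * Pe F.p B' := by
    have h0 : 0 ≤ Pe F.p B' := Pe_nonneg F.isLaw _
    have h1 : Pe F.p B₀ ≤ Real.exp (2 * δ * J) * Pe F.p B' :=
      hPB'.trans (mul_le_mul_of_nonneg_right hloss h0)
    calc Pe F.p B ≤ K₁ * Pe F.p B₀ := hPB₀
      _ ≤ Real.exp (δ * J) * (Real.exp (2 * δ * J) * Pe F.p B') :=
          mul_le_mul hK₁e h1 (Pe_nonneg F.isLaw _) (Real.exp_pos _).le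
      _ = Real.exp (3 * δ * J) * Pe F.p B' := by
          rw [← mul_assoc, ← Real.exp_add]
          congr 2
          ring
  have hB'0 : 0 < Pe F.p B' := by
    by_contra hcon
    have h1 : Pe F.p B' = 0 := le_antisymm (not_lt.1 hcon) (Pe_nonneg F.isLaw _)
    rw [h1, mul_zero] at hPBB'
    linarith
  have hsubB : Sub B' B := fun ω h => hB₀B ω (hB' ω h)
  have hSB' : S.St (δ + δ + 3 * δ) J F B' := by
    refine S.res (by linarith) hSB hsubB ?_
    have h3 := mul_le_mul_of_nonneg_left hPBB' (Real.exp_pos (-(3 * δ * J))).le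
    rw [← mul_assoc, ← Real.exp_add, neg_add_cancel, Real.exp_zero, one_mul] at h3
    exact h3
  have hTm : ∀ hl : IsLaw (Pool.Agent.H49.Ent.cond F.p B' True),
      (F.res B' True hl).Tm (C₀ * (5 * δ) * J) := by
    have e1 : δ + δ + 3 * δ = 5 * δ := by ring
    rw [e1] at hSB'
    exact (htm _ J F B' (by linarith) hSB').2
  -- the windows
  obtain ⟨V, hVd⟩ : ∃ V, V = ⌊wz * (J' : ℝ)⌋₊ := ⟨_, rfl⟩
  obtain ⟨aZ, haZ⟩ : ∃ aZ, aZ = ⌊az * (J' : ℝ)⌋₊ := ⟨_, rfl⟩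
  have hV1 : wz * (J' : ℝ) < V + 1 := by rw [hVd]; exact Nat.lt_floor_add_one _
  have haZ1 : az * (J' : ℝ) < aZ + 1 := by rw [haZ]; exact Nat.lt_floor_add_one _
  have hVaZ : V ≤ aZ := by
    rw [hVd, haZ]
    exact Nat.floor_le_floor (mul_le_mul_of_nonneg_right hwa hJ'0)
  have haZJ : aZ ≤ J' := by
    rw [haZ]
    refine Nat.floor_le_of_le ?_
    have := mul_le_mul_of_nonneg_right haz1 hJ'0
    linarith
  have hVJ : V ≤ J' := hVaZ.trans haZJ
  have hazJ : az * (1 - w₁) * J ≤ az * (J' : ℝ) := by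
    have := mul_le_mul_of_nonneg_left hJ'1 haz0
    linarith
  have hwzJ : wz * (1 - w₁) * J ≤ wz * (J' : ℝ) := by
    have := mul_le_mul_of_nonneg_left hJ'1 hwz0
    linarith
  have hCf0 : (0 : ℝ) ≤ Cf := Nat.cast_nonneg _
  have hwinA : ⌊a * (J : ℝ)⌋₊ ≤ W + aZ := by
    refine Nat.floor_le_of_le ?_
    push_cast
    have h1 := mul_le_mul_of_nonneg_right hη4 hJr
    have e2 : (a + η) * (J : ℝ) = a * J + η * J := by ring
    have e3 : (w₁ + az * (1 - w₁)) * (J : ℝ) = w₁ * J + az * (1 - w₁) * J := by ring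
    rw [e2, e3] at h1
    linarith
  have hwinW : ⌊w * (J : ℝ)⌋₊ ≤ W + V := by
    refine Nat.floor_le_of_le ?_
    push_cast
    have h1 := mul_le_mul_of_nonneg_right hη5 hJr
    have e2 : (w + η) * (J : ℝ) = w * J + η * J := by ring
    have e3 : (w₁ + wz * (1 - w₁)) * (J : ℝ) = w₁ * J + wz * (1 - w₁) * J := by ring
    rw [e2, e3] at h1
    linarith
  obtain ⟨gf, hgf⟩ : ∃ gf : ℕ → ℕ, gf = fun i => ⌊g i * (J : ℝ)⌋₊ := ⟨_, rfl⟩
  obtain ⟨ef, hef⟩ : ∃ ef : ℕ, ef = ⌊E * (J : ℝ)⌋₊ := ⟨_, rfl⟩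
  have hefr : (ef : ℝ) ≤ E * J := by rw [hef]; exact Nat.floor_le (mul_nonneg hE hJr)
  obtain ⟨G, H, hL0⟩ : ChN F ch (l.length + 1) (fun _ => K) (W + aZ) (W + V) ef gf B' := by
    refine ((ChN.hered F ch (l.length + 1) (fun _ => K) _ _ _ _) B₀ B' hB' ?_ |>.mono le_rfl
      (fun _ _ => le_rfl) hwinA hwinW (by omega) le_rfl)
    rw [hef, hgf]
    exact hch
  rw [← hn] at hL0
  have hgfr : ∀ i < n, (gf i : ℝ) ≤ g i * J := by
    intro i hi
    rw [hgf]
    refine Nat.floor_le (mul_nonneg ?_ hJr)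
    have := hη1 i hi
    linarith
  have hgfr' : ∀ i, g i * (J : ℝ) < gf i + 1 := by
    intro i
    rw [hgf]
    exact Nat.lt_floor_add_one _
  have hvis : ∀ i < n, ef + Cf + M q + (Finset.Icc 0 i).sup gf ≤ J := by
    intro i hi
    have h1 : ∀ j ∈ Finset.Icc 0 i, gf j ≤ J - (ef + Cf + M q) := by
      intro j hj
      have hjn : j < n := (Finset.mem_Icc.1 hj).2.trans_lt hi
      have h2 := hη2 j hjn
      have h3 := mul_le_mul_of_nonneg_right h2 hJr
      have e1 : (E + x + g j + η) * (J : ℝ) = E * J + x * J + g j * J + η * J := by ring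
      rw [e1, one_mul] at h3
      have h4 := hgfr j hjn
      have h5 := mul_le_mul_of_nonneg_right hxx hJr
      have h8 : x / 2 * (J : ℝ) ≤ x * J := mul_le_mul_of_nonneg_right (by linarith) hJr
      rw [hμ] at hμr
      have h6 : ((gf j + (ef + Cf + M q) : ℕ) : ℝ) ≤ J := by
        push_cast
        linarith
      have h7 : gf j + (ef + Cf + M q) ≤ J := by exact_mod_cast h6
      omega
    have h2 := Finset.sup_le h1
    have h3 : ef + Cf + M q ≤ J := by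
      have h4 := h1 0 (Finset.mem_Icc.2 ⟨le_rfl, Nat.zero_le _⟩)
      have h2' := hη2 i hi
      have h3 := mul_le_mul_of_nonneg_right h2' hJr
      have e1 : (E + x + g i + η) * (J : ℝ) = E * J + x * J + g i * J + η * J := by ring
      rw [e1, one_mul] at h3
      have h5 := mul_le_mul_of_nonneg_right hxx hJr
      have h8 : x / 2 * (J : ℝ) ≤ x * J := mul_le_mul_of_nonneg_right (by linarith) hJr
      have h9 : 0 ≤ g i * (J : ℝ) := mul_nonneg (by have := hη1 i hi; linarith) hJr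
      rw [hμ] at hμr
      have h6 : ((ef + Cf + M q : ℕ) : ℝ) ≤ J := by
        push_cast
        linarith
      exact_mod_cast h6
    omega
  have hgW : ∀ i < n, W + lsq N i ≤ gf i := by
    intro i hi
    have h1 := mul_le_mul_of_nonneg_right (hη1 i hi) hJr
    have h2 := hgfr' i
    have h3 : ((lsq N i : ℕ) : ℝ) ≤ Cf := by exact_mod_cast hNC i hi.le
    have e1 : (w₁ + η) * (J : ℝ) = w₁ * J + η * J := by ring
    rw [e1] at h1
    have h4 : ((W + lsq N i : ℕ) : ℝ) < gf i + 1 := by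
      push_cast
      linarith
    have h5 : W + lsq N i < gf i + 1 := by exact_mod_cast h4
    omega
  have hinj : Set.InjOn ch (Set.Iio n) := by
    intro i hi j hj hij
    rw [Set.mem_Iio] at hi hj
    rw [hcof i (by omega), hcof j (by omega)] at hij
    exact Pool.FRN.cof_inj hld hkl (by rw [Set.mem_Iio]; omega) (by rw [Set.mem_Iio]; omega) hij
  obtain ⟨B₁, hB₁, hPB₁, e', hfin⟩ := hfwd F hsumN hVJ (cb := cb) (p := p) (q := q) (hp := hu)
    (M := M) z' le_rfl hinj (fun i hi => hpq i (by omega)) hL0 hvis hgW hB'0 hpt hTm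
  have hsubB₁ : Sub B₁ B := fun ω h => hsubB ω (hB₁ ω h)
  have hPB₁' : Real.exp (-(τ * J')) * Pe F.p B ≤ Pe F.p B₁ := by
    have h1 : Real.exp (-(3 * δ * J)) * Pe F.p B ≤ Pe F.p B' := by
      have h3 := mul_le_mul_of_nonneg_left hPBB' (Real.exp_pos (-(3 * δ * J))).le
      rw [← mul_assoc, ← Real.exp_add, neg_add_cancel, Real.exp_zero, one_mul] at h3
      exact h3
    have h2 : Real.exp (-(C₀ * (5 * δ) * J)) * (Real.exp (-(3 * δ * J)) * Pe F.p B) ≤
        Pe F.p B₁ := (mul_le_mul_of_nonneg_left h1 (Real.exp_pos _).le).trans hPB₁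
    refine le_trans ?_ h2
    rw [← mul_assoc, ← Real.exp_add]
    refine mul_le_mul_of_nonneg_right (Real.exp_le_exp.2 ?_) hB0.le
    have h4 : (5 * C₀ + 4) * δ * J ≤ τ * J' := by
      calc (5 * C₀ + 4) * δ * J ≤ τ * (1 - w₁) * J := mul_le_mul_of_nonneg_right hδ1 hJr
        _ = τ * ((1 - w₁) * J) := by ring
        _ ≤ τ * J' := mul_le_mul_of_nonneg_left hJ'1 hτ.le
    have e1 : -(C₀ * (5 * δ) * (J : ℝ)) + -(3 * δ * J) = -((5 * C₀ + 4) * δ * J) + δ * J := by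
      ring
    have h5 : 0 ≤ δ * J := mul_nonneg hδ0.le hJr
    rw [e1]
    linarith
  have hPJ : (⌊P * (J' : ℝ)⌋₊ : ℝ) ≤ P * J' := Nat.floor_le (mul_nonneg hP0 hJ'0)
  subst hW
  refine ⟨B₁, hsubB₁, ?_, ?_⟩
  · have hsupp : ∀ D : F.Ω → Prop, Sub D B → Pe F.p (fun ω => A ω ∧ D ω) = Pe F.p D := by
      intro D hD
      congr 1
      funext ω
      exact propext ⟨fun h => h.2, fun h => ⟨hBA ω (hD ω h), h⟩⟩
    change Real.exp (-(τ * J')) * Pe (Pool.Agent.H49.Ent.cond F.p A True) B ≤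
      Pe (Pool.Agent.H49.Ent.cond F.p A True) B₁
    rw [Pe_cond, Pe_cond, hsupp B (fun _ h => h), hsupp B₁ hsubB₁, mul_div_assoc']
    exact div_le_div_of_nonneg_right hPB₁' hA0
  · refine ⟨aZ, V, e', fun i => gf i + msc q (M q) (ch i) - (⌊w₁ * (J : ℝ)⌋₊ + lsq N i), hVaZ,
      haZ.le, hVd.le, ?_, fun i hi => ?_, ?_⟩
    · rw [← haZ]
      refine Nat.add_le_add_right ?_ _
      have h1 := hgfr' l.length
      have h2 := mul_le_mul_of_nonneg_right hη3 hJr
      have e1 : (w₁ + P * (1 - w₁) + η) * (J : ℝ) = w₁ * J + P * ((1 - w₁) * J) + η * J := by ring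
      rw [e1] at h2
      have h3 : ((lsq N l.length : ℕ) : ℝ) ≤ Cf := by exact_mod_cast hNC _ (by omega)
      have h4 : P * (J' : ℝ) ≤ P * ((1 - w₁) * J) + P := by
        have h5 := mul_le_mul_of_nonneg_left hJ'2 hP0
        linarith
      have h6 : P ≤ 1 := by
        have h7 := hg l.length (by omega)
        by_contra hcon
        have h8 : 1 * (1 - w₁) ≤ P * (1 - w₁) :=
          mul_le_mul_of_nonneg_right (not_le.1 hcon).le h01.le
        linarith
      have h7 : ((⌊P * (J' : ℝ)⌋₊ + (⌊w₁ * (J : ℝ)⌋₊ + lsq N l.length) : ℕ) : ℝ) <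
          gf l.length + 1 := by
        push_cast
        linarith
      have h8 : ⌊P * (J' : ℝ)⌋₊ + (⌊w₁ * (J : ℝ)⌋₊ + lsq N l.length) < gf l.length + 1 := by
        exact_mod_cast h7
      show ⌊P * (J' : ℝ)⌋₊ ≤ gf l.length + msc q (M q) (ch l.length) -
        (⌊w₁ * (J : ℝ)⌋₊ + lsq N l.length)
      omega
    · have h1 := hvis i (by omega)
      have h2 : gf i ≤ (Finset.Icc 0 i).sup gf := Finset.le_sup (f := gf)
        (Finset.mem_Icc.2 ⟨Nat.zero_le _, le_rfl⟩)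
      have h3 := msc_le q (M q) (ch i)
      show gf i + msc q (M q) (ch i) - (⌊w₁ * (J : ℝ)⌋₊ + lsq N i) ≤ J'
      omega
    · rw [← hn]
      obtain ⟨G₁, H₁, h1⟩ := Pool.LBN.chn_congr hfin (c' := cof l k) (K' := fun _ => max K 1)
        (g' := fun i => gf i + msc q (M q) (ch i) - (⌊w₁ * (J : ℝ)⌋₊ + lsq N i))
        (fun i hi => hcof i (by omega)) (fun _ _ => le_rfl) (fun _ _ => rfl)
      exact ⟨G₁, H₁, h1.degG, h1.degH, h1.depG, h1.depH, fun ω hω => h1.pos ω hω,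
        fun ω hω => h1.agr ω hω, fun ω hω => h1.lip ω hω⟩

end Pool.SHE33
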