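import Pool.Agent.H80.ZC.Zfg
import Pool.Agent.H39.GEN.Zfin
import Pool.Agent.H60.GEN.NumT

/-!
# A package for a class of sheared zooms

`cls_ex`: if the requirements on the closed data can be satisfied, there is a package whose class
does not have the bad properties of a countable family, as soon as the sheared zooms under one
requirement do not have them.
-/

set_option autoImplicit false

namespace Pool.SHE33

open Finset Real MvPolynomial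
open Pool.Agent.H49.Ent Pool.Agent.H32.Dense Pool.STK Pool.KA Pool.KSAT Pool.K2S Pool.PB Pool.S6C
open Pool.GEN Pool.ZCL Pool.TOP Pool.ZLC Pool.ZCO Pool.ONE Pool.PKG
open Pool.LBT (LSys ThrOf)
open Pool.ALL (RateOf numx)

variable {n : ℕ}

/-- **A package for a class of sheared zooms.** -/
theorem cls_ex (hn : 2 ≤ n) {S : PCl n} {C₀ : ℝ} (hC₀ : 0 ≤ C₀) (htm : TmC S C₀) {al : ℝ}
    {g₀ : ℝ → ℝ} (hal : 0 < al) (hg₀ : ∀ ε : ℝ, 0 < ε → 0 < g₀ ε) {N : ℚ → ℚ → ℝ}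
    (hN : ActM N al g₀) {kap : Fin n} (hkap : (kap : ℕ) = 0) (hact : ActB N S kap) {b : ℝ}
    (hb0 : 0 < b) (hb1 : b < 1) {cL : ℝ} {Req : Type*} {R : Req → DtP n}
    (hD : ZReq S b kap cL R) {ι : Type} [Countable ι] {Φ : ι → Stat n} (hΦ : ∀ i, UPr (Φ i))
    (i₀ : ι) (h₀ : ∃ r, ZPr S b (id : Fin n → Fin n) (R r) (fun J G B => ¬ Φ i₀ J G B)) :
    ∃ (Sb : PCl n) (Pb : ℝ → ℝ → ℝ) (rb : ℝ → ℝ) (Pb' : ℕ → List (Fin n) × Fin n → ℝ → ℝ → ℝ)
      (Λb : Finset (Fin n) → Fin n → ℝ → ℝ → ℝ)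
      (PBb : ℕ → List (Fin n) × Fin n → ℝ → ℝ → ℝ), PkT hn Sb Pb rb Pb' Λb PBb ∧
      ∀ i, (∃ r, ZPr S b (id : Fin n → Fin n) (R r) (fun J G B => ¬ Φ i J G B)) →
        Bas Sb (fun J G B => ¬ Φ i J G B) := by
  classical
  have : Nonempty {i : ι // ∃ r, ZPr S b (id : Fin n → Fin n) (R r)
      (fun J G B => ¬ Φ i J G B)} := ⟨⟨i₀, h₀⟩⟩
  obtain ⟨S', hS', h1⟩ := zcof_cls hC₀ htm hb0 hb1 (ε := (id : Fin n → Fin n)) (kap := kap)
    (fun k hk => Fin.ext (by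
      show (k : ℕ) = (kap : ℕ)
      rw [hk, hkap])) (B₀ := al + 1) (by linarith) hD
    (Φ := fun i : {i : ι // ∃ r, ZPr S b (id : Fin n → Fin n) (R r)
      (fun J G B => ¬ Φ i J G B)} => Φ i.1) (fun i => hΦ i.1) (fun i => i.2)
  have hC := hS'.clx (ActM.real (fun τ J F A hτ hA => (htm τ J F A hτ hA).1) hal.le hN hact
    hb0.le hb1)
  obtain ⟨S₂, P, rr, hC2, h3, hT, hrr⟩ := numx (hasThr_tgs (lst hn)) hC
  obtain ⟨S₃, P', Λ, PB, h4, -, hPk⟩ := pkT_ex hn hal (fun ε hε => lt_min (hg₀ _ (half_pos hε))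
    one_pos) hC2 (P := P ()) (r := rr (lst hn)) hT (hrr (lst hn))
  refine ⟨S₃, P (), rr (lst hn), P', Λ, PB, hPk, fun i hi => ?_⟩
  exact Bas.sub (fun τ J F A hA => h3 τ J F A (h4 τ J F A hA)) (h1 ⟨i, hi⟩)

end Pool.SHE33
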