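import Pool.Agent.H33.SHE.Shu
import Pool.Agent.H57.SWB.Tsm

/-!
# The cell `one, thin, sta`

`c1ts`: the cell `one, thin, sta`, without hypotheses.
-/

set_option autoImplicit false

namespace Pool.SHE33

open Pool.PKG Pool.STAT Pool.ASM

/-- **The cell** `one, thin, sta`. -/
theorem c1ts : LCellM 4 [Kd.one, Kd.thin, Kd.sta] := Pool.SWP.c1ts_she lSheT_ts

end Pool.SHE33
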