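import Pool.Agent.H9.ZC.Zsh
import Pool.Agent.H54.GN.Lb

/-!
# Sheared zooms: the data

`LhOK`: closed labels of the linear form `x t - c * x u`, where `c` is a function on the samples,
without velocities. `Lh`: there is one. `ShX w₁ hu x Ψ`: the requirement for closed linear
coordinates: they are the sheared coordinates `Pool.ZLC.shC cb u {t} hu M`, where the coefficient
`cb (z' _) t` is at most `2 ^ M t` and `M t` is at most `x J + 1`; moreover the property `Ψ` of the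
coefficients on the samples holds.
-/

set_option autoImplicit false

namespace Pool.SHE33

open Finset Real MvPolynomial
open Pool.Agent.H49.Ent Pool.Agent.H32.Dense Pool.STK Pool.KA Pool.KSAT Pool.K2S Pool.PB Pool.S6C
open Pool.GEN Pool.ZCL Pool.TOP Pool.ZLC

variable {m J : ℕ}

/-- **Closed labels of the linear form** `x t - c * x u`, without velocities. -/
structure LhOK (F : Fam m J) (I : Finset (Fin m)) (u t : Fin m) (c : F.Ω → ℝ) (K e w ρ P : ℕ)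
    (A : F.Ω → Prop) {V : Type} (z : PtT F → V) (z' : LnT F → V)
    (G : V → MvPolynomial (Option (Fin m)) ℝ) : Prop where
  deg : ∀ v, (G v).totalDegree ≤ K
  dep : ∀ v, ∀ b b' : Option (Fin m) → ℝ, b none = b' none →
    (∀ i ∈ I, b (some i) = b' (some i)) → eval b (G v) = eval b' (G v)
  cls : ∀ ω, A ω → z (ptr F J ω) = z' (slam F w ω)
  pos : ∀ ω, A ω →
    |F.x ω t - c ω * F.x ω u - eval (bt F ω) (G (z' (slam F w ω)))| ≤ 1 / 2 ^ P
  lip : ∀ ω, A ω → ∀ b : Option (Fin m) → ℝ, (∀ o, |b o - bt F ω o| ≤ 1 / 2 ^ ρ) → ∀ o,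
    |eval b (pderiv o (G (z' (slam F w ω))))| ≤ 2 ^ e

/-- **There is a closed label of the linear form.** -/
def Lh (F : Fam m J) (I : Finset (Fin m)) (u t : Fin m) (c : F.Ω → ℝ) (K e w ρ P : ℕ)
    (A : F.Ω → Prop) : Prop :=
  ∃ (V : Type) (z : PtT F → V) (z' : LnT F → V) (G : V → MvPolynomial (Option (Fin m)) ℝ),
    LhOK F I u t c K e w ρ P A z z' G

theorem LhOK.sub {F : Fam m J} {I : Finset (Fin m)} {u t : Fin m} {c : F.Ω → ℝ} {K e w ρ P : ℕ}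
    {A B : F.Ω → Prop} {V : Type} {z : PtT F → V} {z' : LnT F → V}
    {G : V → MvPolynomial (Option (Fin m)) ℝ} (h : LhOK F I u t c K e w ρ P A z z' G)
    (hB : Sub B A) : LhOK F I u t c K e w ρ P B z z' G :=
  ⟨h.deg, h.dep, fun ω hω => h.cls ω (hB ω hω), fun ω hω => h.pos ω (hB ω hω),
    fun ω hω => h.lip ω (hB ω hω)⟩

theorem Lh.sub {F : Fam m J} {I : Finset (Fin m)} {u t : Fin m} {c : F.Ω → ℝ} {K e w ρ P : ℕ}
    {A B : F.Ω → Prop} (h : Lh F I u t c K e w ρ P A) (hB : Sub B A) :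
    Lh F I u t c K e w ρ P B := by
  obtain ⟨V, z, z', G, h⟩ := h
  exact ⟨V, z, z', G, h.sub hB⟩

/-- The coefficients matter only on the event. -/
theorem Lh.congr {F : Fam m J} {I : Finset (Fin m)} {u t : Fin m} {c c' : F.Ω → ℝ}
    {K e w ρ P : ℕ} {A : F.Ω → Prop} (h : Lh F I u t c K e w ρ P A) (hc : ∀ ω, A ω → c' ω = c ω) :
    Lh F I u t c' K e w ρ P A := by
  obtain ⟨V, z, z', G, h⟩ := h
  exact ⟨V, z, z', G, h.deg, h.dep, h.cls, fun ω hω => by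
    rw [hc ω hω]
    exact h.pos ω hω, h.lip⟩

/-- **The requirement**: sheared coordinates, with a property of the coefficients. -/
def ShX (w₁ : ℝ) {u t : Fin m} (hu : u ∉ ({t} : Finset (Fin m))) (x : ℝ)
    (Ψ : ∀ (J : ℕ) (F : Fam m J) (_ : F.Ω → Prop), (F.Ω → ℝ) → Prop) : DtP m :=
  fun J F A κ C z' => ∃ (cb : κ → Fin m → ℝ) (M : Fin m → ℕ), C = shC cb u {t} hu M ∧
    (M t : ℝ) ≤ x * J + 1 ∧ (∀ ω, A ω → |cb (z' (slam F ⌊w₁ * J⌋₊ ω)) t| ≤ 2 ^ M t) ∧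
    Ψ J F A (fun ω => cb (z' (slam F ⌊w₁ * J⌋₊ ω)) t)

theorem ShX.mono {w₁ : ℝ} {u t : Fin m} {hu : u ∉ ({t} : Finset (Fin m))} {x : ℝ}
    {Ψ Ψ' : ∀ (J : ℕ) (F : Fam m J) (_ : F.Ω → Prop), (F.Ω → ℝ) → Prop}
    (hΨ : ∀ J F A c, Ψ J F A c → Ψ' J F A c) {J : ℕ} {F : Fam m J} {A : F.Ω → Prop} {κ : Type}
    {C : Crd m κ} {z' : LnT F → κ} (h : ShX w₁ hu x Ψ J F A κ C z') :
    ShX w₁ hu x Ψ' J F A κ C z' := by
  obtain ⟨cb, M, h1, h2, h3, h4⟩ := h
  exact ⟨cb, M, h1, h2, h3, hΨ _ _ _ _ h4⟩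

/-- The sheared coordinates keep the other coordinates, they are Lipschitz functions. -/
theorem ShX.crdK {w₁ : ℝ} {u t : Fin m} {hu : u ∉ ({t} : Finset (Fin m))} {x : ℝ}
    {Ψ : ∀ (J : ℕ) (F : Fam m J) (_ : F.Ω → Prop), (F.Ω → ℝ) → Prop}
    {J : ℕ} {F : Fam m J} {A : F.Ω → Prop} {κ : Type}
    {C : Crd m κ} {z' : LnT F → κ} (h : ShX w₁ hu x Ψ J F A κ C z') {kap : Fin m} (hk : kap ≠ t) :
    CrdK kap 2 J F A κ C z' := by
  obtain ⟨cb, M, rfl, h2, h3, h4⟩ := h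
  exact ⟨shC_bd cb u {t} hu M, fun k y => shC_not (by rw [Finset.mem_singleton]; exact hk) k y⟩

end Pool.SHE33
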