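import Pool.Agent.H39.GEN.Psc
import Pool.Agent.H33.SHE.Dat

/-!
# The digits of a coordinate in the sheared zoom

`zoom_dig`: the entropy of the digits `(x', y']` of a coordinate which is not sheared in the zoom,
given its first digits and all digits of the other coordinates, is at most the entropy of the digits
`(w + x', w + y']` in the family, up to the size of the shear.
-/

set_option autoImplicit false

namespace Pool.SHE33

open Finset Real MvPolynomial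
open Pool.Agent.H49.Ent Pool.Agent.H32.Dense Pool.STK Pool.KA Pool.KSAT Pool.K2S Pool.PB Pool.S6C
open Pool.GEN Pool.ZCL Pool.TOP Pool.ZLC
open Pool.PSI (ch_fl fl_near rng_le' L_sub)

variable {m J : ℕ}

/-- The first digits of the coordinate `k` and the other coordinates. -/
noncomputable def cdg (F : Fam m J) (k : Fin m) (x : ℕ) (ω : F.Ω) : ℤ × (Fin m → ℤ) :=
  (F.X x ω k, Function.update (F.X J ω) k 0)

/-- Samples with the same zoomed coordinates. -/
theorem shc_near {F : Fam m J} {W J' : ℕ} (h : W + J' = J) {κ : Type} {cb : κ → Fin m → ℝ}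
    {u t : Fin m} {hu : u ∉ ({t} : Finset (Fin m))} {M : Fin m → ℕ} {g : F.Ω → κ} {ω ω' : F.Ω}
    (hW : (zfc F W J' h.le (shC cb u {t} hu M) g id).W ω =
      (zfc F W J' h.le (shC cb u {t} hu M) g id).W ω') {i : Fin m} :
    |((zfc F W J' h.le (shC cb u {t} hu M) g id).x ω i -
      (zfc F W J' h.le (shC cb u {t} hu M) g id).x ω' i) -
      2 ^ W * ((shC cb u {t} hu M).L (g ω) (fun j => F.x ω j - F.x ω' j) i)| ≤ 6 / 2 ^ J' := by
  obtain ⟨hT, hl⟩ := (zcw_iff h (shC cb u {t} hu M) g id).1 hW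
  obtain ⟨b1, b2, b3, b4, -⟩ := Box.split_lab F hl
  have htb : tb F W ω = tb F W ω' := by
    unfold tb Fam.t
    rw [hT, b1]
  have c1 := zfc_x F h.le (shC cb u {t} hu M) g id ω i
  have c2 := zfc_x F h.le (shC cb u {t} hu M) g id ω' i
  rw [← b3, ← b4, ← htb, ← b2] at c2
  simp only [id_eq] at c1 c2
  rw [L_sub]
  have c6 : (6 : ℝ) / 2 ^ J' = 3 / 2 ^ J' + 3 / 2 ^ J' := by ring
  rw [c6, mul_sub]
  rw [abs_le] at c1 c2 ⊢
  constructor <;> linarith [c1.1, c1.2, c2.1, c2.2]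

/-- **The digits of a coordinate in the sheared zoom.** -/
theorem zoom_dig {F : Fam m J} {W J' : ℕ} (h : W + J' = J) {κ : Type} (cb : κ → Fin m → ℝ)
    {u t N : Fin m} (hu : u ∉ ({t} : Finset (Fin m))) (hNt : N ≠ t) (hNu : N ≠ u)
    (M : Fin m → ℕ) (g : F.Ω → κ) {q : F.Ω → ℝ} (hq : IsLaw q) {x y : ℕ} (hx : x ≤ J')
    (hy : y ≤ J') :
    CH q (fun ω => (zfc F W J' h.le (shC cb u {t} hu M) g id).X y ω N)
      (fun ω => (cdg (zfc F W J' h.le (shC cb u {t} hu M) g id) N x ω,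
        (zfc F W J' h.le (shC cb u {t} hu M) g id).W ω)) ≤
    CH q (fun ω => F.X (W + y) ω N) (fun ω => (cdg F N (W + x) ω, F.W ω)) +
      (m + 2) * ((M t + 7) * Real.log 2) := by
  have h0 := hq.nonneg
  have hnear := fun (ω ω' : F.Ω) hW i => shc_near (cb := cb) (hu := hu) (M := M) (g := g) h
    (ω := ω) (ω' := ω') hW (i := i)
  have hWW : ∀ ω ω' : F.Ω, (zfc F W J' h.le (shC cb u {t} hu M) g id).W ω =
      (zfc F W J' h.le (shC cb u {t} hu M) g id).W ω' → F.W ω = F.W ω' := by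
    intro ω ω' hh
    obtain ⟨hT, hl⟩ := (zcw_iff h (shC cb u {t} hu M) g id).1 hh
    exact Prod.ext hT (Box.split_lab F hl).2.2.2.2
  -- the objects as functions on the samples
  obtain ⟨xg, hxg⟩ : ∃ xg : F.Ω → Fin m → ℝ,
    xg = (zfc F W J' h.le (shC cb u {t} hu M) g id).x := ⟨_, rfl⟩
  obtain ⟨Wg, hWg⟩ : ∃ Wg : F.Ω → ℕ × ((((ℕ × κ) × ((Fin m → ℤ) × (Fin m → ℤ))) × F.ζ)),
    Wg = (zfc F W J' h.le (shC cb u {t} hu M) g id).W := ⟨_, rfl⟩
  have hXg : ∀ (p : ℕ) (ω : F.Ω) (i : Fin m),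
      (zfc F W J' h.le (shC cb u {t} hu M) g id).X p ω i = ⌊(2 : ℝ) ^ p * xg ω i⌋ := by
    intro p ω i
    rw [hxg]
    rfl
  rw [← hxg, ← hWg] at hnear
  have hWW' : ∀ ω ω' : F.Ω, Wg ω = Wg ω' → F.W ω = F.W ω' := by
    intro ω ω' hh
    rw [hWg] at hh
    exact hWW ω ω' hh
  obtain ⟨Cg, hCg⟩ : ∃ Cg : F.Ω → (ℤ × (Fin m → ℤ)) ×
      (ℕ × ((((ℕ × κ) × ((Fin m → ℤ) × (Fin m → ℤ))) × F.ζ))),
      Cg = fun ω => (cdg (zfc F W J' h.le (shC cb u {t} hu M) g id) N x ω, Wg ω) := ⟨_, rfl⟩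
  obtain ⟨Y, hY⟩ : ∃ Y : F.Ω → ℤ × (Fin m → ℤ), Y = cdg F N (W + x) := ⟨_, rfl⟩
  obtain ⟨Gy, hGy⟩ : ∃ Gy : F.Ω → ℤ, Gy = fun ω => ⌊(2 : ℝ) ^ y * xg ω N⌋ := ⟨_, rfl⟩
  obtain ⟨U, hU⟩ : ∃ U : F.Ω → ℤ, U = fun ω => ⌊(2 : ℝ) ^ (W + y) * F.x ω N⌋ := ⟨_, rfl⟩
  have e1 : (fun ω => (zfc F W J' h.le (shC cb u {t} hu M) g id).X y ω N) = Gy := by
    rw [hGy]
    funext ω
    exact hXg y ω N
  have e2 : (fun ω => (cdg (zfc F W J' h.le (shC cb u {t} hu M) g id) N x ω,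
      (zfc F W J' h.le (shC cb u {t} hu M) g id).W ω)) = Cg := by
    rw [hCg, hWg]
    rfl
  have e3 : (fun ω => F.X (W + y) ω N) = U := by
    rw [hU]
    rfl
  have e4 : (fun ω => (cdg F N (W + x) ω, F.W ω)) = fun ω => (Y ω, F.W ω) := by rw [hY]
  rw [e3, e4]
  refine le_trans (le_of_eq (?_ : _ = CH q Gy Cg)) ?_
  · rw [← e1, ← e2]
    rfl
  -- the facts about equal conditions
  have p0 : ∀ p : ℕ, (0 : ℝ) < 2 ^ p := fun p => by positivity
  have hJJ : (2 : ℝ) ^ J = 2 ^ W * 2 ^ J' := by rw [← pow_add, h]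
  have hCgN : ∀ ω ω' : F.Ω, Cg ω = Cg ω' → Wg ω = Wg ω' ∧ |xg ω N - xg ω' N| ≤ 1 / 2 ^ x ∧
      ∀ i, i ≠ N → |xg ω i - xg ω' i| ≤ 1 / 2 ^ J' := by
    intro ω ω' hh
    rw [hCg] at hh
    have a1 := Prod.ext_iff.1 hh
    have a2 := Prod.ext_iff.1 a1.1
    refine ⟨a1.2, ?_, fun i hi => ?_⟩
    · have a3 : ⌊(2 : ℝ) ^ x * xg ω N⌋ = ⌊(2 : ℝ) ^ x * xg ω' N⌋ := by
        rw [← hXg, ← hXg]
        exact a2.1
      exact fl_near a3
    · have a3 : ⌊(2 : ℝ) ^ J' * xg ω i⌋ = ⌊(2 : ℝ) ^ J' * xg ω' i⌋ := by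
        rw [← hXg, ← hXg]
        have a4 := congrFun a2.2 i
        simp only [cdg] at a4
        rwa [Function.update_of_ne hi, Function.update_of_ne hi] at a4
      exact fl_near a3
  have hone : ∀ (i : Fin m) (ω ω' : F.Ω), i ≠ t → Wg ω = Wg ω' →
      2 ^ W * |F.x ω i - F.x ω' i| ≤ |xg ω i - xg ω' i| + 6 / 2 ^ J' ∧
      |xg ω i - xg ω' i| ≤ 2 ^ W * |F.x ω i - F.x ω' i| + 6 / 2 ^ J' := by
    intro i ω ω' hi hh
    have a1 := hnear ω ω' hh i
    rw [shC_not (by rw [Finset.mem_singleton]; exact hi)] at a1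
    have a2 : (2 : ℝ) ^ W * |F.x ω i - F.x ω' i| = |2 ^ W * (F.x ω i - F.x ω' i)| := by
      rw [abs_mul, abs_of_pos (p0 W)]
    rw [a2]
    obtain ⟨a3, a4⟩ := abs_le.1 a1
    have a5 := abs_sub_abs_le_abs_sub (xg ω i - xg ω' i) (2 ^ W * (F.x ω i - F.x ω' i))
    have a6 := abs_sub_abs_le_abs_sub (2 ^ W * (F.x ω i - F.x ω' i)) (xg ω i - xg ω' i)
    rw [abs_sub_comm (2 ^ W * (F.x ω i - F.x ω' i)) (xg ω i - xg ω' i)] at a6
    constructor <;> linarith
  have hp7 : ∀ p : ℕ, p ≤ J' → (1 : ℝ) / 2 ^ p + 6 / 2 ^ J' ≤ 8 / 2 ^ p := by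
    intro p hp
    have d4 : (6 : ℝ) / 2 ^ J' ≤ 6 / 2 ^ p := by
      refine div_le_div_of_nonneg_left (by norm_num) (p0 p) ?_
      exact pow_le_pow_right₀ (by norm_num) hp
    have d5 : (8 : ℝ) / 2 ^ p = 1 / 2 ^ p + 6 / 2 ^ p + 1 / 2 ^ p := by ring
    have d6 : (0 : ℝ) ≤ 1 / 2 ^ p := by positivity
    linarith
  have hdiv : ∀ (a : ℝ) (p : ℕ), 2 ^ W * a ≤ 8 / 2 ^ p → a ≤ 8 / 2 ^ (W + p) := by
    intro a p ha
    rw [pow_add, le_div_iff₀ (by positivity)]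
    rw [le_div_iff₀ (p0 p)] at ha
    calc a * (2 ^ W * 2 ^ p) = 2 ^ W * a * 2 ^ p := by ring
      _ ≤ 8 := ha
  have h8 : (8 : ℝ) = 2 ^ 3 := by norm_num
  have hl2 : 0 ≤ Real.log 2 := (Real.log_pos one_lt_two).le
  have hMt : ((M t : ℝ) + 7) * Real.log 2 = ((M t + 4 : ℕ) + 3) * Real.log 2 := by
    push_cast
    ring
  have hsm : (((3 : ℕ) : ℝ) + 3) * Real.log 2 ≤ (M t + 7) * Real.log 2 := by
    refine mul_le_mul_of_nonneg_right ?_ hl2
    push_cast
    have : (0 : ℝ) ≤ M t := Nat.cast_nonneg _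
    linarith
  -- the digits of the family given the zoom
  have g1 : CH q (fun ω => ⌊(2 : ℝ) ^ (W + x) * F.x ω N⌋) Cg ≤ (M t + 7) * Real.log 2 := by
    refine (ch_fl hq (fun ω => F.x ω N) (W + x) 3 Cg fun ω ω' _ _ hh => ?_).trans hsm
    obtain ⟨a1, a2, -⟩ := hCgN ω ω' hh
    rw [abs_sub_comm, ← h8]
    refine hdiv _ _ ?_
    refine (hone N ω ω' hNt a1).1.trans ?_
    linarith [hp7 x hx]
  have g2 : CH q (fun ω => Function.update (F.X J ω) N 0) Cg ≤ m * ((M t + 7) * Real.log 2) := by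
    obtain ⟨Xi, hXi⟩ : ∃ Xi : ℕ → F.Ω → ℤ, Xi = fun i ω => if hi : i < m then
      Function.update (F.X J ω) N 0 ⟨i, hi⟩ else 0 := ⟨_, rfl⟩
    have h3 := rng_le' h0 Xi Cg (fun _ => (M t + 7) * Real.log 2) m (fun i hi => by
      by_cases hiN : (⟨i, hi⟩ : Fin m) = N
      · have h5 : Xi i = fun _ => (0 : ℤ) := by
          rw [hXi]
          funext ω
          simp only [dif_pos hi]
          rw [hiN, Function.update_self]
        rw [h5]
        have h6 := ch_fl hq (fun _ => (0 : ℝ)) 0 (M t + 4) Cg (fun ω ω' _ _ _ => by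
          rw [sub_self, abs_zero]
          positivity)
        have h7 : (fun _ : F.Ω => ⌊(2 : ℝ) ^ 0 * (0 : ℝ)⌋) = fun _ => (0 : ℤ) := by
          funext ω
          rw [mul_zero, Int.floor_zero]
        rw [h7] at h6
        rw [hMt]
        exact h6
      · have h5 : Xi i = fun ω => ⌊(2 : ℝ) ^ J * F.x ω ⟨i, hi⟩⌋ := by
          rw [hXi]
          funext ω
          simp only [dif_pos hi]
          rw [Function.update_of_ne hiN]
          rfl
        rw [h5, hMt]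
        refine ch_fl hq (fun ω => F.x ω ⟨i, hi⟩) J (M t + 4) Cg fun ω ω' _ _ hh => ?_
        obtain ⟨a1, -, a3⟩ := hCgN ω ω' hh
        rw [abs_sub_comm]
        have p16 : (2 : ℝ) ^ (M t + 4) = 16 * 2 ^ M t := by
          rw [pow_add]
          ring
        have pM : (1 : ℝ) ≤ 2 ^ M t := one_le_pow₀ (by norm_num)
        have hother : ∀ k : Fin m, k ≠ t → k ≠ N → |F.x ω k - F.x ω' k| ≤ 8 / 2 ^ J := by
          intro k hk hkN
          have a4 := (hone k ω ω' hk a1).1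
          have a5 := a3 k hkN
          have a6 := hp7 J' le_rfl
          have a7 := hdiv (|F.x ω k - F.x ω' k|) J' (by linarith)
          rwa [h] at a7
        by_cases hit : (⟨i, hi⟩ : Fin m) = t
        · rw [hit]
          have hut : u ≠ t := fun hh => hu (Finset.mem_singleton.2 hh)
          have b1 := hnear ω ω' a1 t
          rw [shC_mem (Finset.mem_singleton_self t)] at b1
          have b2 := a3 t hNt.symm
          have b3 := hother u hut (fun hh => hNu hh.symm)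
          obtain ⟨c, hc⟩ : ∃ c, c = clp (M t) (cb (g ω) t) := ⟨_, rfl⟩
          have hcM : |c| ≤ 2 ^ M t := by
            rw [hc]
            exact clp_le _ _
          rw [← hc] at b1
          have b4 : |2 ^ W * (((F.x ω t - F.x ω' t) - c * (F.x ω u - F.x ω' u)) / 2 ^ M t)| ≤
              8 / 2 ^ J' := by
            have c1 := abs_sub_abs_le_abs_sub
              (2 ^ W * (((F.x ω t - F.x ω' t) - c * (F.x ω u - F.x ω' u)) / 2 ^ M t))
              (xg ω t - xg ω' t)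
            rw [abs_sub_comm (2 ^ W * (((F.x ω t - F.x ω' t) - c * (F.x ω u - F.x ω' u)) /
              2 ^ M t)) (xg ω t - xg ω' t)] at c1
            have c2 := hp7 J' le_rfl
            linarith
          have b5 : |(F.x ω t - F.x ω' t) - c * (F.x ω u - F.x ω' u)| ≤ 8 * 2 ^ M t / 2 ^ J := by
            rw [← mul_div_assoc, abs_div, abs_mul, abs_of_pos (p0 W), abs_of_pos (p0 (M t)),
              div_le_div_iff₀ (p0 _) (p0 _)] at b4
            rw [hJJ, le_div_iff₀ (by positivity)]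
            calc |(F.x ω t - F.x ω' t) - c * (F.x ω u - F.x ω' u)| * (2 ^ W * 2 ^ J') =
                2 ^ W * |(F.x ω t - F.x ω' t) - c * (F.x ω u - F.x ω' u)| * 2 ^ J' := by ring
              _ ≤ 8 * 2 ^ M t := b4
          have b6 : |c * (F.x ω u - F.x ω' u)| ≤ 8 * 2 ^ M t / 2 ^ J := by
            rw [abs_mul]
            calc |c| * |F.x ω u - F.x ω' u| ≤ 2 ^ M t * (8 / 2 ^ J) :=
                  mul_le_mul hcM b3 (abs_nonneg _) (p0 _).le
              _ = 8 * 2 ^ M t / 2 ^ J := by ring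
          have b7 := abs_add_le ((F.x ω t - F.x ω' t) - c * (F.x ω u - F.x ω' u))
            (c * (F.x ω u - F.x ω' u))
          rw [sub_add_cancel] at b7
          rw [p16]
          calc |F.x ω t - F.x ω' t| ≤ 8 * 2 ^ M t / 2 ^ J + 8 * 2 ^ M t / 2 ^ J :=
                b7.trans (add_le_add b5 b6)
            _ = 16 * 2 ^ M t / 2 ^ J := by ring
        · refine (hother _ hit hiN).trans ?_
          rw [p16]
          refine div_le_div_of_nonneg_right ?_ (p0 J).le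
          linarith)
    rw [Finset.sum_const, Finset.card_range, nsmul_eq_mul] at h3
    refine le_trans (le_of_eq ?_) h3
    congr 1
    funext ω i
    rw [hXi]
    simp only [i.2, dif_pos]
  have g3 : CH q Y Cg ≤ (m + 1) * ((M t + 7) * Real.log 2) := by
    have a1 := CH_subadd h0 (fun ω => ⌊(2 : ℝ) ^ (W + x) * F.x ω N⌋)
      (fun ω => Function.update (F.X J ω) N 0) Cg
    have a2 : CH q Y Cg = CH q (fun ω => (⌊(2 : ℝ) ^ (W + x) * F.x ω N⌋,
        Function.update (F.X J ω) N 0)) Cg := by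
      rw [hY]
      rfl
    rw [a2]
    linarith
  have g4 : CH q U (fun ω => (Y ω, Cg ω)) ≤ CH q U (fun ω => (Y ω, F.W ω)) := by
    refine CH_mono_cond h0 fun ω ω' _ _ hh => ?_
    have a1 := Prod.ext_iff.1 hh
    exact Prod.ext a1.1 (hWW' ω ω' (hCgN ω ω' a1.2).1)
  have g5 : CH q Gy (fun ω => (U ω, (Y ω, Cg ω))) ≤ (M t + 7) * Real.log 2 := by
    rw [hGy]
    refine (ch_fl hq (fun ω => xg ω N) y 3 _ fun ω ω' _ _ hh => ?_).trans hsm
    have a1 := Prod.ext_iff.1 hh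
    obtain ⟨a2, -, -⟩ := hCgN ω ω' (Prod.ext_iff.1 a1.2).2
    have a3 : U ω = U ω' := a1.1
    rw [hU] at a3
    have a4 := fl_near a3
    have a5 : 2 ^ W * |F.x ω N - F.x ω' N| ≤ 1 / 2 ^ y := by
      rw [le_div_iff₀ (by positivity), pow_add] at a4
      rw [le_div_iff₀ (p0 y)]
      calc 2 ^ W * |F.x ω N - F.x ω' N| * 2 ^ y = |F.x ω N - F.x ω' N| * (2 ^ W * 2 ^ y) := by ring
        _ ≤ 1 := a4
    rw [abs_sub_comm, ← h8]
    refine (hone N ω ω' hNt a2).2.trans ?_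
    linarith [hp7 y hy]
  have k1 := CH_le_add h0 Gy Y Cg
  have k2 := CH_le_add h0 Gy U (fun ω => (Y ω, Cg ω))
  have k3 : ((m : ℝ) + 2) * ((M t + 7) * Real.log 2) =
      (m + 1) * ((M t + 7) * Real.log 2) + (M t + 7) * Real.log 2 := by ring
  rw [k3]
  linarith

end Pool.SHE33
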