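import Pool.Agent.H62.GEN.JatE
import Pool.Agent.H27.TOP.Ty

/-!
# The facts at a window of a greedy order below a top number

`ful_win`: the coordinates without the target are full in the cells above the top number of a greedy
order. `t12_win`: below such a window there are no good closed labels of these coordinates, and no
steep closed labels of the target. `jat_cap`: the joint chains near such a window, for a level of the
target which is at most its threshold and at most a row `Q`.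
-/

set_option autoImplicit false

namespace Pool.SHE33

open MeasureTheory Set Filter Topology
open Pool.Agent.H49.Ent Pool.Agent.H32.Dense Pool.STK Pool.KA Pool.KSAT Pool.K2S Pool.PB
open Pool.GEN Pool.S6C Pool.STAT Pool.CHT Pool.GRW Pool.ONE Pool.STA Pool.PKG Pool.EXW
open Pool.LBT (LSys ThrOf)
open Pool.ALL (RateOf)
open Pool.TOP (T1c T2c TopS t1c_of_ful t2_of_t1 image_oc Ful RW)
open Pool.STR (AttN)
open Pool.FRN (AttC UpA Wgd Gdy attN_attC tgP_of)
open Pool.JTN (TgP Cen jatN_of)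

variable {n : ℕ} {hn : 2 ≤ n} {S : PCl n} {P : ℝ → ℝ → ℝ} {r : ℝ → ℝ}
  {P' : ℕ → List (Fin n) × Fin n → ℝ → ℝ → ℝ} {Λ : Finset (Fin n) → Fin n → ℝ → ℝ → ℝ}
  {o : Od n} {x α Q σ : ℝ}

/-- **Fullness above the top number.** -/
theorem ful_win (H : Pk hn S P r P' Λ) (hF : FZX (n - 1)) {w : ℝ}
    (hw : w ∈ Wv Λ (fun i => bse (o.1.1 i))) {u : ℝ}
    (hu : Pool.GEN.vs Λ (fun i => bse (o.1.1 i)) w (n - 1) ≤ u) :
    Ful S (Finset.univ.erase (lst hn)) w u := by
  classical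
  obtain ⟨al, g₀, s, d, e, K₀, N, hal, hg₀, hC⟩ := H.cl
  obtain ⟨ε, hε⟩ : ∃ ε : Fin (n - 1) → Fin n, ε = fun i => bse (o.1.1 i) := ⟨_, rfl⟩
  rw [← hε] at hw hu
  obtain ⟨hw0, hw1, hg, hc'⟩ := hw
  have himg : Finset.univ.image ε = Finset.univ.erase (lst hn) := by
    rw [hε]
    exact image_oc hn o.1.1
  have hεi : Function.Injective ε := by
    rw [hε]
    exact bse_inj.comp o.1.1.injective
  have hmono : Monotone (Pool.GEN.vs Λ ε w) := hg.mono H.lam hw1.le
  have htop : ∀ j : Fin (n - 1), Pool.GEN.vs Λ ε w (j + 1) ≤ u := by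
    intro j
    refine le_trans (hmono ?_) hu
    have := j.2
    omega
  have hwu : w ≤ u := (le_vs H.lam ε hw1.le (n - 1)).trans hu
  rw [← himg]
  refine full_cls (fun τ J F A _ hA => hC.pos τ J F A hA)
    (s := fun j => Pool.GEN.vs Λ ε w (j + 1))
    (r := fun j => Pool.GEN.vs Λ ε w j) (by linarith) htop (fun j =>
      (hmono (Nat.le_succ _)).trans (htop j)) (fun ρ' hρ' => ?_) (fun e he => ?_)
  · exact vst_exa hF hC.ne (by norm_num) H.tmc H.lam hal hg₀
      hC.actm H.pos hεi (fun k hk => by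
        rw [hε]
        exact hC.actb _ (o.1.2 k hk)) hw0 hw1 hg hc' hρ'
  · obtain ⟨K, hK⟩ := vst_att H.lam hw0 hw1 hg hc' he
    exact ⟨K, fun j => hK j j le_rfl⟩

/-- **No good closed labels, no steep labels** below a window with a small top number. -/
theorem t12_win (H : Pk hn S P r P' Λ) (hZ : ∀ k, 1 ≤ k → k < n → FZX k)
    (hW : 3 ≤ n → RW (n - 1)) {w : ℝ} (hw : w ∈ Wv Λ (fun i => bse (o.1.1 i)))
    (hu : Pool.GEN.vs Λ (fun i => bse (o.1.1 i)) w (n - 1) ≤ σ) (hσ : σ < 1) (hα : 0 ≤ α)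
    (hαw : α < w) (hQ : w ≤ Q) (hcD : 1 - σ ≤ 1 - Q - (r 1 - r Q)) :
    T1c S (lst hn) α σ ∧ T2c S (lst hn) α Q σ := by
  obtain ⟨al, g₀, s, d, e, K₀, N, hal, hg₀, hC⟩ := H.cl
  have hw0 := hw.1
  have hw1 := hw.2.1
  obtain ⟨α', hα'⟩ : ∃ α', α' = (α + w) / 2 := ⟨_, rfl⟩
  have h1 : α < α' := by rw [hα']; linarith
  have h2 : α' < w := by rw [hα']; linarith
  have hwσ : w ≤ σ := (le_vs H.lam _ hw1.le (n - 1)).trans hu
  have ht1 : ∀ β : ℝ, β < w → T1c S (lst hn) β σ := fun β hβ =>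
    t1c_of_ful (C₀ := 6) (by norm_num) H.tmc hσ fun u hu' =>
      ⟨w, hw0.le, hβ, by linarith, ful_win H (hZ (n - 1) (by omega) (by omega)) hw
        (hu.trans hu'.le)⟩
  exact ⟨ht1 α hαw, t2_of_t1 hn hZ hW hal hg₀ hC H.rate hα h1 (by linarith) (by linarith) hσ hcD
    (ht1 α' h2)⟩

theorem tgP_mono {S : PCl n} {c : ℕ → Fin n} {r : ℕ} {P₀ P₁ a w sg : ℝ}
    (h : TgP S c r P₀ a w sg) (hP : P₁ ≤ P₀) : TgP S c r P₁ a w sg := by
  intro ε hε
  obtain ⟨K', K₁, hK₁, h1⟩ := h ε hε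
  refine ⟨K', K₁, hK₁, h1.mono 0 ?_⟩
  rintro J - F A ⟨B, c', i, e', q, h2, h3, h4, h5, h6, h7, h8, h9, h10⟩
  exact ⟨B, c', i, e', q, h2, h3, h4, h5, h6, h7, h8,
    (mul_le_mul_of_nonneg_right (by linarith) (Nat.cast_nonneg J)).trans h9, h10⟩

/-- **The joint chains** near a window, for a level of the target below a row. -/
theorem jat_cap (H : Pk hn S P r P' Λ) (hF : FZX (n - 1))
    (hx : x ∈ Wp Λ (P' o.2) (fun i => bse (o.1.1 i))) (t1 : T1c S (lst hn) α σ)
    (t2 : T2c S (lst hn) α Q σ) (hxα : x < α) (hα1 : α ≤ 1) (hσ : σ + tht o.2 < 1)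
    (hQ0 : 0 < Q) (hQσ : Q ≤ σ) {β : ℝ → ℝ → ℝ} (hβ : Pool.LEV.Law β)
    (hβl : ∀ a w, 0 < w → w ≤ a → a ≤ 1 → a ≤ β a w)
    (hβc : ContinuousAt (fun v => β v v) x) {ρT : ℝ} (hρT : 0 < ρT)
    (hβQ : ∀ a w, 0 < w → w ≤ a → a < α → |a - x| ≤ ρT → |w - x| ≤ ρT →
      β a w ≤ min (P a w) Q) (hβx : β x x ≤ Q) {L : ℕ → ℝ → ℝ → ℝ}
    (hL : L = fun l => if l < n - 1 then bet (P' o.2) (cc hn o.1.1) l else β) :
    ∃ E ρ₀ : ℝ, 0 < E ∧ 0 < ρ₀ ∧ (∀ l ≤ n - 1, L l x x + E < 1) ∧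
      ∀ ρ : ℝ, ρ ≤ ρ₀ →
        Pool.TRC.JatN S (cc hn o.1.1) (n - 1) L x (AttC (P' o.2)) ρ E := by
  classical
  obtain ⟨al, g₀, s, d, e, K₀, N, hal, hg₀, hC⟩ := H.cl
  have hx0 := hx.1.1
  have hx1 := hx.1.2.1
  have hth := tht_pos o.2
  have hσ1 : σ < 1 := by linarith
  have hle : ∀ l < n - 1, ∀ a w : ℝ, 0 < w → w ≤ a → a < α →
      bet (P' o.2) (cc hn o.1.1) l a w ≤ σ := fun l hl a w hw hwa haα =>
    Pool.TOP.t1n t1 H.ne (H.cht o.2) hth H.tmh (by linarith) (by linarith) (by linarith) l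
      ((cc_inj hn o.1.1).mono fun x hx => by
        rw [Set.mem_Iio] at hx ⊢
        omega) (fun j hj => cc_ne hn _ (by omega)) a w hw hwa haα
  have hcε : ∀ i : Fin (n - 1), cc hn o.1.1 i = bse (o.1.1 i) := fun i => cc_lt hn _ i.2
  have hex : VExa S Λ (fun i => bse (o.1.1 i)) x := by
    intro ρ hρ
    refine vst_exa hF hC.ne (C₀ := 6) (by norm_num) H.tmc H.lam hal hg₀ hC.actm H.pos
      (bse_inj.comp o.1.1.injective) (fun k hk => hC.actb _ ?_) hx0 hx1 hx.1.2.2.1 hx.1.2.2.2 hρ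
    exact o.1.2 k hk
  have hcon : ∀ l, ContinuousAt (fun v => P' o.2 l v v) x := fun l => cont_of hx0 hx1 (hx.2 l)
  have hgre : ∀ i < n - 1, ∀ l ≤ i, bet (P' o.2) (cc hn o.1.1) l x x ≤
      P' o.2 ((List.range l).map (cc hn o.1.1), cc hn o.1.1 i) x x := by
    intro i hi l hl
    have h1 := pgr hth hC.ne (C₀ := 6) (by norm_num) H.tmc H.lam (H.cht o.2)
      (bse_inj.comp o.1.1.injective) hcε hx hex hl hi
    have h2 : bet (P' o.2) (cc hn o.1.1) l x x ≤ 1 - tht o.2 * x := by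
      have h3 := hle l (by omega) x x hx0 le_rfl hxα
      have h4 : tht o.2 * x ≤ tht o.2 := mul_le_of_le_one_right hth.le hx1.le
      linarith
    rwa [min_eq_left h2] at h1
  have hlow : ∀ l < n - 1, L l = bet (P' o.2) (cc hn o.1.1) l := fun l hl => by
    rw [hL]
    simp only
    rw [if_pos hl]
  have hlst : L (n - 1) = β := by
    rw [hL]
    simp only
    rw [if_neg (lt_irrefl _)]
  have hbl : ∀ l < n - 1, bet (P' o.2) (cc hn o.1.1) l x x ≤
      bet (P' o.2) (cc hn o.1.1) (n - 2) x x := by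
    intro l hl
    have h1 := hgre (n - 2) (by omega) l (by omega)
    have h2 := tau_mono (c := cc hn o.1.1) (l := l) (l' := n - 2) (i := n - 2) H.ne (H.cht o.2)
      ((cc_inj1 hn o.1.1).mono fun x hx => by
        rw [Set.mem_Iio] at hx ⊢
        omega) (by omega) le_rfl hx0 le_rfl (rc_of_cont hx1 (hcon _))
    rw [tau_self] at h2
    exact h1.trans h2
  obtain ⟨M, hM⟩ : ∃ M, M = max (β x x) (bet (P' o.2) (cc hn o.1.1) (n - 2) x x) := ⟨_, rfl⟩
  have hM1 : M ≤ σ := by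
    rw [hM]
    exact max_le (hβx.trans hQσ) (hle (n - 2) (by omega) x x hx0 le_rfl hxα)
  obtain ⟨E, hE⟩ : ∃ E, E = (1 + σ) / 2 - M := ⟨_, rfl⟩
  have hE0 : 0 < E := by rw [hE]; linarith
  have hEt : σ < E + β x x ∨ σ < E + bet (P' o.2) (cc hn o.1.1) (n - 2) x x := by
    rcases max_choice (β x x) (bet (P' o.2) (cc hn o.1.1) (n - 2) x x) with h | h
    · left
      rw [hE, hM, h]
      linarith
    · right
      rw [hE, hM, h]
      linarith
  obtain ⟨ρ₀, h1, h2⟩ := jatN_of (S := S) (θ := tht o.2) (P := P' o.2) H.ne (H.cht o.2)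
    (tht_pos _) H.tmh (cc_inj1 hn _) (β := L) (Att := AttC (P' o.2)) hlow (by
      rw [hlst]
      exact hβ) (by
      intro a w hw hwa ha1
      rw [hlst]
      exact hβl a w hw hwa ha1) (x := x) (sg := σ) (E := E) (by
      rw [hlst]
      exact {
        x0 := hx0
        x1 := hx1
        con := fun i _ l _ => hcon _
        conQ := hβc
        gre := fun i hi l hl => hgre i hi l hl.le
        vis := fun i hi => by
          have h1 := hle i hi x x hx0 le_rfl hxα
          have h2 : tht o.2 * x ≤ tht o.2 := mul_le_of_le_one_right hth.le hx1.le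
          linarith
        E0 := hE0
        top := by
          rcases hEt with h | h
          · exact Or.inl h
          · refine Or.inr ⟨by omega, ?_⟩
            have e1 : n - 1 - 1 = n - 2 := by omega
            rw [e1]
            exact h })
    (fun a w haw _ _ ha1 => ⟨fun i _ l _ => haw.1.rc ha1 _ l i, fun i _ => haw.1.up _ i⟩)
    (ρT := min ρT ((α - x) / 2)) (lt_min hρT (by linarith)) (by
      intro a w haw hw hwa ha1 hax hwx
      rw [hlst]
      have haα : a < α := by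
        have := (abs_le.1 (hax.trans (min_le_right _ _))).2
        linarith
      refine tgP_mono ?_ (hβQ a w hw hwa haα (hax.trans (min_le_left _ _))
        (hwx.trans (min_le_left _ _)))
      have k1 : ThrOf (tgs (cc hn o.1.1 (n - 1))) S (fun _ => P) := by
        rw [cc_top]
        exact H.tgs
      have k2 : T1c S (cc hn o.1.1 (n - 1)) α σ := by
        rw [cc_top]
        exact t1
      have k3 : T2c S (cc hn o.1.1 (n - 1)) α Q σ := by
        rw [cc_top]
        exact t2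
      exact tgP_of H.ne (H.cht o.2) (tht_pos _) H.tmh (cc_cov hn _) k1 k2 k3 hα1 hσ hQ0 hQσ hw
        hwa haα haw.1 haw.2)
  refine ⟨E, ρ₀, hE0, h1, fun l hl => ?_, h2⟩
  rcases Nat.lt_or_ge l (n - 1) with h3 | h3
  · have h5 : bet (P' o.2) (cc hn o.1.1) (n - 2) x x ≤ M := by
      rw [hM]
      exact le_max_right _ _
    rw [hlow l h3]
    have h6 := hbl l h3
    linarith
  · have e2 : l = n - 1 := by omega
    subst e2
    have h5 : β x x ≤ M := by
      rw [hM]
      exact le_max_left _ _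
    rw [hlst]
    linarith

end Pool.SHE33
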