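import Pool.Agent.H33.SHE.Hoc
import Pool.Agent.H3.SHE.She

/-!
# The comparison of the thresholds of the target near almost every good window

`off_ae`: from the numbers of the second package (`Pool.SHE3.ShN0`) and from the properties of the
second class (labels of the target on parts, no chains).
-/

set_option autoImplicit false

namespace Pool.SHE33

open MeasureTheory Set Filter Topology
open Pool.Agent.H49.Ent Pool.Agent.H32.Dense Pool.STK Pool.KA Pool.KSAT Pool.K2S Pool.PB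
open Pool.GEN Pool.S6C Pool.STAT Pool.CHT Pool.GRW Pool.ONE Pool.STA Pool.PKG Pool.EXW
open Pool.ZCL Pool.ZLC Pool.ZCO
open Pool.LBT (LSys ThrOf)
open Pool.ALL (RateOf)
open Pool.TOP (T1c T2c TopS Ful RW)
open Pool.LBN (Tch cof cof_lt cof_ge)
open Pool.FRN (AttC)
open Pool.SHE3 (zs ShN0 OffB two_acc ae_zs zs_pos zs_lt zs_le zs_one zs_lt_one zs_sub)
open Pool.OWN72 (epo)

variable {hn : 2 ≤ 4} {S Sb : PCl 4} {P Pb : ℝ → ℝ → ℝ} {r rb : ℝ → ℝ}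
  {P' Pb' : ℕ → List (Fin 4) × Fin 4 → ℝ → ℝ → ℝ} {Λ Λb : Finset (Fin 4) → Fin 4 → ℝ → ℝ → ℝ}
  {PB PBb : ℕ → List (Fin 4) × Fin 4 → ℝ → ℝ → ℝ} {o : Od 4} {b : ℝ}

/-- **The comparison of the thresholds** near almost every good window. -/
theorem off_ae (N : ShN0 hn o b r Λ rb Λb) (H : PkT hn S P r P' Λ PB)
    (Hb : PkT hn Sb Pb rb Pb' Λb PBb) (hTop : TopS 4) (hZ : ∀ k, 1 ≤ k → k < 4 → FZX k)
    (hW : 3 ≤ 4 → Pool.TOP.RW (4 - 1)) {p q : Fin 4} (hu : p ∉ ({q} : Finset (Fin 4)))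
    (hpq : ∀ i < 4, cc hn o.1.1 i = q → ∃ i' < i, cc hn o.1.1 i' = p)
    (hA : ∀ (K j : ℕ) (az wz Pz : ℚ), ZR S b hu (TMn (lst hn) K az wz Pz (1 / ((j : ℝ) + 1))) →
      Bas Sb (TMn (lst hn) K az wz Pz (1 / ((j : ℝ) + 1))))
    (hB : ∀ (K : ℕ) (az wz E x Pz : ℚ),
      ZR S b hu (fun J G A => ¬ ChE (cc hn o.1.1) 4 K az wz E x Pz J G A) →
      Bas Sb (fun J G A => ¬ ChE (cc hn o.1.1) 4 K az wz E x Pz J G A)) :
    ∀ᵐ g : ℝ, b < g → g ∈ Gs P r P' Λ o → OffB b P Pb g := by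
  classical
  have hb0 := N.b0
  have hb1 := N.b1
  have h01 : 0 < 1 - b := by linarith
  have hF : FZX (4 - 1) := hZ 3 (by norm_num) (by norm_num)
  have hbad : ∀ᵐ w : ℝ, w ∉ {w | ¬ ∀ l, ContinuousAt (dg (Pb' o.2) l) w} ∪
      {w | ¬ ContinuousAt (dgP Pb) w} := by
    refine Set.Countable.ae_notMem ?_ _
    exact (dg_ae (Hb.cht o.2)).union (dgP_mono (Hb.tgs.law ())).countable_not_continuousAt
  obtain ⟨E, hE⟩ : ∃ E : Set ℝ, E = {g | b < g ∧ g ∈ Gs P r P' Λ o ∧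
      zs b g ∈ Wp Λb (Pb' o.2) (fun i => bse (o.1.1 i)) ∧ ContinuousAt (dgP Pb) (zs b g) ∧
      ∀ l ≤ 3, Pool.GEN.vs Λb (epo hn o) (zs b g) l = zs b (Pool.GEN.vs Λ (epo hn o) g l)} :=
    ⟨_, rfl⟩
  filter_upwards [N.ctr H Hb hTop hF, N.vs H Hb hTop hF, ae_zs hb1 hbad, two_acc E] with
    g h1 h2 h3 h4 hbg hg
  rw [Set.mem_union, not_or] at h3
  obtain ⟨c2, c3⟩ := h3
  simp only [Set.mem_ofPred_eq, not_not] at c2 c3
  obtain ⟨z0, z1, zg, zc⟩ := h1 hbg hg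
  have hwp : zs b g ∈ Wp Λb (Pb' o.2) (fun i => bse (o.1.1 i)) := ⟨⟨z0, z1, zg, zc⟩, c2⟩
  have hgE : g ∈ E := by
    rw [hE]
    exact ⟨hbg, hg, hwp, c3, h2 hbg hg⟩
  -- the facts of the first class
  have hg' := hg
  obtain ⟨hW', ⟨a₁, k1, k2, k3⟩, hcP⟩ := hg'
  have hg0 : 0 < g := hb0.trans hbg
  have hg1 : g < 1 := hW'.1.2.1
  obtain ⟨Q, hQ⟩ : ∃ Q, Q = P a₁ a₁ := ⟨_, rfl⟩
  obtain ⟨c, hc⟩ : ∃ c, c = 1 - P a₁ a₁ - (r 1 - r (P a₁ a₁)) := ⟨_, rfl⟩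
  rw [← hc] at k3
  have hth := tht_pos o.2
  have hc0 : 0 < c := hth.trans k3
  have hQ1 : Q ≤ 1 - c := Pool.TOP.q_le H.rate hc0 (by rw [hc, hQ])
  have hlaw := H.tgs.law ()
  have haQ : a₁ ≤ Q := by
    rw [hQ]
    exact H.tgs.low () a₁ a₁ (by linarith) le_rfl k2
  have hPQ : P g g < Q := by
    have h5 := hlaw.slope g g (a₁ - g) hg0.le le_rfl (by linarith) (by linarith)
    rw [show g + (a₁ - g) = a₁ by ring] at h5
    have h6 := hlaw.mono_w a₁ g a₁ hg0.le k1.le le_rfl k2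
    rw [← hQ] at h6
    rcases min_le_iff.1 h5 with h7 | h7
    · linarith
    · linarith
  obtain ⟨α, hα⟩ : ∃ α, α = (g + a₁) / 2 := ⟨_, rfl⟩
  have hgα : g < α := by rw [hα]; linarith
  have hαa : α < a₁ := by rw [hα]; linarith
  obtain ⟨al, g₀, s, d, e, K₀, N', hal, hg₀, hC⟩ := H.cl
  obtain ⟨ht1, -⟩ := hTop hn al g₀ s d hal hg₀ e K₀ N' S hC P r H.tgs H.rate α a₁ Q c
    (hg0.trans hgα).le hαa k2 hQ.ge hc0 (by rw [hc, hQ])
  -- a good window above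
  obtain ⟨g', hg'E, hgg', hg'α⟩ := (h4 hgE (α - g) (by linarith)).1
  rw [hE] at hg'E
  obtain ⟨hbg', hg'G, hwp', -, hvs'⟩ := hg'E
  have hg'1 : g' < 1 := hg'G.1.1.2.1
  have htop : Pool.GEN.vs Λ (epo hn o) g' 3 ≤ 1 - c := by
    have h5 := gs_lvl H.toPk hTop hF hg'G (l := 2) (by norm_num)
    rw [LvL_lt o (by norm_num)] at h5
    rw [show (3 : ℕ) = 2 + 1 from rfl, ← h5]
    exact Pool.TOP.t1n ht1 H.ne (H.cht o.2) hth H.tmh (by linarith) (by linarith) (by linarith) 2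
      ((cc_inj hn o.1.1).mono fun x hx => by
        rw [Set.mem_Iio] at hx ⊢
        omega) (fun j hj => cc_ne hn _ (by omega)) g' g' (by linarith) le_rfl (by linarith)
  have hσ1 : zs b (1 - c) < 1 := (zs_lt_one hb1).2 (by linarith)
  have hcD : 1 - zs b (1 - c) ≤ 1 - zs b Q - (rb 1 - rb (zs b Q)) := by
    have e2 := N.hr Q 1 (by linarith) (by linarith) le_rfl
    rw [zs_one hb1] at e2
    have e3 := zs_sub b 1 (1 - c)
    have e4 := zs_sub b 1 Q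
    rw [zs_one hb1] at e3 e4
    have e5 : (1 - (1 - c)) / (1 - b) = (1 - Q) / (1 - b) - (r 1 - r Q) / (1 - b) := by
      rw [← sub_div, hc, hQ]
      congr 1
      ring
    linarith
  obtain ⟨αb, hαb⟩ : ∃ αb, αb = zs b ((g + g') / 2) := ⟨_, rfl⟩
  have hα1 : zs b g < αb := by rw [hαb]; exact (zs_lt hb1).2 (by linarith)
  have hα2 : αb < zs b g' := by rw [hαb]; exact (zs_lt hb1).2 (by linarith)
  have hg'z : zs b g' < 1 := (zs_lt_one hb1).2 hg'1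
  obtain ⟨t1, t2⟩ := t12_win Hb.toPk hZ hW (w := zs b g') hwp'.1 (σ := zs b (1 - c))
    (α := αb) (Q := zs b Q) (by
      have h5 := hvs' 3 le_rfl
      have h6 : Pool.GEN.vs Λb (fun i => bse (o.1.1 i)) (zs b g') (4 - 1) =
        zs b (Pool.GEN.vs Λ (epo hn o) g' 3) := h5
      rw [h6]
      exact (zs_le hb1).2 htop) hσ1 (by linarith) hα2 ((zs_le hb1).2 (by linarith)) hcD
  have hσθ : zs b (1 - c) + tht o.2 < 1 := by
    have e3 := zs_sub b 1 (1 - c)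
    rw [zs_one hb1] at e3
    have e5 : tht o.2 < (1 - (1 - c)) / (1 - b) := by
      rw [lt_div_iff₀ h01]
      have : tht o.2 * (1 - b) ≤ tht o.2 * 1 := mul_le_mul_of_nonneg_left (by linarith) hth.le
      linarith
    linarith
  obtain ⟨δ₂, hδ₂, hle⟩ := thr_le H.toPk Hb.toPk hF hb0 hbg hg1 hu hpq hwp t1 t2 hα1
    (by linarith) hσθ ((zs_pos hb1).2 (by linarith)) ((zs_le hb1).2 hQ1)
    ((zs_lt hb1).2 hPQ) hcP c3 hB
  obtain ⟨α', Q', c', F⟩ := H.toPk.fac hTop hF hg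
  obtain ⟨δ₁, hδ₁, hge⟩ := thr_ge F H.toPk Hb.toPk.ne Hb.tgs hb0 hbg hu hpq hA
  refine ⟨min δ₁ δ₂, lt_min hδ₁ hδ₂, fun a a' w w' q1 q2 q3 q4 q5 q6 => ?_⟩
  have m1 := min_le_left δ₁ δ₂
  have m2 := min_le_right δ₁ δ₂
  exact ⟨hge a a' w w' (by linarith) q2 q3 q4 q5 (by linarith),
    hle a a' w w' (by linarith) q2 q3 q4 q5 (by linarith)⟩

end Pool.SHE33
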