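import Pool.Agent.H33.SHE.Hof

/-!
# The thresholds of the target in the class of the sheared zooms: the second direction

`thr_le`: near a good window, labels of the target in the class of the sheared zooms are labels of
the class. The level of the target is capped at a row.
-/

set_option autoImplicit false

namespace Pool.SHE33

open MeasureTheory Set Filter Topology
open Pool.Agent.H49.Ent Pool.Agent.H32.Dense Pool.STK Pool.KA Pool.KSAT Pool.K2S Pool.PB
open Pool.GEN Pool.S6C Pool.STAT Pool.CHT Pool.GRW Pool.ONE Pool.STA Pool.PKG Pool.EXW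
open Pool.ZCL Pool.ZLC Pool.ZCO
open Pool.LBT (LSys ThrOf)
open Pool.ALL (RateOf)
open Pool.TOP (T1c T2c TopS Ful RW)
open Pool.LBN (Tch cof cof_lt cof_ge)
open Pool.FRN (AttC)

variable {n : ℕ} {hn : 2 ≤ n} {S Sb : PCl n} {P Pb : ℝ → ℝ → ℝ} {r rb : ℝ → ℝ}
  {P' Pb' : ℕ → List (Fin n) × Fin n → ℝ → ℝ → ℝ} {Λ Λb : Finset (Fin n) → Fin n → ℝ → ℝ → ℝ}
  {o : Od n} {g α Q c b : ℝ}

/-- **The capped level.** -/
noncomputable def capL (P : ℝ → ℝ → ℝ) (Q x : ℝ) (a w : ℝ) : ℝ := min (P a w) (min 1 (Q + (a - x)))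

theorem capL_law {P : ℝ → ℝ → ℝ} (h : Pool.LEV.Law P) (Q x : ℝ) : Pool.LEV.Law (capL P Q x) where
  mono_a a a' w h1 h2 h3 h4 := by
    unfold capL
    exact min_le_min (h.mono_a a a' w h1 h2 h3 h4) (min_le_min le_rfl (by linarith))
  mono_w a w w' h1 h2 h3 h4 := by
    unfold capL
    exact min_le_min (h.mono_w a w w' h1 h2 h3 h4) le_rfl
  slope a w v h1 h2 h3 h4 := by
    unfold capL
    refine le_min ?_ (le_min (min_le_left _ _) ?_)
    · refine le_trans (min_le_min le_rfl ?_) (h.slope a w v h1 h2 h3 h4)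
      have := min_le_left (P a w) (min 1 (Q + (a - x)))
      linarith
    · refine (min_le_right _ _).trans ?_
      have := (min_le_right (P a w) (min 1 (Q + (a - x)))).trans (min_le_right _ _)
      linarith

/-- The levels near a window. -/
theorem lev_near {L : ℕ → ℝ → ℝ → ℝ} {N : ℕ} {x E : ℝ} (hN : 0 < N)
    (hc : ∀ l < N, ContinuousAt (fun v => L l v v) x) (h : ∀ l < N, L l x x + E < 1) :
    ∃ ξ δ : ℝ, 0 < ξ ∧ 0 < δ ∧ ∀ l < N, ∀ v, |v - x| < δ → E + ξ + L l v v < 1 := by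
  have h1 : ∃ ξ : ℝ, 0 < ξ ∧ ∀ l < N, E + ξ + L l x x < 1 := by
    have hne : (Finset.range N).Nonempty := Finset.nonempty_range_iff.2 (by omega)
    refine ⟨(Finset.range N).inf' hne (fun l => (1 - (L l x x + E)) / 2), ?_, fun l hl => ?_⟩
    · rw [Finset.lt_inf'_iff]
      intro l hl
      rw [Finset.mem_range] at hl
      have := h l hl
      linarith
    · have h2 := Finset.inf'_le (s := Finset.range N) (fun l => (1 - (L l x x + E)) / 2)
        (Finset.mem_range.2 hl)
      have h3 := h l hl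
      linarith
  obtain ⟨ξ, hξ, h2⟩ := h1
  have h3 : ∀ᶠ v in 𝓝 x, ∀ l ∈ Finset.range N, E + ξ + L l v v < 1 := by
    rw [Filter.eventually_all_finset]
    intro l hl
    rw [Finset.mem_range] at hl
    have h4 : ContinuousAt (fun v => E + ξ + L l v v) x := continuousAt_const.add (hc l hl)
    exact h4.eventually (gt_mem_nhds (h2 l hl))
  obtain ⟨δ, hδ, h4⟩ := Metric.eventually_nhds_iff.1 h3
  exact ⟨ξ, δ, hξ, hδ, fun l hl v hv => h4 (by rwa [Real.dist_eq]) l (Finset.mem_range.2 hl)⟩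

/-- **The second direction**: labels of the zooms are labels of the class. -/
theorem thr_le (H : Pk hn S P r P' Λ) (Hb : Pk hn Sb Pb rb Pb' Λb) (hF : FZX (n - 1))
    (hb0 : 0 < b) (hbg : b < g) (hg1 : g < 1) {p q : Fin n} (hu : p ∉ ({q} : Finset (Fin n)))
    (hpq : ∀ i < n, cc hn o.1.1 i = q → ∃ i' < i, cc hn o.1.1 i' = p)
    (hx : (g - b) / (1 - b) ∈ Wp Λb (Pb' o.2) (fun i => bse (o.1.1 i))) {αb Qb σb : ℝ}
    (t1 : T1c Sb (lst hn) αb σb) (t2 : T2c Sb (lst hn) αb Qb σb)
    (hxα : (g - b) / (1 - b) < αb) (hα1 : αb ≤ 1) (hσ : σb + tht o.2 < 1) (hQ0 : 0 < Qb)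
    (hQσ : Qb ≤ σb) (hPQ : (P g g - b) / (1 - b) < Qb) (hcP : ContinuousAt (dgP P) g)
    (hcPb : ContinuousAt (dgP Pb) ((g - b) / (1 - b)))
    (hB : ∀ (K : ℕ) (az wz E x Pz : ℚ),
      ZR S b hu (fun J G A => ¬ ChE (cc hn o.1.1) n K az wz E x Pz J G A) →
      Bas Sb (fun J G A => ¬ ChE (cc hn o.1.1) n K az wz E x Pz J G A)) :
    ∃ δ : ℝ, 0 < δ ∧ ∀ a a' w w' : ℝ, g - δ < w → w < w' → w ≤ a → w' ≤ a' → a < a' →
      a' < g + δ → Pb ((a - b) / (1 - b)) ((w - b) / (1 - b)) ≤ (P a' w' - b) / (1 - b) := by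
  classical
  have hb1 : b < 1 := hbg.trans hg1
  have h01 : 0 < 1 - b := by linarith
  have hg0 : 0 < g := hb0.trans hbg
  obtain ⟨x, hxd⟩ : ∃ x, x = (g - b) / (1 - b) := ⟨_, rfl⟩
  rw [← hxd] at hx hxα hcPb
  have hx0 : 0 < x := hx.1.1
  have hx1 : x < 1 := hx.1.2.1
  have hth := tht_pos o.2
  have hxg : b + x * (1 - b) = g := by
    rw [hxd]
    field_simp
    ring
  obtain ⟨Z, hZ⟩ : ∃ Z, Z = (P g g - b) / (1 - b) := ⟨_, rfl⟩
  rw [← hZ] at hPQ
  have hPg : g ≤ P g g := H.tgs.low () g g hg0.le le_rfl hg1.le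
  have hxZ : x ≤ Z := by
    rw [hxd, hZ]
    exact (div_le_div_iff_of_pos_right h01).2 (by linarith)
  obtain ⟨Q', hQ'⟩ : ∃ Q', Q' = (Z + Qb) / 2 := ⟨_, rfl⟩
  have hQ1 : Z < Q' := by rw [hQ']; linarith
  have hQ2 : Q' < Qb := by rw [hQ']; linarith
  have hlb := Hb.tgs.law ()
  have hxc : ContinuousAt (fun v => Pb v v) x := cont_of hx0 hx1 hcPb
  have hβc : ContinuousAt (fun v => capL Pb Q' x v v) x := by
    unfold capL
    exact hxc.min (continuousAt_const.min (continuousAt_const.add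
      (continuousAt_id.sub continuousAt_const)))
  obtain ⟨L, hL⟩ : ∃ L : ℕ → ℝ → ℝ → ℝ, L = fun l => if l < n - 1 then
    bet (Pb' o.2) (cc hn o.1.1) l else capL Pb Q' x := ⟨_, rfl⟩
  obtain ⟨E, ρ₀, hE0, hρ₀, hlev, hJat⟩ := jat_cap Hb hF hx t1 t2 hxα hα1 hσ hQ0 hQσ
    (β := capL Pb Q' x) (capL_law hlb Q' x) (fun a w hw hwa ha1 => by
      unfold capL
      exact le_min (Hb.tgs.low () a w hw.le hwa ha1) (le_min ha1 (by linarith))) hβc
    (ρT := Qb - Q') (by linarith) (fun a w hw hwa haα hax hwx => by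
      unfold capL
      refine le_min (min_le_left _ _) ((min_le_right _ _).trans ((min_le_right _ _).trans ?_))
      have := (abs_le.1 hax).2
      linarith) (by
      unfold capL
      refine (min_le_right _ _).trans ((min_le_right _ _).trans ?_)
      linarith) hL
  have hn1 : ∀ l : ℕ, l < n ↔ l ≤ n - 1 := fun l => by omega
  have hLl : ∀ l < n, ContinuousAt (fun v => L l v v) x ∧ Pool.LEV.Law (L l) ∧
      ∀ a w : ℝ, 0 ≤ w → w ≤ a → a ≤ 1 → a ≤ L l a w := by
    intro l hl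
    rw [hL]
    simp only
    rcases Nat.lt_or_ge l (n - 1) with h3 | h3
    · rw [if_pos h3]
      exact ⟨cont_of hx0 hx1 (hx.2 _), (Hb.cht o.2).law _,
        fun a w h1 h2 h3 => (Hb.cht o.2).low _ a w h1 h2 h3⟩
    · rw [if_neg (not_lt.2 h3)]
      refine ⟨hβc, capL_law hlb Q' x, fun a w hw hwa ha1 => ?_⟩
      unfold capL
      exact le_min (Hb.tgs.low () a w hw hwa ha1) (le_min ha1 (by linarith))
  obtain ⟨ξ, δ₂, hξ, hδ₂, hnear⟩ := lev_near (L := L) (N := n) (x := x) (E := E) (by omega)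
    (fun l hl => (hLl l hl).1) (fun l hl => hlev l (by omega))
  obtain ⟨ε₁, hε₁⟩ : ∃ ε₁, ε₁ = (Q' - Z) / 3 := ⟨_, rfl⟩
  have hε0 : 0 < ε₁ := by rw [hε₁]; linarith
  have hcg : ContinuousAt (fun v => P v v) g := cont_of hg0 hg1 hcP
  obtain ⟨δ₁, hδ₁, hPn⟩ := Metric.eventually_nhds_iff.1 (hcg.eventually (gt_mem_nhds
    (show P g g < P g g + ε₁ * (1 - b) by have := mul_pos hε0 h01; linarith)))
  obtain ⟨μ, hμ⟩ : ∃ μ, μ = min (min (δ₂ / 2) (ρ₀ / 2)) (min ε₁ (min (αb - x) x)) := ⟨_, rfl⟩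
  have hμ0 : 0 < μ := by
    rw [hμ]
    exact lt_min (lt_min (by linarith) (by linarith)) (lt_min hε0 (lt_min (by linarith) hx0))
  have m1 : μ ≤ δ₂ / 2 := by rw [hμ]; exact (min_le_left _ _).trans (min_le_left _ _)
  have m2 : μ ≤ ρ₀ / 2 := by rw [hμ]; exact (min_le_left _ _).trans (min_le_right _ _)
  have m3 : μ ≤ ε₁ := by rw [hμ]; exact (min_le_right _ _).trans (min_le_left _ _)
  have m4 : μ ≤ αb - x := by
    rw [hμ]; exact (min_le_right _ _).trans ((min_le_right _ _).trans (min_le_left _ _))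
  have m5 : μ ≤ x := by
    rw [hμ]; exact (min_le_right _ _).trans ((min_le_right _ _).trans (min_le_right _ _))
  refine ⟨min δ₁ (μ * (1 - b)), lt_min hδ₁ (mul_pos hμ0 h01), fun a a' w w' h1 h2 h3 h4 h5 h6 =>
    ?_⟩
  have e1 := min_le_left δ₁ (μ * (1 - b))
  have e2 := min_le_right δ₁ (μ * (1 - b))
  -- the windows of the zoom
  obtain ⟨za, hza⟩ : ∃ z, z = (a - b) / (1 - b) := ⟨_, rfl⟩
  obtain ⟨zw, hzw⟩ : ∃ z, z = (w - b) / (1 - b) := ⟨_, rfl⟩
  obtain ⟨za', hza'⟩ : ∃ z, z = (a' - b) / (1 - b) := ⟨_, rfl⟩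
  obtain ⟨zw', hzw'⟩ : ∃ z, z = (w' - b) / (1 - b) := ⟨_, rfl⟩
  rw [← hza, ← hzw]
  have qa : za < za' := by rw [hza, hza']; exact (div_lt_div_iff_of_pos_right h01).2 (by linarith)
  have qw : zw < zw' := by rw [hzw, hzw']; exact (div_lt_div_iff_of_pos_right h01).2 (by linarith)
  have qwa : zw ≤ za := by rw [hza, hzw]; exact (div_le_div_iff_of_pos_right h01).2 (by linarith)
  have qx : x - μ < zw := by
    rw [hzw, lt_div_iff₀ h01]
    have : (x - μ) * (1 - b) = x * (1 - b) - μ * (1 - b) := by ring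
    rw [this]
    linarith
  have qx' : za' < x + μ := by
    rw [hza', div_lt_iff₀ h01]
    have : (x + μ) * (1 - b) = x * (1 - b) + μ * (1 - b) := by ring
    rw [this]
    linarith
  have ra : b + za' * (1 - b) = a' := by
    rw [hza']
    field_simp
    ring
  have rw' : b + zw' * (1 - b) = w' := by
    rw [hzw']
    field_simp
    ring
  by_contra hcon
  push Not at hcon
  obtain ⟨V₀, hV₀⟩ : ∃ V₀, V₀ = (P a' w' - b) / (1 - b) := ⟨_, rfl⟩
  rw [← hV₀] at hcon
  have ha'1 : a' ≤ 1 := by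
    have h7 : za' ≤ 1 := by linarith
    rw [← ra]
    have := mul_le_mul_of_nonneg_right h7 h01.le
    linarith
  have hw'0 : b < w := by
    have h8 : 0 < zw := by linarith
    rw [hzw] at h8
    have := (div_pos_iff_of_pos_right h01).1 h8
    linarith
  have hV1 : V₀ < Z + ε₁ := by
    have h7 := (H.tgs.law ()).mono (a := a') (w := w') (a' := a') (w' := a') (by linarith) h4
      le_rfl h4 le_rfl ha'1
    have h8 := @hPn a' (by
      rw [Real.dist_eq, abs_lt]
      constructor <;> linarith)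
    rw [hV₀, hZ, div_lt_iff₀ h01, add_mul, div_mul_cancel₀ _ h01.ne']
    linarith
  have hV2 : V₀ < capL Pb Q' x za zw := by
    unfold capL
    refine lt_min hcon (lt_min (by linarith) ?_)
    linarith
  -- a good pair
  obtain ⟨t, ht0, ht1, ht2, htA⟩ := att_btw (Hb.attN o) qwa (by linarith)
    (show za < 1 by linarith) (ε := min (za' - za) (zw' - zw)) (lt_min (by linarith)
      (by linarith))
  have t1' := ht1.trans_le (min_le_left _ _)
  have t2' := ht1.trans_le (min_le_right _ _)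
  have hβt : capL Pb Q' x za zw ≤ capL Pb Q' x (za + t) (zw + t) :=
    (capL_law hlb Q' x).mono (by linarith) qwa (by linarith) (by linarith) (by linarith)
      (by linarith)
  obtain ⟨Pz, Pz1, Pz2⟩ := exists_rat_btwn hV2
  have hPz0 : (0 : ℝ) ≤ Pz := by
    have h7 := H.tgs.low () a' w' (by linarith) h4 ha'1
    have h8 : 0 ≤ V₀ := by
      rw [hV₀]
      exact div_nonneg (by linarith) h01.le
    linarith
  have hPz1 : (Pz : ℝ) ≤ 1 := by
    refine Pz2.le.trans ?_
    unfold capL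
    exact (min_le_right _ _).trans (min_le_left _ _)
  obtain ⟨az, az1, az2⟩ := exists_rat_btwn (show za + t < za' by linarith)
  obtain ⟨wz, wz1, wz2⟩ := exists_rat_btwn (show zw + t < min zw' az from
    lt_min (by linarith) (by linarith))
  have wz3 := wz2.trans_le (min_le_left _ _)
  have wz4 := wz2.trans_le (min_le_right _ _)
  obtain ⟨E', E1, E2⟩ := exists_rat_btwn (show E < E + ξ / 2 by linarith)
  obtain ⟨xx, xx1, xx2⟩ := exists_rat_btwn (show (0 : ℝ) < ξ / 2 by linarith)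
  obtain ⟨φ, hφ⟩ : ∃ φ, φ = min (za + t) (capL Pb Q' x (za + t) (zw + t) - Pz) := ⟨_, rfl⟩
  have hφ0 : 0 < φ := by
    rw [hφ]
    exact lt_min (by linarith) (by linarith)
  have f1 : φ ≤ za + t := by rw [hφ]; exact min_le_left _ _
  have f2 : φ ≤ capL Pb Q' x (za + t) (zw + t) - Pz := by rw [hφ]; exact min_le_right _ _
  obtain ⟨ρ', hρ', hJ⟩ := hJat ρ₀ le_rfl 1 one_pos
  obtain ⟨K, d, dl, K₁, hK₁, hd, hbas⟩ := hJ 1 (fun _ => za + t) (fun _ => zw + t) (fun k _ =>
    ⟨htA, by linarith, by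
      rw [abs_le]
      constructor <;> linarith, by
      rw [abs_le]
      constructor <;> linarith⟩) φ hφ0
  have hL1 : ∀ l < n, za + t ≤ L l (za + t) (zw + t) ∧ E + ξ + L l (za + t) (zw + t) < 1 := by
    intro l hl
    obtain ⟨-, k2, k3⟩ := hLl l hl
    refine ⟨k3 _ _ (by linarith) (by linarith) (by linarith), ?_⟩
    have h1 := k2.mono (a := za + t) (w := zw + t) (a' := za + t) (w' := za + t) (by linarith)
      (by linarith) le_rfl (by linarith) le_rfl (by linarith)
    have h2 := hnear l hl (za + t) (by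
      rw [abs_lt]
      constructor <;> linarith)
    linarith
  have hLt : L (n - 1) (za + t) (zw + t) = capL Pb Q' x (za + t) (zw + t) := by
    rw [hL]
    simp only
    rw [if_neg (lt_irrefl _)]
  refine bas_part Hb.ne hK₁ (Φ := ChE (cc hn o.1.1) n K az wz E' xx Pz)
    (hbas.mono 0 fun J _ F A hJ => ?_) (hB K az wz E' xx Pz ?_)
  · obtain ⟨B, G, H', k1, k2, k3, -⟩ := hJ
    refine ⟨B, k1, k2, fun l => ⌊(L l (za + t) (zw + t) - d l) * J⌋₊, fun l hl => ?_, ?_, ?_⟩
    · have hJr : (0 : ℝ) ≤ J := Nat.cast_nonneg J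
      have h7 := hL1 l hl
      have h8 := hd l (by omega)
      have h9 : (⌊(L l (za + t) (zw + t) - d l) * (J : ℝ)⌋₊ : ℝ) ≤
          (L l (za + t) (zw + t) - d l) * J :=
        Nat.floor_le (mul_nonneg (by linarith) hJr)
      have h10 : (⌊(E' : ℝ) * (J : ℝ)⌋₊ : ℝ) ≤ E' * J :=
        Nat.floor_le (mul_nonneg (by linarith) hJr)
      constructor
      · refine Nat.floor_le_of_le ?_
        calc (L l (za + t) (zw + t) - d l) * (J : ℝ) ≤ 1 * J :=
              mul_le_mul_of_nonneg_right (by linarith) hJr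
          _ = J := one_mul _
      · push_cast
        have h11 : (E' + (L l (za + t) (zw + t) - d l)) * (J : ℝ) ≤ (1 - xx) * J :=
          mul_le_mul_of_nonneg_right (by linarith) hJr
        linarith
    · refine Nat.floor_le_floor (mul_le_mul_of_nonneg_right ?_ (Nat.cast_nonneg J))
      have h8 := hd (n - 1) le_rfl
      rw [hLt]
      linarith
    · have h4 := k3.ok 0 one_pos
      have e1 : n - 1 + 1 = n := by omega
      rw [e1] at h4
      have hJr : (0 : ℝ) ≤ J := Nat.cast_nonneg J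
      exact ChN.mono ⟨G 0, H' 0, h4⟩ le_rfl (fun _ _ => le_rfl)
        (Nat.floor_le_floor (mul_le_mul_of_nonneg_right az1.le hJr))
        (Nat.floor_le_floor (mul_le_mul_of_nonneg_right wz1.le hJr))
        (Nat.floor_le_of_le (by
          calc (wz : ℝ) * (J : ℝ) ≤ 1 * J := mul_le_mul_of_nonneg_right (by linarith) hJr
            _ = J := one_mul _))
        (Nat.floor_le_floor (mul_le_mul_of_nonneg_right E1.le hJr))
  · -- no labels of the class
    have raz : b + az * (1 - b) < a' := by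
      have := mul_lt_mul_of_pos_right az2 h01
      linarith
    have rwz : b + wz * (1 - b) < w' := by
      have := mul_lt_mul_of_pos_right wz3 h01
      linarith
    have rwa : b + wz * (1 - b) < b + az * (1 - b) := by
      have := mul_lt_mul_of_pos_right wz4 h01
      linarith
    obtain ⟨aS, haS⟩ : ∃ aS, aS = ((b + az * (1 - b)) + a') / 2 := ⟨_, rfl⟩
    obtain ⟨wS, hwS⟩ : ∃ wS, wS = min (((b + wz * (1 - b)) + w') / 2) aS := ⟨_, rfl⟩
    have s1 : b + az * (1 - b) < aS := by rw [haS]; linarith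
    have s2 : aS < a' := by rw [haS]; linarith
    have s3 : b + wz * (1 - b) < wS := by rw [hwS]; exact lt_min (by linarith) (by linarith)
    have s4 : wS < w' := by
      rw [hwS]
      exact (min_le_left _ _).trans_lt (by linarith)
    have s5 : wS ≤ aS := by rw [hwS]; exact min_le_right _ _
    have hPzS : P a' w' < b + Pz * (1 - b) := by
      rw [hV₀, div_lt_iff₀ h01] at Pz1
      linarith
    have hPz1' : b + Pz * (1 - b) ≤ 1 := by
      have := mul_le_mul_of_nonneg_right hPz1 h01.le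
      linarith
    obtain ⟨h, hh⟩ : ∃ h, h = ((b + Pz * (1 - b)) - P a' w') / 2 := ⟨_, rfl⟩
    have hh0 : 0 < h := by rw [hh]; linarith
    have hh1 : P a' w' + h < b + Pz * (1 - b) := by rw [hh]; linarith
    have hwz0 : 0 < (wz : ℝ) := by linarith
    have hP0 : 0 ≤ P a' w' := by
      have := H.tgs.low () a' w' (by linarith) h4 ha'1
      linarith
    have hlen : ((List.range (n - 1)).map (cc hn o.1.1)).length + 1 = n := by
      rw [List.length_map, List.length_range]
      omega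
    have h7 := zpr_nochn (S := S) (C₀ := 6) H.tmc hb0 hb1 (p := p) (q := q) (hu := hu)
      (ch := cc hn o.1.1) (l := (List.range (n - 1)).map (cc hn o.1.1)) (k := lst hn) (K := K)
      ((List.nodup_range).map_on (fun i hi j hj h => by
        rw [List.mem_range] at hi hj
        exact cc_inj1 hn o.1.1 hi hj h)) (fun h => by
        rw [List.mem_map] at h
        obtain ⟨i, hi, h⟩ := h
        rw [List.mem_range] at hi
        exact cc_ne hn o.1.1 hi h) (fun i _ => cof_cc hn o.1.1 i)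
      (fun i hi => hpq i (by omega)) (a := aS) (w := wS) (az := az) (wz := wz) (E := E')
      (x := xx) (P := P a' w' + h) (Pz := Pz) wz4.le (by linarith) s1 s3 (by linarith) hwz0.le
      xx1 (by linarith) hPz0 hh1
      (H.tgs.no' () (max K 1) (by
        have := mul_pos hwz0 h01
        linarith) s5 s2 s4 h4 ha'1 hh0 (by linarith))
    rw [hlen] at h7
    exact h7

end Pool.SHE33
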