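import Pool.Agent.H33.SHE.Cho
import Pool.Agent.H33.SHE.Chp
import Pool.Agent.H33.SHE.Fcb

/-!
# The thresholds of the target in the class of the sheared zooms

`ZR S b hu Φ`: the sheared zooms of the class have the property `Φ`, if the shear is small. `TMn`:
there is a label of the target on a part of the event. `thr_ge`, `thr_le`: the comparison of the
thresholds near a good window, in both directions.
-/

set_option autoImplicit false

namespace Pool.SHE33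

open MeasureTheory Set Filter Topology
open Pool.Agent.H49.Ent Pool.Agent.H32.Dense Pool.STK Pool.KA Pool.KSAT Pool.K2S Pool.PB
open Pool.GEN Pool.S6C Pool.STAT Pool.CHT Pool.GRW Pool.ONE Pool.STA Pool.PKG Pool.EXW
open Pool.ZCL Pool.ZLC Pool.ZCO
open Pool.LBT (LSys ThrOf)
open Pool.ALL (RateOf)
open Pool.TOP (T1c T2c TopS Ful RW)
open Pool.LBN (Tch cof cof_lt cof_ge)
open Pool.FRN (AttC)

variable {n : ℕ}

/-- **The sheared zooms have the property** `Φ`, if the shear is small. -/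
def ZR (S : PCl n) (b : ℝ) {p q : Fin n} (hu : p ∉ ({q} : Finset (Fin n))) (Φ : Stat n) : Prop :=
  ∃ x₀ : ℝ, 0 < x₀ ∧ ∀ Ψ : ∀ (J : ℕ) (F : Fam n J) (_ : F.Ω → Prop), (F.Ω → ℝ) → Prop,
    ZPr S b (id : Fin n → Fin n) (ShX b hu x₀ Ψ) Φ

/-- **A label of the coordinate `k` on a part of the event.** -/
def TMn (k : Fin n) (K : ℕ) (a w P τ : ℝ) : Stat n := fun J G A => ∃ B : G.Ω → Prop,
  Sub B A ∧ Real.exp (-(τ * J)) * Pe G.p A ≤ Pe G.p B ∧
    (tgs k).T () K ⌊a * J⌋₊ ⌊w * J⌋₊ ⌊P * J⌋₊ J G B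

/-- **The threshold is at least the precision of labels on parts.** -/
theorem thr_ge_of {Sb : PCl n} (hne : Sb.Ne) {k : Fin n} {Pb : ℝ → ℝ → ℝ}
    (hT : ThrOf (tgs k) Sb (fun _ => Pb)) {K : ℕ} {az wz Pz a w : ℝ} (hw0 : 0 ≤ wz)
    (hwa : wz ≤ az) (ha : az < a) (hw : wz < w) (hwa' : w ≤ a) (ha1 : a ≤ 1) (hP1 : Pz ≤ 1)
    (h : ∀ j : ℕ, Bas Sb (TMn k K az wz Pz (1 / ((j : ℝ) + 1)))) : Pz ≤ Pb a w := by
  by_contra hcon
  push Not at hcon
  obtain ⟨τ, hτ, J₀, h1⟩ := hT.no' () K hw0 hwa ha hw hwa' ha1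
    (show 0 < Pz - Pb a w by linarith) (by linarith)
  obtain ⟨j, hj⟩ := exists_nat_ge (2 / τ)
  have hj' : 1 / ((j : ℝ) + 1) ≤ τ / 2 := by
    rw [div_le_iff₀ hτ] at hj
    rw [div_le_iff₀ (by positivity)]
    linarith
  obtain ⟨τ₁, hτ₁, J₁, h2⟩ := h j
  obtain ⟨δ, hδ⟩ : ∃ δ, δ = min τ₁ (τ / 2) := ⟨_, rfl⟩
  have hδ0 : 0 < δ := by
    rw [hδ]
    exact lt_min hτ₁ (by linarith)
  obtain ⟨J, hJ, F, A, hA⟩ := hne δ hδ0 (max J₀ J₁)
  obtain ⟨B, hBA, hPB, hB⟩ := h2 J ((le_max_right _ _).trans hJ) F A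
    (Sb.mono (by rw [hδ]; exact min_le_left _ _) hA)
  have hSB : Sb.St (δ + τ / 2) J F B := by
    refine Sb.res (by linarith) hA hBA (le_trans ?_ hPB)
    refine mul_le_mul_of_nonneg_right (Real.exp_le_exp.2 (neg_le_neg ?_)) (Pe_nonneg F.isLaw A)
    exact mul_le_mul_of_nonneg_right hj' (Nat.cast_nonneg J)
  have hδ2 : δ ≤ τ / 2 := by rw [hδ]; exact min_le_right _ _
  refine h1 J ((le_max_left _ _).trans hJ) F B (Sb.mono (by linarith) hSB) ?_
  have e1 : Pb a w + (Pz - Pb a w) = Pz := by ring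
  rw [e1]
  exact hB

/-- Chains on a part contradict the absence of chains. -/
theorem bas_part {S : PCl n} (hne : S.Ne) {Φ : Stat n} {K₁ : ℝ} (hK₁ : 0 < K₁)
    (h1 : Bas S (fun J F A => ∃ B : F.Ω → Prop, Sub B A ∧ Pe F.p A ≤ K₁ * Pe F.p B ∧ Φ J F B))
    (h2 : Bas S (fun J F A => ¬ Φ J F A)) : False := by
  obtain ⟨τ₁, hτ₁, J₁, h1⟩ := h1
  obtain ⟨τ₂, hτ₂, J₂, h2⟩ := h2
  obtain ⟨δ, hδ⟩ : ∃ δ, δ = min τ₁ (τ₂ / 2) := ⟨_, rfl⟩
  have hδ0 : 0 < δ := by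
    rw [hδ]
    exact lt_min hτ₁ (by linarith)
  obtain ⟨J₃, hJ₃⟩ := exists_nat_ge (Real.log K₁ / δ)
  obtain ⟨J, hJ, F, A, hA⟩ := hne δ hδ0 (max J₃ (max J₁ J₂))
  obtain ⟨B, hBA, hPB, hB⟩ := h1 J (((le_max_left _ _).trans (le_max_right _ _)).trans hJ) F A
    (S.mono (by rw [hδ]; exact min_le_left _ _) hA)
  have hδ2 : δ ≤ τ₂ / 2 := by rw [hδ]; exact min_le_right _ _
  have hK : K₁ ≤ Real.exp (δ * J) := by
    rw [← Real.log_le_iff_le_exp hK₁]
    have h3 : Real.log K₁ / δ ≤ J := hJ₃.trans (by exact_mod_cast (le_max_left _ _).trans hJ)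
    rw [div_le_iff₀ hδ0] at h3
    linarith
  have hSB : S.St (δ + δ) J F B := by
    refine S.res hδ0.le hA hBA ?_
    have h4 : Pe F.p A ≤ Real.exp (δ * J) * Pe F.p B :=
      hPB.trans (mul_le_mul_of_nonneg_right hK (Pe_nonneg F.isLaw _))
    have h3 := mul_le_mul_of_nonneg_left h4 (Real.exp_pos (-(δ * J))).le
    rw [← mul_assoc, ← Real.exp_add, neg_add_cancel, Real.exp_zero, one_mul] at h3
    exact h3
  exact h2 J (((le_max_right _ _).trans (le_max_right _ _)).trans hJ) F B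
    (S.mono (by linarith) hSB) hB

variable {hn : 2 ≤ n} {S Sb : PCl n} {P Pb : ℝ → ℝ → ℝ} {r rb : ℝ → ℝ}
  {P' Pb' : ℕ → List (Fin n) × Fin n → ℝ → ℝ → ℝ} {Λ Λb : Finset (Fin n) → Fin n → ℝ → ℝ → ℝ}
  {o : Od n} {g α Q c b : ℝ}

/-- **The first direction**: the labels of the class are labels of the zooms. -/
theorem thr_ge (F : Fac hn S P r P' o g α Q c) (H : Pk hn S P r P' Λ) (hne : Sb.Ne)
    (hTb : ThrOf (tgs (lst hn)) Sb (fun _ => Pb)) (hb0 : 0 < b)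
    (hbg : b < g) {p q : Fin n} (hu : p ∉ ({q} : Finset (Fin n)))
    (hpq : ∀ i < n, cc hn o.1.1 i = q → ∃ i' < i, cc hn o.1.1 i' = p)
    (hA : ∀ (K j : ℕ) (az wz Pz : ℚ), ZR S b hu (TMn (lst hn) K az wz Pz (1 / ((j : ℝ) + 1))) →
      Bas Sb (TMn (lst hn) K az wz Pz (1 / ((j : ℝ) + 1)))) :
    ∃ δ : ℝ, 0 < δ ∧ ∀ a a' w w' : ℝ, g - δ < w → w < w' → w ≤ a → w' ≤ a' → a < a' →
      a' < g + δ → (P a w - b) / (1 - b) ≤ Pb ((a' - b) / (1 - b)) ((w' - b) / (1 - b)) := by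
  have hb1 : b < 1 := hbg.trans F.g1
  have h01 : 0 < 1 - b := by linarith
  obtain ⟨δ₁, hδ₁, hz⟩ := fac_zpr F H hb0 hbg (hu := hu) hpq
  refine ⟨min δ₁ (min (1 - g) (g - b)), lt_min hδ₁ (lt_min (by linarith [F.g1]) (by linarith)),
    fun a a' w w' h1 h2 h3 h4 h5 h6 => ?_⟩
  have e1 := min_le_left δ₁ (min (1 - g) (g - b))
  have e2 := (min_le_right δ₁ (min (1 - g) (g - b))).trans (min_le_left _ _)
  have e3 := (min_le_right δ₁ (min (1 - g) (g - b))).trans (min_le_right _ _)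
  have hbw : b < w := by linarith
  have ha1 : a' < 1 := by linarith
  have hPa : a ≤ P a w := H.tgs.low () a w (by linarith) h3 (by linarith)
  have hP1 : P a w ≤ 1 := H.tgs.up () a w (by linarith) h3 (by linarith)
  by_contra hcon
  push Not at hcon
  have hzP : (P a w - b) / (1 - b) ≤ 1 := by
    rw [div_le_one h01]
    linarith
  have hza : (a - b) / (1 - b) < (a' - b) / (1 - b) :=
    (div_lt_div_iff_of_pos_right h01).2 (by linarith)
  have hzw : (w - b) / (1 - b) < (w' - b) / (1 - b) :=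
    (div_lt_div_iff_of_pos_right h01).2 (by linarith)
  have hzwa : (w - b) / (1 - b) ≤ (a - b) / (1 - b) :=
    (div_le_div_iff_of_pos_right h01).2 (by linarith)
  have hzw0 : 0 < (w - b) / (1 - b) := div_pos (by linarith) h01
  have hza1 : (a' - b) / (1 - b) ≤ 1 := by
    rw [div_le_one h01]
    linarith
  obtain ⟨az, az1, az2⟩ := exists_rat_btwn hza
  obtain ⟨wz, wz1, wz2⟩ := exists_rat_btwn (show (w - b) / (1 - b) <
    min ((w' - b) / (1 - b)) az from lt_min hzw (by linarith))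
  have wz3 := wz2.trans_le (min_le_left _ _)
  have wz4 := wz2.trans_le (min_le_right _ _)
  have hPb0 : 0 ≤ Pb ((a' - b) / (1 - b)) ((w' - b) / (1 - b)) := by
    have := hTb.low () ((a' - b) / (1 - b)) ((w' - b) / (1 - b)) (by linarith)
      ((div_le_div_iff_of_pos_right h01).2 (by linarith)) hza1
    linarith
  obtain ⟨Pz, Pz1, Pz2⟩ := exists_rat_btwn hcon
  rw [div_lt_iff₀ h01] at az1
  rw [div_lt_iff₀ h01] at wz1
  have Pz3 := Pz2
  rw [lt_div_iff₀ h01] at Pz3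
  obtain ⟨K, hK⟩ := hz a w (by linarith) h3 (by linarith) az wz Pz wz4.le (by linarith)
    (by linarith) (by linarith) (by linarith) (by linarith)
  have h7 := thr_ge_of hne hTb (K := K) (az := az) (wz := wz) (Pz := Pz)
    (a := (a' - b) / (1 - b)) (w := (w' - b) / (1 - b)) (by
      have : (0 : ℝ) < wz * (1 - b) := by linarith
      exact (pos_of_mul_pos_left this h01.le).le) wz4.le az2 wz3
    ((div_le_div_iff_of_pos_right h01).2 (by linarith)) hza1 (by linarith) (fun j => by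
      refine hA K j az wz Pz ?_
      obtain ⟨x₀, hx₀, h8⟩ := hK (1 / ((j : ℝ) + 1)) (by positivity)
      exact ⟨x₀, hx₀, h8⟩)
  linarith

end Pool.SHE33
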