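import Pool.Agent.H33.SHE.Chz
import Pool.Agent.H33.SHE.Bub
import Pool.Agent.H27.TOP.Gsq
import Pool.Agent.H80.ZC.Lbs

/-!
# Closed labels of a function of the samples

`Lf F I f K e w ρ P A`: the function `f` of the samples is a polynomial of the time and of the
coordinates in `I`, up to `2 ^ (-P)`; there is no condition on the velocities. `Lf.free`: this does
not depend on the law. `ev_lip`, `ev_bd`: polynomials which depend on the coordinates in `I` at
points which are near in these coordinates only. `lzo`: the label of a coordinate of the zoom.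
-/

set_option autoImplicit false

namespace Pool.SHE33

open Finset Real MvPolynomial
open Pool.Agent.H49.Ent Pool.Agent.H32.Dense Pool.STK Pool.KA Pool.KSAT Pool.K2S Pool.PB Pool.S6C
open Pool.GEN Pool.ZCL Pool.TOP Pool.ZLC

variable {m J : ℕ}

/-- **Closed labels of a function of the samples**, without velocities. -/
structure LfOK (F : Fam m J) (I : Finset (Fin m)) (f : F.Ω → ℝ) (K e w ρ P : ℕ)
    (A : F.Ω → Prop) {V : Type} (z : PtT F → V) (z' : LnT F → V)
    (G : V → MvPolynomial (Option (Fin m)) ℝ) : Prop where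
  deg : ∀ v, (G v).totalDegree ≤ K
  dep : ∀ v, ∀ b b' : Option (Fin m) → ℝ, b none = b' none →
    (∀ i ∈ I, b (some i) = b' (some i)) → eval b (G v) = eval b' (G v)
  cls : ∀ ω, A ω → z (ptr F J ω) = z' (slam F w ω)
  pos : ∀ ω, A ω → |f ω - eval (bt F ω) (G (z' (slam F w ω)))| ≤ 1 / 2 ^ P
  lip : ∀ ω, A ω → ∀ b : Option (Fin m) → ℝ, (∀ o, |b o - bt F ω o| ≤ 1 / 2 ^ ρ) → ∀ o,
    |eval b (pderiv o (G (z' (slam F w ω))))| ≤ 2 ^ e

/-- **There is a closed label of the function.** -/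
def Lf (F : Fam m J) (I : Finset (Fin m)) (f : F.Ω → ℝ) (K e w ρ P : ℕ) (A : F.Ω → Prop) : Prop :=
  ∃ (V : Type) (z : PtT F → V) (z' : LnT F → V) (G : V → MvPolynomial (Option (Fin m)) ℝ),
    LfOK F I f K e w ρ P A z z' G

theorem LfOK.sub {F : Fam m J} {I : Finset (Fin m)} {f : F.Ω → ℝ} {K e w ρ P : ℕ}
    {A B : F.Ω → Prop} {V : Type} {z : PtT F → V} {z' : LnT F → V}
    {G : V → MvPolynomial (Option (Fin m)) ℝ} (h : LfOK F I f K e w ρ P A z z' G)
    (hB : Sub B A) : LfOK F I f K e w ρ P B z z' G :=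
  ⟨h.deg, h.dep, fun ω hω => h.cls ω (hB ω hω), fun ω hω => h.pos ω (hB ω hω),
    fun ω hω => h.lip ω (hB ω hω)⟩

theorem Lf.sub {F : Fam m J} {I : Finset (Fin m)} {f : F.Ω → ℝ} {K e w ρ P : ℕ}
    {A B : F.Ω → Prop} (h : Lf F I f K e w ρ P A) (hB : Sub B A) : Lf F I f K e w ρ P B := by
  obtain ⟨V, z, z', G, h⟩ := h
  exact ⟨V, z, z', G, h.sub hB⟩

/-- The values matter only on the event. -/
theorem Lf.congr {F : Fam m J} {I : Finset (Fin m)} {f f' : F.Ω → ℝ} {K e w ρ P : ℕ}
    {A : F.Ω → Prop} (h : Lf F I f K e w ρ P A) (hc : ∀ ω, A ω → f' ω = f ω) :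
    Lf F I f' K e w ρ P A := by
  obtain ⟨V, z, z', G, h⟩ := h
  exact ⟨V, z, z', G, h.deg, h.dep, h.cls, fun ω hω => by
    rw [hc ω hω]
    exact h.pos ω hω, h.lip⟩

/-- A label for windows is a label for shorter windows. -/
theorem Lf.win {F : Fam m J} {I : Finset (Fin m)} {f : F.Ω → ℝ} {K e w w' ρ P : ℕ}
    {A : F.Ω → Prop} (h : Lf F I f K e w ρ P A) (hw : w ≤ w') (hw' : w' ≤ J) :
    Lf F I f K e w' ρ P A := by
  obtain ⟨V, z, z', G, h⟩ := h
  refine ⟨V, z, fun s => z' (s.1, s.2.1, s.2.2 / 2 ^ (w' - w)), G, ?_⟩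
  have e : ∀ ω, z' ((slam F w' ω).1, (slam F w' ω).2.1, (slam F w' ω).2.2 / 2 ^ (w' - w)) =
      z' (slam F w ω) := fun ω => by rw [← slam_coarse F hw hw' ω]
  refine ⟨h.deg, h.dep, fun ω hω => (h.cls ω hω).trans (e ω).symm, fun ω hω => ?_,
    fun ω hω b hb i => ?_⟩
  · simp only [e]
    exact h.pos ω hω
  · simp only [e]
    exact h.lip ω hω b hb i

/-- **All monotonicities.** -/
theorem Lf.mono {F : Fam m J} {I I' : Finset (Fin m)} {f : F.Ω → ℝ} {K K' e e' w w' ρ ρ' P P' : ℕ}
    {A : F.Ω → Prop} (h : Lf F I f K e w ρ P A) (hI : I ⊆ I') (hK : K ≤ K') (he : e ≤ e')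
    (hw : w ≤ w') (hw' : w' ≤ J) (hρ : ρ ≤ ρ') (hP : P' ≤ P) : Lf F I' f K' e' w' ρ' P' A := by
  refine Lf.win (w := w) ?_ hw hw'
  obtain ⟨V, z, z', G, h⟩ := h
  have h1 : (1 : ℝ) / 2 ^ P ≤ 1 / 2 ^ P' := inv_mono hP
  exact ⟨V, z, z', G, fun v => (h.deg v).trans hK, fun v b b' hn hb => h.dep v b b' hn fun i hi =>
    hb i (hI hi), h.cls, fun ω hω => (h.pos ω hω).trans h1,
    fun ω hω b hb o => (h.lip ω hω b (fun o => (hb o).trans (inv_mono hρ)) o).trans
      (pow_le_pow_right₀ (by norm_num) he)⟩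

/-- The labels do not depend on the law. -/
theorem Lf.free {G : Fam m J} {κ : Type} {c : G.Ω → κ} {v : κ} (hl : IsLaw (cond G.p c v))
    {B : G.Ω → Prop} {I : Finset (Fin m)} {f : G.Ω → ℝ} {K e w ρ P : ℕ}
    (h : Lf G I f K e w ρ P B) : Lf (G.res c v hl) I f K e w ρ P B := by
  obtain ⟨V, z, z', g, h⟩ := h
  exact ⟨V, z, z', g, h.deg, h.dep, h.cls, h.pos, h.lip⟩

theorem Lf.free' {G : Fam m J} {κ : Type} {c : G.Ω → κ} {v : κ} (hl : IsLaw (cond G.p c v))
    {B : G.Ω → Prop} {I : Finset (Fin m)} {f : G.Ω → ℝ} {K e w ρ P : ℕ}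
    (h : Lf (G.res c v hl) I f K e w ρ P B) : Lf G I f K e w ρ P B := by
  obtain ⟨V, z, z', g, h⟩ := h
  exact ⟨V, z, z', g, h.deg, h.dep, h.cls, h.pos, h.lip⟩

/-- A label of a coordinate. -/
theorem Lb.lf {F : Fam m J} {I : Finset (Fin m)} {k : Fin m} {K e w ρ P : ℕ} {A : F.Ω → Prop}
    (h : Lb F I k K e J w ρ P A) : Lf F I (fun ω => F.x ω k) K e w ρ P A := by
  obtain ⟨V, z, z', g, h⟩ := h
  exact ⟨V, z, z', g, h.deg, h.dep, h.cls, h.pos, h.lip⟩

/-- A label of the linear form. -/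
theorem Lh.lf {F : Fam m J} {I : Finset (Fin m)} {u t : Fin m} {c : F.Ω → ℝ} {K e w ρ P : ℕ}
    {A : F.Ω → Prop} (h : Lh F I u t c K e w ρ P A) :
    Lf F I (fun ω => F.x ω t - c ω * F.x ω u) K e w ρ P A := by
  obtain ⟨V, z, z', g, h⟩ := h
  exact ⟨V, z, z', g, h.deg, h.dep, h.cls, h.pos, h.lip⟩

/-! ### Polynomials of the coordinates in `I` -/

section

variable {G : MvPolynomial (Option (Fin m)) ℝ} {I : Finset (Fin m)}
  (hG : ∀ b b' : Option (Fin m) → ℝ, b none = b' none →
    (∀ i ∈ I, b (some i) = b' (some i)) → eval b G = eval b' G)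

include hG

/-- A bound of the gradient at a point which is near in the coordinates in `I`. -/
theorem ev_bd {a b : Option (Fin m) → ℝ} {δ M : ℝ} (hδ : 0 ≤ δ)
    (hM : ∀ y : Option (Fin m) → ℝ, (∀ o, |y o - a o| ≤ δ) → ∀ o, |eval y (pderiv o G)| ≤ M)
    (h0 : |b none - a none| ≤ δ) (hb : ∀ i ∈ I, |b (some i) - a (some i)| ≤ δ)
    (o : Option (Fin m)) : |eval b (pderiv o G)| ≤ M := by
  classical
  obtain ⟨y, hy⟩ : ∃ y : Option (Fin m) → ℝ, y = fun o => match o with
      | none => b none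
      | some i => if i ∈ I then b (some i) else a (some i) := ⟨_, rfl⟩
  have h1 : eval b (pderiv o G) = eval y (pderiv o G) := by
    refine pd_on hG o ?_ fun i hi => ?_
    · rw [hy]
    · rw [hy]
      simp only
      rw [if_pos hi]
  rw [h1]
  refine hM y (fun o => ?_) o
  rw [hy]
  rcases o with _ | i
  · exact h0
  · simp only
    split_ifs with hi
    · exact hb i hi
    · rw [sub_self, abs_zero]
      exact hδ

/-- The change of the value at a point which is near in the coordinates in `I`. -/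
theorem ev_lip {a b : Option (Fin m) → ℝ} {δ x M : ℝ} (hx : 0 ≤ x) (hxδ : x ≤ δ)
    (hM : ∀ y : Option (Fin m) → ℝ, (∀ o, |y o - a o| ≤ δ) → ∀ o, |eval y (pderiv o G)| ≤ M)
    (h0 : |b none - a none| ≤ x) (hb : ∀ i ∈ I, |b (some i) - a (some i)| ≤ x) :
    |eval b G - eval a G| ≤ (m + 1) * M * x := by
  classical
  have hM0 : 0 ≤ M := (abs_nonneg _).trans (hM a (fun o => by
    rw [sub_self, abs_zero]
    linarith) none)
  obtain ⟨y, hy⟩ : ∃ y : Option (Fin m) → ℝ, y = fun o => match o with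
      | none => b none
      | some i => if i ∈ I then b (some i) else a (some i) := ⟨_, rfl⟩
  have h1 : eval b G = eval y G := by
    refine hG _ _ ?_ fun i hi => ?_
    · rw [hy]
    · rw [hy]
      simp only
      rw [if_pos hi]
  have hya : ∀ o, |y o - a o| ≤ x := by
    intro o
    rw [hy]
    rcases o with _ | i
    · exact h0
    · simp only
      split_ifs with hi
      · exact hb i hi
      · rw [sub_self, abs_zero]
        exact hx
  rw [h1]
  have h2 := mvσ G a y M (fun y' hy' o => hM y' (fun o' => (hy' o').trans ((hya o').trans hxδ)) o)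
  refine h2.trans ?_
  have h3 : ∑ i, |y i - a i| ≤ (m + 1) * x := by
    refine (Finset.sum_le_sum fun i _ => hya i).trans (le_of_eq ?_)
    rw [Finset.sum_const, Finset.card_univ, Fintype.card_option, Fintype.card_fin, nsmul_eq_mul]
    push_cast
    ring
  calc M * ∑ i, |y i - a i| ≤ M * ((m + 1) * x) := mul_le_mul_of_nonneg_left h3 hM0
    _ = (m + 1) * M * x := by ring

end

/-! ### The label of a coordinate of the zoom -/

section

variable (W s : ℕ) (τ : ℝ) (cl vl : Fin m → ℝ)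

/-- The point of the family. -/
noncomputable def lzp (b : Option (Fin m) → ℝ) : Option (Fin m) → ℝ
  | none => (τ + b none) / 2 ^ W
  | some j => (b (some j) + cl j + vl j * b none) / 2 ^ W

/-- The point of the family, as polynomials. -/
noncomputable def lzs : Option (Fin m) → MvPolynomial (Option (Fin m)) ℝ
  | none => MvPolynomial.C (1 / 2 ^ W) * (MvPolynomial.C τ + X none)
  | some j => MvPolynomial.C (1 / 2 ^ W) * zc cl vl j

theorem eval_lzs (b : Option (Fin m) → ℝ) (o : Option (Fin m)) :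
    eval b (lzs W τ cl vl o) = lzp W τ cl vl b o := by
  rcases o with _ | j
  · unfold lzs lzp
    rw [map_mul, map_add, eval_C, eval_C, eval_X]
    ring
  · unfold lzs lzp
    simp only
    rw [map_mul, eval_C, eval_zc]
    ring

theorem deg_lzs (o : Option (Fin m)) : (lzs W τ cl vl o).totalDegree ≤ 1 := by
  rcases o with _ | j
  · unfold lzs
    refine (totalDegree_mul _ _).trans ?_
    rw [totalDegree_C, zero_add]
    refine (totalDegree_add _ _).trans (max_le ?_ ?_)
    · rw [totalDegree_C]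
      exact Nat.zero_le _
    · rw [totalDegree_X]
  · unfold lzs
    refine (totalDegree_mul _ _).trans ?_
    rw [totalDegree_C, zero_add]
    exact deg_zc cl vl _

/-- **The label of the coordinate `j` of the zoom**, from the label `Q` of the function. -/
noncomputable def lzo (j : Fin m) (Q : MvPolynomial (Option (Fin m)) ℝ) :
    MvPolynomial (Option (Fin m)) ℝ :=
  MvPolynomial.C (2 ^ W / 2 ^ s) * aeval (lzs W τ cl vl) Q -
    (MvPolynomial.C (cl j) + MvPolynomial.C (vl j) * X none)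

theorem eval_lzo (j : Fin m) (Q : MvPolynomial (Option (Fin m)) ℝ) (b : Option (Fin m) → ℝ) :
    eval b (lzo W s τ cl vl j Q) = 2 ^ W / 2 ^ s * eval (lzp W τ cl vl b) Q -
      (cl j + vl j * b none) := by
  unfold lzo
  have e1 : (fun o => eval b (lzs W τ cl vl o)) = lzp W τ cl vl b := by
    funext o
    exact eval_lzs W τ cl vl b o
  rw [map_sub, map_mul, eval_C, eval_aevalσ, map_add, map_mul, eval_C, eval_C, eval_X, e1]

theorem deg_lzo {K : ℕ} (j : Fin m) {Q : MvPolynomial (Option (Fin m)) ℝ}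
    (hQ : Q.totalDegree ≤ K) : (lzo W s τ cl vl j Q).totalDegree ≤ max K 1 := by
  unfold lzo
  refine (totalDegree_sub _ _).trans (max_le ?_ ?_)
  · refine (totalDegree_mul _ _).trans ?_
    rw [totalDegree_C, zero_add]
    have h1 := totalDegree_aevalσ (g := lzs W τ cl vl) (deg_lzs W τ cl vl) hQ
    have := le_max_left K 1
    omega
  · refine (totalDegree_add _ _).trans (max_le ?_ ?_)
    · rw [totalDegree_C]
      exact Nat.zero_le _
    · refine (totalDegree_mul _ _).trans ?_
      rw [totalDegree_C, totalDegree_X]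
      exact le_max_right _ _

/-- The label depends on the same coordinates. -/
theorem dep_lzo (j : Fin m) {I : Finset (Fin m)} {Q : MvPolynomial (Option (Fin m)) ℝ}
    (hQ : ∀ b b' : Option (Fin m) → ℝ, b none = b' none →
      (∀ i ∈ I, b (some i) = b' (some i)) → eval b Q = eval b' Q)
    (b b' : Option (Fin m) → ℝ) (h0 : b none = b' none)
    (hb : ∀ i ∈ I, b (some i) = b' (some i)) :
    eval b (lzo W s τ cl vl j Q) = eval b' (lzo W s τ cl vl j Q) := by
  have e1 : eval (lzp W τ cl vl b) Q = eval (lzp W τ cl vl b') Q := by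
    refine hQ _ _ ?_ fun i hi => ?_
    · unfold lzp
      rw [h0]
    · unfold lzp
      simp only
      rw [h0, hb i hi]
  rw [eval_lzo, eval_lzo, e1, h0]

end

end Pool.SHE33
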