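import Pool.Agent.H33.SHE.Lf

/-!
# Closed labels of functions: gradients and linear combinations

`pd_sub`: the gradient of a substitution. `pd_lzo`: the gradient of the label of a coordinate of the
zoom. `lyo`: the label of the linear form in the family from the label of the coordinate of the
zoom. `Lf.lin`: a linear combination of two functions with closed labels.
-/

set_option autoImplicit false

namespace Pool.SHE33

open Finset Real MvPolynomial
open Pool.Agent.H49.Ent Pool.Agent.H32.Dense Pool.STK Pool.KA Pool.KSAT Pool.K2S Pool.PB Pool.S6C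
open Pool.GEN Pool.ZCL Pool.TOP Pool.ZLC

variable {m J : ℕ}

/-- The gradient of a substitution. -/
theorem pd_sub {g : Option (Fin m) → MvPolynomial (Option (Fin m)) ℝ}
    {Q : MvPolynomial (Option (Fin m)) ℝ} {b : Option (Fin m) → ℝ} {o : Option (Fin m)} {M c : ℝ}
    (hM : ∀ i, |eval (fun i => eval b (g i)) (pderiv i Q)| ≤ M)
    (hc : ∀ i, |eval b (pderiv o (g i))| ≤ c) :
    |eval b (pderiv o (aeval g Q))| ≤ (m + 1) * M * c := by
  classical
  rw [pd_aeval, map_sum]
  refine (Finset.abs_sum_le_sum_abs _ _).trans ?_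
  have hM0 : 0 ≤ M := (abs_nonneg _).trans (hM none)
  have h1 : ∀ i ∈ (Finset.univ : Finset (Option (Fin m))),
      |eval b (aeval g (pderiv i Q) * pderiv o (g i))| ≤ M * c := by
    intro i _
    rw [map_mul, eval_aevalσ, abs_mul]
    exact mul_le_mul (hM i) (hc i) (abs_nonneg _) hM0
  refine (Finset.sum_le_sum h1).trans (le_of_eq ?_)
  rw [Finset.sum_const, Finset.card_univ, Fintype.card_option, Fintype.card_fin, nsmul_eq_mul]
  push_cast
  ring

/-- The gradient of a variable. -/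
theorem ev_pX (b : Option (Fin m) → ℝ) (o i : Option (Fin m)) :
    |eval b (pderiv o (X i : MvPolynomial (Option (Fin m)) ℝ))| ≤ 1 := by
  classical
  rw [pderiv_X]
  by_cases h : i = o
  · subst h
    rw [Pi.single_eq_same, map_one, abs_one]
  · rw [Pi.single_eq_of_ne h, map_zero, abs_zero]
    exact zero_le_one

section

variable (W s : ℕ) (τ : ℝ) (cl vl : Fin m → ℝ)

theorem pd_lin {v : ℝ} (hv : ∀ j, |vl j| ≤ v) (b : Option (Fin m) → ℝ) (o : Option (Fin m))
    (j : Fin m) :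
    |eval b (pderiv o (MvPolynomial.C (cl j) + MvPolynomial.C (vl j) * X none))| ≤ v := by
  rw [map_add, pderiv_C, zero_add, pderiv_mul, pderiv_C, zero_mul, zero_add, map_mul, eval_C,
    abs_mul]
  calc |vl j| * _ ≤ |vl j| * 1 := mul_le_mul_of_nonneg_left (ev_pX b o none) (abs_nonneg _)
    _ ≤ v := by
      rw [mul_one]
      exact hv j

theorem pd_zc {v : ℝ} (hv : ∀ j, |vl j| ≤ v) (b : Option (Fin m) → ℝ) (o : Option (Fin m))
    (j : Fin m) : |eval b (pderiv o (zc cl vl j))| ≤ 1 + v := by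
  unfold zc
  rw [add_assoc, map_add, map_add]
  exact (abs_add_le _ _).trans (add_le_add (ev_pX b o (some j)) (pd_lin cl vl hv b o j))

theorem pd_lzs {v : ℝ} (hv : ∀ j, |vl j| ≤ v) (hv0 : 0 ≤ v) (b : Option (Fin m) → ℝ)
    (o i : Option (Fin m)) : |eval b (pderiv o (lzs W τ cl vl i))| ≤ (1 + v) / 2 ^ W := by
  have pW : (0 : ℝ) < 2 ^ W := by positivity
  have key : ∀ Q : MvPolynomial (Option (Fin m)) ℝ, |eval b (pderiv o Q)| ≤ 1 + v →
      |eval b (pderiv o (MvPolynomial.C (1 / 2 ^ W) * Q))| ≤ (1 + v) / 2 ^ W := by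
    intro Q hQ
    rw [pderiv_mul, pderiv_C, zero_mul, zero_add, map_mul, eval_C, abs_mul,
      abs_of_pos (by positivity), div_mul_eq_mul_div, one_mul]
    exact div_le_div_of_nonneg_right hQ pW.le
  rcases i with _ | j
  · unfold lzs
    refine key _ ?_
    rw [map_add, pderiv_C, zero_add]
    refine (ev_pX b o none).trans ?_
    linarith
  · exact key _ (pd_zc cl vl hv b o j)

/-- **The gradient of the label of a coordinate of the zoom**. -/
theorem pd_lzo {v : ℝ} (hv : ∀ j, |vl j| ≤ v) (hv0 : 0 ≤ v) (j : Fin m)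
    {Q : MvPolynomial (Option (Fin m)) ℝ} {b : Option (Fin m) → ℝ} {M : ℝ}
    (hM : ∀ o, |eval (lzp W τ cl vl b) (pderiv o Q)| ≤ M) (o : Option (Fin m)) :
    |eval b (pderiv o (lzo W s τ cl vl j Q))| ≤ (m + 1) * M * (1 + v) + v := by
  have pW : (0 : ℝ) < 2 ^ W := by positivity
  have ps : (1 : ℝ) ≤ 2 ^ s := one_le_pow₀ one_le_two
  have hM0 : 0 ≤ M := (abs_nonneg _).trans (hM none)
  have e1 : (fun i => eval b (lzs W τ cl vl i)) = lzp W τ cl vl b := by
    funext i
    exact eval_lzs W τ cl vl b i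
  have h1 := pd_sub (g := lzs W τ cl vl) (Q := Q) (b := b) (o := o) (M := M)
    (c := (1 + v) / 2 ^ W) (fun i => by
      rw [e1]
      exact hM i) (fun i => pd_lzs W τ cl vl hv hv0 b o i)
  unfold lzo
  rw [map_sub, map_sub, pderiv_mul, pderiv_C, zero_mul, zero_add, map_mul, eval_C]
  refine (abs_sub _ _).trans (add_le_add ?_ (pd_lin cl vl hv b o j))
  rw [abs_mul, abs_of_pos (by positivity : (0 : ℝ) < 2 ^ W / 2 ^ s)]
  have h0 : 0 ≤ (m + 1) * M * ((1 + v) / 2 ^ W) := by positivity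
  calc 2 ^ W / 2 ^ s * |eval b (pderiv o (aeval (lzs W τ cl vl) Q))| ≤
        2 ^ W * |eval b (pderiv o (aeval (lzs W τ cl vl) Q))| := by
        refine mul_le_mul_of_nonneg_right ?_ (abs_nonneg _)
        exact div_le_self pW.le ps
    _ ≤ 2 ^ W * ((m + 1) * M * ((1 + v) / 2 ^ W)) := mul_le_mul_of_nonneg_left h1 pW.le
    _ = (m + 1) * M * (1 + v) := by field_simp

/-! ### The label in the family -/

/-- The point of the zoom. -/
noncomputable def lyp (b : Option (Fin m) → ℝ) : Option (Fin m) → ℝ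
  | none => 2 ^ W * b none - τ
  | some j => 2 ^ W * b (some j) - (cl j + vl j * (2 ^ W * b none - τ))

/-- The point of the zoom, as polynomials. -/
noncomputable def lys : Option (Fin m) → MvPolynomial (Option (Fin m)) ℝ
  | none => yt W τ
  | some j => MvPolynomial.C (2 ^ W) * X (some j) -
      (MvPolynomial.C (cl j) + MvPolynomial.C (vl j) * yt W τ)

theorem eval_lys (b : Option (Fin m) → ℝ) (o : Option (Fin m)) :
    eval b (lys W τ cl vl o) = lyp W τ cl vl b o := by
  rcases o with _ | j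
  · unfold lys lyp
    exact eval_yt W τ b
  · unfold lys lyp
    simp only
    rw [map_sub, map_mul, eval_C, eval_X, map_add, map_mul, eval_C, eval_C, eval_yt]

theorem deg_lys (o : Option (Fin m)) : (lys W τ cl vl o).totalDegree ≤ 1 := by
  rcases o with _ | j
  · exact deg_yt W τ
  · unfold lys
    simp only
    refine (totalDegree_sub _ _).trans (max_le ?_ ?_)
    · refine (totalDegree_mul _ _).trans ?_
      rw [totalDegree_C, zero_add, totalDegree_X]
    · refine (totalDegree_add _ _).trans (max_le ?_ ?_)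
      · rw [totalDegree_C]
        exact Nat.zero_le _
      · refine (totalDegree_mul _ _).trans ?_
        rw [totalDegree_C, zero_add]
        exact deg_yt W τ

/-- **The label of the linear form in the family**, from the label `Q` of the coordinate `j`. -/
noncomputable def lyo (j : Fin m) (Q : MvPolynomial (Option (Fin m)) ℝ) :
    MvPolynomial (Option (Fin m)) ℝ :=
  MvPolynomial.C (2 ^ s / 2 ^ W) * (aeval (lys W τ cl vl) Q +
    (MvPolynomial.C (cl j) + MvPolynomial.C (vl j) * yt W τ))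

theorem eval_lyo (j : Fin m) (Q : MvPolynomial (Option (Fin m)) ℝ) (b : Option (Fin m) → ℝ) :
    eval b (lyo W s τ cl vl j Q) = 2 ^ s / 2 ^ W *
      (eval (lyp W τ cl vl b) Q + (cl j + vl j * (2 ^ W * b none - τ))) := by
  unfold lyo
  have e1 : (fun o => eval b (lys W τ cl vl o)) = lyp W τ cl vl b := by
    funext o
    exact eval_lys W τ cl vl b o
  rw [map_mul, eval_C, map_add, eval_aevalσ, map_add, map_mul, eval_C, eval_C, eval_yt, e1]

theorem deg_lyo {K : ℕ} (j : Fin m) {Q : MvPolynomial (Option (Fin m)) ℝ}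
    (hQ : Q.totalDegree ≤ K) : (lyo W s τ cl vl j Q).totalDegree ≤ max K 1 := by
  unfold lyo
  refine (totalDegree_mul _ _).trans ?_
  rw [totalDegree_C, zero_add]
  refine (totalDegree_add _ _).trans (max_le ?_ ?_)
  · have h1 := totalDegree_aevalσ (g := lys W τ cl vl) (deg_lys W τ cl vl) hQ
    have := le_max_left K 1
    omega
  · refine (totalDegree_add _ _).trans (max_le ?_ ?_)
    · rw [totalDegree_C]
      exact Nat.zero_le _
    · refine (totalDegree_mul _ _).trans ?_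
      rw [totalDegree_C, zero_add]
      exact (deg_yt W τ).trans (le_max_right _ _)

/-- The label depends on the same coordinates. -/
theorem dep_lyo (j : Fin m) {I : Finset (Fin m)} {Q : MvPolynomial (Option (Fin m)) ℝ}
    (hQ : ∀ b b' : Option (Fin m) → ℝ, b none = b' none →
      (∀ i ∈ I, b (some i) = b' (some i)) → eval b Q = eval b' Q)
    (b b' : Option (Fin m) → ℝ) (h0 : b none = b' none)
    (hb : ∀ i ∈ I, b (some i) = b' (some i)) :
    eval b (lyo W s τ cl vl j Q) = eval b' (lyo W s τ cl vl j Q) := by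
  have e1 : eval (lyp W τ cl vl b) Q = eval (lyp W τ cl vl b') Q := by
    refine hQ _ _ ?_ fun i hi => ?_
    · unfold lyp
      rw [h0]
    · unfold lyp
      simp only
      rw [h0, hb i hi]
  rw [eval_lyo, eval_lyo, e1, h0]

theorem pd_yt (b : Option (Fin m) → ℝ) (o : Option (Fin m)) :
    |eval b (pderiv o (yt (m := m) W τ))| ≤ 2 ^ W := by
  unfold yt
  rw [map_sub, pderiv_C, sub_zero, pderiv_mul, pderiv_C, zero_mul, zero_add, map_mul, eval_C,
    abs_mul, abs_of_pos (by positivity : (0 : ℝ) < 2 ^ W)]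
  exact mul_le_of_le_one_right (by positivity) (ev_pX b o none)

theorem pd_liny {v : ℝ} (hv : ∀ j, |vl j| ≤ v) (b : Option (Fin m) → ℝ) (o : Option (Fin m))
    (j : Fin m) :
    |eval b (pderiv o (MvPolynomial.C (cl j) + MvPolynomial.C (vl j) * yt W τ))| ≤ v * 2 ^ W := by
  rw [map_add, pderiv_C, zero_add, pderiv_mul, pderiv_C, zero_mul, zero_add, map_mul, eval_C,
    abs_mul]
  exact mul_le_mul (hv j) (pd_yt W τ b o) (abs_nonneg _) ((abs_nonneg _).trans (hv j))

theorem pd_lys {v : ℝ} (hv : ∀ j, |vl j| ≤ v) (hv0 : 0 ≤ v) (b : Option (Fin m) → ℝ)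
    (o i : Option (Fin m)) : |eval b (pderiv o (lys W τ cl vl i))| ≤ (1 + v) * 2 ^ W := by
  have pW : (0 : ℝ) < 2 ^ W := by positivity
  rcases i with _ | j
  · unfold lys
    refine (pd_yt W τ b o).trans ?_
    have := mul_nonneg hv0 pW.le
    linarith
  · unfold lys
    simp only
    rw [map_sub, map_sub]
    refine (abs_sub _ _).trans ?_
    rw [add_mul, one_mul]
    refine add_le_add ?_ (pd_liny W τ cl vl hv b o j)
    rw [pderiv_mul, pderiv_C, zero_mul, zero_add, map_mul, eval_C, abs_mul,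
      abs_of_pos (by positivity : (0 : ℝ) < 2 ^ W)]
    exact mul_le_of_le_one_right pW.le (ev_pX b o (some j))

/-- **The gradient of the label in the family**. -/
theorem pd_lyo {v : ℝ} (hv : ∀ j, |vl j| ≤ v) (hv0 : 0 ≤ v) (j : Fin m)
    {Q : MvPolynomial (Option (Fin m)) ℝ} {b : Option (Fin m) → ℝ} {M : ℝ}
    (hM : ∀ o, |eval (lyp W τ cl vl b) (pderiv o Q)| ≤ M) (o : Option (Fin m)) :
    |eval b (pderiv o (lyo W s τ cl vl j Q))| ≤ 2 ^ s * ((m + 1) * M * (1 + v) + v) := by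
  have pW : (0 : ℝ) < 2 ^ W := by positivity
  have ps : (0 : ℝ) < 2 ^ s := by positivity
  have e1 : (fun i => eval b (lys W τ cl vl i)) = lyp W τ cl vl b := by
    funext i
    exact eval_lys W τ cl vl b i
  have h1 := pd_sub (g := lys W τ cl vl) (Q := Q) (b := b) (o := o) (M := M)
    (c := (1 + v) * 2 ^ W) (fun i => by
      rw [e1]
      exact hM i) (fun i => pd_lys W τ cl vl hv hv0 b o i)
  unfold lyo
  rw [pderiv_mul, pderiv_C, zero_mul, zero_add, map_mul, eval_C, map_add, map_add, abs_mul,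
    abs_of_pos (by positivity : (0 : ℝ) < 2 ^ s / 2 ^ W)]
  have h2 := (abs_add_le (eval b (pderiv o (aeval (lys W τ cl vl) Q)))
    (eval b (pderiv o (MvPolynomial.C (cl j) + MvPolynomial.C (vl j) * yt W τ)))).trans
    (add_le_add h1 (pd_liny W τ cl vl hv b o j))
  calc _ ≤ 2 ^ s / 2 ^ W * ((m + 1) * M * ((1 + v) * 2 ^ W) + v * 2 ^ W) :=
        mul_le_mul_of_nonneg_left h2 (by positivity)
    _ = 2 ^ s * ((m + 1) * M * (1 + v) + v) := by
        field_simp

end

/-! ### Linear combinations -/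

/-- The label of a coordinate over itself. -/
theorem lf_own (F : Fam m J) {I : Finset (Fin m)} {p : Fin m} (hp : p ∈ I) (w ρ P : ℕ)
    (A : F.Ω → Prop) : Lf F I (fun ω => F.x ω p) 1 0 w ρ P A := by
  refine ⟨Unit, fun _ => (), fun _ => (), fun _ => X (some p), fun _ => ?_, fun _ b b' _ hb => ?_,
    fun _ _ => rfl, fun ω _ => ?_, fun ω _ b _ o => ?_⟩
  · rw [totalDegree_X]
  · rw [eval_X, eval_X]
    exact hb p hp
  · rw [eval_X]
    show |F.x ω p - F.x ω p| ≤ _
    rw [sub_self, abs_zero]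
    positivity
  · rw [pow_zero]
    exact ev_pX b o (some p)

/-- **A linear combination.** -/
theorem Lf.lin {F : Fam m J} {I : Finset (Fin m)} {f₁ f₂ : F.Ω → ℝ} {K e₁ e₂ w ρ P M : ℕ}
    {A : F.Ω → Prop} (h₁ : Lf F I f₁ K e₁ w ρ (P + 1) A)
    (h₂ : Lf F I f₂ K e₂ w ρ (P + M + 1) A) {κ : Type} {y : PtT F → κ} {y' : LnT F → κ}
    (hy : ∀ ω, A ω → y (ptr F J ω) = y' (slam F w ω)) (c : κ → ℝ) (hc : ∀ k, |c k| ≤ 2 ^ M) :
    Lf F I (fun ω => f₁ ω - c (y' (slam F w ω)) * f₂ ω) K (e₁ + e₂ + M + 1) w ρ P A := by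
  obtain ⟨V₁, z₁, z₁', G₁, h₁⟩ := h₁
  obtain ⟨V₂, z₂, z₂', G₂, h₂⟩ := h₂
  refine ⟨(V₁ × V₂) × κ, fun x => ((z₁ x, z₂ x), y x), fun x => ((z₁' x, z₂' x), y' x),
    fun v => G₁ v.1.1 - MvPolynomial.C (c v.2) * G₂ v.1.2, fun v => ?_, fun v b b' h0 hb => ?_,
    fun ω hω => ?_, fun ω hω => ?_, fun ω hω b hb o => ?_⟩
  · refine (totalDegree_sub _ _).trans (max_le (h₁.deg _) ?_)
    refine (totalDegree_mul _ _).trans ?_
    rw [totalDegree_C, zero_add]
    exact h₂.deg _
  · rw [map_sub, map_sub, map_mul, map_mul, eval_C, eval_C, h₁.dep _ b b' h0 hb,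
      h₂.dep _ b b' h0 hb]
  · exact Prod.ext (Prod.ext (h₁.cls ω hω) (h₂.cls ω hω)) (hy ω hω)
  · simp only
    rw [map_sub, map_mul, eval_C]
    obtain ⟨cc, hcc⟩ : ∃ cc, cc = c (y' (slam F w ω)) := ⟨_, rfl⟩
    rw [← hcc]
    have hcM : |cc| ≤ 2 ^ M := by rw [hcc]; exact hc _
    have a1 := h₁.pos ω hω
    have a2 := h₂.pos ω hω
    obtain ⟨E₁, hE₁⟩ : ∃ E, E = eval (bt F ω) (G₁ (z₁' (slam F w ω))) := ⟨_, rfl⟩
    obtain ⟨E₂, hE₂⟩ : ∃ E, E = eval (bt F ω) (G₂ (z₂' (slam F w ω))) := ⟨_, rfl⟩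
    rw [← hE₁] at a1
    rw [← hE₂] at a2
    rw [← hE₁, ← hE₂]
    have e1 : f₁ ω - cc * f₂ ω - (E₁ - cc * E₂) = (f₁ ω - E₁) - cc * (f₂ ω - E₂) := by ring
    rw [e1]
    refine (abs_sub _ _).trans ?_
    rw [abs_mul]
    have a3 : |cc| * |f₂ ω - E₂| ≤ 2 ^ M * (1 / 2 ^ (P + M + 1)) :=
      mul_le_mul hcM a2 (abs_nonneg _) (by positivity)
    have e2 : (2 : ℝ) ^ M * (1 / 2 ^ (P + M + 1)) = 1 / 2 ^ (P + 1) := by
      rw [show P + M + 1 = M + (P + 1) by omega, pow_add 2 M (P + 1)]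
      field_simp
    have e3 : (1 : ℝ) / 2 ^ P = 1 / 2 ^ (P + 1) + 1 / 2 ^ (P + 1) := by
      rw [pow_succ]
      field_simp
      norm_num
    rw [e3]
    rw [e2] at a3
    exact add_le_add a1 a3
  · simp only
    have a1 := h₁.lip ω hω b hb o
    have a2 := h₂.lip ω hω b hb o
    obtain ⟨cc, hcc⟩ : ∃ cc, cc = c (y' (slam F w ω)) := ⟨_, rfl⟩
    rw [← hcc]
    have hcM : |cc| ≤ 2 ^ M := by rw [hcc]; exact hc _
    rw [map_sub, map_sub, pderiv_mul, pderiv_C, zero_mul, zero_add, map_mul, eval_C]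
    refine (abs_sub _ _).trans ?_
    rw [abs_mul]
    have a3 : |cc| * |eval b (pderiv o (G₂ (z₂' (slam F w ω))))| ≤ 2 ^ M * 2 ^ e₂ :=
      mul_le_mul hcM a2 (abs_nonneg _) (by positivity)
    have b1 : (2 : ℝ) ^ e₁ ≤ 2 ^ (e₁ + e₂ + M) := pow_le_pow_right₀ one_le_two (by omega)
    have b2 : (2 : ℝ) ^ M * 2 ^ e₂ ≤ 2 ^ (e₁ + e₂ + M) := by
      rw [← pow_add]
      exact pow_le_pow_right₀ one_le_two (by omega)
    have e1 : (2 : ℝ) ^ (e₁ + e₂ + M + 1) = 2 ^ (e₁ + e₂ + M) + 2 ^ (e₁ + e₂ + M) := by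
      rw [pow_succ]
      ring
    rw [e1]
    exact add_le_add (a1.trans b1) (a3.trans b2)

end Pool.SHE33
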