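import Pool.Agent.H33.SHE.Lfa

/-!
# Closed labels of functions in the family and in the sheared zoom

`fms`: the linear form which becomes the coordinate `k` of the zoom. `lf_fwd`: a closed label of the
linear form over coordinates which are not sheared is a closed label of the coordinate of the zoom,
on a large event. `lf_bwd`: the converse.
-/

set_option autoImplicit false

namespace Pool.SHE33

open Finset Real MvPolynomial
open Pool.Agent.H49.Ent Pool.Agent.H32.Dense Pool.STK Pool.KA Pool.KSAT Pool.K2S Pool.PB Pool.S6C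
open Pool.GEN Pool.ZCL Pool.TOP Pool.ZLC Pool.ZFW
open Pool.ZLB (shC_bvl)

variable {m J : ℕ}

/-- **The linear form** which becomes the coordinate `k` of the zoom. -/
noncomputable def fms {κ : Type} (F : Fam m J) (cb : κ → Fin m → ℝ) (p q : Fin m) (M : ℕ)
    (g : F.Ω → κ) (k : Fin m) (ω : F.Ω) : ℝ :=
  F.x ω k - if k = q then clp M (cb (g ω) q) * F.x ω p else 0

section

variable {F : Fam m J} {W J' : ℕ} (h : W + J' = J) {κ : Type} {cb : κ → Fin m → ℝ} {p q : Fin m}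
  {hp : p ∉ ({q} : Finset (Fin m))} {M : Fin m → ℕ} (g : F.Ω → κ) (ω : F.Ω)

/-- The coordinate of the zoom. -/
theorem fms_zfc (k : Fin m) :
    |(zfc F W J' h.le (shC cb p {q} hp M) g id).x ω k -
      (2 ^ W / 2 ^ msc q (M q) k * fms F cb p q (M q) g k ω -
        ((F.bcl W (shC cb p {q} hp M) g ω k : ℝ) + (F.bvl (shC cb p {q} hp M) g ω k : ℝ) *
          (zfc F W J' h.le (shC cb p {q} hp M) g id).t ω))| ≤ 3 / 2 ^ J' := by
  have h1 := zfc_x F h.le (shC cb p {q} hp M) g id ω k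
  simp only [id_eq] at h1
  rw [Pool.ZFW.zfc_t' F h (shC cb p {q} hp M) g id ω]
  have e1 : (shC cb p {q} hp M).L (g ω) (F.x ω) k =
      1 / 2 ^ msc q (M q) k * fms F cb p q (M q) g k ω := by
    unfold fms msc
    by_cases hk : k = q
    · subst hk
      rw [shC_mem (Finset.mem_singleton_self k), if_pos rfl, if_pos rfl]
      ring
    · rw [shC_not (by rw [Finset.mem_singleton]; exact hk), if_neg hk, if_neg hk, pow_zero]
      ring
  rw [e1] at h1
  refine le_trans (le_of_eq ?_) h1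
  congr 1
  ring

/-- The own point, in a coordinate which is not sheared. -/
theorem lzp_near {i : Fin m} (hi : i ≠ q) :
    |lzp W (F.T1 W ω) (fun i => (F.bcl W (shC cb p {q} hp M) g ω i : ℝ))
      (fun i => (F.bvl (shC cb p {q} hp M) g ω i : ℝ))
      (bt (zfc F W J' h.le (shC cb p {q} hp M) g id) ω) (some i) - F.x ω i| ≤ 3 / 2 ^ J := by
  have pW : (0 : ℝ) < 2 ^ W := by positivity
  have eJ : (2 : ℝ) ^ J = 2 ^ W * 2 ^ J' := by rw [← pow_add, h]
  have h1 := fms_zfc h (cb := cb) (p := p) (q := q) (hp := hp) (M := M) g ω i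
  obtain ⟨Z, hZ⟩ : ∃ Z, Z = zfc F W J' h.le (shC cb p {q} hp M) g id := ⟨_, rfl⟩
  have e0 : fms F cb p q (M q) g i ω = F.x ω i := by
    unfold fms
    rw [if_neg hi, sub_zero]
  have e1 : msc q (M q) i = 0 := by
    unfold msc
    rw [if_neg hi]
  rw [e0, e1, pow_zero, div_one] at h1
  unfold lzp
  show |((zfc F W J' h.le (shC cb p {q} hp M) g id).x ω i +
    (F.bcl W (shC cb p {q} hp M) g ω i : ℝ) + (F.bvl (shC cb p {q} hp M) g ω i : ℝ) *
      (zfc F W J' h.le (shC cb p {q} hp M) g id).t ω) / 2 ^ W - F.x ω i| ≤ _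
  have e2 : ((zfc F W J' h.le (shC cb p {q} hp M) g id).x ω i +
      (F.bcl W (shC cb p {q} hp M) g ω i : ℝ) + (F.bvl (shC cb p {q} hp M) g ω i : ℝ) *
        (zfc F W J' h.le (shC cb p {q} hp M) g id).t ω) / 2 ^ W - F.x ω i =
      ((zfc F W J' h.le (shC cb p {q} hp M) g id).x ω i -
        (2 ^ W * F.x ω i - ((F.bcl W (shC cb p {q} hp M) g ω i : ℝ) +
          (F.bvl (shC cb p {q} hp M) g ω i : ℝ) *
            (zfc F W J' h.le (shC cb p {q} hp M) g id).t ω))) / 2 ^ W := by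
    field_simp
    ring
  rw [e2, eJ, abs_div, abs_of_pos pW, div_le_div_iff₀ pW (by positivity)]
  rw [le_div_iff₀ (by positivity)] at h1
  have h2 := mul_le_mul_of_nonneg_right h1 pW.le
  linarith

/-- The time of the own point. -/
theorem lzp_none (b : Option (Fin m) → ℝ) (cl vl : Fin m → ℝ) :
    lzp W (F.T1 W ω) cl vl b none =
      F.t ω + (b none - (zfc F W J' h.le (shC cb p {q} hp M) g id).t ω) / 2 ^ W := by
  rw [Pool.ZFW.zfc_t' F h (shC cb p {q} hp M) g id ω]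
  unfold lzp tb
  field_simp
  ring

/-- The point of the zoom for the own point, in a coordinate which is not sheared. -/
theorem lyp_near {i : Fin m} (hi : i ≠ q) :
    |lyp W (F.T1 W ω) (fun i => (F.bcl W (shC cb p {q} hp M) g ω i : ℝ))
      (fun i => (F.bvl (shC cb p {q} hp M) g ω i : ℝ)) (bt F ω) (some i) -
        (zfc F W J' h.le (shC cb p {q} hp M) g id).x ω i| ≤ 3 / 2 ^ J' := by
  have h1 := fms_zfc h (cb := cb) (p := p) (q := q) (hp := hp) (M := M) g ω i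
  have e0 : fms F cb p q (M q) g i ω = F.x ω i := by
    unfold fms
    rw [if_neg hi, sub_zero]
  have e1 : msc q (M q) i = 0 := by
    unfold msc
    rw [if_neg hi]
  rw [e0, e1, pow_zero, div_one, Pool.ZFW.zfc_t' F h (shC cb p {q} hp M) g id ω, abs_sub_comm] at h1
  exact h1

theorem lyp_none (b : Option (Fin m) → ℝ) (cl vl : Fin m → ℝ) :
    lyp W (F.T1 W ω) cl vl b none =
      (zfc F W J' h.le (shC cb p {q} hp M) g id).t ω + 2 ^ W * (b none - F.t ω) := by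
  rw [Pool.ZFW.zfc_t' F h (shC cb p {q} hp M) g id ω]
  unfold lyp tb
  ring

end

/-- **A closed label in the zoom.** -/
theorem lf_fwd (m : ℕ) : ∃ C : ℕ, ∀ {J : ℕ} (F : Fam m J) {W J' V : ℕ} (h : W + J' = J)
    (_ : V ≤ J') {κ : Type} {cb : κ → Fin m → ℝ} {p q : Fin m}
    {hp : p ∉ ({q} : Finset (Fin m))} {M : Fin m → ℕ} (z' : LnT F → κ) {I : Finset (Fin m)}
    (_ : q ∉ I) (k : Fin m) {K e ρ P ρ' P' : ℕ} {B : F.Ω → Prop},
    Lf F I (fms F cb p q (M q) (fun ω => z' (slam F W ω)) k) K e (W + V) ρ P B →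
    ρ + 3 ≤ W + ρ' → ρ + 3 ≤ J → P' + W + C ≤ P → P' + e + C ≤ J' → 0 < Pe F.p B →
    (∀ ω ω', B ω → B ω' →
      ptr (zfc F W J' h.le (shC cb p {q} hp M) (fun ω => z' (slam F W ω)) id) J' ω =
        ptr (zfc F W J' h.le (shC cb p {q} hp M) (fun ω => z' (slam F W ω)) id) J' ω' →
      ptr F J ω = ptr F J ω') →
    ∀ {b : ℝ}, (∀ hl : IsLaw (Pool.Agent.H49.Ent.cond F.p B True), (F.res B True hl).Tm b) →
    ∃ B₁ : F.Ω → Prop, Sub B₁ B ∧ Real.exp (-b) * Pe F.p B ≤ Pe F.p B₁ ∧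
      Lf (zfc F W J' h.le (shC cb p {q} hp M) (fun ω => z' (slam F W ω)) id) I
        (fun ω => (zfc F W J' h.le (shC cb p {q} hp M) (fun ω => z' (slam F W ω)) id).x ω k)
        (max K 1) (e + C) V ρ' P' B₁ := by
  obtain ⟨C, hC⟩ : ∃ C : ℕ, (4 * (m + 1) + 3 : ℝ) ≤ 2 ^ C ∧ (6 * (m + 1) : ℝ) ≤ 2 ^ C ∧
      4 ≤ C := by
    obtain ⟨C, hC⟩ := pow_unbounded_of_one_lt (10 * ((m : ℝ) + 1)) (one_lt_two (α := ℝ))
    have h0 : (0 : ℝ) ≤ m := Nat.cast_nonneg m
    have h1 : (2 : ℝ) ^ C ≤ 2 ^ (C + 4) := pow_le_pow_right₀ one_le_two (by omega)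
    exact ⟨C + 4, by linarith, by linarith, by omega⟩
  obtain ⟨hC1, hC2, hC3⟩ := hC
  refine ⟨C, ?_⟩
  intro J F W J' V h hV κ cb p q hp M z' I hqI k K e ρ P ρ' P' B hL hρ hρJ hP hPe hB hpt b hTm
  obtain ⟨V₂, zz, zz', G, hL⟩ := hL
  obtain ⟨B₁, hB₁, hPB, v, hv⟩ := rep_zfc F h hV (shC cb p {q} hp M) z' id hB
    (fun y s => zz y = zz' s) (fun ω hω => hL.cls ω hω) hpt hTm
  obtain ⟨ψ, hψ⟩ := Pool.GEN.fac
    (f := ptr (zfc F W J' h.le (shC cb p {q} hp M) (fun ω => z' (slam F W ω)) id) J')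
    (Y := ptr F J) (B := B) hpt
  obtain ⟨gz, hgz⟩ : ∃ gz : F.Ω → κ, gz = fun ω => z' (slam F W ω) := ⟨_, rfl⟩
  rw [← hgz] at hL hv hψ ⊢
  refine ⟨B₁, hB₁, hPB, ?_⟩
  -- the label
  obtain ⟨tr, htr⟩ : ∃ tr : ((((ℕ × κ) × ((Fin m → ℤ) × (Fin m → ℤ))) × F.ζ) × Option V₂) →
      MvPolynomial (Option (Fin m)) ℝ, tr = fun β =>
      match β.2 with
      | none => 0
      | some v => lzo W (msc q (M q) k) (β.1.1.1.1 : ℝ) (fun i => (β.1.1.2.1 i : ℝ))
        (fun i => (β.1.1.2.2 i : ℝ)) k (G v) := ⟨_, rfl⟩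
  obtain ⟨φ, hφ⟩ : ∃ φ : F.Ω → (Option (Fin m) → ℝ) → Option (Fin m) → ℝ, φ = fun ω =>
      lzp W (F.T1 W ω) (fun i => (F.bcl W (shC cb p {q} hp M) gz ω i : ℝ))
        (fun i => (F.bvl (shC cb p {q} hp M) gz ω i : ℝ)) := ⟨_, rfl⟩
  have pW : (0 : ℝ) < 2 ^ W := by positivity
  have eJ : (2 : ℝ) ^ J = 2 ^ W * 2 ^ J' := by rw [← pow_add, h]
  have own : ∀ ω : F.Ω, B₁ ω →
      zz' (v (slam (zfc F W J' h.le (shC cb p {q} hp M) gz id) V ω)) =
        zz' (slam F (W + V) ω) := fun ω hω => (hv ω hω).symm.trans (hL.cls ω (hB₁ ω hω))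
  have hval : ∀ ω : F.Ω, B₁ ω → tr ((slam (zfc F W J' h.le (shC cb p {q} hp M) gz id) V ω).2.1,
      some (zz' (v (slam (zfc F W J' h.le (shC cb p {q} hp M) gz id) V ω)))) =
      lzo W (msc q (M q) k) (F.T1 W ω) (fun i => (F.bcl W (shC cb p {q} hp M) gz ω i : ℝ))
        (fun i => (F.bvl (shC cb p {q} hp M) gz ω i : ℝ)) k (G (zz' (slam F (W + V) ω))) := by
    intro ω hω
    rw [own ω hω, htr]
    rfl
  have h0φ : ∀ (ω : F.Ω) (b : Option (Fin m) → ℝ), φ ω b none =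
      F.t ω + (b none - (zfc F W J' h.le (shC cb p {q} hp M) gz id).t ω) / 2 ^ W := by
    intro ω b
    rw [hφ]
    exact lzp_none h gz ω b _ _
  have hiφ : ∀ (ω : F.Ω) (i : Fin m), i ≠ q →
      |φ ω (bt (zfc F W J' h.le (shC cb p {q} hp M) gz id) ω) (some i) - F.x ω i| ≤
        3 / 2 ^ J := by
    intro ω i hi
    rw [hφ]
    exact lzp_near h gz ω hi
  have hv3 : ∀ (ω : F.Ω) (j : Fin m), |(F.bvl (shC cb p {q} hp M) gz ω j : ℝ)| ≤ 3 :=
    fun ω j => shC_bvl gz ω j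
  have hρJ' : (3 : ℝ) / 2 ^ J ≤ 3 / 8 * (1 / 2 ^ ρ) := by
    have h1 : (2 : ℝ) ^ (ρ + 3) ≤ 2 ^ J := pow_le_pow_right₀ one_le_two hρJ
    rw [pow_add] at h1
    rw [mul_one_div, div_div, div_le_div_iff₀ (by positivity) (by positivity)]
    linarith
  have hρW : (1 : ℝ) / 2 ^ ρ' / 2 ^ W ≤ 1 / 8 * (1 / 2 ^ ρ) := by
    have h1 : (2 : ℝ) ^ (ρ + 3) ≤ 2 ^ (W + ρ') := pow_le_pow_right₀ one_le_two hρ
    rw [pow_add, pow_add] at h1
    rw [div_div, mul_one_div, div_div, div_le_div_iff₀ (by positivity) (by positivity)]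
    linarith
  refine ⟨_, fun y => (y.2.2, (match ψ y with | none => none | some y' => some (zz y'))),
    fun s => (s.2.1, some (zz' (v s))), tr, fun β => ?_, fun β b b' h0 hb => ?_,
    fun (ω : F.Ω) hω => ?_, fun (ω : F.Ω) hω => ?_, fun (ω : F.Ω) hω b hb o => ?_⟩
  · rw [htr]
    rcases β with ⟨β, _ | v⟩
    · simp only
      rw [totalDegree_zero]
      exact Nat.zero_le _
    · exact deg_lzo _ _ _ _ _ _ (hL.deg v)
  · rw [htr]
    rcases β with ⟨β, _ | v⟩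
    · simp only
      rw [map_zero, map_zero]
    · exact dep_lzo _ _ _ _ _ _ (hL.dep v) b b' h0 hb
  · have h1 := hψ ω (hB₁ ω hω)
    show ((ptr (zfc F W J' h.le (shC cb p {q} hp M) gz id) J' ω).2.2,
      (match ψ (ptr (zfc F W J' h.le (shC cb p {q} hp M) gz id) J' ω) with
        | none => none | some y' => some (zz y'))) =
      ((slam (zfc F W J' h.le (shC cb p {q} hp M) gz id) V ω).2.1,
        some (zz' (v (slam (zfc F W J' h.le (shC cb p {q} hp M) gz id) V ω))))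
    rw [h1, ← hv ω hω]
    rfl
  · show |(zfc F W J' h.le (shC cb p {q} hp M) gz id).x ω k -
      eval (bt (zfc F W J' h.le (shC cb p {q} hp M) gz id) ω) (tr ((slam (zfc F W J' h.le
        (shC cb p {q} hp M) gz id) V ω).2.1,
          some (zz' (v (slam (zfc F W J' h.le (shC cb p {q} hp M) gz id) V ω)))))| ≤ 1 / 2 ^ P'
    rw [hval ω hω, eval_lzo]
    have hBω := hB₁ ω hω
    have h1 := hL.pos ω hBω
    have h2 := fms_zfc h (cb := cb) (p := p) (q := q) (hp := hp) (M := M) gz ω k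
    have h3 := ev_lip (hL.dep (zz' (slam F (W + V) ω))) (a := bt F ω)
      (b := φ ω (bt (zfc F W J' h.le (shC cb p {q} hp M) gz id) ω)) (δ := 1 / 2 ^ ρ)
      (x := 3 / 2 ^ J) (M := 2 ^ e) (by positivity) (hρJ'.trans (by
        have : (0 : ℝ) ≤ 1 / 2 ^ ρ := by positivity
        linarith)) (fun y hy o => hL.lip ω hBω y hy o) (by
        rw [h0φ]
        show |F.t ω + ((zfc F W J' h.le (shC cb p {q} hp M) gz id).t ω -
          (zfc F W J' h.le (shC cb p {q} hp M) gz id).t ω) / 2 ^ W - F.t ω| ≤ _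
        rw [sub_self, zero_div, add_zero, sub_self, abs_zero]
        positivity) (fun i hi => hiφ ω i fun he => hqI (he ▸ hi))
    rw [hφ] at h3
    obtain ⟨E₁, hE₁⟩ : ∃ E, E = eval (bt F ω) (G (zz' (slam F (W + V) ω))) := ⟨_, rfl⟩
    obtain ⟨E₂, hE₂⟩ : ∃ E, E = eval (lzp W (F.T1 W ω)
      (fun i => (F.bcl W (shC cb p {q} hp M) gz ω i : ℝ))
      (fun i => (F.bvl (shC cb p {q} hp M) gz ω i : ℝ))
      (bt (zfc F W J' h.le (shC cb p {q} hp M) gz id) ω)) (G (zz' (slam F (W + V) ω))) := ⟨_, rfl⟩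
    obtain ⟨f, hf⟩ : ∃ f, f = fms F cb p q (M q) gz k ω := ⟨_, rfl⟩
    obtain ⟨sc, hsc⟩ : ∃ sc : ℝ, sc = 2 ^ W / 2 ^ msc q (M q) k := ⟨_, rfl⟩
    have hsc0 : 0 ≤ sc := by rw [hsc]; positivity
    have hsc1 : sc ≤ 2 ^ W := by
      rw [hsc]
      exact div_le_self pW.le (one_le_pow₀ one_le_two)
    rw [← hE₁, ← hf] at h1
    rw [← hE₁, ← hE₂] at h3
    rw [← hf, ← hsc] at h2
    rw [← hE₂, ← hsc]
    show |(zfc F W J' h.le (shC cb p {q} hp M) gz id).x ω k - (sc * E₂ -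
      ((F.bcl W (shC cb p {q} hp M) gz ω k : ℝ) + (F.bvl (shC cb p {q} hp M) gz ω k : ℝ) *
        (zfc F W J' h.le (shC cb p {q} hp M) gz id).t ω))| ≤ _
    obtain ⟨X, hX⟩ : ∃ X, X = (zfc F W J' h.le (shC cb p {q} hp M) gz id).x ω k := ⟨_, rfl⟩
    obtain ⟨Y, hY⟩ : ∃ Y, Y = (F.bcl W (shC cb p {q} hp M) gz ω k : ℝ) +
      (F.bvl (shC cb p {q} hp M) gz ω k : ℝ) *
        (zfc F W J' h.le (shC cb p {q} hp M) gz id).t ω := ⟨_, rfl⟩
    rw [← hX, ← hY] at h2 ⊢
    have e1 : X - (sc * E₂ - Y) = (X - (sc * f - Y)) + (sc * (f - E₁) - sc * (E₂ - E₁)) := by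
      ring
    have a1 : |sc * (f - E₁)| ≤ 2 ^ W * (1 / 2 ^ P) := by
      rw [abs_mul, abs_of_nonneg hsc0]
      exact mul_le_mul hsc1 h1 (abs_nonneg _) pW.le
    have a2 : |sc * (E₂ - E₁)| ≤ 2 ^ W * ((m + 1) * 2 ^ e * (3 / 2 ^ J)) := by
      rw [abs_mul, abs_of_nonneg hsc0]
      exact mul_le_mul hsc1 h3 (abs_nonneg _) pW.le
    have b1 : (2 : ℝ) ^ W * (1 / 2 ^ P) ≤ 1 / 4 * (1 / 2 ^ P') := by
      have c1 : (2 : ℝ) ^ (P' + W + 4) ≤ 2 ^ P := pow_le_pow_right₀ one_le_two (by omega)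
      rw [pow_add, pow_add] at c1
      rw [mul_one_div, mul_one_div, div_div, div_le_div_iff₀ (by positivity) (by positivity)]
      have : (0 : ℝ) < 2 ^ P' * 2 ^ W := by positivity
      linarith
    have b2 : (2 : ℝ) ^ W * ((m + 1) * 2 ^ e * (3 / 2 ^ J)) ≤ 1 / 2 * (1 / 2 ^ P') := by
      have c1 : (2 : ℝ) ^ (P' + e + C) ≤ 2 ^ J' := pow_le_pow_right₀ one_le_two hPe
      rw [pow_add, pow_add] at c1
      have c2 : (2 : ℝ) ^ P' * 2 ^ e * (6 * (m + 1)) ≤ 2 ^ P' * 2 ^ e * 2 ^ C :=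
        mul_le_mul_of_nonneg_left hC2 (by positivity)
      have e2 : (2 : ℝ) ^ W * ((m + 1) * 2 ^ e * (3 / 2 ^ J)) =
          ((m + 1) * 2 ^ e * 3) / 2 ^ J' := by
        rw [eJ]
        field_simp
      rw [e2, mul_one_div, div_div, div_le_div_iff₀ (by positivity) (by positivity)]
      linarith
    have b3 : (3 : ℝ) / 2 ^ J' ≤ 1 / 4 * (1 / 2 ^ P') := by
      have c1 : (2 : ℝ) ^ (P' + 4) ≤ 2 ^ J' := pow_le_pow_right₀ one_le_two (by omega)
      rw [pow_add] at c1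
      rw [mul_one_div, div_div, div_le_div_iff₀ (by positivity) (by positivity)]
      have : (0 : ℝ) < 2 ^ P' := by positivity
      linarith
    rw [e1]
    have d1 := abs_add_le (X - (sc * f - Y)) (sc * (f - E₁) - sc * (E₂ - E₁))
    have d2 := abs_sub (sc * (f - E₁)) (sc * (E₂ - E₁))
    linarith
  · show |eval b (pderiv o (tr ((slam (zfc F W J' h.le (shC cb p {q} hp M) gz id) V ω).2.1,
      some (zz' (v (slam (zfc F W J' h.le (shC cb p {q} hp M) gz id) V ω))))))| ≤ 2 ^ (e + C)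
    rw [hval ω hω]
    have hBω := hB₁ ω hω
    have hbn : |b none - (zfc F W J' h.le (shC cb p {q} hp M) gz id).t ω| ≤ 1 / 2 ^ ρ' :=
      hb none
    have hbi : ∀ i : Fin m, |b (some i) - (zfc F W J' h.le (shC cb p {q} hp M) gz id).x ω i| ≤
      1 / 2 ^ ρ' := fun i => hb (some i)
    refine (pd_lzo W (msc q (M q) k) (F.T1 W ω) _ _ (v := 3) (fun j => hv3 ω j) (by norm_num) k
      (M := 2 ^ e) (fun o' => ?_) o).trans ?_
    · refine ev_bd (hL.dep (zz' (slam F (W + V) ω))) (a := bt F ω) (δ := 1 / 2 ^ ρ)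
        (by positivity) (fun y hy o => hL.lip ω hBω y hy o) ?_ (fun i hi => ?_) o'
      · rw [lzp_none h (cb := cb) (p := p) (q := q) (hp := hp) (M := M) gz ω b _ _]
        show |F.t ω + (b none - (zfc F W J' h.le (shC cb p {q} hp M) gz id).t ω) / 2 ^ W -
          F.t ω| ≤ _
        rw [add_sub_cancel_left, abs_div, abs_of_pos pW]
        have h2 := div_le_div_of_nonneg_right hbn pW.le
        have : (0 : ℝ) ≤ 1 / 2 ^ ρ := by positivity
        linarith
      · have hiq : i ≠ q := fun he => hqI (he ▸ hi)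
        have h1 := hiφ ω i hiq
        rw [hφ] at h1
        have e1 : lzp W (F.T1 W ω) (fun i => (F.bcl W (shC cb p {q} hp M) gz ω i : ℝ))
            (fun i => (F.bvl (shC cb p {q} hp M) gz ω i : ℝ)) b (some i) -
            lzp W (F.T1 W ω) (fun i => (F.bcl W (shC cb p {q} hp M) gz ω i : ℝ))
            (fun i => (F.bvl (shC cb p {q} hp M) gz ω i : ℝ))
              (bt (zfc F W J' h.le (shC cb p {q} hp M) gz id) ω) (some i) =
            ((b (some i) - (zfc F W J' h.le (shC cb p {q} hp M) gz id).x ω i) +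
              (F.bvl (shC cb p {q} hp M) gz ω i : ℝ) *
                (b none - (zfc F W J' h.le (shC cb p {q} hp M) gz id).t ω)) / 2 ^ W := by
          unfold lzp
          show (b (some i) + _ + _ * b none) / 2 ^ W - ((zfc F W J' h.le (shC cb p {q} hp M) gz
            id).x ω i + _ + _ * (zfc F W J' h.le (shC cb p {q} hp M) gz id).t ω) / 2 ^ W = _
          ring
        have h2 : |((b (some i) - (zfc F W J' h.le (shC cb p {q} hp M) gz id).x ω i) +
              (F.bvl (shC cb p {q} hp M) gz ω i : ℝ) *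
                (b none - (zfc F W J' h.le (shC cb p {q} hp M) gz id).t ω)) / 2 ^ W| ≤
            4 * (1 / 2 ^ ρ' / 2 ^ W) := by
          rw [abs_div, abs_of_pos pW, mul_div_assoc']
          refine div_le_div_of_nonneg_right ?_ pW.le
          refine (abs_add_le _ _).trans ?_
          rw [abs_mul]
          have h3 := mul_le_mul (hv3 ω i) hbn (abs_nonneg _) (by norm_num)
          linarith [hbi i]
        rw [← e1] at h2
        show |_ - F.x ω i| ≤ _
        have h3 := abs_add_le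
          (lzp W (F.T1 W ω) (fun i => (F.bcl W (shC cb p {q} hp M) gz ω i : ℝ))
            (fun i => (F.bvl (shC cb p {q} hp M) gz ω i : ℝ)) b (some i) -
            lzp W (F.T1 W ω) (fun i => (F.bcl W (shC cb p {q} hp M) gz ω i : ℝ))
            (fun i => (F.bvl (shC cb p {q} hp M) gz ω i : ℝ))
              (bt (zfc F W J' h.le (shC cb p {q} hp M) gz id) ω) (some i))
          (lzp W (F.T1 W ω) (fun i => (F.bcl W (shC cb p {q} hp M) gz ω i : ℝ))
            (fun i => (F.bvl (shC cb p {q} hp M) gz ω i : ℝ))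
              (bt (zfc F W J' h.le (shC cb p {q} hp M) gz id) ω) (some i) - F.x ω i)
        rw [sub_add_sub_cancel] at h3
        have h4 : (0 : ℝ) ≤ 1 / 2 ^ ρ := by positivity
        linarith
    · have c1 : ((4 * (m + 1) + 3 : ℝ)) * 2 ^ e ≤ 2 ^ C * 2 ^ e :=
        mul_le_mul_of_nonneg_right hC1 (by positivity)
      have c2 : (1 : ℝ) ≤ 2 ^ e := one_le_pow₀ one_le_two
      rw [pow_add]
      have e1 : (m + 1 : ℝ) * 2 ^ e * (1 + 3) + 3 ≤ (4 * (m + 1) + 3 : ℝ) * 2 ^ e := by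
        have : (m + 1 : ℝ) * 2 ^ e * (1 + 3) + 3 * 2 ^ e = (4 * (m + 1) + 3 : ℝ) * 2 ^ e := by ring
        linarith
      linarith

end Pool.SHE33
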