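import Pool.Agent.H33.SHE.Lfb

/-!
# Closed labels of functions: from the sheared zoom to the family

`lf_bwd`: a closed label of a coordinate of the zoom over coordinates which are not sheared is a
closed label of the linear form of the family, on a large event.
-/

set_option autoImplicit false

namespace Pool.SHE33

open Finset Real MvPolynomial
open Pool.Agent.H49.Ent Pool.Agent.H32.Dense Pool.STK Pool.KA Pool.KSAT Pool.K2S Pool.PB Pool.S6C
open Pool.GEN Pool.ZCL Pool.TOP Pool.ZLC Pool.ZFW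
open Pool.ZLB (shC_bvl)

/-- A closed label in the family, if the data of the zoom are functions of the data of the
family. -/
theorem lf_bwa (m : ℕ) : ∃ C : ℕ, ∀ {J : ℕ} (F : Fam m J) {W J' V : ℕ} (h : W + J' = J)
    (_ : V ≤ J') {κ : Type} {cb : κ → Fin m → ℝ} {p q : Fin m}
    {hp : p ∉ ({q} : Finset (Fin m))} {M : Fin m → ℕ} (gz : F.Ω → κ)
    {I : Finset (Fin m)} (_ : q ∉ I) (k : Fin m) {K e ρ P ρ' P' : ℕ} {B : F.Ω → Prop}
    (pt : PtT F → Option (PtT (zfc F W J' h.le (shC cb p {q} hp M) gz id)))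
    (ln : LnT F → Option (LnT (zfc F W J' h.le (shC cb p {q} hp M) gz id)))
    (lp : PtT F → Option (((ℕ × κ) × ((Fin m → ℤ) × (Fin m → ℤ))) × F.ζ))
    (ll : LnT F → Option (((ℕ × κ) × ((Fin m → ℤ) × (Fin m → ℤ))) × F.ζ)),
    (∀ ω, B ω → pt (ptr F J ω) =
      some (ptr (zfc F W J' h.le (shC cb p {q} hp M) gz id) J' ω)) →
    (∀ ω, B ω → ln (slam F (W + V) ω) =
      some (slam (zfc F W J' h.le (shC cb p {q} hp M) gz id) V ω)) →
    (∀ ω, B ω → lp (ptr F J ω) = some (F.blab W (shC cb p {q} hp M) gz ω)) →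
    (∀ ω, B ω → ll (slam F W ω) = some (F.blab W (shC cb p {q} hp M) gz ω)) →
    Lf (zfc F W J' h.le (shC cb p {q} hp M) gz id) I
      (fun ω => (zfc F W J' h.le (shC cb p {q} hp M) gz id).x ω k) K e V ρ P B →
    W + ρ + 3 ≤ ρ' → ρ + 3 ≤ J' → P' + msc q (M q) k + C ≤ W + P →
    P' + msc q (M q) k + e + C ≤ J →
    Lf F I (fms F cb p q (M q) gz k) (max K 1) (e + msc q (M q) k + C) (W + V) ρ' P' B := by
  obtain ⟨C, hC⟩ : ∃ C : ℕ, (4 * (m + 1) + 3 : ℝ) ≤ 2 ^ C ∧ (12 * (m + 1) : ℝ) ≤ 2 ^ C ∧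
      4 ≤ C := by
    obtain ⟨C, hC⟩ := pow_unbounded_of_one_lt (16 * ((m : ℝ) + 1)) (one_lt_two (α := ℝ))
    have h0 : (0 : ℝ) ≤ m := Nat.cast_nonneg m
    have h1 : (2 : ℝ) ^ C ≤ 2 ^ (C + 4) := pow_le_pow_right₀ one_le_two (by omega)
    exact ⟨C + 4, by linarith, by linarith, by omega⟩
  obtain ⟨hC1, hC2, hC3⟩ := hC
  refine ⟨C, ?_⟩
  intro J F W J' V h hV κ cb p q hp M gz I hqI k K e ρ P ρ' P' B pt ln lp ll hpt hln hlp hll hL
    hρ hρJ hP hPe
  obtain ⟨V₂, zz, zz', G, hL⟩ := hL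
  have pW : (0 : ℝ) < 2 ^ W := by positivity
  have eJ : (2 : ℝ) ^ J = 2 ^ W * 2 ^ J' := by rw [← pow_add, h]
  -- the label
  obtain ⟨tr, htr⟩ : ∃ tr : Option (V₂ × (((ℕ × κ) × ((Fin m → ℤ) × (Fin m → ℤ))) × F.ζ)) →
      MvPolynomial (Option (Fin m)) ℝ, tr = fun o =>
      match o with
      | none => 0
      | some v => lyo W (msc q (M q) k) (v.2.1.1.1 : ℝ) (fun i => (v.2.1.2.1 i : ℝ))
        (fun i => (v.2.1.2.2 i : ℝ)) k (G v.1) := ⟨_, rfl⟩
  have hco : ∀ ω : F.Ω, slam F W ω = ((slam F (W + V) ω).1, (slam F (W + V) ω).2.1,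
      (slam F (W + V) ω).2.2 / 2 ^ (W + V - W)) := fun ω => slam_coarse F (by omega) (by omega) ω
  obtain ⟨y', hy'⟩ : ∃ y' : LnT F →
      Option (V₂ × (((ℕ × κ) × ((Fin m → ℤ) × (Fin m → ℤ))) × F.ζ)), y' = fun s =>
      match ln s, ll (s.1, s.2.1, s.2.2 / 2 ^ (W + V - W)) with
      | some s', some β => some (zz' s', β)
      | _, _ => none := ⟨_, rfl⟩
  obtain ⟨y, hy⟩ : ∃ y : PtT F →
      Option (V₂ × (((ℕ × κ) × ((Fin m → ℤ) × (Fin m → ℤ))) × F.ζ)), y = fun x =>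
      match pt x, lp x with
      | some x', some β => some (zz x', β)
      | _, _ => none := ⟨_, rfl⟩
  have hyω : ∀ ω : F.Ω, B ω → y' (slam F (W + V) ω) =
      some (zz' (slam (zfc F W J' h.le (shC cb p {q} hp M) gz id) V ω),
        F.blab W (shC cb p {q} hp M) gz ω) := by
    intro ω hω
    rw [hy']
    simp only
    rw [hln ω hω, ← hco ω, hll ω hω]
  have hyp : ∀ ω : F.Ω, B ω → y (ptr F J ω) =
      some (zz (ptr (zfc F W J' h.le (shC cb p {q} hp M) gz id) J' ω),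
        F.blab W (shC cb p {q} hp M) gz ω) := by
    intro ω hω
    rw [hy]
    simp only
    rw [hpt ω hω, hlp ω hω]
  have hval : ∀ ω : F.Ω, B ω → tr (y' (slam F (W + V) ω)) =
      lyo W (msc q (M q) k) (F.T1 W ω) (fun i => (F.bcl W (shC cb p {q} hp M) gz ω i : ℝ))
        (fun i => (F.bvl (shC cb p {q} hp M) gz ω i : ℝ)) k
        (G (zz' (slam (zfc F W J' h.le (shC cb p {q} hp M) gz id) V ω))) := by
    intro ω hω
    rw [hyω ω hω, htr]
    rfl
  have hv3 : ∀ (ω : F.Ω) (j : Fin m), |(F.bvl (shC cb p {q} hp M) gz ω j : ℝ)| ≤ 3 :=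
    fun ω j => shC_bvl gz ω j
  have hρJ' : (3 : ℝ) / 2 ^ J' ≤ 3 / 8 * (1 / 2 ^ ρ) := by
    have h1 : (2 : ℝ) ^ (ρ + 3) ≤ 2 ^ J' := pow_le_pow_right₀ one_le_two hρJ
    rw [pow_add] at h1
    rw [mul_one_div, div_div, div_le_div_iff₀ (by positivity) (by positivity)]
    linarith
  have hρW : (2 : ℝ) ^ W * (1 / 2 ^ ρ') ≤ 1 / 8 * (1 / 2 ^ ρ) := by
    have h1 : (2 : ℝ) ^ (W + ρ + 3) ≤ 2 ^ ρ' := pow_le_pow_right₀ one_le_two hρ
    rw [pow_add, pow_add] at h1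
    rw [mul_one_div, mul_one_div, div_div, div_le_div_iff₀ (by positivity) (by positivity)]
    linarith
  refine ⟨_, y, y', tr, fun o => ?_, fun o b b' h0 hb => ?_,
    fun (ω : F.Ω) hω => ?_, fun (ω : F.Ω) hω => ?_, fun (ω : F.Ω) hω b hb o => ?_⟩
  · rw [htr]
    rcases o with _ | v
    · simp only
      rw [totalDegree_zero]
      exact Nat.zero_le _
    · exact deg_lyo _ _ _ _ _ _ (hL.deg v.1)
  · rw [htr]
    rcases o with _ | v
    · simp only
      rw [map_zero, map_zero]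
    · exact dep_lyo _ _ _ _ _ _ (hL.dep v.1) b b' h0 hb
  · rw [hyω ω hω, hyp ω hω, hL.cls ω hω]
  · rw [hval ω hω, eval_lyo]
    have h1 := hL.pos ω hω
    have h2 := fms_zfc h (cb := cb) (p := p) (q := q) (hp := hp) (M := M) gz ω k
    have h3 := ev_lip (hL.dep (zz' (slam (zfc F W J' h.le (shC cb p {q} hp M) gz id) V ω)))
      (a := bt (zfc F W J' h.le (shC cb p {q} hp M) gz id) ω)
      (b := lyp W (F.T1 W ω) (fun i => (F.bcl W (shC cb p {q} hp M) gz ω i : ℝ))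
        (fun i => (F.bvl (shC cb p {q} hp M) gz ω i : ℝ)) (bt F ω)) (δ := 1 / 2 ^ ρ)
      (x := 3 / 2 ^ J') (M := 2 ^ e) (by positivity) (hρJ'.trans (by
        have : (0 : ℝ) ≤ 1 / 2 ^ ρ := by positivity
        linarith)) (fun y hy o => hL.lip ω hω y hy o) (by
        rw [lyp_none h (cb := cb) (p := p) (q := q) (hp := hp) (M := M) gz ω (bt F ω) _ _]
        show |(zfc F W J' h.le (shC cb p {q} hp M) gz id).t ω + 2 ^ W * (F.t ω - F.t ω) -
          (zfc F W J' h.le (shC cb p {q} hp M) gz id).t ω| ≤ _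
        rw [sub_self, mul_zero, add_zero, sub_self, abs_zero]
        positivity) (fun i hi => lyp_near h gz ω fun he => hqI (he ▸ hi))
    obtain ⟨X, hX⟩ : ∃ X, X = (zfc F W J' h.le (shC cb p {q} hp M) gz id).x ω k := ⟨_, rfl⟩
    obtain ⟨Y, hY⟩ : ∃ Y, Y = (F.bcl W (shC cb p {q} hp M) gz ω k : ℝ) +
      (F.bvl (shC cb p {q} hp M) gz ω k : ℝ) *
        (zfc F W J' h.le (shC cb p {q} hp M) gz id).t ω := ⟨_, rfl⟩
    have eY : (F.bcl W (shC cb p {q} hp M) gz ω k : ℝ) +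
      (F.bvl (shC cb p {q} hp M) gz ω k : ℝ) * (2 ^ W * bt F ω none - (F.T1 W ω : ℝ)) = Y := by
      rw [hY, Pool.ZFW.zfc_t' F h (shC cb p {q} hp M) gz id ω]
      rfl
    rw [eY]
    obtain ⟨E₁, hE₁⟩ : ∃ E, E = eval (bt (zfc F W J' h.le (shC cb p {q} hp M) gz id) ω)
      (G (zz' (slam (zfc F W J' h.le (shC cb p {q} hp M) gz id) V ω))) := ⟨_, rfl⟩
    obtain ⟨E₂, hE₂⟩ : ∃ E, E = eval (lyp W (F.T1 W ω)
      (fun i => (F.bcl W (shC cb p {q} hp M) gz ω i : ℝ))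
      (fun i => (F.bvl (shC cb p {q} hp M) gz ω i : ℝ)) (bt F ω))
      (G (zz' (slam (zfc F W J' h.le (shC cb p {q} hp M) gz id) V ω))) := ⟨_, rfl⟩
    obtain ⟨f, hf⟩ : ∃ f, f = fms F cb p q (M q) gz k ω := ⟨_, rfl⟩
    obtain ⟨μ, hμ⟩ : ∃ μ, μ = msc q (M q) k := ⟨_, rfl⟩
    rw [← hμ] at hP hPe h2 ⊢
    rw [← hE₁, ← hX] at h1
    rw [← hE₁, ← hE₂] at h3
    rw [← hf, ← hX, ← hY] at h2
    rw [← hE₂, ← hf]
    have pμ : (0 : ℝ) < 2 ^ μ := by positivity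
    have e1 : f - 2 ^ μ / 2 ^ W * (E₂ + Y) = 2 ^ μ / 2 ^ W *
        ((X - E₁) - (E₂ - E₁) - (X - (2 ^ W / 2 ^ μ * f - Y))) := by
      field_simp
      ring
    rw [e1, abs_mul, abs_of_pos (by positivity : (0 : ℝ) < 2 ^ μ / 2 ^ W)]
    have d1 : |(X - E₁) - (E₂ - E₁) - (X - (2 ^ W / 2 ^ μ * f - Y))| ≤
        1 / 2 ^ P + (m + 1) * 2 ^ e * (3 / 2 ^ J') + 3 / 2 ^ J' := by
      have c1 := abs_sub ((X - E₁) - (E₂ - E₁)) (X - (2 ^ W / 2 ^ μ * f - Y))
      have c2 := abs_sub (X - E₁) (E₂ - E₁)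
      linarith
    refine (mul_le_mul_of_nonneg_left d1 (by positivity)).trans ?_
    have b1 : (2 : ℝ) ^ μ / 2 ^ W * (1 / 2 ^ P) ≤ 1 / 4 * (1 / 2 ^ P') := by
      have c1 : (2 : ℝ) ^ (P' + μ + 4) ≤ 2 ^ (W + P) := pow_le_pow_right₀ one_le_two (by omega)
      rw [pow_add, pow_add, pow_add] at c1
      rw [div_mul_div_comm, mul_one_div, div_div, div_le_div_iff₀ (by positivity) (by positivity)]
      have : (0 : ℝ) < 2 ^ P' * 2 ^ μ := by positivity
      linarith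
    have b2 : (2 : ℝ) ^ μ / 2 ^ W * ((m + 1) * 2 ^ e * (3 / 2 ^ J')) ≤ 1 / 4 * (1 / 2 ^ P') := by
      have c1 : (2 : ℝ) ^ (P' + μ + e + C) ≤ 2 ^ J := pow_le_pow_right₀ one_le_two hPe
      rw [pow_add, pow_add, pow_add] at c1
      have c2 : (2 : ℝ) ^ P' * 2 ^ μ * 2 ^ e * (12 * (m + 1)) ≤ 2 ^ P' * 2 ^ μ * 2 ^ e * 2 ^ C :=
        mul_le_mul_of_nonneg_left hC2 (by positivity)
      have e2 : (2 : ℝ) ^ μ / 2 ^ W * ((m + 1) * 2 ^ e * (3 / 2 ^ J')) =
          (2 ^ μ * (m + 1) * 2 ^ e * 3) / 2 ^ J := by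
        rw [eJ]
        field_simp
      rw [e2, mul_one_div, div_div, div_le_div_iff₀ (by positivity) (by positivity)]
      linarith
    have b3 : (2 : ℝ) ^ μ / 2 ^ W * (3 / 2 ^ J') ≤ 1 / 4 * (1 / 2 ^ P') := by
      have c1 : (2 : ℝ) ^ (P' + μ + 4) ≤ 2 ^ J := pow_le_pow_right₀ one_le_two (by omega)
      rw [pow_add, pow_add] at c1
      have e2 : (2 : ℝ) ^ μ / 2 ^ W * (3 / 2 ^ J') = (2 ^ μ * 3) / 2 ^ J := by
        rw [eJ]
        field_simp
      rw [e2, mul_one_div, div_div, div_le_div_iff₀ (by positivity) (by positivity)]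
      have : (0 : ℝ) < 2 ^ P' * 2 ^ μ := by positivity
      linarith
    rw [mul_add, mul_add]
    have : (0 : ℝ) < 1 / 2 ^ P' := by positivity
    linarith
  · rw [hval ω hω]
    have hbn : |b none - F.t ω| ≤ 1 / 2 ^ ρ' := hb none
    have hbi : ∀ i : Fin m, |b (some i) - F.x ω i| ≤ 1 / 2 ^ ρ' := fun i => hb (some i)
    refine (pd_lyo W (msc q (M q) k) (F.T1 W ω) _ _ (v := 3) (fun j => hv3 ω j) (by norm_num) k
      (M := 2 ^ e) (fun o' => ?_) o).trans ?_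
    · refine ev_bd (hL.dep (zz' (slam (zfc F W J' h.le (shC cb p {q} hp M) gz id) V ω)))
        (a := bt (zfc F W J' h.le (shC cb p {q} hp M) gz id) ω) (δ := 1 / 2 ^ ρ)
        (by positivity) (fun y hy o => hL.lip ω hω y hy o) ?_ (fun i hi => ?_) o'
      · rw [lyp_none h (cb := cb) (p := p) (q := q) (hp := hp) (M := M) gz ω b _ _]
        show |(zfc F W J' h.le (shC cb p {q} hp M) gz id).t ω + 2 ^ W * (b none - F.t ω) -
          (zfc F W J' h.le (shC cb p {q} hp M) gz id).t ω| ≤ _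
        rw [add_sub_cancel_left, abs_mul, abs_of_pos pW]
        have h2 := mul_le_mul_of_nonneg_left hbn pW.le
        have : (0 : ℝ) ≤ 1 / 2 ^ ρ := by positivity
        linarith
      · have hiq : i ≠ q := fun he => hqI (he ▸ hi)
        have h1 := lyp_near h (cb := cb) (p := p) (q := q) (hp := hp) (M := M) gz ω hiq
        have e1 : lyp W (F.T1 W ω) (fun i => (F.bcl W (shC cb p {q} hp M) gz ω i : ℝ))
            (fun i => (F.bvl (shC cb p {q} hp M) gz ω i : ℝ)) b (some i) -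
            lyp W (F.T1 W ω) (fun i => (F.bcl W (shC cb p {q} hp M) gz ω i : ℝ))
            (fun i => (F.bvl (shC cb p {q} hp M) gz ω i : ℝ)) (bt F ω) (some i) =
            2 ^ W * ((b (some i) - F.x ω i) - (F.bvl (shC cb p {q} hp M) gz ω i : ℝ) *
                (b none - F.t ω)) := by
          unfold lyp
          show 2 ^ W * b (some i) - (_ + _ * (2 ^ W * b none - _)) - (2 ^ W * F.x ω i -
            (_ + _ * (2 ^ W * F.t ω - _))) = _
          ring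
        have h2 : |2 ^ W * ((b (some i) - F.x ω i) - (F.bvl (shC cb p {q} hp M) gz ω i : ℝ) *
                (b none - F.t ω))| ≤ 4 * (2 ^ W * (1 / 2 ^ ρ')) := by
          rw [abs_mul, abs_of_pos pW]
          have h4 : |(b (some i) - F.x ω i) - (F.bvl (shC cb p {q} hp M) gz ω i : ℝ) *
                (b none - F.t ω)| ≤ 4 * (1 / 2 ^ ρ') := by
            refine (abs_sub _ _).trans ?_
            rw [abs_mul]
            have h3 := mul_le_mul (hv3 ω i) hbn (abs_nonneg _) (by norm_num)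
            linarith [hbi i]
          have h5 := mul_le_mul_of_nonneg_left h4 pW.le
          linarith
        rw [← e1] at h2
        show |_ - (zfc F W J' h.le (shC cb p {q} hp M) gz id).x ω i| ≤ _
        have h3 := abs_add_le
          (lyp W (F.T1 W ω) (fun i => (F.bcl W (shC cb p {q} hp M) gz ω i : ℝ))
            (fun i => (F.bvl (shC cb p {q} hp M) gz ω i : ℝ)) b (some i) -
            lyp W (F.T1 W ω) (fun i => (F.bcl W (shC cb p {q} hp M) gz ω i : ℝ))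
            (fun i => (F.bvl (shC cb p {q} hp M) gz ω i : ℝ)) (bt F ω) (some i))
          (lyp W (F.T1 W ω) (fun i => (F.bcl W (shC cb p {q} hp M) gz ω i : ℝ))
            (fun i => (F.bvl (shC cb p {q} hp M) gz ω i : ℝ)) (bt F ω) (some i) -
              (zfc F W J' h.le (shC cb p {q} hp M) gz id).x ω i)
        rw [sub_add_sub_cancel] at h3
        have h4 : (0 : ℝ) ≤ 1 / 2 ^ ρ := by positivity
        linarith
    · have c1 : ((4 * (m + 1) + 3 : ℝ)) * 2 ^ e ≤ 2 ^ C * 2 ^ e :=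
        mul_le_mul_of_nonneg_right hC1 (by positivity)
      have c2 : (1 : ℝ) ≤ 2 ^ e := one_le_pow₀ one_le_two
      have e1 : (m + 1 : ℝ) * 2 ^ e * (1 + 3) + 3 ≤ (4 * (m + 1) + 3 : ℝ) * 2 ^ e := by
        have : (m + 1 : ℝ) * 2 ^ e * (1 + 3) + 3 * 2 ^ e = (4 * (m + 1) + 3 : ℝ) * 2 ^ e := by ring
        linarith
      have e2 : (2 : ℝ) ^ (e + msc q (M q) k + C) = 2 ^ msc q (M q) k * (2 ^ C * 2 ^ e) := by
        rw [pow_add, pow_add]
        ring
      rw [e2]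
      exact mul_le_mul_of_nonneg_left (e1.trans c1) (by positivity)

/-- **A closed label in the family.** -/
theorem lf_bwd (m : ℕ) : ∃ C : ℕ, ∀ {J : ℕ} (F : Fam m J) {W J' V : ℕ} (h : W + J' = J)
    (_ : V ≤ J') {κ : Type} {cb : κ → Fin m → ℝ} {p q : Fin m}
    {hp : p ∉ ({q} : Finset (Fin m))} {M : Fin m → ℕ} {z : PtT F → κ} (z' : LnT F → κ)
    {I : Finset (Fin m)} (_ : q ∉ I) (k : Fin m) {K e ρ P ρ' P' : ℕ} {B : F.Ω → Prop},
    (∀ ω, B ω → z (ptr F J ω) = z' (slam F W ω)) →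
    Lf (zfc F W J' h.le (shC cb p {q} hp M) (fun ω => z' (slam F W ω)) id) I
      (fun ω => (zfc F W J' h.le (shC cb p {q} hp M) (fun ω => z' (slam F W ω)) id).x ω k)
      K e V ρ P B →
    W + ρ + 3 ≤ ρ' → ρ + 3 ≤ J' → P' + msc q (M q) k + C ≤ W + P →
    P' + msc q (M q) k + e + C ≤ J →
    ∃ B₁ : F.Ω → Prop, Sub B₁ B ∧ Pe F.p B ≤ (6 * 2 + 3) ^ m * ((4 * 2 + 3) ^ m *
      (2 * 2 + 15) ^ m) * Pe F.p B₁ ∧
      Lf F I (fms F cb p q (M q) (fun ω => z' (slam F W ω)) k) (max K 1)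
        (e + msc q (M q) k + C) (W + V) ρ' P' B₁ := by
  obtain ⟨C, hC⟩ := lf_bwa m
  refine ⟨C, ?_⟩
  intro J F W J' V h hV κ cb p q hp M z z' I hqI k K e ρ P ρ' P' B hz hL hρ hρJ hP hPe
  obtain ⟨B₁, hB₁, hPB, pt, ln, lp, ll, hpt, hln, hlp, hll⟩ := zfc_fun F h (c := 2)
    (by
      have h1 := shC_bd cb p {q} hp M
      exact_mod_cast h1) (id : Fin m → Fin m) hz
  exact ⟨B₁, hB₁, by exact_mod_cast hPB, hC F h hV _ hqI k pt (ln V) lp ll hpt (hln V hV) hlp hll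
    (hL.sub hB₁) hρ hρJ hP hPe⟩

end Pool.SHE33
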