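import Pool.Agent.H33.SHE.Lfz
import Pool.Agent.H33.SHE.Lfc
import Pool.Agent.H45.EXA.Zlb
import Pool.Agent.H45.EXA.Lam

/-!
# Closed labels with velocities from closed labels of the positions

`lf_lb`: in a class with small time deficits a closed label of the positions is a closed label, on
one half of the event. `lam_fwd`: a lower bound of the number of a class, from closed labels of the
positions on parts `exp (- τ J)`.
-/

set_option autoImplicit false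

namespace Pool.SHE33

open Finset Real MvPolynomial
open Pool.Agent.H49.Ent Pool.Agent.H32.Dense Pool.STK Pool.KA Pool.KSAT Pool.K2S Pool.PB Pool.S6C
open Pool.GEN Pool.ZCL Pool.TOP Pool.ZLC Pool.ZFW Pool.ZCO
open Pool.FLF (Fam.sub)

variable {m : ℕ}

/-- **Velocities from positions.** -/
theorem lf_lb {S : PCl m} {C₀ : ℝ} (hC₀ : 0 ≤ C₀) (htm : TmC S C₀) (K : ℕ) {w x : ℝ}
    (hw0 : 0 ≤ w) (hw1 : w < 1) (hx : 0 < x) :
    ∃ τ₁ : ℝ, 0 < τ₁ ∧ ∃ J₁ : ℕ, ∀ τ ≤ τ₁, 0 < τ → ∀ J ≥ J₁, ∀ (F : Fam m J) (B : F.Ω → Prop),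
      S.St τ J F B → ∀ (I : Finset (Fin m)) (k : Fin m) (e wf ρ P P' : ℕ), (wf : ℝ) ≤ w * J →
      (P' : ℝ) + x * J ≤ P → Lf F I (fun ω => F.x ω k) K e wf ρ P B →
      ∃ B₁ : F.Ω → Prop, Sub B₁ B ∧ Pe F.p B / 2 ≤ Pe F.p B₁ ∧
        Lb F I k K e J wf ρ P' B₁ := by
  classical
  obtain ⟨C, hC, hvel⟩ := vel_of_pos m (max K 1)
  have hl2 : 0 < Real.log 2 := Real.log_pos one_lt_two
  obtain ⟨y, hy⟩ : ∃ y : ℝ, y = min x (1 - w) := ⟨_, rfl⟩
  have hy0 : 0 < y := by rw [hy]; exact lt_min hx (by linarith)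
  have hyx : y ≤ x := by rw [hy]; exact min_le_left _ _
  have hyw : y ≤ 1 - w := by rw [hy]; exact min_le_right _ _
  have hC0 : 0 < C := by linarith
  obtain ⟨J₁, hJ₁⟩ := lin C (show 0 < y * Real.log 2 / 2 by positivity)
  refine ⟨y * Real.log 2 / (2 * C * (C₀ + 1)), by positivity, J₁, ?_⟩
  intro τ hτ hτ0 J hJ F B hS I k e wf ρ P P' hwf hP hL
  replace hJ := hJ₁ J hJ
  have hJr : (0 : ℝ) ≤ J := Nat.cast_nonneg J
  obtain ⟨hB, -⟩ := htm _ J F B hτ0 hS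
  have hTm := htm.sub hτ0 le_rfl hS (fun _ h => h) (by
    rw [zero_mul, neg_zero, Real.exp_zero, one_mul]) hB
  rw [add_zero] at hTm
  have hth : C * (C₀ * τ * J + 1) ≤ y * Real.log 2 * J := by
    have h1 : C * (C₀ * τ) ≤ y * Real.log 2 / 2 := by
      rw [le_div_iff₀ (by positivity)] at hτ
      have h2 : 0 ≤ C * τ := by positivity
      have e1 : τ * (2 * C * (C₀ + 1)) = 2 * (C * (C₀ * τ)) + 2 * (C * τ) := by ring
      rw [e1] at hτ
      linarith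
    have h2 := mul_le_mul_of_nonneg_right h1 hJr
    have e1 : C * (C₀ * τ * J + 1) = C * (C₀ * τ) * J + C := by ring
    rw [e1]
    linarith
  obtain ⟨V, z, z', G, hL⟩ := hL
  have hwfJ : wf ≤ J := by
    have h1 : w * (J : ℝ) ≤ 1 * J := mul_le_mul_of_nonneg_right hw1.le hJr
    have h2 : (wf : ℝ) ≤ J := by linarith
    exact_mod_cast h2
  obtain ⟨B₁, hB₁, hPB₁, hB₁v⟩ := hvel J F B hB wf
    (fun s j => if j = k then G (z' s) else X (some j)) (1 / 2 ^ P) (C₀ * τ * J) hwfJ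
    (fun s j => by
      split_ifs
      · exact (hL.deg _).trans (le_max_left _ _)
      · rw [totalDegree_X]
        exact le_max_right _ _) (by positivity) (by positivity) hTm (by
      refine hth.trans ?_
      have h1 : y * (J : ℝ) ≤ J - wf := by
        have h2 := mul_le_mul_of_nonneg_right hyw hJr
        have e1 : (1 - w) * (J : ℝ) = J - w * J := by ring
        linarith
      have h2 := mul_le_mul_of_nonneg_right h1 hl2.le
      linarith) (fun ω hω j => by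
      by_cases hj : j = k
      · subst hj
        rw [if_pos rfl]
        exact hL.pos ω hω
      · rw [if_neg hj, eval_X]
        show |F.x ω j - F.x ω j| ≤ _
        rw [sub_self, abs_zero]
        positivity)
  refine ⟨B₁, hB₁, hPB₁, V, z, z', G, hL.deg, hL.dep, fun ω hω => hL.cls ω (hB₁ ω hω),
    fun ω hω => (hL.pos ω (hB₁ ω hω)).trans (inv_mono ?_), fun ω hω => ?_,
    fun ω hω => hL.lip ω (hB₁ ω hω)⟩
  · have h1 : 0 ≤ x * (J : ℝ) := by positivity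
    have h2 : (P' : ℝ) ≤ P := by linarith
    exact_mod_cast h2
  · have h1 := hB₁v ω hω k
    rw [if_pos rfl] at h1
    refine h1.trans ?_
    have h2 : Real.exp (C * (C₀ * τ * J + 1)) ≤ 2 ^ (P - P') := by
      have h3 : Real.exp (C * (C₀ * τ * J + 1)) ≤ Real.exp (((P - P' : ℕ) : ℝ) * Real.log 2) := by
        refine Real.exp_le_exp.2 (hth.trans ?_)
        have h4 : P' ≤ P := by
          have h5 : 0 ≤ x * (J : ℝ) := by positivity
          have h6 : (P' : ℝ) ≤ P := by linarith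
          exact_mod_cast h6
        rw [Nat.cast_sub h4]
        have h5 : y * (J : ℝ) ≤ P - P' := by
          have := mul_le_mul_of_nonneg_right hyx hJr
          linarith
        have h6 := mul_le_mul_of_nonneg_right h5 hl2.le
        linarith
      refine h3.trans (le_of_eq ?_)
      rw [mul_comm, Real.exp_mul, Real.exp_log two_pos, Real.rpow_natCast]
    have h4 : P' ≤ P := by
      have h5 : 0 ≤ x * (J : ℝ) := by positivity
      have h6 : (P' : ℝ) ≤ P := by linarith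
      exact_mod_cast h6
    calc Real.exp (C * (C₀ * τ * J + 1)) * 2 ^ wf * (1 / 2 ^ P) ≤
          2 ^ (P - P') * 2 ^ wf * (1 / 2 ^ P) := by
          refine mul_le_mul_of_nonneg_right (mul_le_mul_of_nonneg_right h2 (by positivity))
            (by positivity)
      _ = 2 ^ wf / 2 ^ P' := by
          have e1 : (2 : ℝ) ^ P = 2 ^ (P - P') * 2 ^ P' := by
            rw [← pow_add, Nat.sub_add_cancel h4]
          rw [e1]
          field_simp

/-- **A lower bound of the number of a class.** -/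
theorem lam_fwd {S : PCl m} (hne : S.Ne) {C₀ : ℝ} (hC₀ : 0 ≤ C₀) (htm : TmC S C₀)
    {L : Finset (Fin m) → Fin m → ℝ → ℝ → ℝ} (hL : LamW S L) {I : Finset (Fin m)} {k : Fin m}
    {w ρ P : ℝ} (hw0 : 0 ≤ w) (hw1 : w < 1) (hρ0 : 0 ≤ ρ) (hP0 : 0 ≤ P) (hP1 : P ≤ 1)
    (h : ∀ E : ℝ, 0 < E → ∃ K : ℕ, ∀ τ : ℝ, 0 < τ → Bas S (fun J F A => ∃ B : F.Ω → Prop,
      Sub B A ∧ Real.exp (-(τ * J)) * Pe F.p A ≤ Pe F.p B ∧
        Lf F I (fun ω => F.x ω k) K ⌊E * J⌋₊ ⌊w * J⌋₊ ⌊ρ * J⌋₊ ⌊P * J⌋₊ B)) :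
    P ≤ L I k w ρ := by
  by_contra hcon
  push Not at hcon
  obtain ⟨P₁, hP₁⟩ : ∃ P₁ : ℝ, P₁ = (P + max (L I k w ρ) 0) / 2 := ⟨_, rfl⟩
  have hPpos : 0 < P := by
    have h1 := hL.low I k w ρ hw1.le
    linarith
  have hm1 : max (L I k w ρ) 0 < P := max_lt hcon hPpos
  have h1 : L I k w ρ < P₁ := by
    have := le_max_left (L I k w ρ) 0
    rw [hP₁]
    linarith
  have h2 : P₁ < P := by rw [hP₁]; linarith
  have h3 : 0 ≤ P₁ := by
    have := le_max_right (L I k w ρ) 0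
    rw [hP₁]
    linarith
  obtain ⟨d, hd, hwd, hno⟩ := hL.abs I k w ρ P₁ h1 (by linarith)
  obtain ⟨K, hK⟩ := h d hd
  obtain ⟨τ₀, hτ₀, J₀, hno⟩ := hno d le_rfl K
  obtain ⟨x, hx⟩ : ∃ x : ℝ, x = (P - P₁) / 2 := ⟨_, rfl⟩
  have hx0 : 0 < x := by rw [hx]; linarith
  obtain ⟨τ₁, hτ₁, J₁, hvel⟩ := lf_lb hC₀ htm K hw0 hw1 hx0
  obtain ⟨τ, hτ⟩ : ∃ τ : ℝ, τ = min (τ₀ / 4) (τ₁ / 2) := ⟨_, rfl⟩
  have hτ0 : 0 < τ := by rw [hτ]; exact lt_min (by linarith) (by linarith)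
  have hτa : τ ≤ τ₀ / 4 := by rw [hτ]; exact min_le_left _ _
  have hτb : τ ≤ τ₁ / 2 := by rw [hτ]; exact min_le_right _ _
  obtain ⟨τ₂, hτ₂, J₂, hpos⟩ := hK τ hτ0
  obtain ⟨τ₃, hτ₃⟩ : ∃ τ₃ : ℝ, τ₃ = min τ τ₂ := ⟨_, rfl⟩
  have hτ30 : 0 < τ₃ := by rw [hτ₃]; exact lt_min hτ0 hτ₂
  have hτ3a : τ₃ ≤ τ := by rw [hτ₃]; exact min_le_left _ _
  have hτ3b : τ₃ ≤ τ₂ := by rw [hτ₃]; exact min_le_right _ _
  obtain ⟨J₃, hJ₃⟩ := lin (Real.log 2) hτ0
  obtain ⟨J₄, hJ₄⟩ := lin (1 : ℝ) hx0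
  obtain ⟨J, hJ, F, A, hA⟩ := hne τ₃ hτ30 (max (max J₀ J₁) (max J₂ (max J₃ J₄)))
  simp only [ge_iff_le, max_le_iff] at hJ
  obtain ⟨⟨hJ0, hJ1⟩, hJ2, hJ3, hJ4⟩ := hJ
  replace hJ3 := hJ₃ J hJ3
  replace hJ4 := hJ₄ J hJ4
  have hJr : (0 : ℝ) ≤ J := Nat.cast_nonneg J
  obtain ⟨B, hBA, hPB, hLf⟩ := hpos J hJ2 F A (S.mono hτ3b hA)
  have hSB : S.St (τ₃ + τ) J F B := S.res hτ0.le hA hBA hPB
  obtain ⟨B₁, hB₁, hPB₁, hLb⟩ := hvel (τ₃ + τ) (by linarith) (by linarith) J hJ1 F B hSB I k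
    ⌊d * (J : ℝ)⌋₊ ⌊w * (J : ℝ)⌋₊ ⌊ρ * (J : ℝ)⌋₊ ⌊P * (J : ℝ)⌋₊ ⌊P₁ * (J : ℝ)⌋₊
    (Nat.floor_le (by positivity)) (by
      have h4 : (⌊P₁ * (J : ℝ)⌋₊ : ℝ) ≤ P₁ * J := Nat.floor_le (by positivity)
      have h5 := Nat.lt_floor_add_one (P * (J : ℝ))
      have e1 : P * (J : ℝ) = P₁ * J + 2 * (x * J) := by rw [hx]; ring
      linarith) hLf
  have hSB₁ : S.St (τ₃ + τ + τ) J F B₁ := by
    refine S.res hτ0.le hSB hB₁ (le_trans ?_ hPB₁)
    have h4 : Real.exp (-(τ * J)) ≤ 1 / 2 := by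
      rw [one_div, ← Real.exp_log (two_pos (α := ℝ)), ← Real.exp_neg]
      exact Real.exp_le_exp.2 (by linarith)
    have h5 := mul_le_mul_of_nonneg_right h4 (Pe_nonneg F.isLaw B)
    linarith
  refine hno J hJ0 F B₁ (S.mono (by linarith) hSB₁) (hLb.mono (Finset.Subset.refl I) le_rfl
    (le_refl _) (le_refl _) (Nat.floor_le_floor (mul_le_mul_of_nonneg_right (by linarith) hJr))
    ?_ (Nat.floor_le_floor (mul_le_mul_of_nonneg_right (by linarith) hJr)) (le_refl _))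
  refine Nat.floor_le_of_le ?_
  calc (w + d) * (J : ℝ) ≤ 1 * J := mul_le_mul_of_nonneg_right hwd hJr
    _ = J := one_mul _

end Pool.SHE33
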