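import Pool.Agent.H33.SHE.Lfv

/-!
# The absence of closed labels in the sheared zooms of a class

`lb_zpr`: if a class does not have closed labels of the coordinate `k` over the coordinates in `I`,
then the sheared zooms of the class do not have the rescaled labels.
-/

set_option autoImplicit false

namespace Pool.SHE33

open Finset Real MvPolynomial
open Pool.Agent.H49.Ent Pool.Agent.H32.Dense Pool.STK Pool.KA Pool.KSAT Pool.K2S Pool.PB Pool.S6C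
open Pool.GEN Pool.ZCL Pool.TOP Pool.ZLC Pool.ZFW Pool.ZCO

variable {m J : ℕ}

/-- The coordinate from the linear form. -/
theorem Lf.of_fms {F : Fam m J} {I : Finset (Fin m)} {κ : Type} {cb : κ → Fin m → ℝ}
    {p q : Fin m} {M : ℕ} {z : PtT F → κ} {z' : LnT F → κ} {W w : ℕ} (hWw : W ≤ w) (hwJ : w ≤ J)
    {k : Fin m} (hk : k = q → p ∈ I) {K e ρ P : ℕ} (hK : 1 ≤ K) {A : F.Ω → Prop}
    (hz : ∀ ω, A ω → z (ptr F J ω) = z' (slam F W ω))
    (h : Lf F I (fms F cb p q M (fun ω => z' (slam F W ω)) k) K e w ρ (P + 1) A) :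
    Lf F I (fun ω => F.x ω k) K (e + M + 1) w ρ P A := by
  by_cases hkq : k = q
  · subst hkq
    obtain ⟨y', hy'⟩ : ∃ y' : LnT F → κ, y' = fun s => z' (s.1, s.2.1, s.2.2 / 2 ^ (w - W)) :=
      ⟨_, rfl⟩
    have hyω : ∀ ω : F.Ω, y' (slam F w ω) = z' (slam F W ω) := fun ω => by
      rw [hy']
      simp only
      rw [← slam_coarse F hWw hwJ ω]
    have h2 := (lf_own F (hk rfl) w ρ (P + M + 1) A).mono (Finset.Subset.refl I) hK
      (le_refl 0) (le_refl w) hwJ (le_refl ρ) (le_refl _)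
    have h3 := Lf.lin h h2 (y := z) (y' := y') (fun ω hω => by
      rw [hyω ω]
      exact hz ω hω) (fun k' => -clp M (cb k' k)) (fun k' => by
      rw [abs_neg]
      exact clp_le _ _)
    refine Lf.congr (h3.mono (Finset.Subset.refl I) le_rfl (by omega) (le_refl w) hwJ (le_refl ρ)
      (le_refl P)) fun ω hω => ?_
    rw [hyω ω]
    unfold fms
    rw [if_pos rfl]
    ring
  · refine Lf.congr (h.mono (Finset.Subset.refl I) le_rfl (by omega) (le_refl w) hwJ (le_refl ρ)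
      (by omega)) fun ω hω => ?_
    unfold fms
    rw [if_neg hkq, sub_zero]

/-- The linear form from the coordinate. -/
theorem Lf.fms_of {F : Fam m J} {I : Finset (Fin m)} {κ : Type} {cb : κ → Fin m → ℝ}
    {p q : Fin m} {M : ℕ} {z : PtT F → κ} {z' : LnT F → κ} {W w : ℕ} (hWw : W ≤ w) (hwJ : w ≤ J)
    {k : Fin m} {K e e' ρ P : ℕ} {A : F.Ω → Prop}
    (hz : ∀ ω, A ω → z (ptr F J ω) = z' (slam F W ω))
    (h : Lf F I (fun ω => F.x ω k) K e w ρ (P + 1) A)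
    (hp : k = q → Lf F I (fun ω => F.x ω p) K e' w ρ (P + M + 1) A) :
    Lf F I (fms F cb p q M (fun ω => z' (slam F W ω)) k) K (e + e' + M + 1) w ρ P A := by
  by_cases hkq : k = q
  · subst hkq
    obtain ⟨y', hy'⟩ : ∃ y' : LnT F → κ, y' = fun s => z' (s.1, s.2.1, s.2.2 / 2 ^ (w - W)) :=
      ⟨_, rfl⟩
    have hyω : ∀ ω : F.Ω, y' (slam F w ω) = z' (slam F W ω) := fun ω => by
      rw [hy']
      simp only
      rw [← slam_coarse F hWw hwJ ω]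
    have h3 := Lf.lin h (hp rfl) (y := z) (y' := y') (fun ω hω => by
      rw [hyω ω]
      exact hz ω hω) (fun k' => clp M (cb k' k)) (fun k' => clp_le _ _)
    refine Lf.congr h3 fun ω hω => ?_
    rw [hyω ω]
    unfold fms
    rw [if_pos rfl]
  · refine Lf.congr (h.mono (Finset.Subset.refl I) le_rfl (by omega) (le_refl w) hwJ (le_refl ρ)
      (by omega)) fun ω hω => ?_
    unfold fms
    rw [if_neg hkq, sub_zero]

/-- **The absence of closed labels in the sheared zooms.** -/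
theorem lb_zpr {S : PCl m} {C₀ : ℝ} (hC₀ : 0 ≤ C₀) (htm : TmC S C₀) {b : ℝ}
    (hb0 : 0 < b) (hb1 : b < 1) {p q : Fin m} {hu : p ∉ ({q} : Finset (Fin m))}
    {I : Finset (Fin m)} (hqI : q ∉ I) {k : Fin m} (hk : k = q → p ∈ I) {K : ℕ}
    {E w ρ P Ez wz ρz Pz : ℝ}
    (hEz0 : 0 ≤ Ez) (hwz0 : 0 ≤ wz) (hwz1 : wz ≤ 1) (hρz0 : 0 ≤ ρz) (hρz1 : ρz < 1)
    (hPz0 : 0 ≤ Pz) (hP0 : 0 ≤ P) (hw1 : w < 1)
    (hE : Ez * (1 - b) < E) (hw : b + wz * (1 - b) < w) (hρ : b + ρz * (1 - b) < ρ)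
    (hP : P < b + Pz * (1 - b)) (hPE : P + Ez * (1 - b) < 1)
    (hb : Bas S (fun J F A => ¬ Lb F I k (max K 1) ⌊E * J⌋₊ J ⌊w * J⌋₊ ⌊ρ * J⌋₊ ⌊P * J⌋₊ A)) :
    ∃ x₀ : ℝ, 0 < x₀ ∧ ∀ Ψ : ∀ (J : ℕ) (F : Fam m J) (_ : F.Ω → Prop), (F.Ω → ℝ) → Prop,
      ZPr S b (id : Fin m → Fin m) (ShX b hu x₀ Ψ) (fun J G A =>
        ¬ Lb G I k K ⌊Ez * J⌋₊ J ⌊wz * J⌋₊ ⌊ρz * J⌋₊ ⌊Pz * J⌋₊ A) := by
  classical
  obtain ⟨Cf, hbwd⟩ := lf_bwd m
  have h01 : 0 < 1 - b := by linarith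
  obtain ⟨η, hη⟩ : ∃ η : ℝ, 0 < η ∧ Ez * (1 - b) + η ≤ E ∧ b + wz * (1 - b) + η ≤ w ∧
      b + ρz * (1 - b) + η ≤ ρ ∧ ρz + η ≤ 1 ∧ P + η ≤ b + Pz * (1 - b) ∧
      P + Ez * (1 - b) + η ≤ 1 := by
    refine ⟨min (min (E - Ez * (1 - b)) (w - (b + wz * (1 - b)))) (min (min (ρ - (b + ρz *
      (1 - b))) (1 - ρz)) (min (b + Pz * (1 - b) - P) (1 - (P + Ez * (1 - b))))), ?_, ?_, ?_, ?_,
      ?_, ?_, ?_⟩
    · refine lt_min (lt_min ?_ ?_) (lt_min (lt_min ?_ ?_) (lt_min ?_ ?_)) <;> linarith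
    all_goals
      have a1 := min_le_left (min (E - Ez * (1 - b)) (w - (b + wz * (1 - b))))
        (min (min (ρ - (b + ρz * (1 - b))) (1 - ρz))
          (min (b + Pz * (1 - b) - P) (1 - (P + Ez * (1 - b)))))
      have a2 := min_le_right (min (E - Ez * (1 - b)) (w - (b + wz * (1 - b))))
        (min (min (ρ - (b + ρz * (1 - b))) (1 - ρz))
          (min (b + Pz * (1 - b) - P) (1 - (P + Ez * (1 - b)))))
      have a3 := min_le_left (E - Ez * (1 - b)) (w - (b + wz * (1 - b)))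
      have a4 := min_le_right (E - Ez * (1 - b)) (w - (b + wz * (1 - b)))
      have a5 := min_le_left (min (ρ - (b + ρz * (1 - b))) (1 - ρz))
        (min (b + Pz * (1 - b) - P) (1 - (P + Ez * (1 - b))))
      have a6 := min_le_right (min (ρ - (b + ρz * (1 - b))) (1 - ρz))
        (min (b + Pz * (1 - b) - P) (1 - (P + Ez * (1 - b))))
      have a7 := min_le_left (ρ - (b + ρz * (1 - b))) (1 - ρz)
      have a8 := min_le_right (ρ - (b + ρz * (1 - b))) (1 - ρz)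
      have a9 := min_le_left (b + Pz * (1 - b) - P) (1 - (P + Ez * (1 - b)))
      have a10 := min_le_right (b + Pz * (1 - b) - P) (1 - (P + Ez * (1 - b)))
      linarith
  obtain ⟨hη0, hη1, hη2, hη3, hη4, hη5, hη6⟩ := hη
  have hw0 : 0 ≤ w := by
    have := mul_nonneg hwz0 h01.le
    linarith
  obtain ⟨τ₁, hτ₁, J₁, hb⟩ := hb
  obtain ⟨τ₂, hτ₂, J₂, hvel⟩ := lf_lb hC₀ htm (max K 1) hw0 hw1 (show 0 < η / 8 by linarith)
  obtain ⟨δ, hδ⟩ : ∃ δ, δ = min τ₁ τ₂ / 4 := ⟨_, rfl⟩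
  have hδ0 : 0 < δ := by
    rw [hδ]
    have := lt_min hτ₁ hτ₂
    linarith
  have hδ1 : 4 * δ ≤ τ₁ := by rw [hδ]; linarith [min_le_left τ₁ τ₂]
  have hδ2 : 4 * δ ≤ τ₂ := by rw [hδ]; linarith [min_le_right τ₁ τ₂]
  obtain ⟨Kc, hKc⟩ : ∃ Kc : ℝ, Kc = (6 * 2 + 3) ^ m * ((4 * 2 + 3) ^ m *
    (2 * 2 + 15) ^ m) := ⟨_, rfl⟩
  have hKc0 : 0 < Kc := by
    rw [hKc]
    positivity
  obtain ⟨J₃, hJ₃⟩ := lin (Real.log (2 * Kc)) hδ0
  obtain ⟨J₄, hJ₄⟩ := lin ((Cf : ℝ) + Ez + 12) (show 0 < η / 8 by linarith)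
  obtain ⟨J₅, hJ₅⟩ := lin ((Cf : ℝ) + Ez + 12) (show 0 < η * (1 - b) by positivity)
  refine ⟨η / 8, by linarith, fun Ψ => ⟨δ / 3, div_pos hδ0 three_pos, δ, hδ0,
    max (max J₁ J₂) (max J₃ (max J₄ J₅)), ?_⟩⟩
  intro J hJ F A hS κ C z z' hc hR hl J' hJ' B hBA hPB hLb
  simp only [ge_iff_le, max_le_iff] at hJ
  obtain ⟨⟨hJ1, hJ2⟩, hJ3, hJ4, hJ5⟩ := hJ
  replace hJ3 := hJ₃ J hJ3
  replace hJ4 := hJ₄ J hJ4
  replace hJ5 := hJ₅ J hJ5
  have hJr : (0 : ℝ) ≤ J := Nat.cast_nonneg J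
  obtain ⟨W, hW⟩ : ∃ W, W = ⌊b * (J : ℝ)⌋₊ := ⟨_, rfl⟩
  have hWr : (W : ℝ) ≤ b * J := by rw [hW]; exact Nat.floor_le (by positivity)
  have hWr' : b * (J : ℝ) < W + 1 := by rw [hW]; exact Nat.lt_floor_add_one _
  have hsumN : W + J' = J := by rw [hW]; exact hJ'
  have hsum : (W : ℝ) + J' = J := by exact_mod_cast hsumN
  have hJ'0 : (0 : ℝ) ≤ J' := Nat.cast_nonneg J'
  have hJ'1 : (1 - b) * J ≤ (J' : ℝ) := by
    have : (1 - b) * (J : ℝ) = J - b * J := by ring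
    linarith
  have hJ'2 : (J' : ℝ) ≤ (1 - b) * J + 1 := by
    have : (1 - b) * (J : ℝ) = J - b * J := by ring
    linarith
  have hJ'J : (J' : ℝ) ≤ J := by
    have := Nat.cast_nonneg (α := ℝ) W
    linarith
  have hA0 : 0 ≤ Pe F.p A := Pe_nonneg F.isLaw A
  have hSB : S.St (δ + δ) J F B := by
    refine S.res hδ0.le hS hBA (le_trans ?_ hPB)
    refine mul_le_mul_of_nonneg_right (Real.exp_le_exp.2 ?_) hA0
    have e1 : 3 * (δ / 3) * (J' : ℝ) = δ * J' := by ring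
    rw [e1]
    have := mul_le_mul_of_nonneg_left hJ'J hδ0.le
    linarith
  obtain ⟨hB0, -⟩ := htm _ J F B (by linarith) hSB
  obtain ⟨cb, M, rfl, hM, -, -⟩ := hR
  -- the windows
  obtain ⟨V, hVd⟩ : ∃ V, V = ⌊wz * (J' : ℝ)⌋₊ := ⟨_, rfl⟩
  obtain ⟨eZ, heZ⟩ : ∃ eZ, eZ = ⌊Ez * (J' : ℝ)⌋₊ := ⟨_, rfl⟩
  obtain ⟨rZ, hrZ⟩ : ∃ rZ, rZ = ⌊ρz * (J' : ℝ)⌋₊ := ⟨_, rfl⟩
  obtain ⟨pZ, hpZ⟩ : ∃ pZ, pZ = ⌊Pz * (J' : ℝ)⌋₊ := ⟨_, rfl⟩
  obtain ⟨eF, heF⟩ : ∃ eF, eF = ⌊E * (J : ℝ)⌋₊ := ⟨_, rfl⟩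
  obtain ⟨rF, hrF⟩ : ∃ rF, rF = ⌊ρ * (J : ℝ)⌋₊ := ⟨_, rfl⟩
  obtain ⟨pF, hpF⟩ : ∃ pF, pF = ⌊P * (J : ℝ)⌋₊ := ⟨_, rfl⟩
  obtain ⟨wF, hwF⟩ : ∃ wF, wF = ⌊w * (J : ℝ)⌋₊ := ⟨_, rfl⟩
  rw [← heZ, ← hVd, ← hrZ, ← hpZ] at hLb
  have hVr : (V : ℝ) ≤ wz * J' := by rw [hVd]; exact Nat.floor_le (mul_nonneg hwz0 hJ'0)
  have heZr : (eZ : ℝ) ≤ Ez * J' := by rw [heZ]; exact Nat.floor_le (mul_nonneg hEz0 hJ'0)
  have hrZr : (rZ : ℝ) ≤ ρz * J' := by rw [hrZ]; exact Nat.floor_le (mul_nonneg hρz0 hJ'0)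
  have hpZr : Pz * (J' : ℝ) < pZ + 1 := by rw [hpZ]; exact Nat.lt_floor_add_one _
  have heFr : E * (J : ℝ) < eF + 1 := by rw [heF]; exact Nat.lt_floor_add_one _
  have hrFr : ρ * (J : ℝ) < rF + 1 := by rw [hrF]; exact Nat.lt_floor_add_one _
  have hwFr : w * (J : ℝ) < wF + 1 := by rw [hwF]; exact Nat.lt_floor_add_one _
  have hpFr : (pF : ℝ) ≤ P * J := by rw [hpF]; exact Nat.floor_le (mul_nonneg hP0 hJr)
  have hVJ : V ≤ J' := by
    have h1 := mul_le_mul_of_nonneg_right hwz1 hJ'0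
    have h2 : (V : ℝ) ≤ J' := by linarith
    exact_mod_cast h2
  have hCf0 : (0 : ℝ) ≤ Cf := Nat.cast_nonneg _
  have heZ2 : Ez * (J' : ℝ) ≤ Ez * (1 - b) * J + Ez := by
    have h5 := mul_le_mul_of_nonneg_left hJ'2 hEz0
    have h6 : Ez * ((1 - b) * J + 1) = Ez * (1 - b) * J + Ez := by ring
    linarith
  obtain ⟨μ, hμ⟩ : ∃ μ, μ = M q := ⟨_, rfl⟩
  have hμr : (μ : ℝ) ≤ η / 8 * J + 1 := by rw [hμ]; exact hM
  have hmsc : msc q (M q) k ≤ μ := by rw [hμ]; exact msc_le _ _ _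
  -- the intermediate precision
  obtain ⟨pI, hpI⟩ : ∃ pI, pI = ⌊(P + η / 8) * (J : ℝ)⌋₊ + 1 := ⟨_, rfl⟩
  have hpIr : (pI : ℝ) ≤ (P + η / 8) * J + 1 := by
    rw [hpI]
    push_cast
    have h1 : (⌊(P + η / 8) * (J : ℝ)⌋₊ : ℝ) ≤ (P + η / 8) * J := Nat.floor_le (by positivity)
    linarith
  have hpI2 : (pF : ℝ) + η / 8 * J ≤ pI := by
    rw [hpI]
    push_cast
    have h1 : (P + η / 8) * (J : ℝ) < ⌊(P + η / 8) * (J : ℝ)⌋₊ + 1 := Nat.lt_floor_add_one _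
    have e1 : (P + η / 8) * (J : ℝ) = P * J + η / 8 * J := by ring
    linarith
  have e8 : η / 8 * (J : ℝ) * 8 = η * J := by ring
  have hη0J : 0 ≤ η / 8 * (J : ℝ) := by positivity
  have hLf0 : Lf (zfc F W J' hsumN.le (shC cb p {q} hu M) (fun ω => z' (slam F W ω)) id) I
      (fun ω => (zfc F W J' hsumN.le (shC cb p {q} hu M) (fun ω => z' (slam F W ω)) id).x ω k)
      K eZ V rZ pZ B := by
    subst hW
    obtain ⟨V₁, y₁, y₁', G₁, h₁⟩ := hLb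
    exact ⟨V₁, y₁, y₁', G₁, h₁.deg, h₁.dep, fun ω hω => h₁.cls ω hω, fun ω hω => h₁.pos ω hω,
      fun ω hω => h₁.lip ω hω⟩
  have hzB : ∀ ω, B ω → z (ptr F J ω) = z' (slam F W ω) := by
    intro ω hω
    rw [hW]
    exact hc ω (hBA ω hω)
  have hWV : W + V ≤ J := by omega
  obtain ⟨B₁, hB₁, hPB₁, hL1⟩ := hbwd F hsumN hVJ (z := z) z' hqI k (ρ' := rF) (P' := pI + 1)
    hzB hLf0 (by
      have h1 := mul_le_mul_of_nonneg_right hη3 hJr
      have e2 : (b + ρz * (1 - b) + η) * (J : ℝ) = b * J + ρz * ((1 - b) * J) + η * J := by ring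
      rw [e2] at h1
      have h2 : ρz * (J' : ℝ) ≤ ρz * ((1 - b) * J) + 1 := by
        have h5 := mul_le_mul_of_nonneg_left hJ'2 hρz0
        have h6 : ρz * ((1 - b) * J + 1) = ρz * ((1 - b) * J) + ρz := by ring
        linarith
      have h3 : ((W + rZ + 3 : ℕ) : ℝ) ≤ (rF : ℝ) := by
        push_cast
        linarith
      exact_mod_cast h3) (by
      have h1 := mul_le_mul_of_nonneg_right hη4 hJ'0
      have e2 : (ρz + η) * (J' : ℝ) = ρz * J' + η * J' := by ring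
      rw [e2, one_mul] at h1
      have h2 := mul_le_mul_of_nonneg_left hJ'1 hη0.le
      have e3 : η * ((1 - b) * (J : ℝ)) = η * (1 - b) * J := by ring
      rw [e3] at h2
      have h3 : ((rZ + 3 : ℕ) : ℝ) ≤ (J' : ℝ) := by
        push_cast
        linarith
      exact_mod_cast h3) (by
      have h1 := mul_le_mul_of_nonneg_right hη5 hJr
      have e2 : (P + η) * (J : ℝ) = P * J + η * J := by ring
      have e3 : (b + Pz * (1 - b)) * (J : ℝ) = b * J + Pz * ((1 - b) * J) := by ring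
      rw [e2, e3] at h1
      have h2 := mul_le_mul_of_nonneg_left hJ'1 hPz0
      have h3 : ((pI + 1 + μ + Cf : ℕ) : ℝ) ≤ ((W + pZ : ℕ) : ℝ) := by
        push_cast
        have e4 : (P + η / 8) * (J : ℝ) = P * J + η / 8 * J := by ring
        rw [e4] at hpIr
        linarith
      have h4 : pI + 1 + μ + Cf ≤ W + pZ := by exact_mod_cast h3
      omega) (by
      have h1 := mul_le_mul_of_nonneg_right hη6 hJr
      have e2 : (P + Ez * (1 - b) + η) * (J : ℝ) = P * J + Ez * (1 - b) * J + η * J := by ring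
      rw [e2, one_mul] at h1
      have h3 : ((pI + 1 + μ + eZ + Cf : ℕ) : ℝ) ≤ (J : ℝ) := by
        push_cast
        have e4 : (P + η / 8) * (J : ℝ) = P * J + η / 8 * J := by ring
        rw [e4] at hpIr
        linarith
      have h4 : pI + 1 + μ + eZ + Cf ≤ J := by exact_mod_cast h3
      omega)
  rw [← hKc] at hPB₁
  have hL2 := Lf.of_fms (Nat.le_add_right W V) hWV hk (le_max_right K 1)
    (fun ω hω => hzB ω (hB₁ ω hω)) hL1
  have hWVw : W + V ≤ wF := by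
    have h1 := mul_le_mul_of_nonneg_right hη2 hJr
    have e2 : (b + wz * (1 - b) + η) * (J : ℝ) = b * J + wz * ((1 - b) * J) + η * J := by ring
    rw [e2] at h1
    have h2 : wz * (J' : ℝ) ≤ wz * ((1 - b) * J) + 1 := by
      have h5 := mul_le_mul_of_nonneg_left hJ'2 hwz0
      have h6 : wz * ((1 - b) * J + 1) = wz * ((1 - b) * J) + wz := by ring
      linarith
    have h3 : ((W + V : ℕ) : ℝ) ≤ (wF : ℝ) := by
      push_cast
      linarith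
    exact_mod_cast h3
  have hwFw : (wF : ℝ) ≤ w * J := by rw [hwF]; exact Nat.floor_le (by positivity)
  have hwFJ : wF ≤ J := by
    have h1 : w * (J : ℝ) ≤ 1 * J := mul_le_mul_of_nonneg_right hw1.le hJr
    have h2 : (wF : ℝ) ≤ J := by linarith
    exact_mod_cast h2
  have hL3 := hL2.mono (e' := eF) (w' := wF) (ρ' := rF) (P' := pI) (Finset.Subset.refl I) le_rfl
    (by
      have h1 := mul_le_mul_of_nonneg_right hη1 hJr
      have e2 : (Ez * (1 - b) + η) * (J : ℝ) = Ez * (1 - b) * J + η * J := by ring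
      rw [e2] at h1
      have h3 : ((eZ + μ + Cf + μ + 1 : ℕ) : ℝ) ≤ (eF : ℝ) := by
        push_cast
        linarith
      have h4 : eZ + μ + Cf + μ + 1 ≤ eF := by exact_mod_cast h3
      rw [← hμ]
      rw [← hμ] at hmsc
      omega) hWVw hwFJ (le_refl _) (le_refl _)
  have hSB₁ : S.St (δ + δ + δ) J F B₁ := by
    refine S.res hδ0.le hSB hB₁ ?_
    have h1 : Kc ≤ Real.exp (δ * J) := by
      rw [← Real.log_le_iff_le_exp hKc0]
      refine le_trans (Real.log_le_log hKc0 (by linarith)) hJ3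
    have h2 : Pe F.p B ≤ Real.exp (δ * J) * Pe F.p B₁ :=
      hPB₁.trans (mul_le_mul_of_nonneg_right h1 (Pe_nonneg F.isLaw _))
    have h3 := mul_le_mul_of_nonneg_left h2 (Real.exp_pos (-(δ * J))).le
    rw [← mul_assoc, ← Real.exp_add, neg_add_cancel, Real.exp_zero, one_mul] at h3
    exact h3
  obtain ⟨B₂, hB₂, hPB₂, hfin⟩ := hvel (δ + δ + δ) (by linarith) (by linarith) J hJ2 F B₁ hSB₁ I k
    eF wF rF pI pF hwFw hpI2 hL3
  have hSB₂ : S.St (δ + δ + δ + δ) J F B₂ := by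
    refine S.res hδ0.le hSB₁ hB₂ (le_trans ?_ hPB₂)
    have h4 : Real.exp (-(δ * J)) ≤ 1 / 2 := by
      rw [one_div, ← Real.exp_log (two_pos (α := ℝ)), ← Real.exp_neg]
      refine Real.exp_le_exp.2 (neg_le_neg ?_)
      have hKc1 : 1 ≤ Kc := by
        rw [hKc]
        exact one_le_mul_of_one_le_of_one_le (one_le_pow₀ (by norm_num))
          (one_le_mul_of_one_le_of_one_le (one_le_pow₀ (by norm_num)) (one_le_pow₀ (by norm_num)))
      refine le_trans (Real.log_le_log two_pos (by linarith)) hJ3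
    have h5 := mul_le_mul_of_nonneg_right h4 (Pe_nonneg F.isLaw B₁)
    linarith
  refine hb J hJ1 F B₂ (S.mono (by linarith) hSB₂) ?_
  rw [← heF, ← hwF, ← hrF, ← hpF]
  exact hfin

end Pool.SHE33
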