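import Pool.Agent.H33.SHE.Lfb

/-!
# Closed labels of functions in the sheared zooms of a class

`LfH`: the linear form of the shear has a closed label on a part of every large event. `lf_zpr`: then
the sheared zooms have the rescaled label of the coordinate, on a part `exp (- τ J)` of each large
event, for every `τ > 0`.
-/

set_option autoImplicit false

namespace Pool.SHE33

open Finset Real MvPolynomial
open Pool.Agent.H49.Ent Pool.Agent.H32.Dense Pool.STK Pool.KA Pool.KSAT Pool.K2S Pool.PB Pool.S6C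
open Pool.GEN Pool.ZCL Pool.TOP Pool.ZLC Pool.ZFW Pool.ZCO

variable {m : ℕ}

/-- **The linear form has a closed label** on a part of every large event, under the requirement. -/
def LfH (S : PCl m) (b : ℝ) (p q : Fin m) (I : Finset (Fin m)) (k : Fin m) (x K₁ : ℝ) (K : ℕ)
    (E w ρ P : ℝ) (Ψ : ∀ (J : ℕ) (F : Fam m J) (_ : F.Ω → Prop), (F.Ω → ℝ) → Prop) : Prop :=
  ∃ τ₁ : ℝ, 0 < τ₁ ∧ ∃ J₁ : ℕ, ∀ J ≥ J₁, ∀ (F : Fam m J) (A : F.Ω → Prop), S.St τ₁ J F A →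
    ∀ (κ : Type) (cb : κ → Fin m → ℝ) (M : Fin m → ℕ) (z : PtT F → κ) (z' : LnT F → κ),
      (∀ ω, A ω → z (ptr F J ω) = z' (slam F ⌊b * J⌋₊ ω)) → (M q : ℝ) ≤ x * J + 1 →
      (∀ ω, A ω → |cb (z' (slam F ⌊b * J⌋₊ ω)) q| ≤ 2 ^ M q) →
      Ψ J F A (fun ω => cb (z' (slam F ⌊b * J⌋₊ ω)) q) →
      ∀ B : F.Ω → Prop, Sub B A → S.St τ₁ J F B → ∃ B₀ : F.Ω → Prop, Sub B₀ B ∧
        Pe F.p B ≤ K₁ * Pe F.p B₀ ∧
        Lf F I (fms F cb p q (M q) (fun ω => z' (slam F ⌊b * J⌋₊ ω)) k) K ⌊E * J⌋₊ ⌊w * J⌋₊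
          ⌊ρ * J⌋₊ ⌊P * J⌋₊ B₀

/-- **Closed labels in the sheared zooms.** -/
theorem lf_zpr {S : PCl m} {C₀ : ℝ} (hC₀ : 0 ≤ C₀) (htm : TmC S C₀) {b : ℝ}
    (hb0 : 0 < b) (hb1 : b < 1) {p q : Fin m} {hu : p ∉ ({q} : Finset (Fin m))}
    {I : Finset (Fin m)} (hqI : q ∉ I) (k : Fin m) {K : ℕ} {E w ρ P Ez wz ρz Pz : ℝ}
    (hE0 : 0 ≤ E) (hw0 : 0 ≤ w) (hρ0 : 0 ≤ ρ) (hwz0 : 0 ≤ wz) (hwz1 : wz ≤ 1)
    (hρz0 : 0 ≤ ρz) (hPz0 : 0 ≤ Pz) (hPz1 : Pz ≤ 1)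
    (hE : E < Ez * (1 - b)) (hw : w < b + wz * (1 - b)) (hρ : ρ < b + ρz * (1 - b))
    (hρ1 : ρ < 1) (hP : b + Pz * (1 - b) < P) (hPE : Pz * (1 - b) + E < 1 - b) {τ : ℝ}
    (hτ : 0 < τ) :
    ∃ x₀ : ℝ, 0 < x₀ ∧ ∀ x ≤ x₀, 0 < x →
      ∀ (Ψ : ∀ (J : ℕ) (F : Fam m J) (_ : F.Ω → Prop), (F.Ω → ℝ) → Prop) (K₁ : ℝ), 0 < K₁ →
      LfH S b p q I k x K₁ K E w ρ P Ψ →
      ZPr S b (id : Fin m → Fin m) (ShX b hu x Ψ) (fun J G A => ∃ B : G.Ω → Prop, Sub B A ∧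
        Real.exp (-(τ * J)) * Pe G.p A ≤ Pe G.p B ∧
        Lf G I (fun ω => G.x ω k) (max K 1) ⌊Ez * J⌋₊ ⌊wz * J⌋₊ ⌊ρz * J⌋₊ ⌊Pz * J⌋₊ B) := by
  classical
  obtain ⟨Cf, hfwd⟩ := lf_fwd m
  have h01 : 0 < 1 - b := by linarith
  have hm1 : (0 : ℝ) < (m : ℝ) + 1 := by positivity
  obtain ⟨δ₀, hδ₀⟩ : ∃ δ₀, δ₀ = τ * (1 - b) / (5 * C₀ + 4) := ⟨_, rfl⟩
  have hδ₀0 : 0 < δ₀ := by rw [hδ₀]; positivity
  obtain ⟨η, hη⟩ : ∃ η : ℝ, 0 < η ∧ E + η ≤ Ez * (1 - b) ∧ w + η ≤ b + wz * (1 - b) ∧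
      ρ + η ≤ b + ρz * (1 - b) ∧ ρ + η ≤ 1 ∧ b + Pz * (1 - b) + η ≤ P ∧
      Pz * (1 - b) + E + η ≤ 1 - b := by
    refine ⟨min (min (Ez * (1 - b) - E) (b + wz * (1 - b) - w)) (min (min (b + ρz * (1 - b) - ρ)
      (1 - ρ)) (min (P - (b + Pz * (1 - b))) (1 - b - (Pz * (1 - b) + E)))), ?_, ?_, ?_, ?_, ?_,
      ?_, ?_⟩
    · refine lt_min (lt_min ?_ ?_) (lt_min (lt_min ?_ ?_) (lt_min ?_ ?_)) <;> linarith
    all_goals
      have a1 := min_le_left (min (Ez * (1 - b) - E) (b + wz * (1 - b) - w))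
        (min (min (b + ρz * (1 - b) - ρ) (1 - ρ))
          (min (P - (b + Pz * (1 - b))) (1 - b - (Pz * (1 - b) + E))))
      have a2 := min_le_right (min (Ez * (1 - b) - E) (b + wz * (1 - b) - w))
        (min (min (b + ρz * (1 - b) - ρ) (1 - ρ))
          (min (P - (b + Pz * (1 - b))) (1 - b - (Pz * (1 - b) + E))))
      have a3 := min_le_left (Ez * (1 - b) - E) (b + wz * (1 - b) - w)
      have a4 := min_le_right (Ez * (1 - b) - E) (b + wz * (1 - b) - w)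
      have a5 := min_le_left (min (b + ρz * (1 - b) - ρ) (1 - ρ))
        (min (P - (b + Pz * (1 - b))) (1 - b - (Pz * (1 - b) + E)))
      have a6 := min_le_right (min (b + ρz * (1 - b) - ρ) (1 - ρ))
        (min (P - (b + Pz * (1 - b))) (1 - b - (Pz * (1 - b) + E)))
      have a7 := min_le_left (b + ρz * (1 - b) - ρ) (1 - ρ)
      have a8 := min_le_right (b + ρz * (1 - b) - ρ) (1 - ρ)
      have a9 := min_le_left (P - (b + Pz * (1 - b))) (1 - b - (Pz * (1 - b) + E))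
      have a10 := min_le_right (P - (b + Pz * (1 - b))) (1 - b - (Pz * (1 - b) + E))
      linarith
  obtain ⟨hη0, hη1, hη2, hη3, hη4, hη5, hη6⟩ := hη
  obtain ⟨J₃, hJ₃⟩ := lin ((Cf : ℝ) + 8) hη0
  refine ⟨δ₀ / (m + 1) / 2, by positivity, fun x hx hx0 Ψ K₁ hK₁ hb => ?_⟩
  obtain ⟨τ₁, hτ₁, J₁, hb⟩ := hb
  obtain ⟨δ, hδ⟩ : ∃ δ, δ = min δ₀ (τ₁ / 2) := ⟨_, rfl⟩
  have hδ0 : 0 < δ := by
    rw [hδ]
    exact lt_min hδ₀0 (by linarith)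
  have hδδ : δ ≤ δ₀ := by rw [hδ]; exact min_le_left _ _
  have hδ1 : (5 * C₀ + 4) * δ₀ = τ * (1 - b) := by
    rw [hδ₀]
    field_simp
  have hδ2 : δ + δ ≤ τ₁ := by
    have h1 : δ ≤ τ₁ / 2 := by rw [hδ]; exact min_le_right _ _
    linarith
  have hxm : m * x ≤ δ₀ / 2 := by
    have h1 : (m : ℝ) * x ≤ (m + 1) * (δ₀ / (m + 1) / 2) := by
      refine mul_le_mul (by linarith) hx hx0.le (by positivity)
    have h2 : ((m : ℝ) + 1) * (δ₀ / (m + 1) / 2) = δ₀ / 2 := by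
      field_simp
    linarith
  obtain ⟨J₂, hJ₂⟩ := lin (7 * (m : ℝ)) hδ₀0
  obtain ⟨J₄, hJ₄⟩ := exists_nat_ge (Real.log K₁ / δ₀)
  refine ⟨δ / 3, div_pos hδ0 three_pos, δ, hδ0, max (max J₁ J₂) (max J₃ J₄), ?_⟩
  intro J hJ F A hS κ C z z' hc hR hl J' hJ' B hBA hPB
  simp only [ge_iff_le, max_le_iff] at hJ
  obtain ⟨⟨hJ1, hJ2⟩, hJ3, hJ4⟩ := hJ
  replace hJ2 := hJ₂ J hJ2
  replace hJ3 := hJ₃ J hJ3
  have hJr : (0 : ℝ) ≤ J := Nat.cast_nonneg J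
  have hK₁e : K₁ ≤ Real.exp (δ₀ * J) := by
    rw [← Real.log_le_iff_le_exp hK₁]
    have h1 : Real.log K₁ / δ₀ ≤ J := hJ₄.trans (by exact_mod_cast hJ4)
    rw [div_le_iff₀ hδ₀0] at h1
    linarith
  obtain ⟨W, hW⟩ : ∃ W, W = ⌊b * (J : ℝ)⌋₊ := ⟨_, rfl⟩
  have hWr : (W : ℝ) ≤ b * J := by rw [hW]; exact Nat.floor_le (by positivity)
  have hWr' : b * (J : ℝ) < W + 1 := by rw [hW]; exact Nat.lt_floor_add_one _
  have hsumN : W + J' = J := by rw [hW]; exact hJ'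
  have hsum : (W : ℝ) + J' = J := by exact_mod_cast hsumN
  have hJ'0 : (0 : ℝ) ≤ J' := Nat.cast_nonneg J'
  have hJ'1 : (1 - b) * J ≤ (J' : ℝ) := by
    have : (1 - b) * (J : ℝ) = J - b * J := by ring
    linarith
  have hJ'2 : (J' : ℝ) ≤ (1 - b) * J + 1 := by
    have : (1 - b) * (J : ℝ) = J - b * J := by ring
    linarith
  have hJ'J : (J' : ℝ) ≤ J := by
    have := Nat.cast_nonneg (α := ℝ) W
    linarith
  -- the event
  have hA0 : 0 ≤ Pe F.p A := Pe_nonneg F.isLaw A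
  have hSB : S.St (δ + δ) J F B := by
    refine S.res hδ0.le hS hBA (le_trans ?_ hPB)
    refine mul_le_mul_of_nonneg_right (Real.exp_le_exp.2 ?_) hA0
    have e1 : 3 * (δ / 3) * (J' : ℝ) = δ * J' := by ring
    rw [e1]
    have := mul_le_mul_of_nonneg_left hJ'J hδ0.le
    linarith
  obtain ⟨hB0, -⟩ := htm _ J F B (by linarith) hSB
  have hA0' : 0 < Pe F.p A := hB0.trans_le (Pe_mono F.isLaw hBA)
  -- the shear
  obtain ⟨cb, M, rfl, hM, hcb, hΨ⟩ := hR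
  obtain ⟨B₀, hB₀B, hPB₀, hLf⟩ := hb J hJ1 F A (S.mono (by linarith) hS) κ cb M z z' hc hM hcb hΨ
    B hBA (S.mono hδ2 hSB)
  have hB₀0 : 0 < Pe F.p B₀ := by
    by_contra hcon
    have h1 : Pe F.p B₀ = 0 := le_antisymm (not_lt.1 hcon) (Pe_nonneg F.isLaw _)
    rw [h1, mul_zero] at hPB₀
    linarith
  obtain ⟨μ, hμ⟩ : ∃ μ, μ = M q := ⟨_, rfl⟩
  have hμr : (μ : ℝ) ≤ x * J + 1 := by rw [hμ]; exact hM
  obtain ⟨Kc, hKc⟩ : ∃ Kc : ℕ, Kc = 14 * 2 ^ μ + 1 := ⟨_, rfl⟩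
  have hKc1 : 7 * (2 * (2 : ℝ) ^ μ) + 1 ≤ Kc := by
    rw [hKc]
    push_cast
    linarith
  have hloss : (2 * (Kc : ℝ) + 1) ^ m ≤ Real.exp (2 * δ₀ * J) := by
    have h1 : 2 * (Kc : ℝ) + 1 ≤ 2 ^ (μ + 6) := by
      rw [hKc, pow_add]
      push_cast
      have : (1 : ℝ) ≤ 2 ^ μ := one_le_pow₀ one_le_two
      norm_num
      linarith
    calc (2 * (Kc : ℝ) + 1) ^ m ≤ (2 ^ (μ + 6)) ^ m :=
          pow_le_pow_left₀ (by positivity) h1 m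
      _ = 2 ^ ((μ + 6) * m) := by rw [← pow_mul]
      _ ≤ Real.exp (((μ + 6) * m : ℕ)) := pow_exp _
      _ ≤ Real.exp (2 * δ₀ * J) := by
          refine Real.exp_le_exp.2 ?_
          push_cast
          have h2 : (μ : ℝ) * m ≤ δ₀ / 2 * J + m := by
            calc (μ : ℝ) * m ≤ (x * J + 1) * m :=
                  mul_le_mul_of_nonneg_right hμr (Nat.cast_nonneg m)
              _ = m * x * J + m := by ring
              _ ≤ δ₀ / 2 * J + m := add_le_add_left (mul_le_mul_of_nonneg_right hxm hJr) _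
          have h3 : 0 ≤ δ₀ * J := by positivity
          linarith
  obtain ⟨B', hB', hPB', hpt⟩ := ptz_inv F hsumN (shC cb p {q} hu M)
    (fun ω => z' (slam F W ω)) (id : Fin m → Fin m) (R := 2 * 2 ^ μ) hKc1 B₀
    (fun ω _ => by
      rw [hμ]
      exact shC_inv _)
  have hPBB' : Pe F.p B ≤ Real.exp (3 * δ₀ * J) * Pe F.p B' := by
    have h0 : 0 ≤ Pe F.p B' := Pe_nonneg F.isLaw _
    have h1 : Pe F.p B₀ ≤ Real.exp (2 * δ₀ * J) * Pe F.p B' :=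
      hPB'.trans (mul_le_mul_of_nonneg_right hloss h0)
    calc Pe F.p B ≤ K₁ * Pe F.p B₀ := hPB₀
      _ ≤ Real.exp (δ₀ * J) * (Real.exp (2 * δ₀ * J) * Pe F.p B') :=
          mul_le_mul hK₁e h1 (Pe_nonneg F.isLaw _) (Real.exp_pos _).le
      _ = Real.exp (3 * δ₀ * J) * Pe F.p B' := by
          rw [← mul_assoc, ← Real.exp_add]
          congr 2
          ring
  have hB'0 : 0 < Pe F.p B' := by
    by_contra hcon
    have h1 : Pe F.p B' = 0 := le_antisymm (not_lt.1 hcon) (Pe_nonneg F.isLaw _)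
    rw [h1, mul_zero] at hPBB'
    linarith
  have hsubB : Sub B' B := fun ω h => hB₀B ω (hB' ω h)
  have hSB' : S.St (δ + δ + 3 * δ₀) J F B' := by
    refine S.res (by linarith) hSB hsubB ?_
    have h3 := mul_le_mul_of_nonneg_left hPBB' (Real.exp_pos (-(3 * δ₀ * J))).le
    rw [← mul_assoc, ← Real.exp_add, neg_add_cancel, Real.exp_zero, one_mul] at h3
    exact h3
  have hTm : ∀ hl : IsLaw (Pool.Agent.H49.Ent.cond F.p B' True),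
      (F.res B' True hl).Tm (C₀ * (5 * δ₀) * J) :=
    (htm _ J F B' (by linarith) (S.mono (by linarith) hSB')).2
  -- the windows
  obtain ⟨V, hVd⟩ : ∃ V, V = ⌊wz * (J' : ℝ)⌋₊ := ⟨_, rfl⟩
  have hV1 : wz * (J' : ℝ) < V + 1 := by rw [hVd]; exact Nat.lt_floor_add_one _
  have hVJ : V ≤ J' := by
    rw [hVd]
    refine Nat.floor_le_of_le ?_
    have := mul_le_mul_of_nonneg_right hwz1 hJ'0
    linarith
  have hwzJ : wz * (1 - b) * J ≤ wz * (J' : ℝ) := by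
    have := mul_le_mul_of_nonneg_left hJ'1 hwz0
    linarith
  have hCf0 : (0 : ℝ) ≤ Cf := Nat.cast_nonneg _
  have hwinW : ⌊w * (J : ℝ)⌋₊ ≤ W + V := by
    refine Nat.floor_le_of_le ?_
    push_cast
    have h1 := mul_le_mul_of_nonneg_right hη2 hJr
    have e2 : (w + η) * (J : ℝ) = w * J + η * J := by ring
    have e3 : (b + wz * (1 - b)) * (J : ℝ) = b * J + wz * (1 - b) * J := by ring
    rw [e2, e3] at h1
    linarith
  obtain ⟨ef, hef⟩ : ∃ ef : ℕ, ef = ⌊E * (J : ℝ)⌋₊ := ⟨_, rfl⟩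
  have hefr : (ef : ℝ) ≤ E * J := by rw [hef]; exact Nat.floor_le (mul_nonneg hE0 hJr)
  obtain ⟨rf, hrf⟩ : ∃ rf : ℕ, rf = ⌊ρ * (J : ℝ)⌋₊ := ⟨_, rfl⟩
  have hrfr : (rf : ℝ) ≤ ρ * J := by rw [hrf]; exact Nat.floor_le (mul_nonneg hρ0 hJr)
  have hL0 := ((hLf.sub hB').mono (Finset.Subset.refl I) le_rfl (le_refl _) hwinW (by omega)
    (le_refl _) (le_refl ⌊P * (J : ℝ)⌋₊))
  rw [← hef, ← hrf] at hL0
  subst hW
  have hρz : ⌊ρz * (J' : ℝ)⌋₊ + 1 > ρz * (J' : ℝ) := Nat.lt_floor_add_one _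
  have hρzJ : ρz * (1 - b) * J ≤ ρz * (J' : ℝ) := by
    have := mul_le_mul_of_nonneg_left hJ'1 hρz0
    linarith
  have hPzr : (⌊Pz * (J' : ℝ)⌋₊ : ℝ) ≤ Pz * J' := Nat.floor_le (mul_nonneg hPz0 hJ'0)
  have hPz2 : Pz * (J' : ℝ) ≤ Pz * ((1 - b) * J) + 1 := by
    have h5 := mul_le_mul_of_nonneg_left hJ'2 hPz0
    have h6 : Pz * ((1 - b) * J + 1) = Pz * ((1 - b) * J) + Pz := by ring
    linarith
  have c1 : rf + 3 ≤ ⌊b * (J : ℝ)⌋₊ + ⌊ρz * (J' : ℝ)⌋₊ := by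
    have h1 := mul_le_mul_of_nonneg_right hη3 hJr
    have e2 : (ρ + η) * (J : ℝ) = ρ * J + η * J := by ring
    have e3 : (b + ρz * (1 - b)) * (J : ℝ) = b * J + ρz * (1 - b) * J := by ring
    rw [e2, e3] at h1
    have h2 : ((rf + 3 : ℕ) : ℝ) ≤ ((⌊b * (J : ℝ)⌋₊ + ⌊ρz * (J' : ℝ)⌋₊ : ℕ) : ℝ) := by
      push_cast
      linarith
    exact_mod_cast h2
  have c2 : rf + 3 ≤ J := by
    have h1 := mul_le_mul_of_nonneg_right hη4 hJr
    have e2 : (ρ + η) * (J : ℝ) = ρ * J + η * J := by ring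
    rw [e2, one_mul] at h1
    have h2 : ((rf + 3 : ℕ) : ℝ) ≤ (J : ℝ) := by
      push_cast
      linarith
    exact_mod_cast h2
  have c3 : ⌊Pz * (J' : ℝ)⌋₊ + ⌊b * (J : ℝ)⌋₊ + Cf ≤ ⌊P * (J : ℝ)⌋₊ := by
    refine Nat.le_floor ?_
    push_cast
    have h1 := mul_le_mul_of_nonneg_right hη5 hJr
    have e2 : (b + Pz * (1 - b) + η) * (J : ℝ) = b * J + Pz * ((1 - b) * J) + η * J := by ring
    rw [e2] at h1
    linarith
  have c4 : ⌊Pz * (J' : ℝ)⌋₊ + ef + Cf ≤ J' := by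
    have h1 := mul_le_mul_of_nonneg_right hη6 hJr
    have e2 : (Pz * (1 - b) + E + η) * (J : ℝ) = Pz * ((1 - b) * J) + E * J + η * J := by ring
    rw [e2] at h1
    have h2 : ((⌊Pz * (J' : ℝ)⌋₊ + ef + Cf : ℕ) : ℝ) ≤ (J' : ℝ) := by
      push_cast
      linarith
    exact_mod_cast h2
  have c5 : ef + Cf ≤ ⌊Ez * (J' : ℝ)⌋₊ := by
    refine Nat.le_floor ?_
    push_cast
    have h1 := mul_le_mul_of_nonneg_right hη1 hJr
    have e2 : (E + η) * (J : ℝ) = E * J + η * J := by ring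
    rw [e2] at h1
    have h3 : 0 ≤ Ez := by
      by_contra hcon
      have : Ez * (1 - b) < 0 := mul_neg_of_neg_of_pos (not_le.1 hcon) h01
      linarith
    have h4 := mul_le_mul_of_nonneg_left hJ'1 h3
    have e3 : Ez * ((1 - b) * (J : ℝ)) = Ez * (1 - b) * J := by ring
    rw [e3] at h4
    linarith
  obtain ⟨B₁, hB₁, hPB₁, hfin⟩ := hfwd F hsumN hVJ (cb := cb) (p := p) (q := q) (hp := hu)
    (M := M) z' hqI k hL0 c1 c2 c3 c4 hB'0 hpt hTm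
  have hsubB₁ : Sub B₁ B := fun ω h => hsubB ω (hB₁ ω h)
  have hPB₁' : Real.exp (-(τ * J')) * Pe F.p B ≤ Pe F.p B₁ := by
    have h1 : Real.exp (-(3 * δ₀ * J)) * Pe F.p B ≤ Pe F.p B' := by
      have h3 := mul_le_mul_of_nonneg_left hPBB' (Real.exp_pos (-(3 * δ₀ * J))).le
      rw [← mul_assoc, ← Real.exp_add, neg_add_cancel, Real.exp_zero, one_mul] at h3
      exact h3
    have h2 : Real.exp (-(C₀ * (5 * δ₀) * J)) * (Real.exp (-(3 * δ₀ * J)) * Pe F.p B) ≤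
        Pe F.p B₁ := (mul_le_mul_of_nonneg_left h1 (Real.exp_pos _).le).trans hPB₁
    refine le_trans ?_ h2
    rw [← mul_assoc, ← Real.exp_add]
    refine mul_le_mul_of_nonneg_right (Real.exp_le_exp.2 ?_) hB0.le
    have h4 : (5 * C₀ + 4) * δ₀ * J ≤ τ * J' := by
      calc (5 * C₀ + 4) * δ₀ * J = τ * (1 - b) * J := by rw [hδ1]
        _ = τ * ((1 - b) * J) := by ring
        _ ≤ τ * J' := mul_le_mul_of_nonneg_left hJ'1 hτ.le
    have e1 : -(C₀ * (5 * δ₀) * (J : ℝ)) + -(3 * δ₀ * J) = -((5 * C₀ + 4) * δ₀ * J) + δ₀ * J := by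
      ring
    have h5 : 0 ≤ δ₀ * J := mul_nonneg hδ₀0.le hJr
    rw [e1]
    linarith
  refine ⟨B₁, hsubB₁, ?_, ?_⟩
  · have hsupp : ∀ D : F.Ω → Prop, Sub D B → Pe F.p (fun ω => A ω ∧ D ω) = Pe F.p D := by
      intro D hD
      congr 1
      funext ω
      exact propext ⟨fun h => h.2, fun h => ⟨hBA ω (hD ω h), h⟩⟩
    change Real.exp (-(τ * J')) * Pe (Pool.Agent.H49.Ent.cond F.p A True) B ≤
      Pe (Pool.Agent.H49.Ent.cond F.p A True) B₁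
    rw [Pe_cond, Pe_cond, hsupp B (fun _ h => h), hsupp B₁ hsubB₁, mul_div_assoc']
    exact div_le_div_of_nonneg_right hPB₁' hA0
  · obtain ⟨V₃, y₃, y₃', G₃, h₃⟩ := hfin.mono (Finset.Subset.refl I) le_rfl c5 hVd.le
      (by rw [← hVd]; exact hVJ) (le_refl _) (le_refl _)
    exact ⟨V₃, y₃, y₃', G₃, h₃.deg, h₃.dep, fun ω hω => h₃.cls ω hω, fun ω hω => h₃.pos ω hω,
      fun ω hω => h₃.lip ω hω⟩

end Pool.SHE33
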