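import Pool.Agent.H33.SHE.Ent
import Pool.Agent.H53.JM.Nf
import Pool.Agent.H80.ZC.Zfg

/-!
# The rate of the sheared zooms

`upr_dig`: many digits of a coordinate given its first digits and all the digits of the other
coordinates, a property for the classes of the zooms. `dig_fam`: the number of these digits in the
family, from the rate. `dig_zpr`: the number of these digits in the sheared zooms. `rate_zoom`: the
rate of the class of the zooms has at most the rescaled increments of the rate of the class.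
-/

set_option autoImplicit false

namespace Pool.SHE33

open Finset Real MvPolynomial
open Pool.Agent.H49.Ent Pool.Agent.H32.Dense Pool.STK Pool.KA Pool.KSAT Pool.K2S Pool.PB Pool.S6C
open Pool.GEN Pool.ZCL Pool.TOP Pool.ZLC Pool.ZCO
open Pool.ALL (RateOf)
open Pool.GEN.N83 (oth)

variable {m n : ℕ}

/-- Many digits. -/
theorem upr_dig (k : Fin n) (x y : ℕ → ℕ) (b : ℕ → ℝ) :
    UPr (fun J (F : Fam n J) A => b J ≤ CH (Pool.Agent.H49.Ent.cond F.p A True)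
      (fun ω => F.X (y J) ω k) (fun ω => (cdg F k (x J) ω, F.W ω))) :=
  GPr.upr fun J => gpr_ge (Y := fun (F : Fam n J) ω => F.X (y J) ω k)
    (V := fun F ω => cdg F k (x J) ω) (b J) (fun _ _ _ _ _ => rfl) (fun _ _ _ _ _ => rfl)

/-- The digits of the coordinate `k` after the first digits. -/
theorem dig_eq {J : ℕ} {F : Fam m J} {k : Fin m} {q : F.Ω → ℝ} (hq : IsLaw q) {x y : ℕ}
    (h : x ≤ y) :
    CH q (fun ω => F.X y ω k) (fun ω => (cdg F k x ω, F.W ω)) =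
      CH q (fun ω => F.X y ω k) (fun ω => oth k J F (ptr F J ω)) -
        CH q (fun ω => F.X x ω k) (fun ω => oth k J F (ptr F J ω)) := by
  have h0 := hq.nonneg
  have h1 := CH_chain h0 (fun ω => F.X y ω k) (fun ω => F.X x ω k)
    (fun ω => oth k J F (ptr F J ω))
  have h2 : CH q (fun ω => (F.X y ω k, F.X x ω k)) (fun ω => oth k J F (ptr F J ω)) =
      CH q (fun ω => F.X y ω k) (fun ω => oth k J F (ptr F J ω)) := by
    refine CH_congr h0 (fun ω ω' _ _ e => ?_) (fun ω ω' _ _ e => ?_) (fun _ _ _ _ e => e)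
      (fun _ _ _ _ e => e)
    · exact (Prod.ext_iff.1 (Prod.ext_iff.1 e).1).1
    · have e1 : F.X y ω k = F.X y ω' k := (Prod.ext_iff.1 e).1
      refine Prod.ext e1 ?_
      show F.X x ω k = F.X x ω' k
      rw [Pool.JPN.X_coarse F h k ω, Pool.JPN.X_coarse F h k ω', e1]
  have h3 : CH q (fun ω => F.X y ω k) (fun ω => (F.X x ω k, oth k J F (ptr F J ω))) =
      CH q (fun ω => F.X y ω k) (fun ω => (cdg F k x ω, F.W ω)) := by
    refine CH_congr h0 (fun ω ω' _ _ e => (Prod.ext_iff.1 e).1) (fun ω ω' _ _ e =>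
      (Prod.ext_iff.1 e).1) (fun ω ω' _ _ e => ?_) (fun ω ω' _ _ e => ?_)
    · have e1 := Prod.ext_iff.1 e
      have e2 : oth k J F (ptr F J ω) = oth k J F (ptr F J ω') := e1.2
      have e3 := Prod.ext_iff.1 e2
      exact Prod.ext (Prod.ext e1.1 e3.1) e3.2
    · have e1 := Prod.ext_iff.1 e
      have e2 := Prod.ext_iff.1 e1.1
      exact Prod.ext e2.1 (Prod.ext e2.2 e1.2)
  rw [← h3]
  linarith

/-- **The digits in the family**. -/
theorem dig_fam {S : PCl m} {k : Fin m} {r : ℝ → ℝ} (hr : RateOf S k r)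
    (hpos : Bas S (fun _ F A => 0 < Pe F.p A)) {h : ℝ} (hh : 0 < h) :
    Bas S (fun J F A => 0 < Pe F.p A ∧ ∀ x y : ℕ, x ≤ y → y ≤ J →
      CH (Pool.Agent.H49.Ent.cond F.p A True) (fun ω => F.X y ω k)
        (fun ω => (cdg F k x ω, F.W ω)) ≤
      (r ((y : ℝ) / J) - r ((x : ℝ) / J)) * Real.log 2 * J + h * J) := by
  refine ((Pool.JPN.rate_unif hr hpos (half_pos hh)).and hpos).mono 0 fun J _ F A h1 => ?_
  obtain ⟨h1, hA0⟩ := h1
  refine ⟨hA0, fun x y hxy hy => ?_⟩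
  rw [dig_eq (isLaw_cond F.isLaw hA0) hxy]
  have h2 := (abs_le.1 (h1 y hy)).2
  have h3 := (abs_le.1 (h1 x (hxy.trans hy))).1
  have e1 : (r ((y : ℝ) / J) - r ((x : ℝ) / J)) * Real.log 2 * J =
      r ((y : ℝ) / J) * Real.log 2 * J - r ((x : ℝ) / J) * Real.log 2 * J := by ring
  rw [e1]
  linarith

/-- **The digits in the sheared zooms**. -/
theorem dig_zpr {S : PCl m} {C₀ : ℝ} (htm : TmC S C₀) {k : Fin m} {r : ℝ → ℝ}
    (hr : RateOf S k r) {b : ℝ} (hb0 : 0 ≤ b) (hb1 : b < 1) {u t : Fin m}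
    (hu : u ∉ ({t} : Finset (Fin m))) (hkt : k ≠ t) (hku : k ≠ u) {x y : ℝ} (hx : 0 ≤ x)
    (hxy : x ≤ y) (hy : y ≤ 1) {h : ℝ} (hh : 0 < h) :
    ∃ s₀ : ℝ, 0 < s₀ ∧ ∀ s : ℝ, s ≤ s₀ →
      ∀ Ψ : ∀ (J : ℕ) (F : Fam m J) (_ : F.Ω → Prop), (F.Ω → ℝ) → Prop,
      ZPr S b id (ShX b hu s Ψ) (fun J G A =>
        CH (Pool.Agent.H49.Ent.cond G.p A True) (fun ω => G.X ⌊y * J⌋₊ ω k)
          (fun ω => (cdg G k ⌊x * J⌋₊ ω, G.W ω)) ≤
        ((r (b + y * (1 - b)) - r (b + x * (1 - b))) / (1 - b) + h) * Real.log 2 * J) := by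
  classical
  have hl2 : 0 < Real.log 2 := Real.log_pos one_lt_two
  have h1b : 0 < 1 - b := by linarith
  have hm0 : (0 : ℝ) < m + 2 := by positivity
  obtain ⟨u₀, hu₀⟩ : ∃ u₀ : ℝ, u₀ = h * (1 - b) / 4 := ⟨_, rfl⟩
  have hu0 : 0 < u₀ := by rw [hu₀]; positivity
  refine ⟨u₀ / (m + 2), by positivity, fun s hs Ψ => ?_⟩
  have hs' : (m + 2) * s ≤ u₀ := by
    rw [le_div_iff₀ hm0] at hs
    linarith
  have hpos : Bas S (fun _ F A => 0 < Pe F.p A) :=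
    ⟨1, one_pos, 0, fun J _ F A hA => (htm 1 J F A one_pos hA).1⟩
  obtain ⟨τ, hτ, J₀, hall⟩ := dig_fam hr hpos (h := u₀ * Real.log 2) (by positivity)
  obtain ⟨J₁, hJ₁⟩ := Pool.GEN.lin ((m + 2) * 8 + 3) hu0
  refine ⟨τ / 6, by positivity, τ / 2, by positivity, max J₀ (max J₁ 1), ?_⟩
  intro J hJ F A hS κ C' z z' hcl hDt hlw J' hJJ B hBA hPB
  simp only [ge_iff_le, max_le_iff] at hJ
  obtain ⟨hJ0, hJ1, hJ2⟩ := hJ
  replace hJ1 := hJ₁ J hJ1
  obtain ⟨cb, M, hC, hMt, -, -⟩ := hDt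
  have hJr : (0 : ℝ) ≤ J := Nat.cast_nonneg J
  have hJpos : (0 : ℝ) < J := by
    have : (1 : ℝ) ≤ J := by exact_mod_cast hJ2
    linarith
  obtain ⟨W, hW⟩ : ∃ W, W = ⌊b * (J : ℝ)⌋₊ := ⟨_, rfl⟩
  have hWr : (W : ℝ) ≤ b * J := by rw [hW]; exact Nat.floor_le (by positivity)
  have hWr' : b * (J : ℝ) < W + 1 := by rw [hW]; exact Nat.lt_floor_add_one _
  have hsumN : W + J' = J := by rw [hW]; exact hJJ
  have hsum : (W : ℝ) + J' = J := by exact_mod_cast hsumN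
  have hJ'0 : (0 : ℝ) ≤ J' := Nat.cast_nonneg J'
  have e0 : (1 - b) * (J : ℝ) = J - b * J := by ring
  have hJ'1 : (1 - b) * J ≤ (J' : ℝ) := by linarith
  have hJ'2 : (J' : ℝ) ≤ (1 - b) * J + 1 := by linarith
  have hJ'J : (J' : ℝ) ≤ J := by
    have := Nat.cast_nonneg (α := ℝ) W
    linarith
  -- the event
  have hA0 : 0 ≤ Pe F.p A := Pe_nonneg F.isLaw A
  have hSB : S.St (τ / 2 + τ / 2) J F B := by
    refine S.res (by positivity) hS hBA (le_trans ?_ hPB)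
    refine mul_le_mul_of_nonneg_right (Real.exp_le_exp.2 ?_) hA0
    have e1 : 3 * (τ / 6) * (J' : ℝ) = τ / 2 * J' := by ring
    rw [e1]
    have := mul_le_mul_of_nonneg_left hJ'J (show 0 ≤ τ / 2 by linarith)
    linarith
  rw [add_halves] at hSB
  obtain ⟨hB0, -⟩ := htm _ J F B (by linarith) hSB
  have hA0' : 0 < Pe F.p A := hB0.trans_le (Pe_mono F.isLaw hBA)
  obtain ⟨-, hE⟩ := hall J hJ0 F B hSB
  obtain ⟨q, hq⟩ : ∃ q, q = Pool.Agent.H49.Ent.cond F.p B True := ⟨_, rfl⟩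
  have hql : IsLaw q := by rw [hq]; exact isLaw_cond F.isLaw hB0
  have ecnd : Pool.Agent.H49.Ent.cond (Pool.Agent.H49.Ent.cond F.p A True) B True = q := by
    rw [hq, Pool.ZCL.cond_and F.p hA0'.ne']
    congr 1
    funext ω
    exact propext ⟨fun h => h.2, fun h => ⟨hBA ω h, h⟩⟩
  rw [← hq] at hE
  subst hC
  have hfx : ⌊x * (J' : ℝ)⌋₊ ≤ ⌊y * (J' : ℝ)⌋₊ :=
    Nat.floor_le_floor (mul_le_mul_of_nonneg_right hxy hJ'0)
  have hfy : ⌊y * (J' : ℝ)⌋₊ ≤ J' := by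
    have h1 : ⌊y * (J' : ℝ)⌋₊ ≤ ⌊(J' : ℝ)⌋₊ :=
      Nat.floor_le_floor (mul_le_of_le_one_left hJ'0 hy)
    rwa [Nat.floor_natCast] at h1
  have hz := zoom_dig (F := F.res A True hlw) hsumN cb hu hkt hku M
    (fun ω => z' (slam F ⌊b * (J : ℝ)⌋₊ ω)) (q := q) hql (hfx.trans hfy) hfy
  have hz' : CH q (fun ω => (zfc (F.res A True hlw) ⌊b * (J : ℝ)⌋₊ J' hJJ.le
        (shC cb u {t} hu M) (fun ω => z' (slam F ⌊b * (J : ℝ)⌋₊ ω)) id).X ⌊y * (J' : ℝ)⌋₊ ω k)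
      (fun ω => (cdg (zfc (F.res A True hlw) ⌊b * (J : ℝ)⌋₊ J' hJJ.le
        (shC cb u {t} hu M) (fun ω => z' (slam F ⌊b * (J : ℝ)⌋₊ ω)) id) k ⌊x * (J' : ℝ)⌋₊ ω,
        (zfc (F.res A True hlw) ⌊b * (J : ℝ)⌋₊ J' hJJ.le
        (shC cb u {t} hu M) (fun ω => z' (slam F ⌊b * (J : ℝ)⌋₊ ω)) id).W ω)) ≤
      CH q (fun ω => F.X (W + ⌊y * (J' : ℝ)⌋₊) ω k)
        (fun ω => (cdg F k (W + ⌊x * (J' : ℝ)⌋₊) ω, F.W ω)) +
      (m + 2) * ((M t + 7) * Real.log 2) := by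
    subst hW
    exact hz
  have hf := hE (W + ⌊x * (J' : ℝ)⌋₊) (W + ⌊y * (J' : ℝ)⌋₊) (by omega) (by omega)
  -- the numbers
  have n1 : ((W + ⌊y * (J' : ℝ)⌋₊ : ℕ) : ℝ) / J ≤ b + y * (1 - b) + 1 / J := by
    have h1 : (⌊y * (J' : ℝ)⌋₊ : ℝ) ≤ y * J' := Nat.floor_le (mul_nonneg (hx.trans hxy) hJ'0)
    have h2 : y * (J' : ℝ) ≤ y * ((1 - b) * J + 1) := mul_le_mul_of_nonneg_left hJ'2
      (hx.trans hxy)
    rw [div_le_iff₀ hJpos]
    push_cast
    have e1 : (b + y * (1 - b) + 1 / (J : ℝ)) * J = b * J + y * (1 - b) * J + 1 := by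
      field_simp
    rw [e1]
    have e2 : y * ((1 - b) * (J : ℝ) + 1) = y * (1 - b) * J + y := by ring
    linarith
  have n2 : b + x * (1 - b) - 2 / J ≤ ((W + ⌊x * (J' : ℝ)⌋₊ : ℕ) : ℝ) / J := by
    have h1 := Nat.lt_floor_add_one (x * (J' : ℝ))
    have h2 : x * ((1 - b) * (J : ℝ)) ≤ x * J' := mul_le_mul_of_nonneg_left hJ'1 hx
    rw [le_div_iff₀ hJpos]
    push_cast
    have e1 : (b + x * (1 - b) - 2 / (J : ℝ)) * J = b * J + x * ((1 - b) * J) - 2 := by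
      field_simp
    rw [e1]
    linarith
  have n3 : r (((W + ⌊y * (J' : ℝ)⌋₊ : ℕ) : ℝ) / J) ≤ r (b + y * (1 - b)) + 1 / J := by
    have h1 := hr.mono n1
    have h2 := hr.lip.dist_le_mul (b + y * (1 - b) + 1 / J) (b + y * (1 - b))
    rw [Real.dist_eq, Real.dist_eq] at h2
    have h3 : (0 : ℝ) ≤ 1 / J := by positivity
    rw [add_sub_cancel_left, abs_of_nonneg h3] at h2
    have h4 := (abs_le.1 h2).2
    simp only [NNReal.coe_one, one_mul] at h4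
    linarith
  have n4 : r (b + x * (1 - b)) - 2 / J ≤ r (((W + ⌊x * (J' : ℝ)⌋₊ : ℕ) : ℝ) / J) := by
    have h1 := hr.mono n2
    have h2 := hr.lip.dist_le_mul (b + x * (1 - b) - 2 / J) (b + x * (1 - b))
    rw [Real.dist_eq, Real.dist_eq] at h2
    have h3 : (0 : ℝ) ≤ 2 / J := by positivity
    have e1 : b + x * (1 - b) - 2 / (J : ℝ) - (b + x * (1 - b)) = -(2 / J) := by ring
    rw [e1, abs_neg, abs_of_nonneg h3] at h2
    have h4 := (abs_le.1 h2).1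
    simp only [NNReal.coe_one, one_mul] at h4
    linarith
  obtain ⟨D, hD⟩ : ∃ D : ℝ, D = r (b + y * (1 - b)) - r (b + x * (1 - b)) := ⟨_, rfl⟩
  have hD0 : 0 ≤ D := by
    have h1 : x * (1 - b) ≤ y * (1 - b) := mul_le_mul_of_nonneg_right hxy h1b.le
    have h2 := hr.mono (show b + x * (1 - b) ≤ b + y * (1 - b) by linarith)
    rw [hD]
    linarith
  have n5 : (r (((W + ⌊y * (J' : ℝ)⌋₊ : ℕ) : ℝ) / J) -
      r (((W + ⌊x * (J' : ℝ)⌋₊ : ℕ) : ℝ) / J)) * Real.log 2 * J ≤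
      (D * J + 3) * Real.log 2 := by
    have h1 : r (((W + ⌊y * (J' : ℝ)⌋₊ : ℕ) : ℝ) / J) -
        r (((W + ⌊x * (J' : ℝ)⌋₊ : ℕ) : ℝ) / J) ≤ D + 3 / J := by
      have e1 : (3 : ℝ) / J = 1 / J + 2 / J := by ring
      rw [hD, e1]
      linarith
    calc (r (((W + ⌊y * (J' : ℝ)⌋₊ : ℕ) : ℝ) / J) -
          r (((W + ⌊x * (J' : ℝ)⌋₊ : ℕ) : ℝ) / J)) * Real.log 2 * J ≤
          (D + 3 / J) * Real.log 2 * J := by
          exact mul_le_mul_of_nonneg_right (mul_le_mul_of_nonneg_right h1 hl2.le) hJr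
      _ = (D * J + 3) * Real.log 2 := by
          field_simp
  have n6 : ((m : ℝ) + 2) * ((M t + 7) * Real.log 2) ≤ (u₀ * J + (m + 2) * 8) * Real.log 2 := by
    have h1 : ((m : ℝ) + 2) * (M t + 7) ≤ (m + 2) * (s * J + 1 + 7) :=
      mul_le_mul_of_nonneg_left (by linarith) hm0.le
    have h2 : (m + 2) * s * (J : ℝ) ≤ u₀ * J := mul_le_mul_of_nonneg_right hs' hJr
    rw [← mul_assoc]
    refine mul_le_mul_of_nonneg_right ?_ hl2.le
    have e1 : ((m : ℝ) + 2) * (s * J + 1 + 7) = (m + 2) * s * J + (m + 2) * 8 := by ring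
    linarith
  have n7 : D * J ≤ D / (1 - b) * J' := by
    have h1 : D / (1 - b) * ((1 - b) * J) ≤ D / (1 - b) * J' :=
      mul_le_mul_of_nonneg_left hJ'1 (by positivity)
    have e1 : D / (1 - b) * ((1 - b) * (J : ℝ)) = D * J := by
      field_simp
    linarith
  have n8 : 4 * u₀ * (J : ℝ) ≤ h * J' := by
    have e1 : 4 * u₀ * (J : ℝ) = h * ((1 - b) * J) := by rw [hu₀]; ring
    rw [e1]
    exact mul_le_mul_of_nonneg_left hJ'1 hh.le
  have n9 : (D * J + 3 + (u₀ * J + (m + 2) * 8) + u₀ * J) * Real.log 2 ≤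
      (D / (1 - b) * J' + h * J') * Real.log 2 := by
    refine mul_le_mul_of_nonneg_right ?_ hl2.le
    have : 0 ≤ u₀ * (J : ℝ) := by positivity
    linarith
  show CH (Pool.Agent.H49.Ent.cond (Pool.Agent.H49.Ent.cond F.p A True) B True) _ _ ≤ _
  rw [ecnd]
  have e3 : ((r (b + y * (1 - b)) - r (b + x * (1 - b))) / (1 - b) + h) * Real.log 2 * J' =
      (D / (1 - b) * J' + h * J') * Real.log 2 := by
    rw [hD]
    ring
  rw [e3]
  refine le_trans hz' ?_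
  have e4 : (D * J + 3 + (u₀ * J + (m + 2) * 8) + u₀ * J) * Real.log 2 =
      (D * J + 3) * Real.log 2 + u₀ * Real.log 2 * J +
        (u₀ * J + (m + 2) * 8) * Real.log 2 := by ring
  linarith

/-- **The rate of the zooms**: the increments are at most the rescaled increments, if the class of
the zooms does not have more digits. -/
theorem rate_zoom {S' : PCl m} {k : Fin m} {r' : ℝ → ℝ} (hr : RateOf S' k r')
    (hne : S'.Ne) (hpos : Bas S' (fun _ F A => 0 < Pe F.p A)) {x y D : ℝ} (hx : 0 ≤ x)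
    (hxy : x ≤ y) (hy : y ≤ 1)
    (h : ∀ h : ℝ, 0 < h → Bas S' (fun J F A => ¬ (D + h) * Real.log 2 * J ≤
      CH (Pool.Agent.H49.Ent.cond F.p A True) (fun ω => F.X ⌊y * J⌋₊ ω k)
        (fun ω => (cdg F k ⌊x * J⌋₊ ω, F.W ω)))) : r' y - r' x ≤ D := by
  have hl2 : 0 < Real.log 2 := Real.log_pos one_lt_two
  by_contra hcon
  push Not at hcon
  obtain ⟨e, he⟩ : ∃ e : ℝ, e = (r' y - r' x - D) / 4 := ⟨_, rfl⟩
  have he0 : 0 < e := by rw [he]; linarith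
  have h1 := hr.num y (hx.trans hxy) hy (e * Real.log 2) (by positivity)
  have h2 := hr.num x hx (hxy.trans hy) (e * Real.log 2) (by positivity)
  obtain ⟨τ, hτ, J₀, hall⟩ := ((h1.and h2).and (h e he0)).and hpos
  obtain ⟨J, hJ, F, A, hA⟩ := hne τ hτ (max J₀ 1)
  obtain ⟨⟨⟨a1, a2⟩, a3⟩, a4⟩ := hall J ((le_max_left _ _).trans hJ) F A hA
  have hJr : (0 : ℝ) ≤ J := Nat.cast_nonneg J
  have hf : ⌊x * (J : ℝ)⌋₊ ≤ ⌊y * (J : ℝ)⌋₊ :=
    Nat.floor_le_floor (mul_le_mul_of_nonneg_right hxy hJr)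
  rw [dig_eq (isLaw_cond F.isLaw a4) hf, not_le] at a3
  have b1 := (abs_le.1 a1).1
  have b2 := (abs_le.1 a2).2
  have hJ1 : (1 : ℝ) ≤ J := by exact_mod_cast (le_max_right _ _).trans hJ
  have e1 : (D + e) * Real.log 2 * J = (D + e) * (Real.log 2 * J) := by ring
  have e2 : r' y * Real.log 2 * (J : ℝ) - r' x * Real.log 2 * J - 2 * (e * Real.log 2 * J) =
      (r' y - r' x - 2 * e) * (Real.log 2 * J) := by ring
  have hp : 0 < Real.log 2 * (J : ℝ) := by positivity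
  have e3 : (D + e) * (Real.log 2 * (J : ℝ)) < (r' y - r' x - 2 * e) * (Real.log 2 * J) :=
    mul_lt_mul_of_pos_right (by rw [he]; linarith) hp
  linarith

end Pool.SHE33
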