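import Pool.Agent.H82.ZC.Lin

/-!
# A representative line

`pop_rep`: `f` is a line with the first digits of the time, `s` a rounded line with the same digits
of the time, `t` the time. The time is almost uniform given `f`. If a relation `R` holds for the own
values `s`, `t`, `f`, then there is one value `v s` of `f` for each value of `s` such that the
relation holds for `s`, `t`, `v s` on an event of large probability.
-/

set_option autoImplicit false

namespace Pool.SHE33

open Finset Real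
open Pool.Agent.H49.Ent Pool.Agent.H32.Dense Pool.STK Pool.KA Pool.K2S

/-- The mean of a logarithm. -/
theorem exp_le_mean {Ω : Type} [Fintype Ω] {q Y : Ω → ℝ} (hq : IsLaw q)
    (hY : ∀ ω, 0 < q ω → 0 < Y ω) {e : ℝ} (he : Ex q (fun ω => -Real.log (Y ω)) ≤ e) :
    Real.exp (-e) ≤ ∑ ω, q ω * Y ω := by
  have h0 := hq.nonneg
  have hpos : 0 < ∑ ω, q ω * Y ω := by
    have h1 : ∃ ω, 0 < q ω := by
      by_contra hcon
      push Not at hcon
      have h2 : ∑ ω, q ω = 0 := Finset.sum_eq_zero fun ω _ => le_antisymm (hcon ω) (h0 ω)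
      rw [hq.sum_one] at h2
      exact one_ne_zero h2
    obtain ⟨ω₀, h1⟩ := h1
    refine Finset.sum_pos' (fun ω _ => ?_) ⟨ω₀, Finset.mem_univ _, mul_pos h1 (hY _ h1)⟩
    rcases (h0 ω).eq_or_lt with h2 | h2
    · rw [← h2, zero_mul]
    · exact (mul_pos h2 (hY _ h2)).le
  obtain ⟨c, hc⟩ : ∃ c, c = ∑ ω, q ω * Y ω := ⟨_, rfl⟩
  rw [← hc] at hpos ⊢
  have h1 : ∀ ω, q ω * (-Real.log c - (Y ω / c - 1)) ≤ q ω * (-Real.log (Y ω)) := by
    intro ω
    rcases (h0 ω).eq_or_lt with h2 | h2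
    · rw [← h2, zero_mul, zero_mul]
    · have h3 := hY _ h2
      have h4 := Real.log_le_sub_one_of_pos (div_pos h3 hpos)
      rw [Real.log_div h3.ne' hpos.ne'] at h4
      exact mul_le_mul_of_nonneg_left (by linarith) h2.le
  have h2 := Finset.sum_le_sum (s := Finset.univ) fun ω _ => h1 ω
  have h3 : ∑ ω, q ω * (-Real.log c - (Y ω / c - 1)) = -Real.log c := by
    have e1 : ∀ ω, q ω * (-Real.log c - (Y ω / c - 1)) =
        (-Real.log c + 1) * q ω - q ω * Y ω / c := by
      intro ω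
      ring
    simp_rw [e1]
    rw [Finset.sum_sub_distrib, ← Finset.mul_sum, ← Finset.sum_div, hq.sum_one, ← hc,
      div_self hpos.ne']
    ring
  rw [h3] at h2
  unfold Ex at he
  have h4 : -Real.log c ≤ e := h2.trans he
  calc Real.exp (-e) ≤ Real.exp (Real.log c) := Real.exp_le_exp.2 (by linarith)
    _ = c := Real.exp_log hpos

/-- **A representative line.** -/
theorem pop_rep {Ω E S T : Type} [Fintype Ω] {q : Ω → ℝ} (hq : IsLaw q) (f : Ω → E)
    (s : Ω → S) (t : Ω → T) (hs : Det q f s) (R : S → T → E → Prop)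
    (hR : ∀ ω, 0 < q ω → R (s ω) (t ω) (f ω)) {N e : ℝ} (hN : CH q t s ≤ N)
    (he : N - e ≤ CH q t f) :
    ∃ v : S → E, Real.exp (-e) ≤ Pe q (fun ω => R (s ω) (t ω) (v (s ω))) := by
  classical
  have h0 := hq.nonneg
  obtain ⟨ω₁, hω₁⟩ : ∃ ω, 0 < q ω := by
    by_contra hcon
    push Not at hcon
    have h2 : ∑ ω, q ω = 0 := Finset.sum_eq_zero fun ω _ => le_antisymm (hcon ω) (h0 ω)
    rw [hq.sum_one] at h2
    exact one_ne_zero h2
  -- the rounded line of a line
  obtain ⟨σ, hσ⟩ : ∃ σ : E → S, ∀ ω, 0 < q ω → σ (f ω) = s ω := by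
    refine ⟨fun x => if h : ∃ ω, 0 < q ω ∧ f ω = x then s h.choose else s ω₁, fun ω hω => ?_⟩
    have h : ∃ ω', 0 < q ω' ∧ f ω' = f ω := ⟨ω, hω, rfl⟩
    simp only
    rw [dif_pos h]
    exact hs _ _ h.choose_spec.1 hω h.choose_spec.2
  -- the mass of the times which fit a line
  obtain ⟨X, hX⟩ : ∃ X : E → ℝ, X = fun x => Pe q (fun ω => s ω = σ x ∧ R (σ x) (t ω) x) :=
    ⟨_, rfl⟩
  have hX0 : ∀ ω, 0 < q ω → 0 < X (f ω) := by
    intro ω hω
    rw [hX]
    simp only
    rw [Pe_eq]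
    refine Finset.sum_pos' (fun ω' _ => by split_ifs; exacts [h0 ω', le_rfl])
      ⟨ω, Finset.mem_univ _, ?_⟩
    rw [if_pos]
    · exact hω
    · rw [hσ ω hω]
      exact ⟨rfl, hR ω hω⟩
  -- the law of the time and the rounded line
  obtain ⟨ts, hts⟩ : ∃ ts : Ω → T × S, ts = fun ω => (t ω, s ω) := ⟨_, rfl⟩
  have hXs : ∀ (x : E) (D : Finset T), ∑ y ∈ D, (if R (σ x) y x then law q ts (y, σ x) else 0) ≤
      X x := by
    intro x D
    rw [hX]
    simp only
    rw [Pe_eq]
    have e1 : ∀ y ∈ D, (if R (σ x) y x then law q ts (y, σ x) else 0) =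
        ∑ ω, if t ω = y then (if s ω = σ x ∧ R (σ x) (t ω) x then q ω else 0) else 0 := by
      intro y _
      by_cases hy : R (σ x) y x
      · rw [if_pos hy]
        unfold law
        refine Finset.sum_congr rfl fun ω _ => ?_
        rw [hts]
        simp only [Prod.mk.injEq]
        by_cases h1 : t ω = y
        · rw [if_pos h1]
          subst h1
          by_cases h2 : s ω = σ x
          · rw [if_pos ⟨rfl, h2⟩, if_pos ⟨h2, hy⟩]
          · rw [if_neg (fun h => h2 h.2), if_neg (fun h => h2 h.1)]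
        · rw [if_neg h1, if_neg (fun h => h1 h.1)]
      · rw [if_neg hy]
        refine (Finset.sum_eq_zero fun ω _ => ?_).symm
        by_cases h1 : t ω = y
        · subst h1
          rw [if_pos rfl, if_neg (fun h => hy h.2)]
        · rw [if_neg h1]
    rw [Finset.sum_congr rfl e1, Finset.sum_comm]
    refine Finset.sum_le_sum fun ω _ => ?_
    rw [Finset.sum_ite_eq]
    split_ifs
    · exact le_rfl
    · exact le_rfl
    · exact h0 ω
    · exact le_rfl
  have hX00 : ∀ x, 0 ≤ X x := by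
    intro x
    rw [hX]
    exact Pe_nonneg hq _
  -- the kernel
  have hcr := CH_le_cross h0 hq.sum_one t f
    (fun x y => (if R (σ x) y x then law q ts (y, σ x) else 0) / X x) (fun ω hω => by
      rw [hσ ω hω, if_pos (hR ω hω)]
      have h1 : 0 < law q ts (t ω, s ω) := by
        have h2 := law_pos h0 ts hω
        rw [hts] at h2 ⊢
        exact h2
      exact div_pos h1 (hX0 ω hω)) (fun x y => by
      refine div_nonneg ?_ (hX00 x)
      split_ifs
      · exact law_nonneg h0 _ _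
      · exact le_rfl) (fun ω hω D => by
      rw [← Finset.sum_div, div_le_one (hX0 ω hω)]
      exact hXs _ D)
  have hcs := CH_eq_neg_sum h0 t s
  -- the two entropies
  have hkey : Ex q (fun ω => -Real.log (X (f ω) / law q s (s ω))) ≤ e := by
    have e1 : Ex q (fun ω => -Real.log ((if R (σ (f ω)) (t ω) (f ω) then
        law q ts (t ω, σ (f ω)) else 0) / X (f ω))) =
        Ex q (fun ω => -Real.log (law q (fun ω => (t ω, s ω)) (t ω, s ω) / law q s (s ω))) -
          Ex q (fun ω => -Real.log (X (f ω) / law q s (s ω))) := by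
      unfold Ex
      rw [← Finset.sum_sub_distrib]
      refine Finset.sum_congr rfl fun ω _ => ?_
      rcases (h0 ω).eq_or_lt with h2 | h2
      · rw [← h2, zero_mul, zero_mul, zero_mul, sub_zero]
      · have a1 : 0 < law q (fun ω => (t ω, s ω)) (t ω, s ω) :=
          law_pos h0 (fun ω => (t ω, s ω)) h2
        have a2 : 0 < law q s (s ω) := law_pos h0 _ h2
        simp only
        rw [hσ ω h2, if_pos (hR ω h2), hts, Real.log_div a1.ne' (hX0 ω h2).ne',
          Real.log_div a1.ne' a2.ne', Real.log_div (hX0 ω h2).ne' a2.ne']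
        ring
    rw [e1] at hcr
    rw [hcs] at hN
    linarith
  -- the best line
  have hbest : ∀ x : S, ∃ y : E, ∀ ω, 0 < q ω → s ω = x → σ y = x ∧ X (f ω) ≤ X y := by
    intro x
    by_cases hx : ∃ ω, 0 < q ω ∧ s ω = x
    · obtain ⟨ω₀, hω₀, hmax⟩ := Finset.exists_max_image
        (Finset.univ.filter fun ω => 0 < q ω ∧ s ω = x) (fun ω => X (f ω))
        (by
          obtain ⟨ω, h1⟩ := hx
          exact ⟨ω, Finset.mem_filter.2 ⟨Finset.mem_univ _, h1⟩⟩)
      obtain ⟨-, h1, h2⟩ := Finset.mem_filter.1 hω₀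
      refine ⟨f ω₀, fun ω h3 h4 => ⟨?_, hmax ω (Finset.mem_filter.2 ⟨Finset.mem_univ _, h3, h4⟩)⟩⟩
      rw [hσ ω₀ h1, h2]
    · exact ⟨f ω₁, fun ω h1 h2 => absurd ⟨ω, h1, h2⟩ hx⟩
  choose v hv using hbest
  refine ⟨v, ?_⟩
  have hYpos : ∀ ω, 0 < q ω → 0 < X (v (s ω)) / law q s (s ω) := fun ω hω =>
    div_pos ((hX0 ω hω).trans_le (hv (s ω) ω hω rfl).2) (law_pos h0 _ hω)
  have h1 := exp_le_mean hq hYpos (e := e) (by
    refine le_trans ?_ hkey
    unfold Ex
    refine Finset.sum_le_sum fun ω _ => ?_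
    rcases (h0 ω).eq_or_lt with h2 | h2
    · rw [← h2, zero_mul, zero_mul]
    · refine mul_le_mul_of_nonneg_left (neg_le_neg (Real.log_le_log
        (div_pos (hX0 ω h2) (law_pos h0 _ h2)) ?_)) h2.le
      exact div_le_div_of_nonneg_right (hv (s ω) ω h2 rfl).2 (law_pos h0 _ h2).le)
  refine h1.trans (le_of_eq ?_)
  rw [sum_mul_eq_sum_image q s (fun x => X (v x) / law q s x)]
  have e2 : Pe q (fun ω => R (s ω) (t ω) (v (s ω))) =
      ∑ ω, q ω * (if R (s ω) (t ω) (v (s ω)) then 1 else 0) := by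
    rw [Pe_eq]
    refine Finset.sum_congr rfl fun ω _ => ?_
    split_ifs
    · rw [mul_one]
    · rw [mul_zero]
  have e3 : Pe q (fun ω => R (s ω) (t ω) (v (s ω))) =
      ∑ x ∈ univ.image s, Pe q (fun ω => s ω = x ∧ R x (t ω) (v x)) := by
    rw [Pe_eq]
    simp_rw [Pe_eq]
    rw [Finset.sum_comm]
    refine Finset.sum_congr rfl fun ω _ => ?_
    rw [Finset.sum_eq_single_of_mem (s ω) (Finset.mem_image_of_mem _ (Finset.mem_univ _))]
    · by_cases h2 : R (s ω) (t ω) (v (s ω))
      · rw [if_pos h2, if_pos ⟨rfl, h2⟩]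
      · rw [if_neg h2, if_neg fun h => h2 h.2]
    · intro x _ hx
      rw [if_neg fun h => hx h.1.symm]
  rw [e3]
  refine Finset.sum_congr rfl fun x hx => ?_
  by_cases hx0 : ∃ ω, 0 < q ω ∧ s ω = x
  · obtain ⟨ω, h2, rfl⟩ := hx0
    have h3 : law q s (s ω) ≠ 0 := (law_pos h0 _ h2).ne'
    rw [mul_div_cancel₀ _ h3, hX]
    simp only
    rw [(hv (s ω) ω h2 rfl).1]
  · have h3 : law q s x = 0 := by
      unfold law
      refine Finset.sum_eq_zero fun ω _ => ?_
      split_ifs with h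
      · exact le_antisymm (not_lt.mp fun h' => hx0 ⟨ω, h', h⟩) (h0 ω)
      · rfl
    rw [h3, zero_mul, Pe_eq]
    refine (Finset.sum_eq_zero fun ω _ => ?_).symm
    split_ifs with h
    · exact le_antisymm (not_lt.mp fun h' => hx0 ⟨ω, h', h.1⟩) (h0 ω)
    · rfl

end Pool.SHE33
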