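import Pool.Agent.H33.SHE.Cls
import Pool.Agent.H33.SHE.Hof
import Pool.Agent.H33.SHE.Lfw
import Pool.Agent.H33.SHE.Rate

/-!
# The class of the sheared zooms and its closure

`DgN`, `LMn`, `LbN`: many digits, closed labels of a coordinate on a part of the event, closed
labels. `ShCl`: the class `Sb` has the properties of the sheared zooms of the class `S`.
`shcl_ex`: there is such a class with a package, if the requirements can be satisfied.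
-/

set_option autoImplicit false

namespace Pool.SHE33

open Finset Real MvPolynomial
open Pool.Agent.H49.Ent Pool.Agent.H32.Dense Pool.STK Pool.KA Pool.KSAT Pool.K2S Pool.PB Pool.S6C
open Pool.GEN Pool.ZCL Pool.TOP Pool.ZLC Pool.ZCO Pool.ONE Pool.PKG
open Pool.LBT (LSys ThrOf)
open Pool.ALL (RateOf numx)

variable {n : ℕ}

/-- Many digits of the coordinate `k`. -/
def DgN (k : Fin n) (x y D : ℝ) : Stat n := fun J G A => D * Real.log 2 * J + 1 ≤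
  CH (Pool.Agent.H49.Ent.cond G.p A True) (fun ω => G.X ⌊y * J⌋₊ ω k)
    (fun ω => (cdg G k ⌊x * J⌋₊ ω, G.W ω))

/-- **A closed label of the coordinate `k` on a part of the event.** -/
def LMn (I : Finset (Fin n)) (k : Fin n) (K : ℕ) (E w ρ P τ : ℝ) : Stat n := fun J G A =>
  ∃ B : G.Ω → Prop, Sub B A ∧ Real.exp (-(τ * J)) * Pe G.p A ≤ Pe G.p B ∧
    Lf G I (fun ω => G.x ω k) K ⌊E * J⌋₊ ⌊w * J⌋₊ ⌊ρ * J⌋₊ ⌊P * J⌋₊ B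

/-- Closed labels of the coordinate `k`. -/
def LbN (I : Finset (Fin n)) (k : Fin n) (K : ℕ) (E w ρ P : ℝ) : Stat n := fun J G A =>
  Lb G I k K ⌊E * J⌋₊ J ⌊w * J⌋₊ ⌊ρ * J⌋₊ ⌊P * J⌋₊ A

/-- No part with a closed label of the positions. -/
theorem upr_lmn (I : Finset (Fin n)) (k : Fin n) (K : ℕ) (K₁ : ℕ → ℝ) (e w ρ P : ℕ → ℕ) :
    UPr (fun J (F : Fam n J) A => ∀ B : F.Ω → Prop, Sub B A → Pe F.p A ≤ K₁ J * Pe F.p B →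
      ¬ Lf F I (fun ω => F.x ω k) K (e J) (w J) (ρ J) (P J) B) :=
  GPr.upr fun J => gpr_many (P := fun (F : Fam n J) A =>
      Lf F I (fun ω => F.x ω k) K (e J) (w J) (ρ J) (P J) A)
    (fun _ _ _ hB h => h.sub hB) (fun _ _ _ _ hl _ h => h.free hl)

/-- **The class of the sheared zooms**: it has the properties of the sheared zooms of the class
`S`, with the requirements `Ψ`. -/
structure ShCl (S Sb : PCl n) (b : ℝ) {p q : Fin n} (hu : p ∉ ({q} : Finset (Fin n)))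
    (Ψ : ℕ → ∀ (J : ℕ) (F : Fam n J) (_ : F.Ω → Prop), (F.Ω → ℝ) → Prop) (t : Fin n)
    (ch : ℕ → Fin n) (r : ℕ) : Prop where
  dig : ∀ x y D : ℚ, (∃ k : ℕ, ZPr S b (id : Fin n → Fin n) (ShX b hu (1 / ((k : ℝ) + 1)) (Ψ k))
    (fun J G A => ¬ DgN t x y D J G A)) → Bas Sb (fun J G A => ¬ DgN t x y D J G A)
  tmn : ∀ (K j : ℕ) (az wz Pz : ℚ), (∃ k : ℕ, ZPr S b (id : Fin n → Fin n)
    (ShX b hu (1 / ((k : ℝ) + 1)) (Ψ k)) (TMn t K az wz Pz (1 / ((j : ℝ) + 1)))) →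
      Bas Sb (TMn t K az wz Pz (1 / ((j : ℝ) + 1)))
  che : ∀ (K : ℕ) (az wz E x Pz : ℚ), (∃ k : ℕ, ZPr S b (id : Fin n → Fin n)
    (ShX b hu (1 / ((k : ℝ) + 1)) (Ψ k)) (fun J G A => ¬ ChE ch r K az wz E x Pz J G A)) →
      Bas Sb (fun J G A => ¬ ChE ch r K az wz E x Pz J G A)
  lmn : ∀ (I : Finset (Fin n)) (l : Fin n) (K j : ℕ) (E w ρ P : ℚ), (∃ k : ℕ,
    ZPr S b (id : Fin n → Fin n) (ShX b hu (1 / ((k : ℝ) + 1)) (Ψ k))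
      (LMn I l K E w ρ P (1 / ((j : ℝ) + 1)))) → Bas Sb (LMn I l K E w ρ P (1 / ((j : ℝ) + 1)))
  lbn : ∀ (I : Finset (Fin n)) (l : Fin n) (K : ℕ) (E w ρ P : ℚ), (∃ k : ℕ,
    ZPr S b (id : Fin n → Fin n) (ShX b hu (1 / ((k : ℝ) + 1)) (Ψ k))
      (fun J G A => ¬ LbN I l K E w ρ P J G A)) → Bas Sb (fun J G A => ¬ LbN I l K E w ρ P J G A)

/-- A smaller shear is a smaller shear. -/
theorem ShX.le {w₁ : ℝ} {u t : Fin n} {hu : u ∉ ({t} : Finset (Fin n))} {x x' : ℝ} (hx : x ≤ x')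
    {Ψ : ∀ (J : ℕ) (F : Fam n J) (_ : F.Ω → Prop), (F.Ω → ℝ) → Prop}
    {J : ℕ} {F : Fam n J} {A : F.Ω → Prop} {κ : Type} {C : Crd n κ} {z' : LnT F → κ}
    (h : ShX w₁ hu x Ψ J F A κ C z') : ShX w₁ hu x' Ψ J F A κ C z' := by
  obtain ⟨cb, M, h1, h2, h3, h4⟩ := h
  exact ⟨cb, M, h1, h2.trans (by
    have := mul_le_mul_of_nonneg_right hx (Nat.cast_nonneg (α := ℝ) J)
    linarith), h3, h4⟩

/-- From all small shears to one requirement. -/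
theorem zr_ex {S : PCl n} {b : ℝ} {p q : Fin n} {hu : p ∉ ({q} : Finset (Fin n))} {Φ : Stat n}
    (h : ZR S b hu Φ)
    (Ψ : ℕ → ∀ (J : ℕ) (F : Fam n J) (_ : F.Ω → Prop), (F.Ω → ℝ) → Prop) :
    ∃ k : ℕ, ZPr S b (id : Fin n → Fin n) (ShX b hu (1 / ((k : ℝ) + 1)) (Ψ k)) Φ := by
  obtain ⟨x₀, hx₀, h⟩ := h
  obtain ⟨k, hk⟩ := exists_nat_ge (1 / x₀)
  refine ⟨k, (h (Ψ k)).data fun J F A κ C z' h1 => h1.le ?_⟩
  rw [div_le_iff₀ hx₀] at hk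
  rw [div_le_iff₀ (by positivity)]
  linarith

/-- **The class of the sheared zooms exists.** -/
theorem shcl_ex (hn : 2 ≤ n) {S : PCl n} {C₀ : ℝ} (hC₀ : 0 ≤ C₀) (htm : TmC S C₀) {al : ℝ}
    {g₀ : ℝ → ℝ} (hal : 0 < al) (hg₀ : ∀ ε : ℝ, 0 < ε → 0 < g₀ ε) {N : ℚ → ℚ → ℝ}
    (hN : ActM N al g₀) {kap : Fin n} (hkap : (kap : ℕ) = 0) (hact : ActB N S kap) {b : ℝ}
    (hb0 : 0 < b) (hb1 : b < 1) {cL : ℝ} {p q : Fin n} {hu : p ∉ ({q} : Finset (Fin n))}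
    {Ψ : ℕ → ∀ (J : ℕ) (F : Fam n J) (_ : F.Ω → Prop), (F.Ω → ℝ) → Prop}
    (hD : ZReq S b kap cL (fun k : ℕ => ShX b hu (1 / ((k : ℝ) + 1)) (Ψ k))) (t : Fin n)
    (ch : ℕ → Fin n) {r : ℕ} (hr : 0 < r) {x₀ y₀ D₀ : ℚ}
    (h₀ : ∃ k : ℕ, ZPr S b (id : Fin n → Fin n) (ShX b hu (1 / ((k : ℝ) + 1)) (Ψ k))
      (fun J G A => ¬ DgN t x₀ y₀ D₀ J G A)) :
    ∃ (Sb : PCl n) (Pb : ℝ → ℝ → ℝ) (rb : ℝ → ℝ) (Pb' : ℕ → List (Fin n) × Fin n → ℝ → ℝ → ℝ)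
      (Λb : Finset (Fin n) → Fin n → ℝ → ℝ → ℝ)
      (PBb : ℕ → List (Fin n) × Fin n → ℝ → ℝ → ℝ), PkT hn Sb Pb rb Pb' Λb PBb ∧
      ShCl S Sb b hu Ψ t ch r := by
  classical
  have hexp : ∀ (x : ℝ) (a b : ℝ), a ≤ Real.exp x * b ↔ Real.exp (-x) * a ≤ b := by
    intro x a b
    rw [Real.exp_neg, inv_mul_le_iff₀ (Real.exp_pos x)]
  let ι : Type := (ℚ × ℚ × ℚ) ⊕ ((ℕ × ℕ × ℚ × ℚ × ℚ) ⊕ ((ℕ × ℚ × ℚ × ℚ × ℚ × ℚ) ⊕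
    ((Finset (Fin n) × Fin n × ℕ × ℕ × ℚ × ℚ × ℚ × ℚ) ⊕
      (Finset (Fin n) × Fin n × ℕ × ℚ × ℚ × ℚ × ℚ))))
  obtain ⟨Φ, hΦ⟩ : ∃ Φ : ι → Stat n, Φ = fun i => match i with
    | Sum.inl p => DgN t p.1 p.2.1 p.2.2
    | Sum.inr (Sum.inl p) => fun J G A => ∀ B : G.Ω → Prop, Sub B A →
        Pe G.p A ≤ Real.exp (1 / ((p.2.1 : ℝ) + 1) * J) * Pe G.p B →
        ¬ (tgs t).T () p.1 ⌊(p.2.2.1 : ℝ) * J⌋₊ ⌊(p.2.2.2.1 : ℝ) * J⌋₊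
          ⌊(p.2.2.2.2 : ℝ) * J⌋₊ J G B
    | Sum.inr (Sum.inr (Sum.inl p)) =>
        ChE ch r p.1 p.2.1 p.2.2.1 p.2.2.2.1 p.2.2.2.2.1 p.2.2.2.2.2
    | Sum.inr (Sum.inr (Sum.inr (Sum.inl p))) => fun J G A => ∀ B : G.Ω → Prop, Sub B A →
        Pe G.p A ≤ Real.exp (1 / ((p.2.2.2.1 : ℝ) + 1) * J) * Pe G.p B →
        ¬ Lf G p.1 (fun ω => G.x ω p.2.1) p.2.2.1 ⌊(p.2.2.2.2.1 : ℝ) * J⌋₊
          ⌊(p.2.2.2.2.2.1 : ℝ) * J⌋₊ ⌊(p.2.2.2.2.2.2.1 : ℝ) * J⌋₊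
          ⌊(p.2.2.2.2.2.2.2 : ℝ) * J⌋₊ B
    | Sum.inr (Sum.inr (Sum.inr (Sum.inr p))) =>
        LbN p.1 p.2.1 p.2.2.1 p.2.2.2.1 p.2.2.2.2.1 p.2.2.2.2.2.1 p.2.2.2.2.2.2 := ⟨_, rfl⟩
  have hcount : Countable ι := inferInstance
  obtain ⟨Sb, Pb, rb, Pb', Λb, PBb, H, hcl⟩ := cls_ex hn hC₀ htm hal hg₀ hN hkap hact hb0 hb1 hD
    (Φ := Φ) (by
      rw [hΦ]
      rintro (p | p | p | p | p)
      · exact upr_dig t _ _ _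
      · exact upr_many t (fun J => Real.exp (1 / ((p.2.1 : ℝ) + 1) * J)) _
          (fun J => ⌊(p.2.2.1 : ℝ) * J⌋₊) (fun J => ⌊(p.2.2.2.1 : ℝ) * J⌋₊)
          (fun J => ⌊(p.2.2.2.2 : ℝ) * J⌋₊)
      · exact upr_chE ch r hr _ _ _ _ _ _
      · exact upr_lmn _ _ _ (fun J => Real.exp (1 / ((p.2.2.2.1 : ℝ) + 1) * J))
          (fun J => ⌊(p.2.2.2.2.1 : ℝ) * J⌋₊) (fun J => ⌊(p.2.2.2.2.2.1 : ℝ) * J⌋₊)
          (fun J => ⌊(p.2.2.2.2.2.2.1 : ℝ) * J⌋₊) (fun J => ⌊(p.2.2.2.2.2.2.2 : ℝ) * J⌋₊)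
      · exact GPr.upr fun J => gpr_lb _ _ _ _ _ _ _ _)
    (Sum.inl (x₀, y₀, D₀)) (by
      rw [hΦ]
      exact h₀)
  rw [hΦ] at hcl
  refine ⟨Sb, Pb, rb, Pb', Λb, PBb, H, ?_, ?_, ?_, ?_, ?_⟩
  · intro x y D h
    exact hcl (Sum.inl (x, y, D)) h
  · intro K j az wz Pz h
    obtain ⟨k, h⟩ := h
    refine (hcl (Sum.inr (Sum.inl (K, j, az, wz, Pz))) ⟨k, h.mono fun J G A h1 h2 => ?_⟩).mono 0
      fun J _ G A h1 => ?_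
    · obtain ⟨B, k1, k2, k3⟩ := h1
      exact h2 B k1 ((hexp _ _ _).2 k2) k3
    · simp only at h1
      push Not at h1
      obtain ⟨B, k1, k2, k3⟩ := h1
      exact ⟨B, k1, (hexp _ _ _).1 k2, k3⟩
  · intro K az wz E x Pz h
    exact hcl (Sum.inr (Sum.inr (Sum.inl (K, az, wz, E, x, Pz)))) h
  · intro I l K j E w ρ P h
    obtain ⟨k, h⟩ := h
    refine (hcl (Sum.inr (Sum.inr (Sum.inr (Sum.inl (I, l, K, j, E, w, ρ, P)))))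
      ⟨k, h.mono fun J G A h1 h2 => ?_⟩).mono 0 fun J _ G A h1 => ?_
    · obtain ⟨B, k1, k2, k3⟩ := h1
      exact h2 B k1 ((hexp _ _ _).2 k2) k3
    · simp only at h1
      push Not at h1
      obtain ⟨B, k1, k2, k3⟩ := h1
      exact ⟨B, k1, (hexp _ _ _).1 k2, k3⟩
  · intro I l K E w ρ P h
    exact hcl (Sum.inr (Sum.inr (Sum.inr (Sum.inr (I, l, K, E, w, ρ, P))))) h

end Pool.SHE33
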