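import Pool.Agent.H33.SHE.Shi
import Pool.Agent.H3.SHE.Num

/-!
# The numbers of the class of the sheared zooms

`FwR`: the linear form of the shear has closed labels, for all small requirements. `num_of`: this
gives a lower bound for the number of the coordinate in the class of the zooms. `fwr_lb`, `fwr_min`:
from the numbers of the class. `num_bwd`: an upper bound for the number of the coordinate.
-/

set_option autoImplicit false

namespace Pool.SHE33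

open Finset Real MvPolynomial
open Pool.Agent.H49.Ent Pool.Agent.H32.Dense Pool.STK Pool.KA Pool.KSAT Pool.K2S Pool.PB Pool.S6C
open Pool.GEN Pool.ZCL Pool.TOP Pool.ZLC Pool.ZCO Pool.ONE Pool.PKG
open Pool.LBT (LSys ThrOf)
open Pool.ALL (RateOf numx)
open Pool.SHE3 (zs zs_lt zs_le zs_one zs_self zs_pos zs_lt_one zs_le_one zs_sub zs_inv zs_mono)

variable {n : ℕ}

/-- **The linear form has closed labels**, for all small requirements. -/
def FwR (S : PCl n) (b : ℝ) (p q : Fin n) (I : Finset (Fin n)) (l : Fin n) (w ρ P : ℝ)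
    (Ψ : ℕ → ∀ (J : ℕ) (F : Fam n J) (_ : F.Ω → Prop), (F.Ω → ℝ) → Prop) : Prop :=
  ∀ E : ℝ, 0 < E → ∃ K k₀ : ℕ, ∀ k ≥ k₀, ∃ K₁ : ℝ, 0 < K₁ ∧
    LfH S b p q I l (1 / ((k : ℝ) + 1)) K₁ K E w ρ P (Ψ k)

/-- The change of scale, rewritten. -/
theorem zs_mul {b : ℝ} (hb : b < 1) (x : ℝ) : b + zs b x * (1 - b) = x := by
  unfold Pool.SHE3.zs
  have h1 : 1 - b ≠ 0 := by linarith
  field_simp
  ring

/-- **A lower bound for the number of the coordinate in the class of the zooms.** -/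
theorem num_of {hn : 2 ≤ n} {S Sb : PCl n} {C₀ : ℝ} (hC₀ : 0 ≤ C₀) (htm : TmC S C₀)
    {b : ℝ} (hb0 : 0 < b) (hb1 : b < 1) {p q : Fin n} {hu : p ∉ ({q} : Finset (Fin n))}
    {Ψ : ℕ → ∀ (J : ℕ) (F : Fam n J) (_ : F.Ω → Prop), (F.Ω → ℝ) → Prop} {t : Fin n}
    {ch : ℕ → Fin n} {r : ℕ} (hcl : ShCl S Sb b hu Ψ t ch r) {Pb : ℝ → ℝ → ℝ} {rb : ℝ → ℝ}
    {Pb' : ℕ → List (Fin n) × Fin n → ℝ → ℝ → ℝ} {Λb : Finset (Fin n) → Fin n → ℝ → ℝ → ℝ}
    {PBb : ℕ → List (Fin n) × Fin n → ℝ → ℝ → ℝ} (Hb : PkT hn Sb Pb rb Pb' Λb PBb)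
    {I : Finset (Fin n)} (hqI : q ∉ I) {l : Fin n} {w ρ P w' ρ' : ℝ} (hw0 : b ≤ w)
    (hww' : w < w') (hw'1 : w' < 1) (hρ0 : b ≤ ρ) (hρρ' : ρ < ρ') (hρ'1 : ρ' < 1) (hP1 : P ≤ 1)
    (h : FwR S b p q I l w ρ P Ψ) : zs b P ≤ Λb I l (zs b w') (zs b ρ') := by
  by_contra hcon
  push Not at hcon
  have h01 : 0 < 1 - b := by linarith
  have hlow := Hb.lam.low I l (zs b w') (zs b ρ') ((zs_le_one hb1).2 hw'1.le)
  have hzw' : 0 < zs b w' := (zs_pos hb1).2 (by linarith)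
  obtain ⟨Pz, hPz1, hPz2⟩ := exists_rat_btwn hcon
  obtain ⟨wz, hwz1, hwz2⟩ := exists_rat_btwn ((zs_lt hb1).2 hww')
  obtain ⟨ρz, hρz1, hρz2⟩ := exists_rat_btwn ((zs_lt hb1).2 hρρ')
  have hPz0 : (0 : ℝ) < Pz := by linarith
  have hzP1 : zs b P ≤ 1 := (zs_le_one hb1).2 hP1
  have hzw0 : 0 ≤ zs b w := by
    rw [← zs_self b]
    exact (zs_le hb1).2 hw0
  have hzρ0 : 0 ≤ zs b ρ := by
    rw [← zs_self b]
    exact (zs_le hb1).2 hρ0
  have hzw1 : zs b w' < 1 := (zs_lt_one hb1).2 hw'1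
  have hzρ1 : zs b ρ' < 1 := (zs_lt_one hb1).2 hρ'1
  have key : (Pz : ℝ) ≤ Λb I l wz ρz := by
    refine lam_fwd Hb.ne (by norm_num : (0 : ℝ) ≤ 6) Hb.tmc Hb.lam (by linarith) (by linarith)
      (by linarith) hPz0.le (by linarith) fun E hE => ?_
    obtain ⟨Ez, hEz1, hEz2⟩ := exists_rat_btwn hE
    have e1 := zs_mul hb1 w
    have e2 := zs_mul hb1 ρ
    have e3 := zs_mul hb1 P
    have m1 : zs b w * (1 - b) < wz * (1 - b) := mul_lt_mul_of_pos_right hwz1 h01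
    have m2 : zs b ρ * (1 - b) < ρz * (1 - b) := mul_lt_mul_of_pos_right hρz1 h01
    have m3 : Pz * (1 - b) < zs b P * (1 - b) := mul_lt_mul_of_pos_right hPz2 h01
    have m4 : zs b P * (1 - b) ≤ 1 * (1 - b) := mul_le_mul_of_nonneg_right hzP1 h01.le
    obtain ⟨E₁, hE₁⟩ : ∃ E₁ : ℝ, E₁ = min (Ez * (1 - b)) (1 - b - Pz * (1 - b)) / 2 := ⟨_, rfl⟩
    have hE₁0 : 0 < E₁ := by
      rw [hE₁]
      have : 0 < min (Ez * (1 - b)) (1 - b - Pz * (1 - b)) :=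
        lt_min (mul_pos hEz1 h01) (by linarith)
      linarith
    have hE₁a : 2 * E₁ ≤ Ez * (1 - b) := by
      rw [hE₁]
      linarith [min_le_left (Ez * (1 - b)) (1 - b - Pz * (1 - b))]
    have hE₁b : 2 * E₁ ≤ 1 - b - Pz * (1 - b) := by
      rw [hE₁]
      linarith [min_le_right (Ez * (1 - b)) (1 - b - Pz * (1 - b))]
    obtain ⟨K, k₀, hK⟩ := h E₁ hE₁0
    refine ⟨max K 1, fun τ hτ => ?_⟩
    obtain ⟨j, hj⟩ := exists_inv hτ
    obtain ⟨x₀, hx₀, hz⟩ := lf_zpr hC₀ htm hb0 hb1 (hu := hu) hqI l (K := K) (E := E₁) (w := w)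
      (ρ := ρ) (P := P) (Ez := Ez) (wz := wz) (ρz := ρz) (Pz := Pz) hE₁0.le (by linarith)
      (by linarith) (by linarith) (by linarith) (by linarith) hPz0.le (by linarith)
      (by linarith) (by linarith) (by linarith) (by linarith) (by linarith) (by linarith)
      (show (0 : ℝ) < 1 / ((j : ℝ) + 1) by positivity)
    obtain ⟨k₁, hk₁⟩ := exists_inv hx₀
    have hk₂ : 1 / (((max k₀ k₁ : ℕ) : ℝ) + 1) ≤ x₀ := by
      refine le_trans (one_div_le_one_div_of_le (by positivity) ?_) hk₁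
      have : (k₁ : ℝ) ≤ ((max k₀ k₁ : ℕ) : ℝ) := by exact_mod_cast le_max_right k₀ k₁
      linarith
    obtain ⟨K₁, hK₁, hL⟩ := hK (max k₀ k₁) (le_max_left _ _)
    have h1 := hz _ hk₂ (by positivity) (Ψ (max k₀ k₁)) K₁ hK₁ hL
    refine (hcl.lmn I l (max K 1) j Ez wz ρz Pz ⟨max k₀ k₁, ?_⟩).mono 0 fun J _ G A h2 => ?_
    · refine h1.mono fun J G A h2 => ?_
      obtain ⟨B, k1, k2, k3⟩ := h2
      have e4 : max (max K 1) 1 = max K 1 := max_eq_left (le_max_right _ _)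
      exact ⟨B, k1, k2, k3⟩
    · obtain ⟨B, k1, k2, k3⟩ := h2
      have hJr : (0 : ℝ) ≤ J := Nat.cast_nonneg J
      refine ⟨B, k1, le_trans (mul_le_mul_of_nonneg_right (Real.exp_le_exp.2 (neg_le_neg
        (mul_le_mul_of_nonneg_right hj hJr))) (Pe_nonneg G.isLaw A)) k2,
        k3.mono (Finset.Subset.refl I) le_rfl (Nat.floor_le_floor
          (mul_le_mul_of_nonneg_right hEz2.le hJr)) (le_refl _) ?_ (le_refl _) (le_refl _)⟩
      refine Nat.floor_le_of_le ?_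
      calc (wz : ℝ) * J ≤ 1 * J := mul_le_mul_of_nonneg_right (by linarith) hJr
        _ = J := one_mul _
  have h2 := Hb.lam.mono I I l wz (zs b w') ρz (zs b ρ') (Finset.Subset.refl I) hwz2.le hρz2.le
  linarith

end Pool.SHE33
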