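import Pool.Agent.H33.SHE.Shn

/-!
# The numbers of the class of the sheared zooms: the labels of the class

`fwr_lb`: the labels of the class. `fwr_min`: the sheared coordinate, if both coordinates have
labels over the coordinates in `I`. `fwr_lh`: the labels of the requirement. `num_bwd`: an upper
bound of the number of a coordinate in the class of the zooms.
-/

set_option autoImplicit false

namespace Pool.SHE33

open Finset Real MvPolynomial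
open Pool.Agent.H49.Ent Pool.Agent.H32.Dense Pool.STK Pool.KA Pool.KSAT Pool.K2S Pool.PB Pool.S6C
open Pool.GEN Pool.ZCL Pool.TOP Pool.ZLC Pool.ZCO Pool.ONE Pool.PKG
open Pool.LBT (LSys ThrOf)
open Pool.ALL (RateOf numx)
open Pool.SHE3 (zs zs_lt zs_le zs_one zs_self zs_pos zs_lt_one zs_le_one zs_sub zs_inv zs_mono)

variable {n : ℕ}

/-- Floors of nearby numbers. -/
theorem fl_gap {L e e₁ d x : ℝ} {J M : ℕ} (h0 : 0 ≤ d) (he : e₁ + x + d ≤ e)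
    (hL : e₁ + x + d ≤ L) (hJ : 4 ≤ d * J) (hM : (M : ℝ) ≤ x * J + 1) :
    ⌊(L - e) * J⌋₊ + M + 1 ≤ ⌊(L - e₁) * J⌋₊ := by
  have hJr : (0 : ℝ) ≤ J := Nat.cast_nonneg J
  refine Nat.le_floor ?_
  push_cast
  rcases le_total 0 ((L - e) * J) with h | h
  · have h1 := Nat.floor_le h
    have h2 := mul_le_mul_of_nonneg_right he hJr
    have e1 : (e₁ + x + d) * (J : ℝ) = e₁ * J + x * J + d * J := by ring
    have e2 : (L - e) * (J : ℝ) = L * J - e * J := by ring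
    have e3 : (L - e₁) * (J : ℝ) = L * J - e₁ * J := by ring
    linarith
  · rw [Nat.floor_of_nonpos h]
    have h2 := mul_le_mul_of_nonneg_right hL hJr
    have e1 : (e₁ + x + d) * (J : ℝ) = e₁ * J + x * J + d * J := by ring
    have e3 : (L - e₁) * (J : ℝ) = L * J - e₁ * J := by ring
    push_cast
    linarith

section

variable {S : PCl n} {L : Finset (Fin n) → Fin n → ℝ → ℝ → ℝ} (hL : LamW S L) {b : ℝ}
  (hb0 : 0 < b) {p q : Fin n} {I : Finset (Fin n)} {w w₂ ρ e : ℝ}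
  (hbw : b ≤ w) (hw : w < w₂) (hw1 : w₂ ≤ 1) (he : 0 < e)
  (Ψ : ℕ → ∀ (J : ℕ) (F : Fam n J) (_ : F.Ω → Prop), (F.Ω → ℝ) → Prop)

include hL hb0 hbw hw hw1 he

/-- **The sheared coordinate**, if both coordinates have labels. -/
theorem fwr_min : FwR S b p q I q w₂ (ρ + e) (min (L I p w ρ) (L I q w ρ) - e) Ψ := by
  intro E hE
  have hLp := hL.low I p w ρ (hw.le.trans hw1)
  have hLq := hL.low I q w ρ (hw.le.trans hw1)
  obtain ⟨d, hd⟩ : ∃ d : ℝ, d = min (min e E) b / 8 := ⟨_, rfl⟩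
  have hm0 : 0 < min (min e E) b := lt_min (lt_min he hE) hb0
  have hd0 : 0 < d := by rw [hd]; linarith
  have hde : 8 * d ≤ e := by
    rw [hd]
    linarith [(min_le_left (min e E) b).trans (min_le_left e E)]
  have hdE : 8 * d ≤ E := by
    rw [hd]
    linarith [(min_le_left (min e E) b).trans (min_le_right e E)]
  have hdb : 8 * d ≤ b := by
    rw [hd]
    linarith [min_le_right (min e E) b]
  obtain ⟨Kp, hKp⟩ := hL.att I p w w₂ ρ d (by linarith) hw1 hw hd0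
  obtain ⟨Kq, hKq⟩ := hL.att I q w w₂ ρ d (by linarith) hw1 hw hd0
  obtain ⟨τ₁, hτ₁, J₁, hall⟩ := hKp.and hKq
  obtain ⟨k₀, hk₀⟩ := exists_inv hd0
  obtain ⟨J₂, hJ₂⟩ := lin (4 : ℝ) hd0
  refine ⟨max Kp Kq, k₀, fun k hk => ⟨1, one_pos, τ₁, hτ₁, max J₁ J₂, ?_⟩⟩
  intro J hJ F A _ κ cb M z z' hz hM _ _ B hBA hSB
  simp only [ge_iff_le, max_le_iff] at hJ
  obtain ⟨hJ1, hJ2⟩ := hJ
  replace hJ2 := hJ₂ J hJ2
  have hJr : (0 : ℝ) ≤ J := Nat.cast_nonneg J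
  obtain ⟨h1, h2⟩ := hall J hJ1 F B hSB
  have hkd : 1 / ((k : ℝ) + 1) ≤ d := by
    refine le_trans (one_div_le_one_div_of_le (by positivity) ?_) hk₀
    have : (k₀ : ℝ) ≤ k := by exact_mod_cast hk
    linarith
  have hM' : (M q : ℝ) ≤ d * J + 1 := hM.trans (by
    have := mul_le_mul_of_nonneg_right hkd hJr
    linarith)
  refine ⟨B, fun _ h => h, by rw [one_mul], ?_⟩
  have hwJ : ⌊w₂ * (J : ℝ)⌋₊ ≤ J := by
    refine Nat.floor_le_of_le ?_
    calc w₂ * (J : ℝ) ≤ 1 * J := mul_le_mul_of_nonneg_right hw1 hJr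
      _ = J := one_mul _
  have hWw : ⌊b * (J : ℝ)⌋₊ ≤ ⌊w₂ * (J : ℝ)⌋₊ :=
    Nat.floor_le_floor (mul_le_mul_of_nonneg_right (by linarith) hJr)
  have hρJ : ⌊(ρ + d) * (J : ℝ)⌋₊ ≤ ⌊(ρ + e) * (J : ℝ)⌋₊ :=
    Nat.floor_le_floor (mul_le_mul_of_nonneg_right (by linarith) hJr)
  have hPq : ⌊(min (L I p w ρ) (L I q w ρ) - e) * (J : ℝ)⌋₊ + 1 ≤
      ⌊(L I q w ρ - d) * (J : ℝ)⌋₊ := by
    refine le_trans ?_ ((fl_gap (L := L I q w ρ) (e := e) (e₁ := d) (d := d) (x := d) (J := J)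
      (M := M q) hd0.le (by linarith) (by linarith) hJ2 hM'))
    have := Nat.floor_le_floor (mul_le_mul_of_nonneg_right (show min (L I p w ρ) (L I q w ρ) - e ≤
      L I q w ρ - e by linarith [min_le_right (L I p w ρ) (L I q w ρ)]) hJr)
    omega
  have hPp : ⌊(min (L I p w ρ) (L I q w ρ) - e) * (J : ℝ)⌋₊ + M q + 1 ≤
      ⌊(L I p w ρ - d) * (J : ℝ)⌋₊ := by
    refine le_trans ?_ ((fl_gap (L := L I p w ρ) (e := e) (e₁ := d) (d := d) (x := d) (J := J)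
      (M := M q) hd0.le (by linarith) (by linarith) hJ2 hM'))
    have := Nat.floor_le_floor (mul_le_mul_of_nonneg_right (show min (L I p w ρ) (L I q w ρ) - e ≤
      L I p w ρ - e by linarith [min_le_left (L I p w ρ) (L I q w ρ)]) hJr)
    omega
  have h3 := Lf.fms_of (F := F) (cb := cb) (p := p) (q := q) (M := M q) (z := z) (z' := z')
    (k := q) (K := max Kp Kq) (e := ⌊d * (J : ℝ)⌋₊) (e' := ⌊d * (J : ℝ)⌋₊)
    (ρ := ⌊(ρ + e) * (J : ℝ)⌋₊)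
    (P := ⌊(min (L I p w ρ) (L I q w ρ) - e) * (J : ℝ)⌋₊) hWw hwJ
    (fun ω hω => hz ω (hBA ω hω))
    ((Lb.lf h2).mono (Finset.Subset.refl I) (le_max_right _ _) (le_refl _) (le_refl _) hwJ hρJ hPq)
    (fun _ => (Lb.lf h1).mono (Finset.Subset.refl I) (le_max_left _ _) (le_refl _) (le_refl _) hwJ
      hρJ hPp)
  refine h3.mono (Finset.Subset.refl I) le_rfl ?_ (le_refl _) hwJ (le_refl _) (le_refl _)
  refine Nat.le_floor ?_
  push_cast
  have h4 : (⌊d * (J : ℝ)⌋₊ : ℝ) ≤ d * J := Nat.floor_le (by positivity)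
  have h5 := mul_le_mul_of_nonneg_right hdE hJr
  have e1 : 8 * d * (J : ℝ) = 8 * (d * J) := by ring
  rw [e1] at h5
  linarith

/-- **The labels of the class.** -/
theorem fwr_lb {l : Fin n} (hl : l = q → p ∈ I) :
    FwR S b p q I l w₂ (ρ + e) (L I l w ρ - e) Ψ := by
  intro E hE
  have hLl := hL.low I l w ρ (hw.le.trans hw1)
  obtain ⟨d, hd⟩ : ∃ d : ℝ, d = min (min e E) b / 8 := ⟨_, rfl⟩
  have hm0 : 0 < min (min e E) b := lt_min (lt_min he hE) hb0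
  have hd0 : 0 < d := by rw [hd]; linarith
  have hde : 8 * d ≤ e := by
    rw [hd]
    linarith [(min_le_left (min e E) b).trans (min_le_left e E)]
  have hdE : 8 * d ≤ E := by
    rw [hd]
    linarith [(min_le_left (min e E) b).trans (min_le_right e E)]
  have hdb : 8 * d ≤ b := by
    rw [hd]
    linarith [min_le_right (min e E) b]
  obtain ⟨K, hK⟩ := hL.att I l w w₂ ρ d (by linarith) hw1 hw hd0
  obtain ⟨τ₁, hτ₁, J₁, hall⟩ := hK
  obtain ⟨k₀, hk₀⟩ := exists_inv hd0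
  obtain ⟨J₂, hJ₂⟩ := lin (4 : ℝ) hd0
  refine ⟨max K 1, k₀, fun k hk => ⟨1, one_pos, τ₁, hτ₁, max J₁ J₂, ?_⟩⟩
  intro J hJ F A _ κ cb M z z' hz hM _ _ B hBA hSB
  simp only [ge_iff_le, max_le_iff] at hJ
  obtain ⟨hJ1, hJ2⟩ := hJ
  replace hJ2 := hJ₂ J hJ2
  have hJr : (0 : ℝ) ≤ J := Nat.cast_nonneg J
  have h2 := hall J hJ1 F B hSB
  have hkd : 1 / ((k : ℝ) + 1) ≤ d := by
    refine le_trans (one_div_le_one_div_of_le (by positivity) ?_) hk₀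
    have : (k₀ : ℝ) ≤ k := by exact_mod_cast hk
    linarith
  have hM' : (M q : ℝ) ≤ d * J + 1 := hM.trans (by
    have := mul_le_mul_of_nonneg_right hkd hJr
    linarith)
  refine ⟨B, fun _ h => h, by rw [one_mul], ?_⟩
  have hwJ : ⌊w₂ * (J : ℝ)⌋₊ ≤ J := by
    refine Nat.floor_le_of_le ?_
    calc w₂ * (J : ℝ) ≤ 1 * J := mul_le_mul_of_nonneg_right hw1 hJr
      _ = J := one_mul _
  have hWw : ⌊b * (J : ℝ)⌋₊ ≤ ⌊w₂ * (J : ℝ)⌋₊ :=
    Nat.floor_le_floor (mul_le_mul_of_nonneg_right (by linarith) hJr)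
  have hρJ : ⌊(ρ + d) * (J : ℝ)⌋₊ ≤ ⌊(ρ + e) * (J : ℝ)⌋₊ :=
    Nat.floor_le_floor (mul_le_mul_of_nonneg_right (by linarith) hJr)
  have hPq : ⌊(L I l w ρ - e) * (J : ℝ)⌋₊ + 1 ≤ ⌊(L I l w ρ - d) * (J : ℝ)⌋₊ := by
    have := (fl_gap (L := L I l w ρ) (e := e) (e₁ := d) (d := d) (x := d) (J := J)
      (M := M q) hd0.le (by linarith) (by linarith) hJ2 hM')
    omega
  have h3 := Lf.fms_of (F := F) (cb := cb) (p := p) (q := q) (M := M q) (z := z) (z' := z')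
    (k := l) (K := max K 1) (e := ⌊d * (J : ℝ)⌋₊) (e' := 0)
    (ρ := ⌊(ρ + e) * (J : ℝ)⌋₊) (P := ⌊(L I l w ρ - e) * (J : ℝ)⌋₊) hWw hwJ
    (fun ω hω => hz ω (hBA ω hω))
    ((Lb.lf h2).mono (Finset.Subset.refl I) (le_max_left _ _) (le_refl _) (le_refl _) hwJ hρJ hPq)
    (fun he => (lf_own F (hl he) ⌊w₂ * (J : ℝ)⌋₊ ⌊(ρ + e) * (J : ℝ)⌋₊ _ B).mono
      (Finset.Subset.refl I) (le_max_right _ _) (le_refl _) (le_refl _) hwJ (le_refl _)
      (le_refl _))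
  refine h3.mono (Finset.Subset.refl I) le_rfl ?_ (le_refl _) hwJ (le_refl _) (le_refl _)
  refine Nat.le_floor ?_
  push_cast
  have h4 : (⌊d * (J : ℝ)⌋₊ : ℝ) ≤ d * J := Nat.floor_le (by positivity)
  have h5 := mul_le_mul_of_nonneg_right hdE hJr
  have e1 : 8 * d * (J : ℝ) = 8 * (d * J) := by ring
  rw [e1] at h5
  linarith

end

/-- **The requirement of a list of closed labels** of the linear form. -/
def PsL (y u v : Fin n) (ws es Ds : ℕ → ℝ) (k : ℕ) (J : ℕ) (F : Fam n J) (A : F.Ω → Prop)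
    (c : F.Ω → ℝ) : Prop :=
  ∀ i < k, ∀ ρ : ℕ, Lh F {y} u v c 1 ⌊es i * J⌋₊ ⌊ws i * J⌋₊ ρ ⌊(Ds i - es i) * J⌋₊ A

/-- **The labels of the requirement.** -/
theorem fwr_lh {S : PCl n} {b : ℝ} {y u v : Fin n} {ws es Ds : ℕ → ℝ} {w D : ℝ}
    (h : ∀ e : ℝ, 0 < e → ∃ i, ws i = w ∧ Ds i = D ∧ es i ≤ e) {e : ℝ} (he : 0 < e) (hw1 : w ≤ 1)
    (ρ : ℝ) : FwR S b u v {y} v w ρ (D - e) (PsL y u v ws es Ds) := by
  intro E hE
  obtain ⟨i, h1, h2, h3⟩ := h (min e E) (lt_min he hE)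
  have h3e : es i ≤ e := h3.trans (min_le_left _ _)
  have h3E : es i ≤ E := h3.trans (min_le_right _ _)
  refine ⟨1, i + 1, fun k hk => ⟨1, one_pos, 1, one_pos, 0, ?_⟩⟩
  intro J _ F A _ κ cb M z z' hz hM hcb hΨ B hBA hSB
  have hJr : (0 : ℝ) ≤ J := Nat.cast_nonneg J
  have h4 := hΨ i (by omega) ⌊ρ * (J : ℝ)⌋₊
  have hwJ : ⌊ws i * (J : ℝ)⌋₊ ≤ J := by
    rw [h1]
    refine Nat.floor_le_of_le ?_
    calc w * (J : ℝ) ≤ 1 * J := mul_le_mul_of_nonneg_right hw1 hJr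
      _ = J := one_mul _
  refine ⟨B, fun _ h => h, by rw [one_mul], ?_⟩
  have h5 := ((Lh.lf h4).sub hBA).mono (Finset.Subset.refl {y}) (le_refl 1)
    (Nat.floor_le_floor (mul_le_mul_of_nonneg_right h3E hJr)) (le_refl _) hwJ (le_refl _)
    (Nat.floor_le_floor (mul_le_mul_of_nonneg_right (show D - e ≤ Ds i - es i by
      rw [h2]
      linarith) hJr))
  rw [h1] at h5
  refine h5.congr fun ω hω => ?_
  unfold fms
  rw [if_pos rfl, clp_of (hcb ω (hBA ω hω))]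

end Pool.SHE33
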