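import Pool.Agent.H33.SHE.Sho

/-!
# The numbers of the class of the sheared zooms: the upper bounds and the rate

`num_bwd`: an upper bound of the number of a coordinate in the class of the zooms. `rate_bwd`: the
rate of the class of the zooms has at most the rescaled increments.
-/

set_option autoImplicit false

namespace Pool.SHE33

open Finset Real MvPolynomial
open Pool.Agent.H49.Ent Pool.Agent.H32.Dense Pool.STK Pool.KA Pool.KSAT Pool.K2S Pool.PB Pool.S6C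
open Pool.GEN Pool.ZCL Pool.TOP Pool.ZLC Pool.ZCO Pool.ONE Pool.PKG
open Pool.LBT (LSys ThrOf)
open Pool.ALL (RateOf numx)
open Pool.SHE3 (zs zs_lt zs_le zs_one zs_self zs_pos zs_lt_one zs_le_one zs_sub zs_inv zs_mono)

variable {n : ℕ} {hn : 2 ≤ n} {S Sb : PCl n} {C₀ : ℝ} {b : ℝ} {p q : Fin n}
  {hu : p ∉ ({q} : Finset (Fin n))}
  {Ψ : ℕ → ∀ (J : ℕ) (F : Fam n J) (_ : F.Ω → Prop), (F.Ω → ℝ) → Prop} {t : Fin n}
  {ch : ℕ → Fin n} {r : ℕ} {Pb : ℝ → ℝ → ℝ} {rb : ℝ → ℝ}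
  {Pb' : ℕ → List (Fin n) × Fin n → ℝ → ℝ → ℝ} {Λb : Finset (Fin n) → Fin n → ℝ → ℝ → ℝ}
  {PBb : ℕ → List (Fin n) × Fin n → ℝ → ℝ → ℝ}

/-- **An upper bound of the number of a coordinate** in the class of the zooms. -/
theorem num_bwd (hC₀ : 0 ≤ C₀) (htm : TmC S C₀) {L : Finset (Fin n) → Fin n → ℝ → ℝ → ℝ}
    (hL : LamW S L) (hb0 : 0 < b) (hb1 : b < 1) (hcl : ShCl S Sb b hu Ψ t ch r)
    (Hb : PkT hn Sb Pb rb Pb' Λb PBb) {I : Finset (Fin n)} (hqI : q ∉ I) {l : Fin n}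
    (hl : l = q → p ∈ I) {w w' ρ ρ' : ℝ} (hbw : b < w) (hww' : w < w') (hw'1 : w' < 1)
    (hρ0 : b ≤ ρ) (hρρ' : ρ < ρ') (hρ'1 : ρ' < 1) :
    Λb I l (zs b w) (zs b ρ) ≤ zs b (L I l w' ρ') := by
  by_contra hcon
  push Not at hcon
  have h01 : 0 < 1 - b := by linarith
  have hlow := hL.low I l w' ρ' hw'1.le
  have hle1 := Hb.lam.le1 I l (zs b w) (zs b ρ)
  obtain ⟨Lb0, hLb0⟩ : ∃ Lb0, Lb0 = Λb I l (zs b w) (zs b ρ) := ⟨_, rfl⟩
  obtain ⟨L', hL'⟩ : ∃ L', L' = L I l w' ρ' := ⟨_, rfl⟩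
  rw [← hLb0] at hcon hle1
  rw [← hL'] at hcon hlow
  have hzL0 : 0 < zs b L' := (zs_pos hb1).2 (by linarith)
  obtain ⟨Pz, hPz1, hPz2⟩ := exists_rat_btwn hcon
  obtain ⟨wz, hwz1, hwz2⟩ := exists_rat_btwn ((zs_lt hb1).2 hww')
  obtain ⟨ρz, hρz1, hρz2⟩ := exists_rat_btwn ((zs_lt hb1).2 hρρ')
  have hzw0 : 0 < zs b w := (zs_pos hb1).2 hbw
  have hzρ0 : 0 ≤ zs b ρ := by
    rw [← zs_self b]
    exact (zs_le hb1).2 hρ0
  have hzw1 : zs b w' < 1 := (zs_lt_one hb1).2 hw'1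
  have hzρ1 : zs b ρ' < 1 := (zs_lt_one hb1).2 hρ'1
  obtain ⟨P₁, hP₁⟩ : ∃ P₁ : ℝ, P₁ = (zs b L' + Pz) / 2 := ⟨_, rfl⟩
  obtain ⟨h, hh⟩ : ∃ h : ℝ, h = b + P₁ * (1 - b) := ⟨_, rfl⟩
  have eL := zs_mul hb1 L'
  have ew := zs_mul hb1 w'
  have eρ := zs_mul hb1 ρ'
  have m0 : zs b L' * (1 - b) < P₁ * (1 - b) := mul_lt_mul_of_pos_right (by
    rw [hP₁]
    linarith) h01
  have m1 : P₁ * (1 - b) < Pz * (1 - b) := mul_lt_mul_of_pos_right (by
    rw [hP₁]
    linarith) h01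
  have m2 : Pz * (1 - b) < 1 * (1 - b) := mul_lt_mul_of_pos_right (by linarith) h01
  have m3 : wz * (1 - b) < zs b w' * (1 - b) := mul_lt_mul_of_pos_right hwz2 h01
  have m4 : ρz * (1 - b) < zs b ρ' * (1 - b) := mul_lt_mul_of_pos_right hρz2 h01
  have hL'h : L I l w' ρ' < h := by
    rw [← hL']
    linarith
  have hh1 : h < 1 := by linarith
  obtain ⟨d, hd, hwd, hno⟩ := hL.abs I l w' ρ' h hL'h hh1.le
  obtain ⟨d', hd'⟩ : ∃ d' : ℝ, d' = min d ((1 - w') / 2) := ⟨_, rfl⟩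
  have hd'0 : 0 < d' := by
    rw [hd']
    exact lt_min hd (by linarith)
  have hd'd : d' ≤ d := by rw [hd']; exact min_le_left _ _
  have hd'w : d' ≤ (1 - w') / 2 := by rw [hd']; exact min_le_right _ _
  have hEz : (0 : ℝ) < min (d' / (1 - b)) ((1 - h) / (1 - b)) :=
    lt_min (div_pos hd'0 h01) (div_pos (by linarith) h01)
  obtain ⟨Ez, hEz1, hEz2⟩ := exists_rat_btwn hEz
  have hEza : Ez * (1 - b) < d' := by
    have := hEz2.trans_le (min_le_left _ _)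
    rwa [lt_div_iff₀ h01] at this
  have hEzb : Ez * (1 - b) < 1 - h := by
    have := hEz2.trans_le (min_le_right _ _)
    rwa [lt_div_iff₀ h01] at this
  obtain ⟨e, he⟩ : ∃ e : ℝ, e = min (Ez : ℝ) (min (ρz - zs b ρ) (Lb0 - Pz)) := ⟨_, rfl⟩
  have he0 : 0 < e := by
    rw [he]
    exact lt_min hEz1 (lt_min (by linarith) (by linarith))
  have hea : e ≤ Ez := by rw [he]; exact min_le_left _ _
  have heb : e ≤ ρz - zs b ρ := by
    rw [he]
    exact (min_le_right _ _).trans (min_le_left _ _)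
  have hec : e ≤ Lb0 - Pz := by
    rw [he]
    exact (min_le_right _ _).trans (min_le_right _ _)
  obtain ⟨K, hK⟩ := Hb.lam.att I l (zs b w) wz (zs b ρ) e (by linarith) (by linarith) hwz1 he0
  have hz := lb_zpr hC₀ htm hb0 hb1 (hu := hu) hqI (k := l) hl (K := K) (E := d') (w := w' + d')
    (ρ := ρ' + d') (P := h) (Ez := Ez) (wz := wz) (ρz := ρz) (Pz := Pz) hEz1.le (by linarith)
    (by linarith) (by linarith) (by linarith) (by linarith) (by linarith) (by linarith) hEza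
    (by linarith) (by linarith) (by linarith) (by linarith) (hno d' hd'd (max K 1))
  have h1 := hcl.lbn I l K Ez wz ρz Pz (zr_ex hz Ψ)
  obtain ⟨τ, hτ, J₀, h2⟩ := h1.and hK
  obtain ⟨J, hJ, G, A, hA⟩ := Hb.ne τ hτ J₀
  obtain ⟨h3, h4⟩ := h2 J hJ G A hA
  have hJr : (0 : ℝ) ≤ J := Nat.cast_nonneg J
  refine h3 (h4.mono (Finset.Subset.refl I) le_rfl
    (Nat.floor_le_floor (mul_le_mul_of_nonneg_right hea hJr)) (le_refl _) (le_refl _) ?_
    (Nat.floor_le_floor (mul_le_mul_of_nonneg_right (by linarith) hJr))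
    (Nat.floor_le_floor (mul_le_mul_of_nonneg_right ?_ hJr)))
  · refine Nat.floor_le_of_le ?_
    calc (wz : ℝ) * J ≤ 1 * J := mul_le_mul_of_nonneg_right (by linarith) hJr
      _ = J := one_mul _
  · rw [← hLb0]
    linarith

/-- The digits of the target: the property of the class of the zooms. -/
theorem dig_cls (htm : TmC S C₀) {rr : ℝ → ℝ} (hr : RateOf S t rr) (hb0 : 0 ≤ b) (hb1 : b < 1)
    (htq : t ≠ q) (htp : t ≠ p) {x y D : ℚ} (hx : 0 ≤ x) (hxy : x ≤ y) (hy : y ≤ 1)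
    (hD : (rr (b + y * (1 - b)) - rr (b + x * (1 - b))) / (1 - b) < D) :
    ∃ k : ℕ, ZPr S b (id : Fin n → Fin n) (ShX b hu (1 / ((k : ℝ) + 1)) (Ψ k))
      (fun J G A => ¬ DgN t x y D J G A) := by
  obtain ⟨s₀, hs₀, hz⟩ := dig_zpr htm hr hb0 hb1 hu htq htp (x := x) (y := y)
    (by exact_mod_cast hx) (by exact_mod_cast hxy) (by exact_mod_cast hy)
    (h := D - (rr (b + y * (1 - b)) - rr (b + x * (1 - b))) / (1 - b)) (by linarith)
  obtain ⟨k, hk⟩ := exists_inv hs₀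
  refine ⟨k, (hz _ hk (Ψ k)).mono fun J G A h1 h2 => ?_⟩
  have h3 : (rr (b + y * (1 - b)) - rr (b + x * (1 - b))) / (1 - b) +
      (D - (rr (b + y * (1 - b)) - rr (b + x * (1 - b))) / (1 - b)) = D := by ring
  rw [h3] at h1
  have h4 : D * Real.log 2 * J + 1 ≤ _ := h2
  linarith

/-- **The rate of the class of the zooms.** -/
theorem rate_bwd (htm : TmC S C₀) {rr : ℝ → ℝ} (hr : RateOf S (lst hn) rr) (hb0 : 0 ≤ b)
    (hb1 : b < 1) (htq : lst hn ≠ q) (htp : lst hn ≠ p)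
    (hcl : ShCl S Sb b hu Ψ (lst hn) ch r) (Hb : PkT hn Sb Pb rb Pb' Λb PBb)
    {x y : ℝ} (hx : b ≤ x) (hxy : x ≤ y) (hy : y ≤ 1) :
    rb (zs b y) - rb (zs b x) ≤ (rr y - rr x) / (1 - b) := by
  have h01 : 0 < 1 - b := by linarith
  have hl2 : 0 < Real.log 2 := Real.log_pos one_lt_two
  rcases hxy.eq_or_lt with rfl | hlt
  · rw [sub_self, sub_self, zero_div]
  have hzx : 0 ≤ zs b x := by
    rw [← zs_self b]
    exact (zs_le hb1).2 hx
  have hzy : zs b y ≤ 1 := (zs_le_one hb1).2 hy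
  have hzz : zs b x < zs b y := (zs_lt hb1).2 hlt
  refine le_of_forall_pos_le_add fun ε hε => ?_
  obtain ⟨x', hx1, hx2⟩ := exists_rat_btwn (show zs b x < min (zs b x + ε / 2)
    ((zs b x + zs b y) / 2) from lt_min (by linarith) (by linarith))
  obtain ⟨y', hy1, hy2⟩ := exists_rat_btwn (show max (zs b y - ε / 2)
    ((zs b x + zs b y) / 2) < zs b y from max_lt (by linarith) (by linarith))
  have hxa := hx2.trans_le (min_le_left _ _)
  have hxb := hx2.trans_le (min_le_right _ _)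
  have hya := (le_max_left _ _).trans_lt hy1
  have hyb := (le_max_right _ _).trans_lt hy1
  have hxy' : (x' : ℝ) ≤ y' := by linarith
  have hx0 : (0 : ℝ) ≤ x' := by linarith
  have hy0 : (y' : ℝ) ≤ 1 := by linarith
  have key := rate_zoom Hb.rate Hb.ne Hb.pos (x := x') (y := y')
    (D := (rr (b + y' * (1 - b)) - rr (b + x' * (1 - b))) / (1 - b)) hx0 hxy' hy0 (fun h hh => by
      obtain ⟨D', hD1, hD2⟩ := exists_rat_btwn (show (rr (b + y' * (1 - b)) -
        rr (b + x' * (1 - b))) / (1 - b) < (rr (b + y' * (1 - b)) -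
        rr (b + x' * (1 - b))) / (1 - b) + h by linarith)
      have h1 := hcl.dig x' y' D' (dig_cls (Ψ := Ψ) htm hr hb0 hb1 htq htp
        (by exact_mod_cast hx0) (by exact_mod_cast hxy') (by exact_mod_cast hy0) hD1)
      obtain ⟨J₁, hJ₁⟩ := lin (1 : ℝ) (mul_pos (sub_pos.2 hD2) hl2)
      refine h1.mono J₁ fun J hJ G A h2 h3 => h2 ?_
      replace hJ := hJ₁ J hJ
      show D' * Real.log 2 * J + 1 ≤ _
      refine le_trans ?_ h3
      have e1 : ((rr (b + y' * (1 - b)) - rr (b + x' * (1 - b))) / (1 - b) + h - D') *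
          Real.log 2 * (J : ℝ) = ((rr (b + y' * (1 - b)) - rr (b + x' * (1 - b))) / (1 - b) + h) *
          Real.log 2 * J - D' * Real.log 2 * J := by ring
      rw [e1] at hJ
      linarith)
  have hlipb := Hb.rate.lip
  have l1 : rb (zs b y) ≤ rb y' + ε / 2 := by
    have h2 := hlipb.dist_le_mul (zs b y) y'
    rw [Real.dist_eq, Real.dist_eq, NNReal.coe_one, one_mul,
      abs_of_pos (show 0 < zs b y - (y' : ℝ) by linarith)] at h2
    have := (abs_le.1 h2).2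
    linarith
  have l2 : (rb x' : ℝ) ≤ rb (zs b x) + ε / 2 := by
    have h2 := hlipb.dist_le_mul (x' : ℝ) (zs b x)
    rw [Real.dist_eq, Real.dist_eq, NNReal.coe_one, one_mul,
      abs_of_pos (show 0 < (x' : ℝ) - zs b x by linarith)] at h2
    have := (abs_le.1 h2).2
    linarith
  have e1 := zs_mul hb1 x
  have e2 := zs_mul hb1 y
  have m1 : zs b x * (1 - b) ≤ x' * (1 - b) := mul_le_mul_of_nonneg_right hx1.le h01.le
  have m2 : y' * (1 - b) ≤ zs b y * (1 - b) := mul_le_mul_of_nonneg_right hy2.le h01.le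
  have n1 := hr.mono (show b + y' * (1 - b) ≤ y by linarith)
  have n2 := hr.mono (show x ≤ b + x' * (1 - b) by linarith)
  have n3 : (rr (b + y' * (1 - b)) - rr (b + x' * (1 - b))) / (1 - b) ≤
      (rr y - rr x) / (1 - b) := div_le_div_of_nonneg_right (by linarith) h01.le
  linarith

end Pool.SHE33
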