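import Pool.Agent.H33.SHE.Shp
import Pool.Agent.H33.SHE.Hoa

/-!
# The numbers of the second package

`shn0_of`: the class of the sheared zooms behind `b` gives `Pool.SHE3.ShN0`. `shn_cls`: it gives
`Pool.SHE3.ShN`. `num_lst`: the labels of the requirement.
-/

set_option autoImplicit false

namespace Pool.SHE33

open MeasureTheory Set Filter Topology
open Pool.Agent.H49.Ent Pool.Agent.H32.Dense Pool.STK Pool.KA Pool.KSAT Pool.K2S Pool.PB
open Pool.GEN Pool.S6C Pool.STAT Pool.CHT Pool.GRW Pool.ONE Pool.STA Pool.PKG Pool.EXW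
open Pool.ZCL Pool.ZLC Pool.ZCO
open Pool.LBT (LSys ThrOf)
open Pool.ALL (RateOf)
open Pool.TOP (T1c T2c TopS Ful RW)
open Pool.SHE3 (zs ShN0 ShN OffB shN_of zs_pos zs_lt zs_le zs_one zs_lt_one zs_sub)

variable {hn : 2 ≤ 4} {S Sb : PCl 4} {P Pb : ℝ → ℝ → ℝ} {r rb : ℝ → ℝ}
  {P' Pb' : ℕ → List (Fin 4) × Fin 4 → ℝ → ℝ → ℝ} {Λ Λb : Finset (Fin 4) → Fin 4 → ℝ → ℝ → ℝ}
  {PB PBb : ℕ → List (Fin 4) × Fin 4 → ℝ → ℝ → ℝ} {o : Od 4} {b : ℝ}

/-- The coordinate `i` is not before the place `i`. -/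
theorem cc_notin (hn : 2 ≤ 4) (o : Od 4) {i : ℕ} (hi : i ≤ 3) :
    cc hn o.1.1 i ∉ (Finset.range i).image (cc hn o.1.1) := by
  intro h
  obtain ⟨j, hj, h1⟩ := Finset.mem_image.1 h
  have hj' := Finset.mem_range.1 hj
  have := cc_inj' hn o.1.1 (i := j) (j := i) (by omega) (by omega) h1
  omega

/-- A bound from bounds with small errors. -/
theorem zs_lim {b x y : ℝ} (hb1 : b < 1) {e₀ : ℝ} (he₀ : 0 < e₀)
    (h : ∀ e : ℝ, 0 < e → e ≤ e₀ → zs b (x - e) ≤ y) : zs b x ≤ y := by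
  have h01 : 0 < 1 - b := by linarith
  refine le_of_forall_pos_le_add fun ε hε => ?_
  obtain ⟨e, he⟩ : ∃ e : ℝ, e = min e₀ (ε * (1 - b)) := ⟨_, rfl⟩
  have he0 : 0 < e := by
    rw [he]
    exact lt_min he₀ (mul_pos hε h01)
  have h1 := h e he0 (by rw [he]; exact min_le_left _ _)
  have h2 := zs_sub b x (x - e)
  have h3 : (x - (x - e)) / (1 - b) ≤ ε := by
    rw [div_le_iff₀ h01, sub_sub_cancel, he]
    exact min_le_right _ _
  linarith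

/-- **The numbers of the second package.** -/
theorem shn0_of (H : PkT hn S P r P' Λ PB) (Hb : PkT hn Sb Pb rb Pb' Λb PBb)
    (hb0 : 0 < b) (hb1 : b < 1) {hu : cc hn o.1.1 1 ∉ ({cc hn o.1.1 2} : Finset (Fin 4))}
    {Ψ : ℕ → ∀ (J : ℕ) (F : Fam 4 J) (_ : F.Ω → Prop), (F.Ω → ℝ) → Prop} {ch : ℕ → Fin 4}
    {rc : ℕ} (hcl : ShCl S Sb b hu Ψ (lst hn) ch rc) : ShN0 hn o b r Λ rb Λb := by
  have hne : ∀ i j : ℕ, i ≤ 3 → j ≤ 3 → i ≠ j → cc hn o.1.1 i ≠ cc hn o.1.1 j := by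
    intro i j hi hj hij h
    exact hij (cc_inj' hn o.1.1 (by omega) (by omega) h)
  have hl3 : lst hn = cc hn o.1.1 3 := (cc_ge hn o.1.1 (by omega)).symm
  have h6 : (0 : ℝ) ≤ 6 := by norm_num
  have hq1 : cc hn o.1.1 2 ∉ (Finset.range 1).image (cc hn o.1.1) := by
    intro h
    obtain ⟨j, hj, h1⟩ := Finset.mem_image.1 h
    have hj' := Finset.mem_range.1 hj
    exact hne j 2 (by omega) (by omega) (by omega) h1
  have hq2 := cc_notin hn o (i := 2) (by norm_num)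
  have hp2 : cc hn o.1.1 1 ∈ (Finset.range 2).image (cc hn o.1.1) :=
    Finset.mem_image.2 ⟨1, Finset.mem_range.2 (by norm_num), rfl⟩
  have fwd : ∀ (I : Finset (Fin 4)) (l : Fin 4), cc hn o.1.1 2 ∉ I →
      (l = cc hn o.1.1 2 → cc hn o.1.1 1 ∈ I) → ∀ w w' ρ ρ' : ℝ, b < w → w < w' → w' < 1 →
      w ≤ ρ → ρ < ρ' → ρ' < 1 → zs b (Λ I l w ρ) ≤ Λb I l (zs b w') (zs b ρ') := by
    intro I l hqI hl w w' ρ ρ' k1 k2 k3 k4 k5 k6
    refine zs_lim hb1 (e₀ := (ρ' - ρ) / 2) (by linarith) fun e he hee => ?_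
    refine num_of h6 H.tmc hb0 hb1 hcl Hb hqI (w := (w + w') / 2) (ρ := ρ + e)
      (P := Λ I l w ρ - e) (by linarith) (by linarith) k3 (by linarith) (by linarith) k6
      (by linarith [H.lam.le1 I l w ρ])
      (fwr_lb H.lam hb0 k1.le (by linarith) (by linarith) he Ψ hl)
  refine ⟨hb0, hb1, fun x y k1 k2 k3 => ?_, fun w w' ρ ρ' k1 k2 k3 k4 k5 k6 => ⟨?_, ?_⟩,
    fun w w' ρ ρ' k1 k2 k3 k4 k5 k6 => ⟨?_, ?_⟩, fun w w' k1 k2 k3 => ?_⟩
  · exact rate_bwd H.tmc H.rate hb0.le hb1 (by rw [hl3]; exact hne 3 2 le_rfl (by omega) (by omega))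
      (by rw [hl3]; exact hne 3 1 le_rfl (by omega) (by omega)) hcl Hb k1 k2 k3
  · exact fwd _ _ hq1 (fun h => absurd h (hne 1 2 (by omega) (by omega) (by omega)))
      w w' ρ ρ' k1 k2 k3 k4 k5 k6
  · exact num_bwd h6 H.tmc H.lam hb0 hb1 hcl Hb hq1
      (fun h => absurd h (hne 1 2 (by omega) (by omega) (by omega))) k1 k2 k3 (by linarith) k5 k6
  · exact fwd _ _ hq2 (fun _ => hp2) w w' ρ ρ' k1 k2 k3 k4 k5 k6
  · exact num_bwd h6 H.tmc H.lam hb0 hb1 hcl Hb hq2 (fun _ => hp2) k1 k2 k3 (by linarith) k5 k6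
  · refine zs_lim hb1 (e₀ := (w' - w) / 4) (by linarith) fun e he hee => ?_
    refine num_of h6 H.tmc hb0 hb1 hcl Hb hq1 (w := (w + w') / 2) (ρ := w + e)
      (P := min (Λ ((Finset.range 1).image (cc hn o.1.1)) (cc hn o.1.1 1) w w)
        (Λ ((Finset.range 1).image (cc hn o.1.1)) (cc hn o.1.1 2) w w) - e) (by linarith)
      (by linarith) k3 (by linarith) (by linarith) k3 (by
        have h1 := H.lam.le1 ((Finset.range 1).image (cc hn o.1.1)) (cc hn o.1.1 1) w w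
        linarith [min_le_left (Λ ((Finset.range 1).image (cc hn o.1.1)) (cc hn o.1.1 1) w w)
          (Λ ((Finset.range 1).image (cc hn o.1.1)) (cc hn o.1.1 2) w w)])
      (fwr_min H.lam hb0 k1.le (by linarith) (by linarith) he Ψ)

/-- **The numbers of the second package**, also the thresholds of the target. -/
theorem shn_cls (H : PkT hn S P r P' Λ PB) (Hb : PkT hn Sb Pb rb Pb' Λb PBb) (hTop : TopS 4)
    (hZ : ∀ k, 1 ≤ k → k < 4 → FZX k) (hW : 3 ≤ 4 → Pool.TOP.RW (4 - 1))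
    (hb0 : 0 < b) (hb1 : b < 1) {hu : cc hn o.1.1 1 ∉ ({cc hn o.1.1 2} : Finset (Fin 4))}
    {Ψ : ℕ → ∀ (J : ℕ) (F : Fam 4 J) (_ : F.Ω → Prop), (F.Ω → ℝ) → Prop}
    (hcl : ShCl S Sb b hu Ψ (lst hn) (cc hn o.1.1) 4) : ShN hn o b P r P' Λ Pb rb Pb' Λb := by
  have N := shn0_of H Hb hb0 hb1 hcl
  refine shN_of N H hTop (hZ 3 (by norm_num) (by norm_num)) (off_ae N H Hb hTop hZ hW hu ?_ ?_ ?_)
  · intro i hi h
    have h1 : i = 2 := cc_inj' hn o.1.1 (by omega) (by omega) h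
    exact ⟨1, by omega, rfl⟩
  · intro K j az wz Pz h
    exact hcl.tmn K j az wz Pz (zr_ex h Ψ)
  · intro K az wz E x Pz h
    exact hcl.che K az wz E x Pz (zr_ex h Ψ)

/-- **The labels of the requirement.** -/
theorem num_lst (H : PkT hn S P r P' Λ PB) (Hb : PkT hn Sb Pb rb Pb' Λb PBb)
    (hb0 : 0 < b) (hb1 : b < 1) {hu : cc hn o.1.1 1 ∉ ({cc hn o.1.1 2} : Finset (Fin 4))}
    {ws es Ds : ℕ → ℝ} {ch : ℕ → Fin 4} {rc : ℕ}
    (hcl : ShCl S Sb b hu (PsL (cc hn o.1.1 0) (cc hn o.1.1 1) (cc hn o.1.1 2) ws es Ds)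
      (lst hn) ch rc) {w D : ℝ} (hw : ∀ e : ℝ, 0 < e → ∃ i, ws i = w ∧ Ds i = D ∧ es i ≤ e)
    (hbw : b ≤ w) (hD1 : D ≤ 1) {w' ρ' : ℝ} (hww' : w < w') (hw'1 : w' < 1) (hρ'0 : b < ρ')
    (hρ'1 : ρ' < 1) :
    zs b D ≤ Λb ((Finset.range 1).image (cc hn o.1.1)) (cc hn o.1.1 2) (zs b w') (zs b ρ') := by
  have h6 : (0 : ℝ) ≤ 6 := by norm_num
  have e1 : (Finset.range 1).image (cc hn o.1.1) = {cc hn o.1.1 0} := by
    rw [Finset.range_one, Finset.image_singleton]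
  rw [e1]
  have hq1 : cc hn o.1.1 2 ∉ ({cc hn o.1.1 0} : Finset (Fin 4)) := by
    rw [Finset.mem_singleton]
    intro h
    have := cc_inj' hn o.1.1 (i := 2) (j := 0) (by omega) (by omega) h
    omega
  refine zs_lim hb1 (e₀ := 1) one_pos fun e he _ => ?_
  exact num_of h6 H.tmc hb0 hb1 hcl Hb hq1 (w := w) (ρ := b) (P := D - e) hbw hww' hw'1 le_rfl
    hρ'0 hρ'1 (by linarith) (fwr_lh hw he (by linarith) b)

end Pool.SHE33
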