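import Pool.Agent.H33.SHE.Shq
import Pool.Agent.H66.ATS.Atl
import Pool.Agent.H3.SHE.Cel

/-!
# The second package

`zreq_ats`: the requirements on the coefficient, from the closed labels of the sheared coordinate for
a sequence of windows. `she_pkg`: the package behind the window `b`.
-/

set_option autoImplicit false

namespace Pool.SHE33

open MeasureTheory Set Filter Topology
open Pool.Agent.H49.Ent Pool.Agent.H32.Dense Pool.STK Pool.KA Pool.KSAT Pool.K2S Pool.PB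
open Pool.GEN Pool.S6C Pool.STAT Pool.CHT Pool.GRW Pool.ONE Pool.STA Pool.PKG Pool.EXW
open Pool.ZCL Pool.ZLC Pool.ZCO
open Pool.LBT (LSys ThrOf)
open Pool.ALL (RateOf)
open Pool.TOP (T1c T2c TopS Ful RW)
open Pool.AT66 (AtS ats_lst)
open Pool.OWN17 (Gdw)
open Pool.OWN72 (gs_act)

/-- **The requirements can be satisfied.** -/
theorem zreq_ats {m : ℕ} {S : PCl m} (hS : S.Ne) {C₀ : ℝ} (hC₀ : 0 ≤ C₀) (htm : TmC S C₀)
    {L : Finset (Fin m) → Fin m → ℝ → ℝ → ℝ} (hL : LamW S L) {y u v : Fin m} (hyu : y ≠ u)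
    (hyv : y ≠ v) (hu : u ∉ ({v} : Finset (Fin m))) (hact : Pool.MIC6.ActF S y) {b : ℝ}
    (hG : Gdw L y u v b) {ws es Ds : ℕ → ℝ} (he : ∀ i, 0 < es i)
    (h : ∀ i, AtS S y u v b (L {y, u} v b b) (ws i) (Ds i)) :
    ZReq S b y 2 (fun k : ℕ => ShX b hu (1 / ((k : ℝ) + 1)) (PsL y u v ws es Ds k)) := by
  intro Lt
  obtain ⟨K, hK⟩ : ∃ K : ℕ, ∀ k ∈ Lt, k ≤ K := ⟨Lt.sum, fun k hk => List.single_le_sum
    (fun _ _ => Nat.zero_le _) k hk⟩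
  obtain ⟨K₁, hK₁, h1⟩ := ats_lst hS hC₀ htm hL hyu hact hG (x := 1 / ((K : ℝ) + 1))
    (by positivity) K (w := ws) (e := es) (D := Ds) (fun i _ => he i) (fun i _ => h i)
  refine zcof_of_bas hS hK₁ (Bas.mono 0 h1 ?_)
  rintro J - F A ⟨B, a, h2, h3, ⟨φ, h4⟩, h5, h6⟩
  refine ⟨B, h2, h3, Fin 4 → ℝ, shC (fun a _ => a 3) u {v} hu
    (fun _ => ⌊1 / ((K : ℝ) + 1) * J⌋₊), φ, fun s => a s, h4, ⟨shC_bd _ u {v} hu _, fun k x =>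
      shC_not (by rw [Finset.mem_singleton]; exact hyv) k x⟩, fun k hk => ?_⟩
  have hJ : (0 : ℝ) ≤ J := Nat.cast_nonneg J
  have h7 : (k : ℝ) ≤ K := by exact_mod_cast hK k hk
  refine ⟨fun a _ => a 3, fun _ => ⌊1 / ((K : ℝ) + 1) * J⌋₊, rfl, ?_, h5, fun i hi ρ =>
    h6 i (lt_of_lt_of_le hi (hK k hk)) ρ⟩
  have h8 : 1 / ((K : ℝ) + 1) ≤ 1 / ((k : ℝ) + 1) :=
    one_div_le_one_div_of_le (by positivity) (by linarith)
  have h9 := mul_le_mul_of_nonneg_right h8 hJ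
  have h10 : (⌊1 / ((K : ℝ) + 1) * J⌋₊ : ℝ) ≤ 1 / ((K : ℝ) + 1) * J :=
    Nat.floor_le (by positivity)
  linarith

/-- **The package behind the window** `b`. -/
theorem she_pkg {hn : 2 ≤ 4} {S : PCl 4} {P : ℝ → ℝ → ℝ} {r : ℝ → ℝ}
    {P' : ℕ → List (Fin 4) × Fin 4 → ℝ → ℝ → ℝ} {Λ : Finset (Fin 4) → Fin 4 → ℝ → ℝ → ℝ}
    {PB : ℕ → List (Fin 4) × Fin 4 → ℝ → ℝ → ℝ} (H : PkT hn S P r P' Λ PB) (o : Od 4) {b : ℝ}
    (hb0 : 0 < b) (hb1 : b < 1) (hG : Gdw Λ (cc hn o.1.1 0) (cc hn o.1.1 1) (cc hn o.1.1 2) b)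
    (hu : cc hn o.1.1 1 ∉ ({cc hn o.1.1 2} : Finset (Fin 4))) {ws es Ds : ℕ → ℝ}
    (he : ∀ i, 0 < es i)
    (h : ∀ i, AtS S (cc hn o.1.1 0) (cc hn o.1.1 1) (cc hn o.1.1 2) b
      (Λ {cc hn o.1.1 0, cc hn o.1.1 1} (cc hn o.1.1 2) b b) (ws i) (Ds i)) :
    ∃ (Sb : PCl 4) (Pb : ℝ → ℝ → ℝ) (rb : ℝ → ℝ) (Pb' : ℕ → List (Fin 4) × Fin 4 → ℝ → ℝ → ℝ)
      (Λb : Finset (Fin 4) → Fin 4 → ℝ → ℝ → ℝ)
      (PBb : ℕ → List (Fin 4) × Fin 4 → ℝ → ℝ → ℝ), PkT hn Sb Pb rb Pb' Λb PBb ∧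
      ShCl S Sb b hu (PsL (cc hn o.1.1 0) (cc hn o.1.1 1) (cc hn o.1.1 2) ws es Ds)
        (lst hn) (cc hn o.1.1) 4 := by
  obtain ⟨al, g₀, s, d, e, K₀, N, hal, hg₀, hC⟩ := H.cl
  have hne : ∀ i j : ℕ, i ≤ 3 → j ≤ 3 → i ≠ j → cc hn o.1.1 i ≠ cc hn o.1.1 j := by
    intro i j hi hj hij h
    exact hij (cc_inj' hn o.1.1 (by omega) (by omega) h)
  have hl3 : lst hn = cc hn o.1.1 3 := (cc_ge hn o.1.1 (by omega)).symm
  have h6 : (0 : ℝ) ≤ 6 := by norm_num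
  have h1 : cc hn o.1.1 0 = bse (o.1.1 ⟨0, by omega⟩) := cc_lt hn _ (by omega)
  have h0 : ((cc hn o.1.1 0 : Fin 4) : ℕ) = 0 := by
    rw [h1]
    exact o.1.2 _ rfl
  have hD := zreq_ats hC.ne h6 H.tmc H.lam (hne 0 1 (by omega) (by omega) (by omega))
    (hne 0 2 (by omega) (by omega) (by omega)) hu (gs_act H.toPk o) hG he h
  exact shcl_ex hn h6 H.tmc hal hg₀ hC.actm h0 (hC.actb _ h0) hb0 hb1 hD (lst hn)
    (cc hn o.1.1) (r := 4) (by norm_num) (x₀ := 0) (y₀ := 0) (D₀ := 1)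
    (dig_cls H.tmc H.rate hb0.le hb1 (by rw [hl3]; exact hne 3 2 le_rfl (by omega) (by omega))
      (by rw [hl3]; exact hne 3 1 le_rfl (by omega) (by omega)) le_rfl le_rfl (by norm_num)
      (by
        have e1 : (r (b + ((0 : ℚ) : ℝ) * (1 - b)) - r (b + ((0 : ℚ) : ℝ) * (1 - b))) /
          (1 - b) = 0 := by rw [sub_self, zero_div]
        rw [e1]
        norm_num))

end Pool.SHE33
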