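import Pool.Agent.H33.SHE.Shr

/-!
# The supply of the second packages

`rdense`: countably many points which approximate all points of a set from the right. `sup_at`: the
supply `Pool.SHE3.SupAt` of one class. `lShe`: the statement `Pool.SHE3.LShe`.
-/

set_option autoImplicit false

namespace Pool.SHE33

open MeasureTheory Set Filter Topology
open Pool.Agent.H49.Ent Pool.Agent.H32.Dense Pool.STK Pool.KA Pool.KSAT Pool.K2S Pool.PB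
open Pool.GEN Pool.S6C Pool.STAT Pool.CHT Pool.GRW Pool.ONE Pool.STA Pool.PKG Pool.EXW
open Pool.ZCL Pool.ZLC Pool.ZCO Pool.ASM
open Pool.LBT (LSys ThrOf)
open Pool.ALL (RateOf)
open Pool.TOP (T1c T2c TopS Ful RW)
open Pool.AT66 (AtS ats_ae)
open Pool.OWN17 (Gdw)
open Pool.SHE3 (zs ShN SupAt LShe zs_le)

/-- **Countably many points of a set** which approximate all its points from the right. -/
theorem rdense (V : Set ℝ) : ∃ D : Set ℝ, D.Countable ∧ D ⊆ V ∧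
    ∀ w ∈ V, ∀ w' : ℝ, w < w' → ∃ d ∈ D, w ≤ d ∧ d < w' := by
  classical
  obtain ⟨D₁, hD₁⟩ : ∃ D₁ : Set ℝ, D₁ = {x ∈ V | 𝓝[V ∩ Ioi x] x = ⊥} := ⟨_, rfl⟩
  have h1 : D₁.Countable := by
    rw [hD₁]
    exact countable_setOfPred_isolated_right_within
  obtain ⟨f, hf⟩ : ∃ f : ℚ × ℚ → Set ℝ, f = fun p =>
    if h : (V ∩ Ioo (p.1 : ℝ) p.2).Nonempty then {h.some} else ∅ := ⟨_, rfl⟩
  have h2 : ∀ p, (f p).Countable ∧ f p ⊆ V ∧ ((V ∩ Ioo (p.1 : ℝ) p.2).Nonempty →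
      ∃ d ∈ f p, d ∈ V ∩ Ioo (p.1 : ℝ) p.2) := by
    intro p
    rw [hf]
    beta_reduce
    by_cases h : (V ∩ Ioo (p.1 : ℝ) p.2).Nonempty
    · rw [dif_pos h]
      exact ⟨countable_singleton _, singleton_subset_iff.2 h.some_mem.1,
        fun _ => ⟨h.some, mem_singleton _, h.some_mem⟩⟩
    · rw [dif_neg h]
      exact ⟨countable_empty, empty_subset _, fun h3 => absurd h3 h⟩
  refine ⟨D₁ ∪ ⋃ p, f p, h1.union (countable_iUnion fun p => (h2 p).1), union_subset ?_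
    (iUnion_subset fun p => (h2 p).2.1), fun w hw w' hww' => ?_⟩
  · rw [hD₁]
    exact fun x hx => hx.1
  · by_cases hw1 : w ∈ D₁
    · exact ⟨w, Or.inl hw1, le_rfl, hww'⟩
    · have h3 : (V ∩ Ioo w w').Nonempty := by
        by_contra h3
        apply hw1
        rw [hD₁]
        refine ⟨hw, ?_⟩
        rw [← empty_mem_iff_bot, mem_nhdsWithin]
        refine ⟨Iio w', isOpen_Iio, hww', fun x hx => ?_⟩
        exact h3 ⟨x, hx.2.1, hx.2.2, hx.1⟩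
      obtain ⟨v, hv, hv1, hv2⟩ := h3
      obtain ⟨p, hp1, hp2⟩ := exists_rat_btwn hv1
      obtain ⟨q, hq1, hq2⟩ := exists_rat_btwn hv2
      obtain ⟨d, hd, -, hd2, hd3⟩ := (h2 (p, q)).2.2 ⟨v, hv, hp2, hq1⟩
      exact ⟨d, Or.inr (mem_iUnion.2 ⟨(p, q), hd⟩), (hp1.trans hd2).le, hd3.trans hq2⟩

/-- Countably many points of a set with a countable complement, in the unit interval. -/
theorem cdense {C : Set ℝ} (hC : Cᶜ.Countable) : ∃ b : ℕ → ℝ,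
    (∀ i, b i ∈ C ∧ 0 < b i ∧ b i < 1) ∧
    ∀ u v : ℝ, 0 ≤ u → u < v → v ≤ 1 → ∃ i, u < b i ∧ b i < v := by
  have hd : ∀ u v : ℝ, u < v → ∃ x ∈ C, u < x ∧ x < v := by
    intro u v huv
    have h1 : Dense C := by
      have := hC.dense_compl ℝ
      rwa [compl_compl] at this
    obtain ⟨x, hx1, hx2⟩ := h1.inter_open_nonempty (Ioo u v) isOpen_Ioo (nonempty_Ioo.2 huv)
    exact ⟨x, hx2, hx1.1, hx1.2⟩
  obtain ⟨D, hD, hDV, h⟩ := rdense (C ∩ Ioo 0 1)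
  have key : ∀ u v : ℝ, 0 ≤ u → u < v → v ≤ 1 → ∃ d ∈ D, u < d ∧ d < v := by
    intro u v hu huv hv
    obtain ⟨x, hx, hx1, hx2⟩ := hd u v huv
    obtain ⟨d, hd1, hd2, hd3⟩ := h x ⟨hx, by linarith, by linarith⟩ v hx2
    exact ⟨d, hd1, by linarith, hd3⟩
  obtain ⟨d₀, hd₀, -, -⟩ := key 0 1 le_rfl one_pos le_rfl
  obtain ⟨b, hb⟩ := hD.exists_eq_range ⟨d₀, hd₀⟩
  refine ⟨b, fun i => ?_, fun u v hu huv hv => ?_⟩
  · have h1 : b i ∈ D := by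
      rw [hb]
      exact mem_range_self i
    exact ⟨(hDV h1).1, (hDV h1).2.1, (hDV h1).2.2⟩
  · obtain ⟨d, hd1, hd2, hd3⟩ := key u v hu huv hv
    rw [hb] at hd1
    obtain ⟨i, hi⟩ := hd1
    exact ⟨i, by rw [hi]; exact hd2, by rw [hi]; exact hd3⟩

/-- A list of points, each with arbitrarily small errors. -/
theorem lst_err {D : Set ℝ} (hD : D.Countable) (hne : D.Nonempty) (f : ℝ → ℝ) :
    ∃ ws es Ds : ℕ → ℝ, (∀ i, 0 < es i) ∧ (∀ i, ws i ∈ D ∧ Ds i = f (ws i)) ∧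
      ∀ w ∈ D, ∀ e : ℝ, 0 < e → ∃ i, ws i = w ∧ Ds i = f w ∧ es i ≤ e := by
  obtain ⟨d, hd⟩ := hD.exists_eq_range hne
  refine ⟨fun i => d i.unpair.1, fun i => 1 / ((i.unpair.2 : ℝ) + 1), fun i => f (d i.unpair.1),
    fun i => by positivity, fun i => ⟨by rw [hd]; exact mem_range_self _, rfl⟩,
    fun w hw e he => ?_⟩
  rw [hd] at hw
  obtain ⟨k, hk⟩ := hw
  obtain ⟨j, hj⟩ := exists_inv he
  refine ⟨Nat.pair k j, ?_, ?_, ?_⟩
  · simp only [Nat.unpair_pair]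
    exact hk
  · simp only [Nat.unpair_pair]
    rw [hk]
  · simp only [Nat.unpair_pair]
    exact hj

variable {hn : 2 ≤ 4} {S : PCl 4} {P : ℝ → ℝ → ℝ} {r : ℝ → ℝ}
  {P' : ℕ → List (Fin 4) × Fin 4 → ℝ → ℝ → ℝ} {Λ : Finset (Fin 4) → Fin 4 → ℝ → ℝ → ℝ}
  {PB : ℕ → List (Fin 4) × Fin 4 → ℝ → ℝ → ℝ}

/-- **The second package for a set of windows.** -/
theorem she_set (H : PkT hn S P r P' Λ PB) (hTop : TopS 4)
    (hZ : ∀ k, 1 ≤ k → k < 4 → FZX k) (hW : 3 ≤ 4 → Pool.TOP.RW (4 - 1)) (o : Od 4) {b : ℝ}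
    (hb0 : 0 < b) (hb1 : b < 1) (hG : Gdw Λ (cc hn o.1.1 0) (cc hn o.1.1 1) (cc hn o.1.1 2) b)
    {V : Set ℝ} (hne : V.Nonempty) (hV : ∀ g ∈ V, b < g ∧ g < 1 ∧
      LvL hn P P' o 2 g g ≤ 1 ∧ AtS S (cc hn o.1.1 0) (cc hn o.1.1 1) (cc hn o.1.1 2) b
        (Λ {cc hn o.1.1 0, cc hn o.1.1 1} (cc hn o.1.1 2) b b) g (LvL hn P P' o 2 g g)) :
    ∃ (Sb : PCl 4) (Pb : ℝ → ℝ → ℝ) (rb : ℝ → ℝ) (Pb' : ℕ → List (Fin 4) × Fin 4 → ℝ → ℝ → ℝ)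
      (Λb : Finset (Fin 4) → Fin 4 → ℝ → ℝ → ℝ) (PBb : ℕ → List (Fin 4) × Fin 4 → ℝ → ℝ → ℝ),
      PkT hn Sb Pb rb Pb' Λb PBb ∧ ShN hn o b P r P' Λ Pb rb Pb' Λb ∧
      ∀ w ∈ V, b < w → w < 1 → ∃ ρ < 1, ∀ w' : ℝ, w < w' → w' < 1 →
        zs b (LvL hn P P' o 2 w w) ≤
          Λb ((Finset.range 1).image (cc hn o.1.1)) (cc hn o.1.1 2) (zs b w') (zs b ρ) := by
  have hu : cc hn o.1.1 1 ∉ ({cc hn o.1.1 2} : Finset (Fin 4)) := by
    rw [Finset.mem_singleton]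
    intro h
    have := cc_inj' hn o.1.1 (i := 1) (j := 2) (by omega) (by omega) h
    omega
  obtain ⟨D, hD, hDV, h⟩ := rdense V
  have hDne : D.Nonempty := by
    obtain ⟨w, hw⟩ := hne
    obtain ⟨d, hd, -, -⟩ := h w hw (w + 1) (by linarith)
    exact ⟨d, hd⟩
  obtain ⟨ws, es, Ds, h1, h2, h3⟩ := lst_err hD hDne (fun g => LvL hn P P' o 2 g g)
  obtain ⟨Sb, Pb, rb, Pb', Λb, PBb, Hb, hcl⟩ := she_pkg H o hb0 hb1 hG hu
    (ws := ws) (es := es) (Ds := Ds) h1 fun i => by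
    rw [(h2 i).2]
    exact (hV _ (hDV (h2 i).1)).2.2.2
  refine ⟨Sb, Pb, rb, Pb', Λb, PBb, Hb, shn_cls H Hb hTop hZ hW hb0 hb1 hcl,
    fun w hw hbw hw1 => ⟨(b + 1) / 2, by linarith, fun w' hww' hw'1 => ?_⟩⟩
  obtain ⟨d, hd, hwd, hdw'⟩ := h w hw w' hww'
  obtain ⟨k1, k2, k3, -⟩ := hV d (hDV hd)
  have h4 := num_lst H Hb hb0 hb1 hcl (w := d) (D := LvL hn P P' o 2 d d)
    (fun e he => h3 d hd e he) k1.le k3 hdw' hw'1 (ρ' := (b + 1) / 2) (by linarith) (by linarith)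
  have h5 : LvL hn P P' o 2 w w ≤ LvL hn P P' o 2 d d :=
    ((H.lawL o 2).mono_a w d w (by linarith) le_rfl hwd (by linarith)).trans
      ((H.lawL o 2).mono_w d w d (by linarith) hwd le_rfl (by linarith))
  exact ((zs_le hb1).2 h5).trans h4

/-- **The supply of the second packages**, one class. -/
theorem sup_at (H : PkT hn S P r P' Λ PB) (hTop : TopS 4) (hF : FZX (4 - 1))
    (hZ : ∀ k, 1 ≤ k → k < 4 → FZX k) (hW : 3 ≤ 4 → Pool.TOP.RW (4 - 1)) (h : ℝ) :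
    SupAt H hTop hF h := by
  intro o
  have hc : ({g | ContinuousAt (fun W => Λ {cc hn o.1.1 0} (cc hn o.1.1 1) W W) g ∧
      ContinuousAt (fun W => Λ {cc hn o.1.1 0, cc hn o.1.1 1} (cc hn o.1.1 2) W W) g} :
        Set ℝ)ᶜ.Countable := by
    refine ((Pool.OWN17.cnt_L H.toPk.lam {cc hn o.1.1 0} (cc hn o.1.1 1)).2.union
      (Pool.OWN17.cnt_L H.toPk.lam {cc hn o.1.1 0, cc hn o.1.1 1} (cc hn o.1.1 2)).2).mono
        fun g hg => ?_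
    by_contra hcon
    rw [mem_union, not_or] at hcon
    exact hg ⟨not_not.1 hcon.1, not_not.1 hcon.2⟩
  obtain ⟨b, hb, hbd⟩ := cdense hc
  refine ⟨b, fun i => {g | b i < g ∧ g < 1 ∧ LvL hn P P' o 2 g g ≤ 1 ∧
    AtS S (cc hn o.1.1 0) (cc hn o.1.1 1) (cc hn o.1.1 2) (b i)
      (Λ {cc hn o.1.1 0, cc hn o.1.1 1} (cc hn o.1.1 2) (b i) (b i)) g (LvL hn P P' o 2 g g) ∧
    Gdw Λ (cc hn o.1.1 0) (cc hn o.1.1 1) (cc hn o.1.1 2) (b i)}, fun i hi => ?_, ?_⟩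
  · obtain ⟨g₀, hg₀⟩ := hi
    exact she_set H hTop hZ hW o (hb i).2.1 (hb i).2.2 hg₀.2.2.2.2 ⟨g₀, hg₀⟩
      fun g hg => ⟨hg.1, hg.2.1, hg.2.2.1, hg.2.2.2.1⟩
  · filter_upwards [ats_ae H hTop hF (by norm_num) o] with g hg R _ _ _ k2 hs1 _ _ _
    have hmem : g ∈ Gs P r P' Λ o := R.rwd.mem
    have g0 : 0 < g := hmem.1.1.1
    have g1 : g < 1 := hmem.1.1.2.1
    have h1 : deriv (fun a => LvL hn P P' o 2 a a) g = 1 := k2
    obtain ⟨δ, hδ, h2⟩ := hg hmem hs1 (by rw [h1]; exact hs1)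
    obtain ⟨i, hi1, hi2⟩ := hbd (max (g - δ) 0) g (le_max_right _ _)
      (max_lt (by linarith) g0) g1.le
    obtain ⟨h3, h4⟩ := h2 (b i) (lt_of_le_of_lt (le_max_left _ _) hi1) hi2
    exact ⟨i, ⟨hi2, g1, (lev_lt' H.toPk hTop hF hmem (by norm_num)).le, h4,
      h3 (hb i).1.1 (hb i).1.2⟩, hi2⟩

/-- **The supply of the second packages**, all classes. -/
theorem lShe : LShe := fun hi => Tol.of_all fun _ _ _ hn hZ hF hTop _ _ _ _ _ _ _ _ _ _ H =>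
  sup_at H hTop hF hZ (fun _ => Pool.TOP.rw_all hZ (fun k k1 k2 => rowN_of_ext (hi k k1 k2)) 3
    (by norm_num) (by norm_num)) _

end Pool.SHE33
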