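import Pool.Agent.H33.SHE.Shs

/-!
# The second package for a set of windows

`she_setr`: the second package for a set of windows, all radii. `win_ae`: almost all windows are in
such a set.
-/

set_option autoImplicit false

namespace Pool.SHE33

open MeasureTheory Set Filter Topology
open Pool.Agent.H49.Ent Pool.Agent.H32.Dense Pool.STK Pool.KA Pool.KSAT Pool.K2S Pool.PB
open Pool.GEN Pool.S6C Pool.STAT Pool.CHT Pool.GRW Pool.ONE Pool.STA Pool.PKG Pool.EXW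
open Pool.ZCL Pool.ZLC Pool.ZCO Pool.ASM
open Pool.LBT (LSys ThrOf)
open Pool.ALL (RateOf)
open Pool.TOP (T1c T2c TopS Ful RW)
open Pool.AT66 (AtS ats_ae)
open Pool.OWN17 (Gdw)
open Pool.SHE3 (zs ShN zs_le)

variable {hn : 2 ≤ 4} {S : PCl 4} {P : ℝ → ℝ → ℝ} {r : ℝ → ℝ}
  {P' : ℕ → List (Fin 4) × Fin 4 → ℝ → ℝ → ℝ} {Λ : Finset (Fin 4) → Fin 4 → ℝ → ℝ → ℝ}
  {PB : ℕ → List (Fin 4) × Fin 4 → ℝ → ℝ → ℝ}

/-- **The second package for a set of windows**, all radii. -/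
theorem she_setr (H : PkT hn S P r P' Λ PB) (hTop : TopS 4)
    (hZ : ∀ k, 1 ≤ k → k < 4 → FZX k) (hW : 3 ≤ 4 → Pool.TOP.RW (4 - 1)) (o : Od 4) {b : ℝ}
    (hb0 : 0 < b) (hb1 : b < 1) (hG : Gdw Λ (cc hn o.1.1 0) (cc hn o.1.1 1) (cc hn o.1.1 2) b)
    {V : Set ℝ} (hne : V.Nonempty) (hV : ∀ g ∈ V, b < g ∧ g < 1 ∧
      LvL hn P P' o 2 g g ≤ 1 ∧ AtS S (cc hn o.1.1 0) (cc hn o.1.1 1) (cc hn o.1.1 2) b
        (Λ {cc hn o.1.1 0, cc hn o.1.1 1} (cc hn o.1.1 2) b b) g (LvL hn P P' o 2 g g)) :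
    ∃ (Sb : PCl 4) (Pb : ℝ → ℝ → ℝ) (rb : ℝ → ℝ) (Pb' : ℕ → List (Fin 4) × Fin 4 → ℝ → ℝ → ℝ)
      (Λb : Finset (Fin 4) → Fin 4 → ℝ → ℝ → ℝ) (PBb : ℕ → List (Fin 4) × Fin 4 → ℝ → ℝ → ℝ),
      PkT hn Sb Pb rb Pb' Λb PBb ∧ ShN hn o b P r P' Λ Pb rb Pb' Λb ∧
      ∀ w ∈ V, ∀ w' ρ : ℝ, w < w' → w' < 1 → b < ρ → ρ < 1 → zs b (LvL hn P P' o 2 w w) ≤
        Λb ((Finset.range 1).image (cc hn o.1.1)) (cc hn o.1.1 2) (zs b w') (zs b ρ) := by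
  have hu : cc hn o.1.1 1 ∉ ({cc hn o.1.1 2} : Finset (Fin 4)) := by
    rw [Finset.mem_singleton]
    intro h
    have := cc_inj' hn o.1.1 (i := 1) (j := 2) (by omega) (by omega) h
    omega
  obtain ⟨D, hD, hDV, h⟩ := rdense V
  have hDne : D.Nonempty := by
    obtain ⟨w, hw⟩ := hne
    obtain ⟨d, hd, -, -⟩ := h w hw (w + 1) (by linarith)
    exact ⟨d, hd⟩
  obtain ⟨ws, es, Ds, h1, h2, h3⟩ := lst_err hD hDne (fun g => LvL hn P P' o 2 g g)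
  obtain ⟨Sb, Pb, rb, Pb', Λb, PBb, Hb, hcl⟩ := she_pkg H o hb0 hb1 hG hu
    (ws := ws) (es := es) (Ds := Ds) h1 fun i => by
    rw [(h2 i).2]
    exact (hV _ (hDV (h2 i).1)).2.2.2
  refine ⟨Sb, Pb, rb, Pb', Λb, PBb, Hb, shn_cls H Hb hTop hZ hW hb0 hb1 hcl,
    fun w hw w' ρ hww' hw'1 hρ0 hρ1 => ?_⟩
  obtain ⟨hbw, hw1, -, -⟩ := hV w hw
  obtain ⟨d, hd, hwd, hdw'⟩ := h w hw w' hww'
  obtain ⟨k1, k2, k3, -⟩ := hV d (hDV hd)
  have h4 := num_lst H Hb hb0 hb1 hcl (w := d) (D := LvL hn P P' o 2 d d)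
    (fun e he => h3 d hd e he) k1.le k3 hdw' hw'1 hρ0 hρ1
  have h5 : LvL hn P P' o 2 w w ≤ LvL hn P P' o 2 d d :=
    ((H.lawL o 2).mono_a w d w (by linarith) le_rfl hwd (by linarith)).trans
      ((H.lawL o 2).mono_w d w d (by linarith) hwd le_rfl (by linarith))
  exact ((zs_le hb1).2 h5).trans h4

/-- **The earlier windows** behind which there are second packages: they cover almost all windows
where the place 1 is faster than the place 2. -/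
theorem win_ae (H : PkT hn S P r P' Λ PB) (hTop : TopS 4) (hF : FZX (4 - 1)) (o : Od 4) :
    ∃ b : ℕ → ℝ, (∀ i, 0 < b i ∧ b i < 1) ∧ ∀ᵐ g : ℝ, g ∈ Gs P r P' Λ o →
      1 < deriv (fun a => LvL hn P P' o 1 a a) g →
      deriv (fun a => LvL hn P P' o 2 a a) g < deriv (fun a => LvL hn P P' o 1 a a) g →
      ∃ i, b i < g ∧ g < 1 ∧ LvL hn P P' o 2 g g ≤ 1 ∧
        AtS S (cc hn o.1.1 0) (cc hn o.1.1 1) (cc hn o.1.1 2) (b i)
          (Λ {cc hn o.1.1 0, cc hn o.1.1 1} (cc hn o.1.1 2) (b i) (b i)) g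
          (LvL hn P P' o 2 g g) ∧
        Gdw Λ (cc hn o.1.1 0) (cc hn o.1.1 1) (cc hn o.1.1 2) (b i) := by
  have hc : ({g | ContinuousAt (fun W => Λ {cc hn o.1.1 0} (cc hn o.1.1 1) W W) g ∧
      ContinuousAt (fun W => Λ {cc hn o.1.1 0, cc hn o.1.1 1} (cc hn o.1.1 2) W W) g} :
        Set ℝ)ᶜ.Countable := by
    refine ((Pool.OWN17.cnt_L H.toPk.lam {cc hn o.1.1 0} (cc hn o.1.1 1)).2.union
      (Pool.OWN17.cnt_L H.toPk.lam {cc hn o.1.1 0, cc hn o.1.1 1} (cc hn o.1.1 2)).2).mono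
        fun g hg => ?_
    by_contra hcon
    rw [mem_union, not_or] at hcon
    exact hg ⟨not_not.1 hcon.1, not_not.1 hcon.2⟩
  obtain ⟨b, hb, hbd⟩ := cdense hc
  refine ⟨b, fun i => (hb i).2, ?_⟩
  filter_upwards [ats_ae H hTop hF (by norm_num) o] with g hg hmem hs1 hs2
  have g0 : 0 < g := hmem.1.1.1
  have g1 : g < 1 := hmem.1.1.2.1
  obtain ⟨δ, hδ, h2⟩ := hg hmem hs1 hs2
  obtain ⟨i, hi1, hi2⟩ := hbd (max (g - δ) 0) g (le_max_right _ _)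
    (max_lt (by linarith) g0) g1.le
  obtain ⟨h3, h4⟩ := h2 (b i) (lt_of_le_of_lt (le_max_left _ _) hi1) hi2
  exact ⟨i, hi2, g1, (lev_lt' H.toPk hTop hF hmem (by norm_num)).le, h4, h3 (hb i).1.1 (hb i).1.2⟩

end Pool.SHE33
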