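import Pool.Agent.H33.SHE.Sht
import Pool.Agent.H3.SHE.Ts

/-!
# The supply of the second packages for the kinds `one, thin, sta`

`sup_t`, `lSheT`: the supplies `Pool.SHE3.SupT`, `Pool.SHE3.LSheT`.
-/

set_option autoImplicit false

namespace Pool.SHE33

open MeasureTheory Set Filter Topology
open Pool.Agent.H49.Ent Pool.Agent.H32.Dense Pool.STK Pool.KA Pool.KSAT Pool.K2S Pool.PB
open Pool.GEN Pool.S6C Pool.STAT Pool.CHT Pool.GRW Pool.ONE Pool.STA Pool.PKG Pool.EXW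
open Pool.ZCL Pool.ZLC Pool.ZCO Pool.ASM
open Pool.LBT (LSys ThrOf)
open Pool.ALL (RateOf)
open Pool.TOP (T1c T2c TopS Ful RW)
open Pool.AT66 (AtS ats_ae)
open Pool.OWN17 (Gdw)
open Pool.SHE3 (zs ShN SupT LSheT SlT zs_le)

variable {hn : 2 ≤ 4} {S : PCl 4} {P : ℝ → ℝ → ℝ} {r : ℝ → ℝ}
  {P' : ℕ → List (Fin 4) × Fin 4 → ℝ → ℝ → ℝ} {Λ : Finset (Fin 4) → Fin 4 → ℝ → ℝ → ℝ}
  {PB : ℕ → List (Fin 4) × Fin 4 → ℝ → ℝ → ℝ}

/-- **The supply of the second packages** for the slopes `φ`, one class. -/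
theorem sup_t {φ : (ℕ → ℝ) → Prop} (hφ : SlT φ) (H : PkT hn S P r P' Λ PB) (hTop : TopS 4)
    (hF : FZX (4 - 1)) (hZ : ∀ k, 1 ≤ k → k < 4 → FZX k) (hW : 3 ≤ 4 → Pool.TOP.RW (4 - 1))
    (h : ℝ) : SupT φ H hTop hF h := by
  intro o
  obtain ⟨b, hb, hg⟩ := win_ae H hTop hF o
  refine ⟨b, fun i => {g | b i < g ∧ g < 1 ∧ LvL hn P P' o 2 g g ≤ 1 ∧
    AtS S (cc hn o.1.1 0) (cc hn o.1.1 1) (cc hn o.1.1 2) (b i)
      (Λ {cc hn o.1.1 0, cc hn o.1.1 1} (cc hn o.1.1 2) (b i) (b i)) g (LvL hn P P' o 2 g g) ∧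
    Gdw Λ (cc hn o.1.1 0) (cc hn o.1.1 1) (cc hn o.1.1 2) (b i)}, fun i hi => ?_, ?_⟩
  · obtain ⟨g₀, hg₀⟩ := hi
    obtain ⟨Sb, Pb, rb, Pb', Λb, PBb, Hb, N, h1⟩ := she_setr H hTop hZ hW o (hb i).1 (hb i).2
      hg₀.2.2.2.2 (V := {g | b i < g ∧ g < 1 ∧ LvL hn P P' o 2 g g ≤ 1 ∧
        AtS S (cc hn o.1.1 0) (cc hn o.1.1 1) (cc hn o.1.1 2) (b i)
          (Λ {cc hn o.1.1 0, cc hn o.1.1 1} (cc hn o.1.1 2) (b i) (b i)) g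
          (LvL hn P P' o 2 g g) ∧
        Gdw Λ (cc hn o.1.1 0) (cc hn o.1.1 1) (cc hn o.1.1 2) (b i)}) ⟨g₀, hg₀⟩
      fun g hg => ⟨hg.1, hg.2.1, hg.2.2.1, hg.2.2.2.1⟩
    exact ⟨Sb, Pb, rb, Pb', Λb, PBb, Hb, N, fun w hw hbw hw1 w' hww' hw'1 =>
      h1 w hw w' w' hww' hw'1 (by linarith) hw'1⟩
  · filter_upwards [hg] with g hg R _ _ _ _ hφg _ _ _
    have s1 : 2 < deriv (fun a => LvL hn P P' o 1 a a) g := hφ.s1 _ hφg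
    have s2 : deriv (fun a => LvL hn P P' o 2 a a) g ≤ 2 := (hφ.s2 _ hφg).2
    obtain ⟨i, h1, h2⟩ := hg R.rwd.mem (by linarith) (by linarith)
    exact ⟨i, ⟨h1, h2⟩, h1⟩

/-- **The supply of the second packages** for the slopes `φ`, all classes. -/
theorem lSheT {φ : (ℕ → ℝ) → Prop} (hφ : SlT φ) : LSheT φ := fun hi =>
  Tol.of_all fun _ _ _ hn hZ hF hTop _ _ _ _ _ _ _ _ _ _ H => sup_t hφ H hTop hF hZ
    (fun _ => Pool.TOP.rw_all hZ (fun k k1 k2 => rowN_of_ext (hi k k1 k2)) 3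
      (by norm_num) (by norm_num)) _

/-- The supply for the slopes of the cell `one, thin, sta`. -/
theorem lSheT_ts : LSheT Pool.SHE3.SlTS := lSheT Pool.SHE3.slT_ts

end Pool.SHE33
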