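import Pool.Agent.H82.ZC.Fwd
import Pool.Agent.H33.SHE.Dat

/-!
# The substitution of the sheared zoom

`zph`: the point of the family as a function of the point of the sheared zoom. `zpo j Q`: the label
`Q` of the coordinate `j` as a label of the coordinate `j` of the zoom. `zpo_pos`: the distance of
the coordinate from the label. `zph_near`: the point of the family for the own point of the zoom.
-/

set_option autoImplicit false

namespace Pool.SHE33

open Finset Real MvPolynomial
open Pool.Agent.H49.Ent Pool.Agent.H32.Dense Pool.STK Pool.KA Pool.KSAT Pool.K2S Pool.PB Pool.S6C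
open Pool.GEN Pool.ZCL Pool.TOP Pool.ZLC

variable {m J : ℕ}

/-- The scale of the coordinate `j`: the sheared coordinate `q` is divided by `2 ^ M`. -/
def msc (q : Fin m) (M : ℕ) (j : Fin m) : ℕ := if j = q then M else 0

theorem msc_le (q : Fin m) (M : ℕ) (j : Fin m) : msc q M j ≤ M := by
  unfold msc
  split_ifs <;> omega

section

variable (W M : ℕ) (p q : Fin m) (τ c : ℝ) (cl vl : Fin m → ℝ)

/-- The coordinate `j` in units of `2 ^ (-W)`. -/
noncomputable def zc (j : Fin m) : MvPolynomial (Option (Fin m)) ℝ :=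
  X (some j) + MvPolynomial.C (cl j) + MvPolynomial.C (vl j) * X none

theorem eval_zc (b : Option (Fin m) → ℝ) (j : Fin m) :
    eval b (zc cl vl j) = b (some j) + cl j + vl j * b none := by
  unfold zc
  rw [map_add, map_add, map_mul, eval_C, eval_C, eval_X, eval_X]

theorem deg_zc (j : Fin m) : (zc cl vl j).totalDegree ≤ 1 := by
  unfold zc
  refine (totalDegree_add _ _).trans (max_le ((totalDegree_add _ _).trans (max_le ?_ ?_)) ?_)
  · rw [totalDegree_X]
  · rw [totalDegree_C]
    exact Nat.zero_le _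
  · refine (totalDegree_mul _ _).trans ?_
    rw [totalDegree_C, totalDegree_X]

/-- The point of the family as polynomials. -/
noncomputable def zsv : Option (Fin m) → MvPolynomial (Option (Fin m)) ℝ
  | none => MvPolynomial.C (1 / 2 ^ W) * (MvPolynomial.C τ + X none)
  | some j => MvPolynomial.C (2 ^ msc q M j / 2 ^ W) * zc cl vl j +
      if j = q then MvPolynomial.C (c / 2 ^ W) * zc cl vl p else 0

/-- The point of the family. -/
noncomputable def zph (b : Option (Fin m) → ℝ) : Option (Fin m) → ℝ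
  | none => (τ + b none) / 2 ^ W
  | some j => 2 ^ msc q M j / 2 ^ W * (b (some j) + cl j + vl j * b none) +
      if j = q then c / 2 ^ W * (b (some p) + cl p + vl p * b none) else 0

theorem eval_zsv (b : Option (Fin m) → ℝ) (o : Option (Fin m)) :
    eval b (zsv W M p q τ c cl vl o) = zph W M p q τ c cl vl b o := by
  rcases o with _ | j
  · unfold zsv zph
    rw [map_mul, map_add, eval_C, eval_C, eval_X]
    ring
  · unfold zsv zph
    simp only
    rw [map_add, map_mul, eval_C, eval_zc]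
    split_ifs
    · rw [map_mul, eval_C, eval_zc]
    · rw [map_zero]

theorem deg_zsv (o : Option (Fin m)) : (zsv W M p q τ c cl vl o).totalDegree ≤ 1 := by
  rcases o with _ | j
  · unfold zsv
    refine (totalDegree_mul _ _).trans ?_
    rw [totalDegree_C, zero_add]
    refine (totalDegree_add _ _).trans (max_le ?_ ?_)
    · rw [totalDegree_C]
      exact Nat.zero_le _
    · rw [totalDegree_X]
  · unfold zsv
    simp only
    refine (totalDegree_add _ _).trans (max_le ?_ ?_)
    · refine (totalDegree_mul _ _).trans ?_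
      rw [totalDegree_C, zero_add]
      exact deg_zc cl vl _
    · split_ifs
      · refine (totalDegree_mul _ _).trans ?_
        rw [totalDegree_C, zero_add]
        exact deg_zc cl vl _
      · rw [totalDegree_zero]
        exact Nat.zero_le _

/-- **The label of the coordinate `j` of the zoom.** -/
noncomputable def zpo (j : Fin m) (Q : MvPolynomial (Option (Fin m)) ℝ) :
    MvPolynomial (Option (Fin m)) ℝ :=
  MvPolynomial.C (2 ^ W / 2 ^ msc q M j) * (aeval (zsv W M p q τ c cl vl) Q -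
    if j = q then MvPolynomial.C (c / 2 ^ W) * zc cl vl p else 0) -
    (MvPolynomial.C (cl j) + MvPolynomial.C (vl j) * X none)

theorem eval_zpo (j : Fin m) (Q : MvPolynomial (Option (Fin m)) ℝ) (b : Option (Fin m) → ℝ) :
    eval b (zpo W M p q τ c cl vl j Q) = 2 ^ W / 2 ^ msc q M j *
      (eval (zph W M p q τ c cl vl b) Q -
        if j = q then c / 2 ^ W * (b (some p) + cl p + vl p * b none) else 0) -
      (cl j + vl j * b none) := by
  unfold zpo
  have e1 : (fun o => eval b (zsv W M p q τ c cl vl o)) = zph W M p q τ c cl vl b := by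
    funext o
    exact eval_zsv W M p q τ c cl vl b o
  rw [map_sub, map_mul, map_sub, eval_C, eval_aevalσ, map_add, map_mul, eval_C, eval_C, eval_X, e1]
  congr 3
  split_ifs
  · rw [map_mul, eval_C, eval_zc]
  · rw [map_zero]

theorem deg_zpo {K : ℕ} (j : Fin m) {Q : MvPolynomial (Option (Fin m)) ℝ}
    (hQ : Q.totalDegree ≤ K) : (zpo W M p q τ c cl vl j Q).totalDegree ≤ max K 1 := by
  unfold zpo
  refine (totalDegree_sub _ _).trans (max_le ?_ ?_)
  · refine (totalDegree_mul _ _).trans ?_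
    rw [totalDegree_C, zero_add]
    refine (totalDegree_sub _ _).trans (max_le ?_ ?_)
    · have h1 := totalDegree_aevalσ (g := zsv W M p q τ c cl vl) (deg_zsv W M p q τ c cl vl) hQ
      have := le_max_left K 1
      omega
    · split_ifs
      · refine (totalDegree_mul _ _).trans ?_
        rw [totalDegree_C, zero_add]
        exact (deg_zc cl vl _).trans (le_max_right _ _)
      · rw [totalDegree_zero]
        exact Nat.zero_le _
  · refine (totalDegree_add _ _).trans (max_le ?_ ?_)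
    · rw [totalDegree_C]
      exact Nat.zero_le _
    · refine (totalDegree_mul _ _).trans ?_
      rw [totalDegree_C, totalDegree_X]
      exact le_max_right _ _

/-- **The distance of the coordinate from the label.** -/
theorem zpo_pos (j : Fin m) (Q : MvPolynomial (Option (Fin m)) ℝ) (b : Option (Fin m) → ℝ) :
    b (some j) - eval b (zpo W M p q τ c cl vl j Q) = 2 ^ W / 2 ^ msc q M j *
      (zph W M p q τ c cl vl b (some j) - eval (zph W M p q τ c cl vl b) Q) := by
  rw [eval_zpo]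
  obtain ⟨E, hE⟩ : ∃ E, E = eval (zph W M p q τ c cl vl b) Q := ⟨_, rfl⟩
  rw [← hE]
  unfold zph
  simp only
  split_ifs <;> field_simp <;> ring

/-- The difference of two labels. -/
theorem zpo_sub (j : Fin m) (Q Q' : MvPolynomial (Option (Fin m)) ℝ)
    (b : Option (Fin m) → ℝ) :
    eval b (zpo W M p q τ c cl vl j Q) - eval b (zpo W M p q τ c cl vl j Q') =
      2 ^ W / 2 ^ msc q M j *
        (eval (zph W M p q τ c cl vl b) Q - eval (zph W M p q τ c cl vl b) Q') := by
  rw [eval_zpo, eval_zpo]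
  ring

/-- The label depends on the same coordinates. -/
theorem dep_zpo {ch : ℕ → Fin m} {i : ℕ} (hpq : ∀ l ≤ i, ch l = q → ∃ l' < l, ch l' = p)
    {Q : MvPolynomial (Option (Fin m)) ℝ} (hQ : DepC ch i Q) :
    DepC ch i (zpo W M p q τ c cl vl (ch i) Q) := by
  intro b b' h0 hb
  have hp : ∀ l ≤ i, ch l = q → b (some p) = b' (some p) := by
    intro l hl hlq
    obtain ⟨l', hl', h1⟩ := hpq l hl hlq
    rw [← h1]
    exact hb l' (by omega)
  have e1 : eval (zph W M p q τ c cl vl b) Q = eval (zph W M p q τ c cl vl b') Q := by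
    refine hQ _ _ ?_ fun l hl => ?_
    · unfold zph
      rw [h0]
    · unfold zph
      simp only
      rw [h0, hb l hl]
      by_cases h1 : ch l = q
      · rw [if_pos h1, if_pos h1, hp l hl.le h1]
      · rw [if_neg h1, if_neg h1]
  rw [eval_zpo, eval_zpo, e1, h0]
  by_cases h1 : ch i = q
  · rw [if_pos h1, if_pos h1, hp i le_rfl h1]
  · rw [if_neg h1, if_neg h1]

end

/-- The time of the family. -/
theorem zph_none {F : Fam m J} {W J' M : ℕ} (h : W + J' = J) {κ : Type} (C : Crd m κ)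
    (g : F.Ω → κ) (p q : Fin m) (c : ℝ) (cl vl : Fin m → ℝ) (b : Option (Fin m) → ℝ) (ω : F.Ω) :
    zph W M p q (F.T1 W ω) c cl vl b none =
      F.t ω + (b none - (zfc F W J' h.le C g id).t ω) / 2 ^ W := by
  rw [Pool.ZFW.zfc_t' F h C g id ω]
  unfold zph tb
  field_simp
  ring

/-- **The own point.** -/
theorem zph_near {F : Fam m J} {W J' : ℕ} (h : W + J' = J) {κ : Type}
    {cb : κ → Fin m → ℝ} {p q : Fin m} {hp : p ∉ ({q} : Finset (Fin m))} {M : Fin m → ℕ}
    (g : F.Ω → κ) (ω : F.Ω) (j : Fin m) :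
    |zph W (M q) p q (F.T1 W ω) (clp (M q) (cb (g ω) q))
      (fun i => (F.bcl W (shC cb p {q} hp M) g ω i : ℝ))
      (fun i => (F.bvl (shC cb p {q} hp M) g ω i : ℝ))
      (bt (zfc F W J' h.le (shC cb p {q} hp M) g id) ω) (some j) - F.x ω j| ≤
      6 * 2 ^ M q / 2 ^ J := by
  obtain ⟨C, hC⟩ : ∃ C : Crd m κ, C = shC cb p {q} hp M := ⟨_, rfl⟩
  rw [← hC]
  have hpq : p ≠ q := fun h => hp (Finset.mem_singleton.2 h)
  have pW : (0 : ℝ) < 2 ^ W := by positivity
  have pM : (1 : ℝ) ≤ 2 ^ M q := one_le_pow₀ one_le_two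
  have eJ : (2 : ℝ) ^ J = 2 ^ W * 2 ^ J' := by rw [← pow_add, h]
  -- a coordinate which is not sheared
  have key : ∀ i : Fin m, i ≠ q → |((zfc F W J' h.le C g id).x ω i +
      (F.bcl W C g ω i : ℝ) + (F.bvl C g ω i : ℝ) * (zfc F W J' h.le C g id).t ω) / 2 ^ W -
        F.x ω i| ≤ 3 / 2 ^ J := by
    intro i hi
    have h1 := zfc_x F h.le C g id ω i
    simp only [id_eq] at h1
    rw [hC, shC_not (by rw [Finset.mem_singleton]; exact hi), ← hC] at h1
    rw [Pool.ZFW.zfc_t' F h C g id ω, eJ]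
    have e1 : ((zfc F W J' h.le C g id).x ω i + (F.bcl W C g ω i : ℝ) +
        (F.bvl C g ω i : ℝ) * tb F W ω) / 2 ^ W - F.x ω i =
        ((zfc F W J' h.le C g id).x ω i - (2 ^ W * F.x ω i - (F.bcl W C g ω i : ℝ) -
          tb F W ω * (F.bvl C g ω i : ℝ))) / 2 ^ W := by
      field_simp
      ring
    rw [e1, abs_div, abs_of_pos pW, div_le_div_iff₀ pW (by positivity)]
    rw [le_div_iff₀ (by positivity)] at h1
    have h2 := mul_le_mul_of_nonneg_right h1 pW.le
    linarith
  have hkp := key p hpq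
  by_cases hj : j = q
  · subst hj
    have h1 := zfc_x F h.le C g id ω j
    simp only [id_eq] at h1
    rw [hC, shC_mem (Finset.mem_singleton_self j), ← hC] at h1
    rw [← Pool.ZFW.zfc_t' F h C g id ω] at h1
    unfold zph msc bt
    simp only [if_true]
    obtain ⟨cc, hcc⟩ : ∃ cc, cc = clp (M j) (cb (g ω) j) := ⟨_, rfl⟩
    have hcM : |cc| ≤ 2 ^ M j := by
      rw [hcc]
      exact clp_le _ _
    rw [← hcc] at h1 ⊢
    obtain ⟨X, hX⟩ : ∃ X, X = (zfc F W J' h.le C g id).x ω j := ⟨_, rfl⟩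
    obtain ⟨Y, hY⟩ : ∃ Y, Y = ((zfc F W J' h.le C g id).x ω p + (F.bcl W C g ω p : ℝ) +
      (F.bvl C g ω p : ℝ) * (zfc F W J' h.le C g id).t ω) / 2 ^ W := ⟨_, rfl⟩
    obtain ⟨t, ht⟩ : ∃ t, t = (zfc F W J' h.le C g id).t ω := ⟨_, rfl⟩
    rw [← hY] at hkp
    rw [← hX, ← ht] at h1
    show |2 ^ M j / 2 ^ W * ((zfc F W J' h.le C g id).x ω j + (F.bcl W C g ω j : ℝ) +
      (F.bvl C g ω j : ℝ) * (zfc F W J' h.le C g id).t ω) + cc / 2 ^ W *
      ((zfc F W J' h.le C g id).x ω p + (F.bcl W C g ω p : ℝ) +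
        (F.bvl C g ω p : ℝ) * (zfc F W J' h.le C g id).t ω) - F.x ω j| ≤ _
    have e2 : cc / 2 ^ W * ((zfc F W J' h.le C g id).x ω p + (F.bcl W C g ω p : ℝ) +
        (F.bvl C g ω p : ℝ) * (zfc F W J' h.le C g id).t ω) = cc * Y := by
      rw [hY]
      ring
    rw [e2, ← hX, ← ht]
    have e3 : 2 ^ M j / 2 ^ W * (X + (F.bcl W C g ω j : ℝ) + (F.bvl C g ω j : ℝ) * t) + cc * Y -
        F.x ω j = 2 ^ M j / 2 ^ W * (X - (2 ^ W * ((F.x ω j - cc * F.x ω p) / 2 ^ M j) -
          (F.bcl W C g ω j : ℝ) - t * (F.bvl C g ω j : ℝ))) + cc * (Y - F.x ω p) := by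
      field_simp
      ring
    rw [e3]
    refine (abs_add_le _ _).trans ?_
    have f1 : |2 ^ M j / 2 ^ W * (X - (2 ^ W * ((F.x ω j - cc * F.x ω p) / 2 ^ M j) -
          (F.bcl W C g ω j : ℝ) - t * (F.bvl C g ω j : ℝ)))| ≤ 3 * 2 ^ M j / 2 ^ J := by
      rw [abs_mul, abs_of_pos (by positivity : (0 : ℝ) < 2 ^ M j / 2 ^ W)]
      calc 2 ^ M j / 2 ^ W * |X - (2 ^ W * ((F.x ω j - cc * F.x ω p) / 2 ^ M j) -
            (F.bcl W C g ω j : ℝ) - t * (F.bvl C g ω j : ℝ))| ≤
            2 ^ M j / 2 ^ W * (3 / 2 ^ J') := mul_le_mul_of_nonneg_left h1 (by positivity)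
        _ = 3 * 2 ^ M j / 2 ^ J := by
            rw [eJ]
            field_simp
    have f2 : |cc * (Y - F.x ω p)| ≤ 3 * 2 ^ M j / 2 ^ J := by
      rw [abs_mul]
      calc |cc| * |Y - F.x ω p| ≤ 2 ^ M j * (3 / 2 ^ J) :=
            mul_le_mul hcM hkp (abs_nonneg _) (by positivity)
        _ = 3 * 2 ^ M j / 2 ^ J := by ring
    have e4 : 6 * (2 : ℝ) ^ M j / 2 ^ J = 3 * 2 ^ M j / 2 ^ J + 3 * 2 ^ M j / 2 ^ J := by ring
    rw [e4]
    exact add_le_add f1 f2
  · unfold zph msc bt
    simp only [if_neg hj]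
    show |2 ^ 0 / 2 ^ W * ((zfc F W J' h.le C g id).x ω j + (F.bcl W C g ω j : ℝ) +
      (F.bvl C g ω j : ℝ) * (zfc F W J' h.le C g id).t ω) + 0 - F.x ω j| ≤ _
    have e1 : (2 : ℝ) ^ 0 / 2 ^ W * ((zfc F W J' h.le C g id).x ω j + (F.bcl W C g ω j : ℝ) +
        (F.bvl C g ω j : ℝ) * (zfc F W J' h.le C g id).t ω) + 0 - F.x ω j =
        ((zfc F W J' h.le C g id).x ω j + (F.bcl W C g ω j : ℝ) +
          (F.bvl C g ω j : ℝ) * (zfc F W J' h.le C g id).t ω) / 2 ^ W - F.x ω j := by ring
    rw [e1]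
    refine (key j hj).trans (div_le_div_of_nonneg_right ?_ (by positivity))
    linarith

end Pool.SHE33
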